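import Pool.Agent.TH676.Z.Stm

set_option autoImplicit false
set_option linter.unusedSectionVars false

/-! # Prescribed nonzero values on a cut with three edges (Z3) -/

namespace Pool.Agent.TH676.Z

open Finset

namespace Three

variable {V E : Type} [Fintype V] [DecidableEq V] [Fintype E] [DecidableEq E]

theorem bd_add (src dst : E → V) (f g : E → ZMod 5) (v : V) :
    bd src dst (f + g) v = bd src dst f v + bd src dst g v := by
  unfold bd
  rw [← sum_add_distrib]
  refine sum_congr rfl fun e _ => ?_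
  simp only [Pi.add_apply]
  split_ifs <;> ring

theorem bd_smul (src dst : E → V) (a : ZMod 5) (f : E → ZMod 5) (v : V) :
    bd src dst (fun e => a * f e) v = a * bd src dst f v := by
  unfold bd
  rw [mul_sum]
  refine sum_congr rfl fun e _ => ?_
  split_ifs <;> ring

theorem bd_sum {ι : Type} (src dst : E → V) (s : Finset ι) (F : ι → E → ZMod 5) (v : V) :
    bd src dst (fun e => ∑ i ∈ s, F i e) v = ∑ i ∈ s, bd src dst (F i) v := by
  unfold bd
  rw [sum_comm]
  refine sum_congr rfl fun e _ => ?_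
  split_ifs <;> simp

/-- unit flows along walks -/
theorem path (src dst : E → V) (S : Finset E) {x y : V}
    (h : Relation.EqvGen (fun x y => ∃ e ∈ S, src e = x ∧ dst e = y) x y) :
    ∃ p : E → ZMod 5, (∀ e, e ∉ S → p e = 0) ∧
      ∀ v, bd src dst p v = (if x = v then 1 else 0) - (if y = v then 1 else 0) := by
  induction h with
  | rel x y h =>
    obtain ⟨e, he, rfl, rfl⟩ := h
    refine ⟨Pi.single e 1, fun e' he' => ?_, fun v => ?_⟩
    · exact Pi.single_eq_of_ne (fun h => he' (by rw [h]; exact he)) 1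
    · unfold bd
      rw [Finset.sum_eq_single e]
      · simp
      · intro b _ hb
        rw [Pi.single_eq_of_ne hb]
        simp
      · intro h1
        exact absurd (mem_univ e) h1
  | refl x => exact ⟨0, fun _ _ => rfl, fun v => by simp [bd]⟩
  | symm x y _ ih =>
    obtain ⟨p, h1, h2⟩ := ih
    refine ⟨fun e => -1 * p e, fun e he => by simp [h1 e he], fun v => ?_⟩
    rw [bd_smul, h2]
    ring
  | trans x y z _ _ ih1 ih2 =>
    obtain ⟨p, h1, h2⟩ := ih1
    obtain ⟨q, h3, h4⟩ := ih2
    refine ⟨p + q, fun e he => by simp [h1 e he, h3 e he], fun v => ?_⟩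
    rw [bd_add, h2, h4]
    ring

/-- the image of the boundary map -/
theorem img (src dst : E → V) (S : Finset E) (w : V → ZMod 5) (rep : V → V)
    (hrep : ∀ v, Relation.EqvGen (fun x y => ∃ e ∈ S, src e = x ∧ dst e = y) v (rep v))
    (h0 : ∀ x, ∑ v ∈ univ.filter (fun v => rep v = x), w v = 0) :
    ∃ q : E → ZMod 5, (∀ e, e ∉ S → q e = 0) ∧ ∀ v, bd src dst q v = w v := by
  choose p hp1 hp2 using fun v => path src dst S (hrep v)
  refine ⟨fun e => ∑ v, w v * p v e, fun e he => ?_, fun u => ?_⟩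
  · exact sum_eq_zero fun v _ => by rw [hp1 v e he, mul_zero]
  · rw [bd_sum]
    have h1 : ∀ v, bd src dst (fun e => w v * p v e) u =
        w v * (if v = u then 1 else 0) - w v * (if rep v = u then 1 else 0) := by
      intro v
      rw [bd_smul, hp2]
      ring
    rw [sum_congr rfl (fun v _ => h1 v), sum_sub_distrib]
    have h2 : ∑ v, w v * (if rep v = u then (1 : ZMod 5) else 0) = 0 := by
      have h3 := h0 u
      rw [sum_filter] at h3
      refine Eq.trans ?_ h3
      refine sum_congr rfl fun v _ => ?_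
      split_ifs
      · rw [mul_one]
      · rw [mul_zero]
    rw [h2]
    simp

/-- the sum of the boundary over a set -/
theorem sum_bd (src dst : E → V) (g : E → ZMod 5) (Z : Finset V) :
    ∑ v ∈ Z, bd src dst g v =
      ∑ e, g e * ((if src e ∈ Z then 1 else 0) - (if dst e ∈ Z then 1 else 0)) := by
  unfold bd
  rw [sum_comm]
  refine sum_congr rfl fun e _ => ?_
  rw [sum_sub_distrib, sum_ite_eq, sum_ite_eq]
  split_ifs <;> ring

theorem three_set {K A : Finset E} (hK : K.card = 3) (hA : A ⊆ K) (x : E → ZMod 5)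
    (hx : ∀ e ∈ K, x e ≠ 0) (h1 : ∑ e ∈ K, x e = 0) (h2 : ∑ e ∈ A, x e = 0) : A = ∅ ∨ A = K := by
  have hc := card_le_card hA
  rcases (by omega : A.card = 0 ∨ A.card = 1 ∨ A.card = 2 ∨ A.card = 3) with h | h | h | h
  · exact Or.inl (card_eq_zero.1 h)
  · obtain ⟨a, rfl⟩ := card_eq_one.1 h
    rw [sum_singleton] at h2
    exact absurd h2 (hx a (hA (mem_singleton_self a)))
  · have h3 : (K \ A).card = 1 := by
      rw [card_sdiff_of_subset hA]
      omega
    obtain ⟨a, ha⟩ := card_eq_one.1 h3
    have h4 := sum_sdiff hA (f := x)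
    rw [h2, add_zero, h1, ha, sum_singleton] at h4
    have h5 : a ∈ K \ A := by
      rw [ha]
      exact mem_singleton_self a
    exact absurd h4 (hx a (mem_sdiff.1 h5).1)
  · exact Or.inr (eq_of_subset_of_card_le hA (by omega))

/-- the signed value -/
def sg (src : E → V) (Y : Finset V) (c : E → ZMod 5) (e : E) : ZMod 5 :=
  if src e ∈ Y then c e else - c e

theorem mem_crs {src dst : E → V} {Y : Finset V} {e : E} :
    e ∈ crs src dst Y ↔ ¬ (src e ∈ Y ↔ dst e ∈ Y) := by
  unfold crs
  rw [mem_filter]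
  exact ⟨fun h => h.2, fun h => ⟨mem_univ e, h⟩⟩

theorem cut_sum (src dst : E → V) (Y Z : Finset V) (hZ : Z ⊆ Y) (c : E → ZMod 5) :
    ∑ e ∈ crs src dst Y, c e * ((if src e ∈ Z then 1 else 0) - (if dst e ∈ Z then 1 else 0)) =
      ∑ e ∈ (crs src dst Y).filter (fun e => src e ∈ Z ∨ dst e ∈ Z), sg src Y c e := by
  rw [sum_filter]
  refine sum_congr rfl fun e he => ?_
  rw [mem_crs] at he
  unfold sg
  by_cases h1 : src e ∈ Y
  · have h2 : dst e ∉ Y := fun h => he ⟨fun _ => h, fun _ => h1⟩
    have h3 : dst e ∉ Z := fun h => h2 (hZ h)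
    by_cases h4 : src e ∈ Z <;> simp [h1, h3, h4]
  · have h3 : src e ∉ Z := fun h => h1 (hZ h)
    by_cases h4 : dst e ∈ Z <;> simp [h1, h3, h4]

/-- existence of flows with other values on the cut -/
theorem ext {src dst : E → V} {Y : Finset V} (hK : (crs src dst Y).card = 3) (S : Finset E)
    (hS : ∀ e ∈ S, src e ∈ Y ∧ dst e ∈ Y) (c c' : E → ZMod 5) (hc : ∀ e ∈ crs src dst Y, c e ≠ 0)
    (hs : ∑ e ∈ crs src dst Y, sg src Y c e = 0) (hs' : ∑ e ∈ crs src dst Y, sg src Y c' e = 0)
    (g : E → ZMod 5) (hg1 : ∀ e ∈ crs src dst Y, g e = c e)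
    (hg2 : ∀ e, e ∉ crs src dst Y → e ∉ S → g e = 0) (hg3 : ∀ v ∈ Y, bd src dst g v = 0) :
    ∃ h : E → ZMod 5, (∀ e ∈ crs src dst Y, h e = c' e) ∧
      (∀ e, e ∉ crs src dst Y → e ∉ S → h e = 0) ∧ ∀ v ∈ Y, bd src dst h v = 0 := by
  classical
  let r : V → V → Prop := fun x y => ∃ e ∈ S, src e = x ∧ dst e = y
  let st : Setoid V := Relation.EqvGen.setoid r
  let rep : V → V := fun v => (Quotient.mk st v).out
  have hrep : ∀ v, Relation.EqvGen r v (rep v) := fun v =>
    Relation.EqvGen.symm _ _ (Quotient.mk_out (s := st) v)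
  have heq : ∀ e ∈ S, rep (src e) = rep (dst e) := by
    intro e he
    have h1 : Quotient.mk st (src e) = Quotient.mk st (dst e) :=
      Quotient.sound (Relation.EqvGen.rel _ _ ⟨e, he, rfl, rfl⟩)
    show (Quotient.mk st (src e)).out = (Quotient.mk st (dst e)).out
    rw [h1]
  let k : E → ZMod 5 := fun e => if e ∈ crs src dst Y then c' e else 0
  let w : V → ZMod 5 := fun v => if v ∈ Y then - bd src dst k v else 0
  have hw : ∀ x, ∑ v ∈ univ.filter (fun v => rep v = x), w v = 0 := by
    intro x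
    set Z : Finset V := Y.filter (fun v => rep v = x) with hZd
    have hZY : Z ⊆ Y := filter_subset _ _
    have h1 : ∑ v ∈ univ.filter (fun v => rep v = x), w v = - ∑ v ∈ Z, bd src dst k v := by
      rw [← sum_neg_distrib, hZd, sum_filter, sum_filter]
      rw [← sum_subset (subset_univ Y)]
      · refine sum_congr rfl fun v hv => ?_
        by_cases h2 : rep v = x
        · rw [if_pos h2, if_pos h2]
          exact if_pos hv
        · rw [if_neg h2, if_neg h2]
      · intro v _ hv
        have : w v = 0 := if_neg hv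
        rw [this]
        exact ite_self 0
    have hS0 : ∀ e ∈ S, ((if src e ∈ Z then (1 : ZMod 5) else 0) - (if dst e ∈ Z then 1 else 0)) = 0 := by
      intro e he
      have h2 : src e ∈ Z ↔ dst e ∈ Z := by
        rw [hZd, mem_filter, mem_filter, heq e he]
        exact ⟨fun h => ⟨(hS e he).2, h.2⟩, fun h => ⟨(hS e he).1, h.2⟩⟩
      by_cases h3 : src e ∈ Z
      · rw [if_pos h3, if_pos (h2.1 h3), sub_self]
      · rw [if_neg h3, if_neg (fun h => h3 (h2.2 h)), sub_self]
    have hg : ∑ e ∈ crs src dst Y, c e *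
        ((if src e ∈ Z then 1 else 0) - (if dst e ∈ Z then 1 else 0)) = 0 := by
      have h2 : ∑ v ∈ Z, bd src dst g v = 0 := sum_eq_zero fun v hv => hg3 v (hZY hv)
      rw [sum_bd] at h2
      refine Eq.trans ?_ h2
      rw [← sum_subset (subset_univ (crs src dst Y))]
      · exact sum_congr rfl fun e he => by rw [hg1 e he]
      · intro e _ he
        by_cases h3 : e ∈ S
        · rw [hS0 e h3, mul_zero]
        · rw [hg2 e he h3, zero_mul]
    have hk : ∑ v ∈ Z, bd src dst k v = ∑ e ∈ crs src dst Y, c' e *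
        ((if src e ∈ Z then 1 else 0) - (if dst e ∈ Z then 1 else 0)) := by
      rw [sum_bd, ← sum_subset (subset_univ (crs src dst Y))]
      · refine sum_congr rfl fun e he => ?_
        have : k e = c' e := if_pos he
        rw [this]
      · intro e _ he
        have : k e = 0 := if_neg he
        rw [this, zero_mul]
    rw [cut_sum src dst Y Z hZY c] at hg
    rw [h1, hk, cut_sum src dst Y Z hZY c', neg_eq_zero]
    have hne : ∀ e ∈ crs src dst Y, sg src Y c e ≠ 0 := by
      intro e he
      unfold sg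
      split_ifs
      · exact hc e he
      · exact neg_ne_zero.2 (hc e he)
    rcases three_set hK (filter_subset _ _) (sg src Y c) hne hs hg with h2 | h2
    · rw [h2, sum_empty]
    · rw [h2, hs']
  obtain ⟨q, hq1, hq2⟩ := img src dst S w rep hrep hw
  refine ⟨k + q, fun e he => ?_, fun e he he' => ?_, fun v hv => ?_⟩
  · have h1 : e ∉ S := by
      intro h
      rw [mem_crs] at he
      exact he ⟨fun _ => (hS e h).2, fun _ => (hS e h).1⟩
    show k e + q e = c' e
    rw [hq1 e h1, add_zero]
    exact if_pos he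
  · show k e + q e = 0
    rw [hq1 e he', add_zero]
    exact if_neg he
  · rw [bd_add, hq2]
    have : w v = - bd src dst k v := if_pos hv
    rw [this, add_neg_cancel]

open Classical in
/-- the flows inside `Y` with the values `c` on the cut, zero on `D` and nonzero on `R` -/
noncomputable def TT (src dst : E → V) (Y : Finset V) (R D : Finset E) (c : E → ZMod 5) :
    Finset (E → ZMod 5) :=
  univ.filter (fun g => (∀ e ∈ crs src dst Y, g e = c e) ∧
    (∀ e, e ∉ crs src dst Y → ¬ (src e ∈ Y ∧ dst e ∈ Y) → g e = 0) ∧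
    (∀ v ∈ Y, bd src dst g v = 0) ∧ (∀ e ∈ D, e ∉ crs src dst Y → g e = 0) ∧ ∀ e ∈ R, g e ≠ 0)

theorem mem_TT {src dst : E → V} {Y : Finset V} {R D : Finset E} {c g : E → ZMod 5} :
    g ∈ TT src dst Y R D c ↔ (∀ e ∈ crs src dst Y, g e = c e) ∧
    (∀ e, e ∉ crs src dst Y → ¬ (src e ∈ Y ∧ dst e ∈ Y) → g e = 0) ∧
    (∀ v ∈ Y, bd src dst g v = 0) ∧ (∀ e ∈ D, e ∉ crs src dst Y → g e = 0) ∧ ∀ e ∈ R, g e ≠ 0 := by
  classical
  unfold TT
  rw [mem_filter]
  exact ⟨fun h => h.2, fun h => ⟨mem_univ g, h⟩⟩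

theorem M_le {src dst : E → V} {Y : Finset V} (hK : (crs src dst Y).card = 3)
    (c c' : E → ZMod 5) (hc : ∀ e ∈ crs src dst Y, c e ≠ 0)
    (hs : ∑ e ∈ crs src dst Y, sg src Y c e = 0) (hs' : ∑ e ∈ crs src dst Y, sg src Y c' e = 0)
    (D : Finset E) : (TT src dst Y ∅ D c).card ≤ (TT src dst Y ∅ D c').card := by
  classical
  rcases (TT src dst Y ∅ D c).eq_empty_or_nonempty with h0 | ⟨g0, hg0⟩
  · rw [h0, card_empty]
    exact Nat.zero_le _
  · rw [mem_TT] at hg0
    obtain ⟨a1, a2, a3, a4, -⟩ := hg0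
    obtain ⟨h, b1, b2, b3⟩ := ext hK (univ.filter (fun e => (src e ∈ Y ∧ dst e ∈ Y) ∧ e ∉ D))
      (fun e he => (mem_filter.1 he).2.1) c c' hc hs hs' g0 a1 (fun e he he' => by
        by_cases h1 : src e ∈ Y ∧ dst e ∈ Y
        · have h2 : e ∈ D := by
            by_contra h3
            exact he' (mem_filter.2 ⟨mem_univ e, h1, h3⟩)
          exact a4 e h2 he
        · exact a2 e he h1) a3
    apply card_le_card_of_injOn (fun g => g + (fun e => h e + -1 * g0 e))
    · intro g hg
      rw [mem_coe, mem_TT] at hg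
      obtain ⟨c1, c2, c3, c4, -⟩ := hg
      rw [mem_coe, mem_TT]
      refine ⟨fun e he => ?_, fun e he he' => ?_, fun v hv => ?_, fun e he he' => ?_,
        fun e he => absurd he (notMem_empty e)⟩
      · show g e + (h e + -1 * g0 e) = c' e
        rw [c1 e he, b1 e he, a1 e he]
        ring
      · show g e + (h e + -1 * g0 e) = 0
        rw [c2 e he he', b2 e he (fun h1 => he' (mem_filter.1 h1).2.1), a2 e he he']
        ring
      · show bd src dst (g + (fun e => h e + -1 * g0 e)) v = 0
        have e1 : (fun e => h e + -1 * g0 e) = h + (fun e => -1 * g0 e) := rfl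
        rw [e1, bd_add, bd_add, bd_smul, c3 v hv, b3 v hv, a3 v hv]
        ring
      · show g e + (h e + -1 * g0 e) = 0
        rw [c4 e he he', b2 e he' (fun h1 => (mem_filter.1 h1).2.2 he), a4 e he he']
        ring
    · intro g _ g' _ hgg
      exact add_right_cancel hgg

theorem N_split {src dst : E → V} {Y : Finset V} (R D : Finset E) (e0 : E)
    (he0 : e0 ∉ crs src dst Y) (c : E → ZMod 5) :
    (TT src dst Y R D c).card = (TT src dst Y (insert e0 R) D c).card +
      (TT src dst Y R (insert e0 D) c).card := by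
  classical
  rw [← card_union_of_disjoint]
  · congr 1
    ext g
    rw [mem_union, mem_TT, mem_TT, mem_TT]
    constructor
    · rintro ⟨h1, h2, h3, h4, h5⟩
      by_cases h6 : g e0 = 0
      · right
        refine ⟨h1, h2, h3, fun e he he' => ?_, h5⟩
        rcases mem_insert.1 he with rfl | h7
        · exact h6
        · exact h4 e h7 he'
      · left
        refine ⟨h1, h2, h3, h4, fun e he => ?_⟩
        rcases mem_insert.1 he with rfl | h7
        · exact h6
        · exact h5 e h7
    · rintro (⟨h1, h2, h3, h4, h5⟩ | ⟨h1, h2, h3, h4, h5⟩)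
      · exact ⟨h1, h2, h3, h4, fun e he => h5 e (mem_insert_of_mem he)⟩
      · exact ⟨h1, h2, h3, fun e he he' => h4 e (mem_insert_of_mem he) he', h5⟩
  · rw [Finset.disjoint_left]
    intro g h1 h2
    rw [mem_TT] at h1 h2
    exact h1.2.2.2.2 e0 (mem_insert_self e0 R) (h2.2.2.2.1 e0 (mem_insert_self e0 D) he0)

theorem N_eq {src dst : E → V} {Y : Finset V} (hK : (crs src dst Y).card = 3)
    (c c' : E → ZMod 5) (hc : ∀ e ∈ crs src dst Y, c e ≠ 0) (hc' : ∀ e ∈ crs src dst Y, c' e ≠ 0)
    (hs : ∑ e ∈ crs src dst Y, sg src Y c e = 0) (hs' : ∑ e ∈ crs src dst Y, sg src Y c' e = 0)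
    (R : Finset E) : (∀ e ∈ R, e ∉ crs src dst Y) → ∀ D : Finset E,
    (TT src dst Y R D c).card = (TT src dst Y R D c').card := by
  classical
  induction R using Finset.induction_on with
  | empty =>
    intro _ D
    exact le_antisymm (M_le hK c c' hc hs hs' D) (M_le hK c' c hc' hs' hs D)
  | insert e0 R _ ih =>
    intro hR D
    have h1 := N_split (src := src) (dst := dst) (Y := Y) R D e0 (hR e0 (mem_insert_self e0 R)) c
    have h2 := N_split (src := src) (dst := dst) (Y := Y) R D e0 (hR e0 (mem_insert_self e0 R)) c'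
    have h3 := ih (fun e he => hR e (mem_insert_of_mem he)) D
    have h4 := ih (fun e he => hR e (mem_insert_of_mem he)) (insert e0 D)
    omega

end Three

open Three in
/-- **Z3** -/
theorem three : St_three := by
  intro V E _ _ _ _ src dst Y hK f hf1 hf2 c hc hcs
  classical
  set S0 : Finset E := univ.filter (fun e => src e ∈ Y ∧ dst e ∈ Y) with hS0
  have hS0K : ∀ e ∈ S0, e ∉ crs src dst Y := by
    intro e he he'
    rw [mem_crs] at he'
    have := (mem_filter.1 he).2
    exact he' ⟨fun _ => this.2, fun _ => this.1⟩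
  have hfK : ∀ e ∈ crs src dst Y, f e ≠ 0 := by
    intro e he
    rw [mem_crs] at he
    apply hf2
    by_contra h
    push Not at h
    exact he ⟨fun h1 => absurd h1 h.1, fun h1 => absurd h1 h.2⟩
  have hfs : ∑ e ∈ crs src dst Y, sg src Y f e = 0 := by
    have h1 : ∑ v ∈ Y, bd src dst f v = 0 := sum_eq_zero fun v hv => hf1 v hv
    rw [sum_bd] at h1
    have h2 := cut_sum src dst Y Y (subset_refl Y) f
    have h3 : (crs src dst Y).filter (fun e => src e ∈ Y ∨ dst e ∈ Y) = crs src dst Y := by
      rw [filter_eq_self]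
      intro e he
      rw [mem_crs] at he
      by_contra h
      push Not at h
      exact he ⟨fun h1 => absurd h1 h.1, fun h1 => absurd h1 h.2⟩
    rw [h3] at h2
    rw [← h2]
    refine Eq.trans ?_ h1
    rw [← sum_subset (subset_univ (crs src dst Y))]
    intro e _ he
    rw [mem_crs, not_not] at he
    by_cases h4 : src e ∈ Y
    · rw [if_pos h4, if_pos (he.1 h4), sub_self, mul_zero]
    · rw [if_neg h4, if_neg (fun h => h4 (he.2 h)), sub_self, mul_zero]
  have hcs' : ∑ e ∈ crs src dst Y, sg src Y c e = 0 := hcs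
  have key := N_eq hK f c hfK hc hfs hcs' S0 hS0K ∅
  have hmem : (fun e => if src e ∈ Y ∨ dst e ∈ Y then f e else 0) ∈ TT src dst Y S0 ∅ f := by
    rw [mem_TT]
    refine ⟨fun e he => ?_, fun e he he' => ?_, fun v hv => ?_,
      fun e he => absurd he (notMem_empty e), fun e he => ?_⟩
    · rw [mem_crs] at he
      apply if_pos
      by_contra h
      push Not at h
      exact he ⟨fun h1 => absurd h1 h.1, fun h1 => absurd h1 h.2⟩
    · rw [mem_crs, not_not] at he
      apply if_neg
      rintro (h | h)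
      · exact he' ⟨h, he.1 h⟩
      · exact he' ⟨he.2 h, h⟩
    · rw [← hf1 v hv]
      unfold bd
      refine sum_congr rfl fun e _ => ?_
      by_cases h3 : src e = v
      · have : src e ∈ Y := h3 ▸ hv
        simp [this]
      · by_cases h4 : dst e = v
        · have : dst e ∈ Y := h4 ▸ hv
          simp [this]
        · simp [h3, h4]
    · have h1 := (mem_filter.1 he).2
      show (if src e ∈ Y ∨ dst e ∈ Y then f e else 0) ≠ 0
      rw [if_pos (Or.inl h1.1)]
      exact hf2 e (Or.inl h1.1)
  have hpos : 0 < (TT src dst Y S0 ∅ c).card := by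
    rw [← key]
    exact card_pos.2 ⟨_, hmem⟩
  obtain ⟨g, hg⟩ := card_pos.1 hpos
  rw [mem_TT] at hg
  obtain ⟨h1, -, h3, -, h5⟩ := hg
  refine ⟨g, h3, fun e he => ?_, h1⟩
  by_cases h6 : e ∈ crs src dst Y
  · rw [h1 e h6]
    exact hc e h6
  · apply h5
    rw [hS0, mem_filter]
    rw [mem_crs, not_not] at h6
    refine ⟨mem_univ e, ?_⟩
    rcases he with h | h
    · exact ⟨h, h6.1 h⟩
    · exact ⟨h6.2 h, h⟩

end Pool.Agent.TH676.Z
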