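import Pool.Agent.TH676.Z.Crit
import Pool.Agent.TH676.Z.Three

set_option autoImplicit false
set_option linter.unusedSectionVars false

/-! # Short circuits are reducible -/

namespace Pool.Agent.TH676.Z.CircB

open Finset

variable {V E : Type} [Fintype V] [DecidableEq V] [Fintype E] [DecidableEq E]
variable {src dst : E → V} {k : ℕ} {v : Fin (k + 2) → V} {ed : Fin (k + 2) → E}

theorem mem_crs {Y : Finset V} {e : E} :
    e ∈ crs src dst Y ↔ ¬ (src e ∈ Y ↔ dst e ∈ Y) := by simp [crs]

/-- the circulation along the circuit -/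
def cc (src : E → V) (v : Fin (k + 2) → V) (ed : Fin (k + 2) → E) : E → ZMod 5 :=
  fun e => ∑ i, if e = ed i then (if src (ed i) = v i then 1 else -1) else 0

theorem cc_ed (hed : Function.Injective ed) (i : Fin (k + 2)) :
    cc src v ed (ed i) = if src (ed i) = v i then 1 else -1 := by
  unfold cc
  rw [sum_eq_single i]
  · rw [if_pos rfl]
  · intro b _ hb
    rw [if_neg (fun h => hb (hed h).symm)]
  · intro h; exact absurd (mem_univ i) h

theorem cc_off {e : E} (h : ∀ i, e ≠ ed i) : cc src v ed e = 0 := by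
  unfold cc
  exact sum_eq_zero fun i _ => if_neg (h i)

theorem succ_ne (hv : Function.Injective v) (i : Fin (k + 2)) : v i ≠ v (i + 1) := by
  intro h
  have h1 := hv h
  have h2 : (1 : Fin (k + 2)) = 0 := by
    have := congrArg (fun j => j - i) h1
    simpa using this.symm
  exact absurd h2 (by simp)

theorem bd_cc (hv : Function.Injective v)
    (hJ : ∀ i, Jn src dst (ed i) (v i) (v (i + 1))) (x : V) :
    bd src dst (cc src v ed) x = 0 := by
  unfold bd
  have h1 : ∀ e, ((if src e = x then cc src v ed e else 0) - (if dst e = x then cc src v ed e else 0))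
      = ∑ i, if e = ed i then ((if v i = x then (1 : ZMod 5) else 0) -
        (if v (i + 1) = x then 1 else 0)) else 0 := by
    intro e
    unfold cc
    have h2 : (if src e = x then ∑ i, (if e = ed i then (if src (ed i) = v i then (1 : ZMod 5) else -1) else 0) else 0)
        = ∑ i, (if src e = x then (if e = ed i then (if src (ed i) = v i then (1 : ZMod 5) else -1) else 0) else 0) := by
      split_ifs
      · rfl
      · simp
    have h3 : (if dst e = x then ∑ i, (if e = ed i then (if src (ed i) = v i then (1 : ZMod 5) else -1) else 0) else 0)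
        = ∑ i, (if dst e = x then (if e = ed i then (if src (ed i) = v i then (1 : ZMod 5) else -1) else 0) else 0) := by
      split_ifs
      · rfl
      · simp
    rw [h2, h3, ← sum_sub_distrib]
    refine sum_congr rfl fun i _ => ?_
    by_cases he : e = ed i
    · subst he
      simp only [if_true]
      have hn := succ_ne hv i
      rcases hJ i with ⟨a, b⟩ | ⟨a, b⟩
      · rw [a, b, if_pos rfl]
      · rw [a, b, if_neg hn.symm]
        by_cases h4 : v i = x <;> by_cases h5 : v (i + 1) = x <;> simp [h4, h5]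
    · simp [he]
  rw [sum_congr rfl (fun e _ => h1 e), sum_comm]
  have h4 : ∀ i, (∑ e, if e = ed i then ((if v i = x then (1 : ZMod 5) else 0) -
        (if v (i + 1) = x then 1 else 0)) else 0) = (if v i = x then (1 : ZMod 5) else 0) -
        (if v (i + 1) = x then 1 else 0) := by
    intro i
    rw [sum_ite_eq']
    simp
  rw [sum_congr rfl (fun i _ => h4 i), sum_sub_distrib, sub_eq_zero]
  exact (Equiv.sum_comp (Equiv.addRight (1 : Fin (k + 2))) (fun i => if v i = x then (1 : ZMod 5) else 0)).symm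

theorem core (hM : MinCx src dst) (hv : Function.Injective v) (hed : Function.Injective ed)
    (hJ : ∀ i, Jn src dst (ed i) (v i) (v (i + 1))) (S : Finset (Fin (k + 2)))
    (hbr : Br src dst (S.image ed) (Sᶜ.image ed))
    (hcard : ∀ g : Fin (k + 2) → ZMod 5, (∀ i ∈ S, g i = 0) → (univ.image g).card ≤ 4) : False := by
  obtain ⟨f, f1, f2, f3⟩ := hM.crit (S.image ed) (Sᶜ.image ed) (by
    rw [disjoint_left]
    intro e h1 h2
    rw [mem_image] at h1 h2
    obtain ⟨i, hi, rfl⟩ := h1
    obtain ⟨j, hj, hij⟩ := h2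
    rw [hed hij] at hj
    exact (mem_compl.mp hj) hi) (by
    refine ⟨ed 0, ?_, ?_⟩
    · by_cases h : (0 : Fin (k + 2)) ∈ S
      · exact mem_union_left _ (mem_image_of_mem _ h)
      · exact mem_union_right _ (mem_image_of_mem _ (mem_compl.mpr h))
    · have := succ_ne hv 0
      rcases hJ 0 with ⟨a, b⟩ | ⟨a, b⟩
      · rw [a, b]; exact this
      · rw [a, b]; exact this.symm) hbr
  have hcc : ∀ i, cc src v ed (ed i) ≠ 0 := by
    intro i
    rw [cc_ed hed]
    split_ifs
    · exact (by decide : (1 : ZMod 5) ≠ 0)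
    · exact (by decide : (-1 : ZMod 5) ≠ 0)
  haveI : Fact (Nat.Prime 5) := ⟨by norm_num⟩
  obtain ⟨x, hx⟩ : ∃ x : ZMod 5, x ∉ univ.image (fun i => - f (ed i) * (cc src v ed (ed i))⁻¹) := by
    by_contra hc
    push Not at hc
    have h1 : (univ : Finset (ZMod 5)) ⊆ univ.image (fun i => - f (ed i) * (cc src v ed (ed i))⁻¹) :=
      fun y _ => hc y
    have h2 := card_le_card h1
    have h3 := hcard (fun i => - f (ed i) * (cc src v ed (ed i))⁻¹) (by
      intro i hi
      change - f (ed i) * (cc src v ed (ed i))⁻¹ = 0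
      rw [f2 _ (mem_image_of_mem _ hi)]; simp)
    have h4 : (univ : Finset (ZMod 5)).card = 5 := by decide
    omega
  refine hM.nf ⟨fun e => f e + x * cc src v ed e, fun w => ?_, fun e he => absurd he (notMem_empty _),
    fun e _ _ => ?_⟩
  · have h1 := Three.bd_smul src dst x (cc src v ed) w
    have h2 := Three.bd_add src dst f (fun e => x * cc src v ed e) w
    have h3 : (f + fun e => x * cc src v ed e) = fun e => f e + x * cc src v ed e := rfl
    rw [h3] at h2
    rw [h2, h1, f1 w, bd_cc hv hJ w]; simp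
  · by_cases he : ∃ i, e = ed i
    · obtain ⟨i, rfl⟩ := he
      intro h0
      refine hx (mem_image.mpr ⟨i, mem_univ _, ?_⟩)
      change - f (ed i) * (cc src v ed (ed i))⁻¹ = x
      have h1 : - f (ed i) = x * cc src v ed (ed i) := by
        have h0' : f (ed i) + x * cc src v ed (ed i) = 0 := h0
        linear_combination -h0'
      rw [h1, mul_assoc, mul_inv_cancel₀ (hcc i), mul_one]
    · push Not at he
      change f e + x * cc src v ed e ≠ 0
      rw [cc_off he, mul_zero, add_zero]
      refine f3 e ?_ ?_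
      · intro h
        rw [mem_image] at h
        obtain ⟨i, _, hi⟩ := h
        exact he i hi.symm
      · intro h
        rw [mem_image] at h
        obtain ⟨i, _, hi⟩ := h
        exact he i hi.symm

theorem nis (hv : Function.Injective v)
    (hJ : ∀ i, Jn src dst (ed i) (v i) (v (i + 1))) (i : Fin (k + 2)) : Nis src dst (v i) := by
  have := succ_ne hv i
  rcases hJ i with ⟨a, b⟩ | ⟨a, b⟩
  · exact ⟨ed i, by rw [a, b]; exact this, Or.inl a⟩
  · exact ⟨ed i, by rw [a, b]; exact this.symm, Or.inr b⟩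

theorem cross (hJ : ∀ i, Jn src dst (ed i) (v i) (v (i + 1))) (Y : Finset V) (i : Fin (k + 2)) :
    ed i ∈ crs src dst Y ↔ ¬ (v i ∈ Y ↔ v (i + 1) ∈ Y) := by
  rw [mem_crs]
  rcases hJ i with ⟨a, b⟩ | ⟨a, b⟩
  · rw [a, b]
  · rw [a, b]; exact not_congr iff_comm

/-- the case of circuits with at most four edges -/
theorem small (hM : MinCx src dst) (hk : k ≤ 2) (hv : Function.Injective v)
    (hed : Function.Injective ed) (hJ : ∀ i, Jn src dst (ed i) (v i) (v (i + 1))) : False := by
  refine core hM hv hed hJ ∅ ?_ ?_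
  · intro Y _
    have := hM.br Y (disjoint_empty_right _)
    simpa using this
  · intro g _
    refine card_image_le.trans ?_
    rw [card_univ, Fintype.card_fin]
    omega

/-- a cut with one edge outside `D` -/
theorem br_of (hM : MinCx src dst) {D : Finset E} {Y : Finset V} (h1 : (crs src dst Y \ D).card = 1)
    (h0 : ∀ e ∈ crs src dst Y, e ∉ D) : False := by
  have h2 : crs src dst Y \ D = crs src dst Y := by
    ext e
    rw [mem_sdiff]
    exact ⟨fun h => h.1, fun h => ⟨h, h0 e h⟩⟩
  rw [h2] at h1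
  have := hM.br Y (disjoint_empty_right _)
  rw [sdiff_empty] at this
  exact this h1

theorem le3 {D : Finset E} {Y : Finset V} (h1 : (crs src dst Y \ D).card = 1) {a b : E}
    (h0 : ∀ e ∈ crs src dst Y, e ∈ D → e = a ∨ e = b) : (crs src dst Y).card ≤ 3 := by
  have hsub : crs src dst Y ⊆ (crs src dst Y \ D) ∪ {a, b} := by
    intro e he
    by_cases hD : e ∈ D
    · refine mem_union_right _ ?_
      rcases h0 e he hD with h | h <;> simp [h]
    · exact mem_union_left _ (mem_sdiff.mpr ⟨he, hD⟩)
  have h2 := card_le_card hsub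
  have h3 := card_union_le (crs src dst Y \ D) {a, b}
  have h4 := card_le_two (a := a) (b := b)
  omega

theorem five {v : Fin (3 + 2) → V} {ed : Fin (3 + 2) → E} (h4 : St_cut4) (hM : MinCx src dst)
    (hv : Function.Injective v) (hed : Function.Injective ed)
    (hJ : ∀ i, Jn src dst (ed i) (v i) (v (i + 1))) : False := by
  have ne : ∀ i j : Fin (3 + 2), i ≠ j → v i ≠ v j := fun i j h h' => h (hv h')
  refine core hM hv hed hJ {0, 2} ?_ ?_
  · intro Y hd h1
    have hC : ∀ i : Fin (3 + 2), i ∉ ({0, 2} : Finset (Fin (3 + 2))) → (v i ∈ Y ↔ v (i + 1) ∈ Y) := by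
      intro i hi
      by_contra hc
      exact disjoint_left.mp hd ((cross hJ Y i).mpr hc) (mem_image_of_mem _ (mem_compl.mpr hi))
    have c1 : v 1 ∈ Y ↔ v 2 ∈ Y := hC 1 (by decide)
    have c3 : v 3 ∈ Y ↔ v 4 ∈ Y := hC 3 (by decide)
    have c4 : v 4 ∈ Y ↔ v 0 ∈ Y := hC 4 (by decide)
    have x0 : ed 0 ∈ crs src dst Y ↔ ¬ (v 0 ∈ Y ↔ v 1 ∈ Y) := cross hJ Y 0
    have x2 : ed 2 ∈ crs src dst Y ↔ ¬ (v 2 ∈ Y ↔ v 3 ∈ Y) := cross hJ Y 2
    have hD : ∀ e, e ∈ image ed ({0, 2} : Finset (Fin (3 + 2))) → e = ed 0 ∨ e = ed 2 := by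
      intro e he
      rw [mem_image] at he
      obtain ⟨i, hi, rfl⟩ := he
      rw [mem_insert, mem_singleton] at hi
      rcases hi with rfl | rfl
      · exact Or.inl rfl
      · exact Or.inr rfl
    by_cases hb : v 0 ∈ Y ↔ v 1 ∈ Y
    · refine br_of hM h1 ?_
      intro e he heD
      rcases hD e heD with rfl | rfl
      · exact (x0.mp he) hb
      · refine (x2.mp he) ?_
        rw [← c1, ← hb, c3, c4]
    · have hle := le3 h1 (fun e _ he => hD e he)
      by_cases h0 : v 0 ∈ Y
      · have h1' : v 1 ∉ Y := fun h => hb ⟨fun _ => h, fun _ => h0⟩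
        have := h4 V E src dst hM Y (v 0) (v 4) (v 1) (v 2) h0 (c4.mpr h0) (ne 0 4 (by decide)) h1'
          (fun h => h1' (c1.mpr h)) (ne 1 2 (by decide)) (nis hv hJ 0) (nis hv hJ 4) (nis hv hJ 1)
          (nis hv hJ 2)
        omega
      · have h1' : v 1 ∈ Y := by
          by_contra h
          exact hb ⟨fun h' => absurd h' h0, fun h' => absurd h' h⟩
        have := h4 V E src dst hM Y (v 1) (v 2) (v 0) (v 4) h1' (c1.mp h1') (ne 1 2 (by decide)) h0
          (fun h => h0 (c4.mp h)) (ne 0 4 (by decide)) (nis hv hJ 1) (nis hv hJ 2) (nis hv hJ 0)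
          (nis hv hJ 4)
        omega
  · intro g hg
    have g0 : g 0 = 0 := hg 0 (by decide)
    have g2 : g 2 = 0 := hg 2 (by decide)
    have hsub : univ.image g ⊆ {0, g 1, g 3, g 4} := by
      intro y hy
      rw [mem_image] at hy
      obtain ⟨i, _, rfl⟩ := hy
      fin_cases i
      · change g 0 ∈ _; rw [g0]; simp
      · change g 1 ∈ _; simp
      · change g 2 ∈ _; rw [g2]; simp
      · change g 3 ∈ _; simp
      · change g 4 ∈ _; simp
    exact (card_le_card hsub).trans card_le_four

theorem six {v : Fin (4 + 2) → V} {ed : Fin (4 + 2) → E} (h4 : St_cut4) (hM : MinCx src dst)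
    (hv : Function.Injective v) (hed : Function.Injective ed)
    (hJ : ∀ i, Jn src dst (ed i) (v i) (v (i + 1))) : False := by
  have ne : ∀ i j : Fin (4 + 2), i ≠ j → v i ≠ v j := fun i j h h' => h (hv h')
  refine core hM hv hed hJ {0, 2, 4} ?_ ?_
  · intro Y hd h1
    have hC : ∀ i : Fin (4 + 2), i ∉ ({0, 2, 4} : Finset (Fin (4 + 2))) → (v i ∈ Y ↔ v (i + 1) ∈ Y) := by
      intro i hi
      by_contra hc
      exact disjoint_left.mp hd ((cross hJ Y i).mpr hc) (mem_image_of_mem _ (mem_compl.mpr hi))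
    have c1 : v 1 ∈ Y ↔ v 2 ∈ Y := hC 1 (by decide)
    have c3 : v 3 ∈ Y ↔ v 4 ∈ Y := hC 3 (by decide)
    have c5 : v 5 ∈ Y ↔ v 0 ∈ Y := hC 5 (by decide)
    have x0 : ed 0 ∈ crs src dst Y ↔ ¬ (v 0 ∈ Y ↔ v 1 ∈ Y) := cross hJ Y 0
    have x2 : ed 2 ∈ crs src dst Y ↔ ¬ (v 2 ∈ Y ↔ v 3 ∈ Y) := cross hJ Y 2
    have x4 : ed 4 ∈ crs src dst Y ↔ ¬ (v 4 ∈ Y ↔ v 5 ∈ Y) := cross hJ Y 4
    have hD : ∀ e, e ∈ image ed ({0, 2, 4} : Finset (Fin (4 + 2))) → e = ed 0 ∨ e = ed 2 ∨ e = ed 4 := by
      intro e he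
      rw [mem_image] at he
      obtain ⟨i, hi, rfl⟩ := he
      rw [mem_insert, mem_insert, mem_singleton] at hi
      rcases hi with rfl | rfl | rfl
      · exact Or.inl rfl
      · exact Or.inr (Or.inl rfl)
      · exact Or.inr (Or.inr rfl)
    -- a pair of vertices on each side
    have fin4 : (crs src dst Y).card ≤ 3 → ∀ i i' j j' : Fin (4 + 2), i ≠ i' → j ≠ j' →
        (v i ∈ Y ↔ v i' ∈ Y) → (v j ∈ Y ↔ v j' ∈ Y) → ¬ (v i ∈ Y ↔ v j ∈ Y) → False := by
      intro hle i i' j j' hi hj a b c
      by_cases h0 : v i ∈ Y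
      · have h1' : v j ∉ Y := fun h => c ⟨fun _ => h, fun _ => h0⟩
        have := h4 V E src dst hM Y (v i) (v i') (v j) (v j') h0 (a.mp h0) (ne i i' hi) h1'
          (fun h => h1' (b.mpr h)) (ne j j' hj) (nis hv hJ i) (nis hv hJ i') (nis hv hJ j)
          (nis hv hJ j')
        omega
      · have h1' : v j ∈ Y := by
          by_contra h
          exact c ⟨fun h' => absurd h' h0, fun h' => absurd h' h⟩
        have := h4 V E src dst hM Y (v j) (v j') (v i) (v i') h1' (b.mp h1') (ne j j' hj) h0
          (fun h => h0 (a.mpr h)) (ne i i' hi) (nis hv hJ j) (nis hv hJ j') (nis hv hJ i)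
          (nis hv hJ i')
        omega
    by_cases hb : v 0 ∈ Y ↔ v 1 ∈ Y
    · by_cases hb2 : v 0 ∈ Y ↔ v 3 ∈ Y
      · refine br_of hM h1 ?_
        intro e he heD
        rcases hD e heD with rfl | rfl | rfl
        · exact (x0.mp he) hb
        · exact (x2.mp he) (by rw [← c1, ← hb, hb2])
        · exact (x4.mp he) (by rw [← c3, c5, hb2])
      · refine fin4 (le3 (a := ed 2) (b := ed 4) h1 ?_) 0 5 3 4 (by decide) (by decide) c5.symm c3 hb2
        intro e he heD
        rcases hD e heD with rfl | rfl | rfl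
        · exact absurd hb (x0.mp he)
        · exact Or.inl rfl
        · exact Or.inr rfl
    · by_cases hb2 : v 0 ∈ Y ↔ v 3 ∈ Y
      · refine fin4 (le3 (a := ed 0) (b := ed 2) h1 ?_) 0 5 1 2 (by decide) (by decide) c5.symm c1 hb
        intro e he heD
        rcases hD e heD with rfl | rfl | rfl
        · exact Or.inl rfl
        · exact Or.inr rfl
        · exact absurd (by rw [← c3, c5, hb2]) (x4.mp he)
      · refine fin4 (le3 (a := ed 0) (b := ed 4) h1 ?_) 0 5 1 2 (by decide) (by decide) c5.symm c1 hb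
        intro e he heD
        rcases hD e heD with rfl | rfl | rfl
        · exact Or.inl rfl
        · refine absurd ?_ (x2.mp he)
          rw [← c1]
          constructor
          · intro h
            by_contra h'
            exact hb2 ⟨fun h0 => absurd ⟨fun _ => h, fun _ => h0⟩ hb, fun h3 => absurd h3 h'⟩
          · intro h
            by_contra h'
            exact hb ⟨fun h0 => absurd ⟨fun _ => h, fun _ => h0⟩ hb2, fun h3 => absurd h3 h'⟩
        · exact Or.inr rfl
  · intro g hg
    have g0 : g 0 = 0 := hg 0 (by decide)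
    have g2 : g 2 = 0 := hg 2 (by decide)
    have g4 : g 4 = 0 := hg 4 (by decide)
    have hsub : univ.image g ⊆ {0, g 1, g 3, g 5} := by
      intro y hy
      rw [mem_image] at hy
      obtain ⟨i, _, rfl⟩ := hy
      fin_cases i
      · change g 0 ∈ _; rw [g0]; simp
      · change g 1 ∈ _; simp
      · change g 2 ∈ _; rw [g2]; simp
      · change g 3 ∈ _; simp
      · change g 4 ∈ _; rw [g4]; simp
      · change g 5 ∈ _; simp
    exact (card_le_card hsub).trans card_le_four

end Pool.Agent.TH676.Z.CircB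

namespace Pool.Agent.TH676.Z

theorem circ' (h4 : St_cut4) : St_circ := by
  intro V E _ _ _ _ src dst hM k hk v ed hv hed hJ
  rcases Nat.lt_or_ge k 3 with h | h
  · exact CircB.small hM (by omega) hv hed hJ
  · rcases Nat.lt_or_ge k 4 with h' | h'
    · obtain rfl : k = 3 := by omega
      exact CircB.five h4 hM hv hed hJ
    · obtain rfl : k = 4 := by omega
      exact CircB.six h4 hM hv hed hJ

end Pool.Agent.TH676.Z
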