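import Pool.Agent.TH676.Z.Stm

set_option autoImplicit false
set_option linter.unusedSectionVars false

/-! # Edge cuts of a minimal counterexample have at least three edges -/

namespace Pool.Agent.TH676.Z

open Finset

namespace Cut3

variable {V E : Type} [Fintype V] [DecidableEq V] [Fintype E] [DecidableEq E]

theorem mem_crs {src dst : E → V} {Y : Finset V} {e : E} :
    e ∈ crs src dst Y ↔ ¬ (src e ∈ Y ↔ dst e ∈ Y) := by simp [crs]

/-- the signed sum of a flow over an edge cut -/
theorem sum_cut {src dst : E → V} {f : E → ZMod 5} {Y : Finset V}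
    (h : ∀ v ∈ Y, bd src dst f v = 0) :
    ∑ e ∈ crs src dst Y, (if src e ∈ Y then f e else - f e) = 0 := by
  have h1 : ∑ v ∈ Y, bd src dst f v = 0 := sum_eq_zero h
  unfold bd at h1
  rw [sum_comm] at h1
  refine Eq.trans ?_ h1
  unfold crs
  rw [sum_filter]
  refine sum_congr rfl fun e _ => ?_
  rw [sum_sub_distrib, sum_ite_eq, sum_ite_eq]
  by_cases h2 : src e ∈ Y <;> by_cases h3 : dst e ∈ Y <;> simp [h2, h3]

/-- flows on the two sides of a cut which agree on the cut give a flow -/
theorem glue {src dst : E → V} {f1 f2 : E → ZMod 5} {Y : Finset V}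
    (h1 : ∀ v ∈ Y, bd src dst f1 v = 0)
    (h2 : ∀ v, v ∉ Y → bd src dst f2 v = 0)
    (hn1 : ∀ e, (src e ∈ Y ∨ dst e ∈ Y) → f1 e ≠ 0)
    (hn2 : ∀ e, src e ∉ Y → dst e ∉ Y → f2 e ≠ 0)
    (ha : ∀ e ∈ crs src dst Y, f1 e = f2 e) : FlowOn src dst ∅ ∅ := by
  refine ⟨fun e => if src e ∈ Y ∨ dst e ∈ Y then f1 e else f2 e, fun v => ?_,
    fun e he => absurd he (notMem_empty _), fun e _ _ => ?_⟩
  · by_cases hv : v ∈ Y
    · rw [← h1 v hv]
      unfold bd
      refine sum_congr rfl fun e _ => ?_
      by_cases h3 : src e = v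
      · have : src e ∈ Y := h3 ▸ hv
        simp [this]
      · by_cases h4 : dst e = v
        · have : dst e ∈ Y := h4 ▸ hv
          simp [this]
        · simp [h3, h4]
    · rw [← h2 v hv]
      unfold bd
      refine sum_congr rfl fun e _ => ?_
      beta_reduce
      have key : (src e = v ∨ dst e = v) →
          (if src e ∈ Y ∨ dst e ∈ Y then f1 e else f2 e) = f2 e := by
        intro h6
        split_ifs with h7
        · refine ha e (mem_crs.mpr ?_)
          rcases h6 with h6 | h6
          · have : src e ∉ Y := h6 ▸ hv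
            tauto
          · have : dst e ∉ Y := h6 ▸ hv
            tauto
        · rfl
      by_cases h3 : src e = v
      · rw [if_pos h3, if_pos h3, key (Or.inl h3)]
      · rw [if_neg h3, if_neg h3]
        by_cases h4 : dst e = v
        · rw [if_pos h4, if_pos h4, key (Or.inr h4)]
        · rw [if_neg h4, if_neg h4]
  · change (if src e ∈ Y ∨ dst e ∈ Y then f1 e else f2 e) ≠ 0
    split_ifs with h
    · exact hn1 e h
    · rw [not_or] at h
      exact hn2 e h.1 h.2

/-- contraction only -/
theorem con {src dst : E → V} (h : MinCx src dst) (C : Finset E)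
    (hne : ∃ e ∈ C, src e ≠ dst e) : FlowOn src dst ∅ C := by
  refine h.crit ∅ C (disjoint_empty_left _) (by simpa using hne) ?_
  intro Y _
  have := h.br Y (disjoint_empty_right _)
  simpa using this

/-- the two flows at a cut -/
theorem sides {src dst : E → V} (h : MinCx src dst) (Y : Finset V)
    (h1 : ∃ e, src e ≠ dst e ∧ src e ∈ Y ∧ dst e ∈ Y)
    (h2 : ∃ e, src e ≠ dst e ∧ src e ∉ Y ∧ dst e ∉ Y) :
    ∃ f1 f2 : E → ZMod 5, (∀ v, bd src dst f1 v = 0) ∧ (∀ v, bd src dst f2 v = 0) ∧
      (∀ e, (src e ∈ Y ∨ dst e ∈ Y) → f1 e ≠ 0) ∧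
      (∀ e, (src e ∉ Y ∨ dst e ∉ Y) → f2 e ≠ 0) := by
  obtain ⟨f1, a1, _, a3⟩ := con h (univ.filter (fun e => src e ∉ Y ∧ dst e ∉ Y)) (by
    obtain ⟨e, he, he2⟩ := h2
    exact ⟨e, by simpa using he2, he⟩)
  obtain ⟨f2, b1, _, b3⟩ := con h (univ.filter (fun e => src e ∈ Y ∧ dst e ∈ Y)) (by
    obtain ⟨e, he, he2⟩ := h1
    exact ⟨e, by simpa using he2, he⟩)
  refine ⟨f1, f2, a1, b1, fun e he => a3 e (notMem_empty _) ?_,
    fun e he => b3 e (notMem_empty _) ?_⟩
  · simp only [mem_filter, mem_univ, true_and]; tauto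
  · simp only [mem_filter, mem_univ, true_and]; tauto

/-- every edge cut with non-isolated vertices on both sides has at least three edges -/
theorem three_le {src dst : E → V} (h : MinCx src dst) {Y : Finset V} {x y : V} (hx : x ∈ Y)
    (hy : y ∉ Y) (nx : Nis src dst x) (ny : Nis src dst y) : 3 ≤ (crs src dst Y).card := by
  by_contra hlt
  have h1 : (crs src dst Y).card ≠ 1 := by
    have := h.br Y (disjoint_empty_right _)
    simpa using this
  have h02 : (crs src dst Y).card = 0 ∨ (crs src dst Y).card = 2 := by omega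
  rcases h02 with h0 | h2
  · rw [card_eq_zero] at h0
    have hin : ∀ e, (src e ∈ Y ↔ dst e ∈ Y) := by
      intro e
      by_contra hc
      have := mem_crs.mpr hc
      rw [h0] at this
      exact absurd this (notMem_empty _)
    obtain ⟨f1, f2, a1, a2, a3, a4⟩ := sides h Y (by
      obtain ⟨e, he, he2⟩ := nx
      refine ⟨e, he, ?_⟩
      rcases he2 with he2 | he2
      · have : src e ∈ Y := he2 ▸ hx
        exact ⟨this, (hin e).mp this⟩
      · have : dst e ∈ Y := he2 ▸ hx
        exact ⟨(hin e).mpr this, this⟩) (by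
      obtain ⟨e, he, he2⟩ := ny
      refine ⟨e, he, ?_⟩
      rcases he2 with he2 | he2
      · have : src e ∉ Y := he2 ▸ hy
        exact ⟨this, fun hd => this ((hin e).mpr hd)⟩
      · have : dst e ∉ Y := he2 ▸ hy
        exact ⟨fun hd => this ((hin e).mp hd), this⟩)
    refine h.nf (glue (Y := Y) (f1 := f1) (f2 := f2)
      (fun v _ => a1 v) (fun v _ => a2 v) a3 (fun e he _ => a4 e (Or.inl he)) ?_)
    intro e he
    rw [h0] at he
    exact absurd he (notMem_empty _)
  · obtain ⟨e1, e2, hne, hY⟩ := card_eq_two.mp h2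
    have he1 : e1 ∈ crs src dst Y := by rw [hY]; simp
    obtain ⟨f, hf1, _, hf2⟩ := con h {e1} ⟨e1, by simp, fun heq => by
      rw [mem_crs, heq] at he1; exact he1 Iff.rfl⟩
    have hsum := sum_cut (src := src) (dst := dst) (f := f) (Y := Y) (fun v _ => hf1 v)
    rw [hY, sum_pair hne] at hsum
    refine h.nf ⟨f, hf1, fun e he => absurd he (notMem_empty _), fun e _ _ => ?_⟩
    by_cases hee : e = e1
    · subst hee
      have h5 : f e2 ≠ 0 := hf2 e2 (notMem_empty _) (by simpa using hne.symm)
      intro h6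
      rw [h6] at hsum
      apply h5
      by_cases h7 : src e2 ∈ Y
      · simpa [h7] using hsum
      · simpa [h7] using hsum
    · exact hf2 e (notMem_empty _) (by simpa using hee)

end Cut3

/-- the signed sum of a flow over an edge cut -/
theorem sum_cut {V E : Type} [Fintype V] [DecidableEq V] [Fintype E] [DecidableEq E]
    {src dst : E → V} {f : E → ZMod 5} {Y : Finset V} (h : ∀ v ∈ Y, bd src dst f v = 0) :
    ∑ e ∈ crs src dst Y, (if src e ∈ Y then f e else - f e) = 0 := Cut3.sum_cut h

/-- every cut with non-isolated vertices on both sides has at least three edges -/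
theorem cut3 : St_cut3 := fun _ _ _ _ _ _ _ _ h _ _ _ hx hy nx ny =>
  Cut3.three_le h hx hy nx ny

end Pool.Agent.TH676.Z
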