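import Pool.Agent.TH676.Z.Stm

set_option autoImplicit false
set_option linter.unusedSectionVars false

/-! # Edge cuts with three edges in a minimal counterexample (piece Z5F-4, written by helper16) -/

namespace Pool.Agent.TH676.Z

open Finset

namespace Cut4

variable {V E : Type} [Fintype V] [DecidableEq V] [Fintype E] [DecidableEq E]

theorem mem_crs {src dst : E → V} {Y : Finset V} {e : E} :
    e ∈ crs src dst Y ↔ ¬ (src e ∈ Y ↔ dst e ∈ Y) := by
  simp [crs]

/-- the signed sum of a flow over an edge cut -/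
theorem sum_cut {src dst : E → V} {f : E → ZMod 5} {Y : Finset V}
    (h : ∀ v ∈ Y, bd src dst f v = 0) :
    ∑ e ∈ crs src dst Y, (if src e ∈ Y then f e else - f e) = 0 := by
  have h1 : ∑ v ∈ Y, bd src dst f v = 0 := sum_eq_zero h
  unfold bd at h1
  rw [sum_comm] at h1
  refine Eq.trans ?_ h1
  unfold crs
  rw [sum_filter]
  refine sum_congr rfl fun e _ => ?_
  rw [sum_sub_distrib, sum_ite_eq, sum_ite_eq]
  by_cases h2 : src e ∈ Y <;> by_cases h3 : dst e ∈ Y <;> simp [h2, h3]

/-- contraction only -/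
theorem con {src dst : E → V} (h : MinCx src dst) (C : Finset E)
    (hne : ∃ e ∈ C, src e ≠ dst e) : FlowOn src dst ∅ C := by
  refine h.crit ∅ C (disjoint_empty_left _) (by simpa using hne) ?_
  intro Y _
  have := h.br Y (disjoint_empty_right _)
  simpa using this

/-- the two flows at a cut -/
theorem sides {src dst : E → V} (h : MinCx src dst) (Y : Finset V)
    (h1 : ∃ e, src e ≠ dst e ∧ src e ∈ Y ∧ dst e ∈ Y)
    (h2 : ∃ e, src e ≠ dst e ∧ src e ∉ Y ∧ dst e ∉ Y) :
    ∃ f1 f2 : E → ZMod 5, (∀ v, bd src dst f1 v = 0) ∧ (∀ v, bd src dst f2 v = 0) ∧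
      (∀ e, (src e ∈ Y ∨ dst e ∈ Y) → f1 e ≠ 0) ∧
      (∀ e, (src e ∉ Y ∨ dst e ∉ Y) → f2 e ≠ 0) := by
  obtain ⟨f1, a1, _, a3⟩ := con h (univ.filter (fun e => src e ∉ Y ∧ dst e ∉ Y)) (by
    obtain ⟨e, he, he2⟩ := h2
    exact ⟨e, by simpa using he2, he⟩)
  obtain ⟨f2, b1, _, b3⟩ := con h (univ.filter (fun e => src e ∈ Y ∧ dst e ∈ Y)) (by
    obtain ⟨e, he, he2⟩ := h1
    exact ⟨e, by simpa using he2, he⟩)
  refine ⟨f1, f2, a1, b1, fun e he => a3 e (notMem_empty _) ?_,
    fun e he => b3 e (notMem_empty _) ?_⟩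
  · simp only [mem_filter, mem_univ, true_and]; tauto
  · simp only [mem_filter, mem_univ, true_and]; tauto

/-- flows on the two sides of a cut which agree on the cut give a flow -/
theorem glue {src dst : E → V} {f1 f2 : E → ZMod 5} {Y : Finset V}
    (h1 : ∀ v ∈ Y, bd src dst f1 v = 0) (h2 : ∀ v, v ∉ Y → bd src dst f2 v = 0)
    (hn1 : ∀ e, (src e ∈ Y ∨ dst e ∈ Y) → f1 e ≠ 0)
    (hn2 : ∀ e, src e ∉ Y → dst e ∉ Y → f2 e ≠ 0)
    (ha : ∀ e ∈ crs src dst Y, f1 e = f2 e) : FlowOn src dst ∅ ∅ := by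
  refine ⟨fun e => if src e ∈ Y ∨ dst e ∈ Y then f1 e else f2 e, fun v => ?_,
    fun e he => absurd he (notMem_empty _), fun e _ _ => ?_⟩
  · by_cases hv : v ∈ Y
    · rw [← h1 v hv]
      unfold bd
      refine sum_congr rfl fun e _ => ?_
      beta_reduce
      by_cases h3 : src e = v
      · have : src e ∈ Y := h3 ▸ hv
        simp [this]
      · by_cases h4 : dst e = v
        · have : dst e ∈ Y := h4 ▸ hv
          simp [this]
        · simp [h3, h4]
    · rw [← h2 v hv]
      unfold bd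
      refine sum_congr rfl fun e _ => ?_
      beta_reduce
      have key : (src e = v ∨ dst e = v) →
          (if src e ∈ Y ∨ dst e ∈ Y then f1 e else f2 e) = f2 e := by
        intro h6
        split_ifs with h7
        · refine ha e (mem_crs.mpr ?_)
          rcases h6 with h6 | h6
          · have : src e ∉ Y := h6 ▸ hv
            tauto
          · have : dst e ∉ Y := h6 ▸ hv
            tauto
        · rfl
      by_cases h3 : src e = v
      · rw [if_pos h3, if_pos h3, key (Or.inl h3)]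
      · rw [if_neg h3, if_neg h3]
        by_cases h4 : dst e = v
        · rw [if_pos h4, if_pos h4, key (Or.inr h4)]
        · rw [if_neg h4, if_neg h4]
  · change (if src e ∈ Y ∨ dst e ∈ Y then f1 e else f2 e) ≠ 0
    split_ifs with h
    · exact hn1 e h
    · rw [not_or] at h
      exact hn2 e h.1 h.2

end Cut4

open Cut4 in
/-- every edge cut with at least two vertices on both sides has at least four edges -/
theorem cut4 (h2 : St_cut3) (h3 : St_three) : St_cut4 := by
  intro V E _ _ _ _ src dst h Y x x2 y y2 hx hx2 hxx hy hy2 hyy nx nx2 ny ny2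
  have cut3 : ∀ (Y : Finset V) (x y : V), x ∈ Y → y ∉ Y → Nis src dst x → Nis src dst y →
      3 ≤ (crs src dst Y).card := h2 V E src dst h
  by_contra hlt
  have hc3 : (crs src dst Y).card = 3 := by
    have := cut3 Y x y hx hy nx ny
    omega
  -- a side without proper edges is too small
  have side : ∀ (p p2 : V) (Q : V → Prop), Q p → Q p2 → p ≠ p2 → Nis src dst p → Nis src dst p2 →
      (∀ e, src e ≠ dst e → Q (src e) → ¬ Q (dst e)) →
      (∀ e, (Q (src e) ↔ ¬ Q (dst e)) → e ∈ crs src dst Y) → False := by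
    intro p p2 Q hp hp2 hpp np np2 hQ hQ2
    have c1 : 3 ≤ (crs src dst {p}).card :=
      cut3 {p} p p2 (mem_singleton_self _) (by simpa using hpp.symm) np np2
    have c2 : 3 ≤ (crs src dst {p2}).card :=
      cut3 {p2} p2 p (mem_singleton_self _) (by simpa using hpp) np2 np
    have hsub : ∀ q, Q q → ∀ e ∈ crs src dst {q}, e ∈ crs src dst Y ∧
        (src e ≠ dst e) ∧ ((src e = q ∧ ¬ Q (dst e)) ∨ (dst e = q ∧ ¬ Q (src e))) := by
      intro q hq e he
      rw [mem_crs, mem_singleton, mem_singleton] at he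
      have hne : src e ≠ dst e := fun heq => he (by rw [heq])
      by_cases hs : src e = q
      · have h5 : Q (src e) := hs ▸ hq
        have h6 := hQ e hne h5
        exact ⟨hQ2 e ⟨fun _ => h6, fun _ => h5⟩, hne, Or.inl ⟨hs, h6⟩⟩
      · have hd : dst e = q := by tauto
        have h5 : Q (dst e) := hd ▸ hq
        have h6 : ¬ Q (src e) := fun h6 => hQ e hne h6 h5
        exact ⟨hQ2 e ⟨fun h7 => absurd h7 h6, fun h7 => absurd h5 h7⟩, hne, Or.inr ⟨hd, h6⟩⟩
    have hdis : Disjoint (crs src dst {p}) (crs src dst {p2}) := by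
      rw [disjoint_left]
      intro e he he2
      obtain ⟨_, _, h5⟩ := hsub p hp e he
      obtain ⟨_, _, h6⟩ := hsub p2 hp2 e he2
      rcases h5 with ⟨a1, a2⟩ | ⟨a1, a2⟩ <;> rcases h6 with ⟨b1, b2⟩ | ⟨b1, b2⟩
      · exact hpp (a1.symm.trans b1)
      · exact a2 (b1 ▸ hp2)
      · exact b2 (a1 ▸ hp)
      · exact hpp (a1.symm.trans b1)
    have hle : (crs src dst {p} ∪ crs src dst {p2}).card ≤ (crs src dst Y).card :=
      card_le_card (union_subset (fun e he => (hsub p hp e he).1)
        (fun e he => (hsub p2 hp2 e he).1))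
    rw [card_union_of_disjoint hdis] at hle
    omega
  obtain ⟨f1, f2, a1, a2, a3, a4⟩ := sides h Y (by
    by_contra hc
    push Not at hc
    exact side x x2 (fun z => z ∈ Y) hx hx2 hxx nx nx2 hc (fun e he => mem_crs.mpr (by tauto)))
    (by
    by_contra hc
    push Not at hc
    exact side y y2 (fun z => z ∉ Y) hy hy2 hyy ny ny2 (fun e he h5 => by
      rw [not_not]; exact hc e he h5) (fun e he => mem_crs.mpr (by tauto)))
  obtain ⟨f', b1, b2, b3⟩ := h3 V E src dst Y hc3 f1 (fun v _ => a1 v) a3 f2 (fun e he => by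
    rw [mem_crs] at he
    exact a4 e (by tauto)) (sum_cut fun v _ => a2 v)
  exact h.nf (glue b1 (fun v _ => a2 v) b2 (fun e he _ => a4 e (Or.inl he)) b3)

end Pool.Agent.TH676.Z
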