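import Pool.Agent.TH676.Z.Stm

/-! A minimal counterexample has girth at least seven and minimum degree at least three. -/

set_option autoImplicit false
set_option linter.unusedSectionVars false

namespace Pool.Agent.TH676.Z

namespace GiAux

variable {V E : Type} {src dst : E → V}

theorem jn_symm {e : E} {x y : V} (h : Jn src dst e x y) : Jn src dst e y x := h.symm

theorem jn_eq {e : E} {a b c d : V} (h : Jn src dst e a b) (h' : Jn src dst e c d) :
    (a = c ∧ b = d) ∨ (a = d ∧ b = c) := by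
  rcases h with ⟨rfl, rfl⟩ | ⟨rfl, rfl⟩ <;> rcases h' with ⟨h1, h2⟩ | ⟨h1, h2⟩
  · exact Or.inl ⟨h1, h2⟩
  · exact Or.inr ⟨h1, h2⟩
  · exact Or.inr ⟨h2, h1⟩
  · exact Or.inl ⟨h2, h1⟩

theorem adj_symm {a b : V} (h : Adj src dst a b) : Adj src dst b a :=
  ⟨h.1.symm, let ⟨e, he⟩ := h.2; ⟨e, he.symm⟩⟩

variable [Fintype V] [DecidableEq V] [Fintype E] [DecidableEq E]

/-- no parallel edges -/
theorem no_par (h5 : St_circ) (hM : MinCx src dst) {e e' : E} {x y : V} (hxy : x ≠ y)
    (h : Jn src dst e x y) (h' : Jn src dst e' x y) : e = e' := by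
  by_contra hne
  refine h5 V E src dst hM 0 (by norm_num) ![x, y] ![e, e'] ?_ ?_ ?_
  · intro i j hij
    fin_cases i <;> fin_cases j <;> simp_all
  · intro i j hij
    fin_cases i <;> fin_cases j <;> simp_all
  · intro i
    fin_cases i
    · exact h
    · exact jn_symm h'

/-- no circuits of length three to six -/
theorem no_circ (h5 : St_circ) (hM : MinCx src dst) {k : ℕ} (hk1 : 1 ≤ k) (hk : k ≤ 4)
    (v : Fin (k + 2) → V) (hv : Function.Injective v)
    (h : ∀ i, Adj src dst (v i) (v (i + 1))) : False := by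
  choose ed hed using fun i => (h i).2
  refine h5 V E src dst hM k hk v ed hv ?_ hed
  intro i j hij
  have h1 : Jn src dst (ed i) (v i) (v (i + 1)) := hed i
  have h2 : Jn src dst (ed i) (v j) (v (j + 1)) := by rw [hij]; exact hed j
  rcases jn_eq h1 h2 with ⟨h3, _⟩ | ⟨h3, h4⟩
  · exact hv h3
  · exfalso
    have h5 := hv h3
    have h6 := hv h4
    rw [h5] at h6
    have h7 : (1 : Fin (k + 2)) + 1 = 0 := by
      have h8 : j + (1 + 1) = j + 0 := by rw [← add_assoc, h6, add_zero]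
      exact add_left_cancel h8
    have h9 := congrArg Fin.val h7
    rw [Fin.val_add, Fin.val_one, Fin.val_zero, Nat.mod_eq_of_lt (by omega)] at h9
    omega

theorem c3 (h5 : St_circ) (hM : MinCx src dst) {a b c : V} (h1 : Adj src dst a b)
    (h2 : Adj src dst b c) (h3 : Adj src dst c a) : False := by
  have a1 := h1.1
  have a2 := h2.1
  have a3 := h3.1
  refine no_circ h5 hM (k := 1) le_rfl (by norm_num) ![a, b, c] ?_ ?_
  · intro i j hij
    fin_cases i <;> fin_cases j <;> simp_all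
  · intro i
    fin_cases i
    · exact h1
    · exact h2
    · exact h3

theorem c4 (h5 : St_circ) (hM : MinCx src dst) {a b c d : V} (h1 : Adj src dst a b)
    (h2 : Adj src dst b c) (h3 : Adj src dst c d) (h4 : Adj src dst d a) (hac : a ≠ c)
    (hbd : b ≠ d) : False := by
  have a1 := h1.1
  have a2 := h2.1
  have a3 := h3.1
  have a4 := h4.1
  refine no_circ h5 hM (k := 2) (by norm_num) (by norm_num) ![a, b, c, d] ?_ ?_
  · intro i j hij
    fin_cases i <;> fin_cases j <;> simp_all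
  · intro i
    fin_cases i
    · exact h1
    · exact h2
    · exact h3
    · exact h4

theorem c5 (h5 : St_circ) (hM : MinCx src dst) {a b c d e : V} (h1 : Adj src dst a b)
    (h2 : Adj src dst b c) (h3 : Adj src dst c d) (h4 : Adj src dst d e) (h6 : Adj src dst e a) :
    False := by
  have a1 := h1.1
  have a2 := h2.1
  have a3 := h3.1
  have a4 := h4.1
  have a5 := h6.1
  have b1 : a ≠ c := by rintro rfl; exact c3 h5 hM h3 h4 h6
  have b2 : b ≠ d := by rintro rfl; exact c3 h5 hM h1 h4 h6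
  have b3 : c ≠ e := by rintro rfl; exact c3 h5 hM h1 h2 h6
  have b4 : d ≠ a := by rintro rfl; exact c3 h5 hM h1 h2 h3
  have b5 : e ≠ b := by rintro rfl; exact c3 h5 hM h2 h3 h4
  refine no_circ h5 hM (k := 3) (by norm_num) (by norm_num) ![a, b, c, d, e] ?_ ?_
  · intro i j hij
    fin_cases i <;> fin_cases j <;> simp_all
  · intro i
    fin_cases i
    · exact h1
    · exact h2
    · exact h3
    · exact h4
    · exact h6

theorem c6 (h5 : St_circ) (hM : MinCx src dst) {a b c d e f : V} (h1 : Adj src dst a b)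
    (h2 : Adj src dst b c) (h3 : Adj src dst c d) (h4 : Adj src dst d e) (h6 : Adj src dst e f)
    (h7 : Adj src dst f a) (b1 : a ≠ c) (b2 : b ≠ d) (b3 : c ≠ e) (b4 : d ≠ f) (b5 : e ≠ a)
    (b6 : f ≠ b) : False := by
  have a1 := h1.1
  have a2 := h2.1
  have a3 := h3.1
  have a4 := h4.1
  have a5 := h6.1
  have a6 := h7.1
  have d1 : a ≠ d := by rintro rfl; exact c3 h5 hM h1 h2 h3
  have d2 : b ≠ e := by rintro rfl; exact c3 h5 hM h2 h3 h4
  have d3 : c ≠ f := by rintro rfl; exact c3 h5 hM h3 h4 h6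
  refine no_circ h5 hM (k := 4) (by norm_num) (by norm_num) ![a, b, c, d, e, f] ?_ ?_
  · intro i j hij
    fin_cases i <;> fin_cases j <;> simp_all
  · intro i
    fin_cases i
    · exact h1
    · exact h2
    · exact h3
    · exact h4
    · exact h6
    · exact h7

theorem mem_crs_singleton {e : E} {x : V} (h : e ∈ crs src dst {x}) :
    ∃ z, z ≠ x ∧ Jn src dst e x z := by
  unfold crs at h
  rw [Finset.mem_filter, Finset.mem_singleton, Finset.mem_singleton] at h
  have h1 := h.2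
  by_cases h2 : src e = x
  · by_cases h3 : dst e = x
    · exact absurd ⟨fun _ => h3, fun _ => h2⟩ h1
    · exact ⟨dst e, h3, Or.inl ⟨h2, rfl⟩⟩
  · by_cases h3 : dst e = x
    · exact ⟨src e, h2, Or.inr ⟨rfl, h3⟩⟩
    · exact absurd ⟨fun h4 => absurd h4 h2, fun h4 => absurd h4 h3⟩ h1

theorem three (h2 : St_cut3) (h5 : St_circ) (hM : MinCx src dst) : Three (Adj src dst) := by
  intro x y hxy
  obtain ⟨hne, e, he⟩ := hxy
  have hse : src e ≠ dst e := by
    rcases he with ⟨h3, h4⟩ | ⟨h3, h4⟩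
    · rw [h3, h4]; exact hne
    · rw [h3, h4]; exact hne.symm
  have hx : Nis src dst x := by
    refine ⟨e, hse, ?_⟩
    rcases he with ⟨h3, _⟩ | ⟨_, h4⟩
    · exact Or.inl h3
    · exact Or.inr h4
  have hy : Nis src dst y := by
    refine ⟨e, hse, ?_⟩
    rcases he with ⟨_, h4⟩ | ⟨h3, _⟩
    · exact Or.inr h4
    · exact Or.inl h3
  have hc := h2 V E src dst hM {x} x y (Finset.mem_singleton_self _)
    (fun h => hne (Finset.mem_singleton.1 h).symm) hx hy
  obtain ⟨e1, m1, e2, m2, e3, m3, n12, n13, n23⟩ := Finset.two_lt_card.1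
    (show 2 < (crs src dst {x}).card by omega)
  obtain ⟨z1, hz1, j1⟩ := mem_crs_singleton m1
  obtain ⟨z2, hz2, j2⟩ := mem_crs_singleton m2
  obtain ⟨z3, hz3, j3⟩ := mem_crs_singleton m3
  refine ⟨z1, z2, z3, ⟨hz1.symm, e1, j1⟩, ⟨hz2.symm, e2, j2⟩, ⟨hz3.symm, e3, j3⟩, ?_, ?_, ?_⟩
  · rintro rfl
    exact n12 (no_par h5 hM hz1.symm j1 j2)
  · rintro rfl
    exact n13 (no_par h5 hM hz1.symm j1 j3)
  · rintro rfl
    exact n23 (no_par h5 hM hz2.symm j2 j3)

end GiAux

theorem gi (h2 : St_cut3) (h5 : St_circ) : St_gi := by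
  intro V E _ _ _ _ src dst hM
  refine ⟨⟨fun h => GiAux.adj_symm h, fun a h => h.1 rfl, fun a b c h1 h3 h4 => GiAux.c3 h5 hM h1 h3 h4,
    fun a b c d h1 h3 h4 h6 h7 h8 => GiAux.c4 h5 hM h1 h3 h4 h6 h7 h8,
    fun a b c d e h1 h3 h4 h6 h7 => GiAux.c5 h5 hM h1 h3 h4 h6 h7,
    fun a b c d e f h1 h3 h4 h6 h7 h8 b1 b2 b3 b4 b5 b6 =>
      GiAux.c6 h5 hM h1 h3 h4 h6 h7 h8 b1 b2 b3 b4 b5 b6⟩, GiAux.three h2 h5 hM⟩

end Pool.Agent.TH676.Z
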