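import Pool.Agent.TH676.Z.Stm

/-! Z15: the end of the elimination and the graph lemma. -/

set_option autoImplicit false

namespace Pool.Agent.TH676.Z

open Finset

theorem end_ : St_end := by
  intro V _ _ Ad In gi h3 hinv x y hxy
  obtain ⟨P, hxP, hP, hS⟩ := hinv x (by simp) ⟨y, hxy⟩
  have hcl : ∀ p ∈ P, ∀ q, Ad p q → q ∈ P := by
    intro p hp q hq
    rcases hP.cl p hp q hq with h | h
    · exact h
    · simp at h
  -- a vertex of `P` with a neighbour has three different neighbours in `P`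
  have key : ∀ p ∈ P, ∀ q, Ad p q → ∃ a b c, a ∈ P ∧ b ∈ P ∧ c ∈ P ∧ Ad p a ∧ Ad p b ∧ Ad p c ∧
      a ≠ b ∧ a ≠ c ∧ b ≠ c := by
    intro p hp q hq
    obtain ⟨a, b, c, ha, hb, hc, h1, h2, h3'⟩ := h3 p q hq
    exact ⟨a, b, c, hcl p hp a ha, hcl p hp b hb, hcl p hp c hc, ha, hb, hc, h1, h2, h3'⟩
  rcases hS with ⟨a, rfl⟩ | ⟨a, b, hab, rfl⟩ | ⟨a, b, c, hab, hbc, hac, rfl⟩ |
    ⟨a, b, c, d, hab, hbc, hcd, hac, hbd, rfl⟩ | ⟨c, u, v, w, hcu, hcv, hcw, huv, huw, hvw, rfl⟩
  · have h1 := hcl x hxP y hxy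
    rw [Finset.mem_singleton] at h1 hxP
    subst h1
    subst hxP
    exact gi.c2 _ hxy
  · obtain ⟨n1, n2, n3, m1, m2, m3, e1, e2, e3, d1, d2, d3⟩ := key a (by simp) b hab
    have hb : ∀ n, n ∈ ({a, b} : Finset V) → Ad a n → n = b := by
      intro n hn he
      rw [Finset.mem_insert, Finset.mem_singleton] at hn
      rcases hn with rfl | rfl
      · exact absurd he (gi.c2 _)
      · rfl
    exact d1 ((hb n1 m1 e1).trans (hb n2 m2 e2).symm)
  · obtain ⟨n1, n2, n3, m1, m2, m3, e1, e2, e3, d1, d2, d3⟩ := key a (by simp) b hab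
    have hb : ∀ n, n ∈ ({a, b, c} : Finset V) → Ad a n → n = b := by
      intro n hn he
      rw [Finset.mem_insert, Finset.mem_insert, Finset.mem_singleton] at hn
      rcases hn with rfl | rfl | rfl
      · exact absurd he (gi.c2 _)
      · rfl
      · exact (gi.c3 _ _ _ hab hbc (gi.symm he)).elim
    exact d1 ((hb n1 m1 e1).trans (hb n2 m2 e2).symm)
  · obtain ⟨n1, n2, n3, m1, m2, m3, e1, e2, e3, d1, d2, d3⟩ := key a (by simp) b hab
    have hb : ∀ n, n ∈ ({a, b, c, d} : Finset V) → Ad a n → n = b ∨ n = d := by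
      intro n hn he
      rw [Finset.mem_insert, Finset.mem_insert, Finset.mem_insert, Finset.mem_singleton] at hn
      rcases hn with rfl | rfl | rfl | rfl
      · exact absurd he (gi.c2 _)
      · exact Or.inl rfl
      · exact (gi.c3 _ _ _ hab hbc (gi.symm he)).elim
      · exact Or.inr rfl
    rcases hb n1 m1 e1 with h1 | h1 <;> rcases hb n2 m2 e2 with h2 | h2 <;>
      rcases hb n3 m3 e3 with h3' | h3'
    · exact d1 (h1.trans h2.symm)
    · exact d1 (h1.trans h2.symm)
    · exact d2 (h1.trans h3'.symm)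
    · exact d3 (h2.trans h3'.symm)
    · exact d3 (h2.trans h3'.symm)
    · exact d2 (h1.trans h3'.symm)
    · exact d1 (h1.trans h2.symm)
    · exact d1 (h1.trans h2.symm)
  · obtain ⟨n1, n2, n3, m1, m2, m3, e1, e2, e3, d1, d2, d3⟩ := key u (by simp) c (gi.symm hcu)
    have hb : ∀ n, n ∈ ({c, u, v, w} : Finset V) → Ad u n → n = c := by
      intro n hn he
      rw [Finset.mem_insert, Finset.mem_insert, Finset.mem_insert, Finset.mem_singleton] at hn
      rcases hn with rfl | rfl | rfl | rfl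
      · rfl
      · exact absurd he (gi.c2 _)
      · exact (gi.c3 _ _ _ hcu he (gi.symm hcv)).elim
      · exact (gi.c3 _ _ _ hcu he (gi.symm hcw)).elim
    exact d1 ((hb n1 m1 e1).trans (hb n2 m2 e2).symm)

theorem graph (h14 : St_step) (h15 : St_end) : St_graph := by
  intro V _ _ Ad In gi h3 hB
  have main : ∀ n : ℕ, ∀ U : Finset V, U.card = n → (∀ x ∈ U, In {x}) → Inv Ad In U →
      Inv Ad In ∅ := by
    intro n
    induction n with
    | zero =>
      intro U hU _ hinv
      rw [Finset.card_eq_zero] at hU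
      rw [← hU]
      exact hinv
    | succ n ih =>
      intro U hU hin hinv
      have hne : U.Nonempty := Finset.card_pos.1 (by omega)
      obtain ⟨r, hr, W, hW, hrW, hZ⟩ := hB.elim U hne hin
      refine ih (U.erase r) ?_ ?_ ?_
      · rw [Finset.card_erase_of_mem hr]
        omega
      · intro x hx
        exact hin x (Finset.mem_of_mem_erase hx)
      · exact h14 V Ad In U W r gi h3 hB hW hrW hZ hr hinv
  classical
  refine h15 V Ad In gi h3 (main _ (univ.filter (fun x => ∃ y, Ad x y)) rfl ?_ ?_)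
  · intro x hx
    rw [Finset.mem_filter] at hx
    obtain ⟨-, y, hy⟩ := hx
    exact hB.mono {x} {x, y} (by simp) (hB.edge x y hy)
  · intro x hx hy
    exact absurd (Finset.mem_filter.2 ⟨Finset.mem_univ x, hy⟩) hx

end Pool.Agent.TH676.Z
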