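import Pool.Agent.TH676.Z.Stm

/-! # Pieces with a common vertex are equal; the union of the pieces at a vertex (Z12, Z13)

Written by helper989. -/

set_option autoImplicit false

namespace Pool.Agent.TH676.Z

open Finset

namespace Merge

/-- a shape is connected -/
theorem conn {V : Type} [DecidableEq V] {Ad : V → V → Prop} (hs : ∀ {a b}, Ad a b → Ad b a)
    {P : Finset V} (hP : Sh Ad P) (C : V → Prop)
    (hC : ∀ u ∈ P, ∀ v ∈ P, Ad u v → C u → C v) {x : V} (hx : x ∈ P) (hCx : C x) :
    ∀ y ∈ P, C y := by
  rcases hP with ⟨a, rfl⟩ | ⟨a, b, hab, rfl⟩ | ⟨a, b, c, hab, hbc, _, rfl⟩ |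
    ⟨a, b, c, d, hab, hbc, hcd, _, _, rfl⟩ | ⟨c, u, v, w, hu, hv, hw, _, _, _, rfl⟩
  · rw [mem_singleton] at hx
    subst hx
    intro y hy
    rw [mem_singleton] at hy
    rw [hy]
    exact hCx
  · have h1 := hC a (by simp) b (by simp) hab
    have h2 := hC b (by simp) a (by simp) (hs hab)
    simp only [mem_insert, mem_singleton] at hx ⊢
    rintro y (rfl | rfl) <;> rcases hx with rfl | rfl <;> tauto
  · have h1 := hC a (by simp) b (by simp) hab
    have h2 := hC b (by simp) a (by simp) (hs hab)
    have h3 := hC b (by simp) c (by simp) hbc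
    have h4 := hC c (by simp) b (by simp) (hs hbc)
    simp only [mem_insert, mem_singleton] at hx ⊢
    rintro y (rfl | rfl | rfl) <;> rcases hx with rfl | rfl | rfl <;> tauto
  · have h1 := hC a (by simp) b (by simp) hab
    have h2 := hC b (by simp) a (by simp) (hs hab)
    have h3 := hC b (by simp) c (by simp) hbc
    have h4 := hC c (by simp) b (by simp) (hs hbc)
    have h5 := hC c (by simp) d (by simp) hcd
    have h6 := hC d (by simp) c (by simp) (hs hcd)
    simp only [mem_insert, mem_singleton] at hx ⊢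
    rintro y (rfl | rfl | rfl | rfl) <;> rcases hx with rfl | rfl | rfl | rfl <;> tauto
  · have h1 := hC c (by simp) u (by simp) hu
    have h2 := hC u (by simp) c (by simp) (hs hu)
    have h3 := hC c (by simp) v (by simp) hv
    have h4 := hC v (by simp) c (by simp) (hs hv)
    have h5 := hC c (by simp) w (by simp) hw
    have h6 := hC w (by simp) c (by simp) (hs hw)
    simp only [mem_insert, mem_singleton] at hx ⊢
    rintro y (rfl | rfl | rfl | rfl) <;> rcases hx with rfl | rfl | rfl | rfl <;> tauto

theorem sub {V : Type} [Fintype V] [DecidableEq V] {Ad : V → V → Prop} {In : Finset V → Prop}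
    {U P Q : Finset V} {x : V} (hs : ∀ {a b}, Ad a b → Ad b a) (hP : Pc Ad In U P)
    (hPs : Sh Ad P) (hQ : Pc Ad In U Q) (hxP : x ∈ P) (hxQ : x ∈ Q) : P ⊆ Q := by
  intro y hy
  refine conn hs hPs (fun v => v ∈ Q) ?_ hxP hxQ y hy
  intro u _ v hv huv huQ
  rcases hQ.cl u huQ v huv with h | h
  · exact h
  · exact absurd h (hP.out v hv)

end Merge

/-- Z12 -/
theorem uniq : St_uniq := by
  intro V _ _ Ad In U P Q x hG hP hPs hQ hQs hxP hxQ
  exact Finset.Subset.antisymm (Merge.sub hG.symm hP hPs hQ hxP hxQ)
    (Merge.sub hG.symm hQ hQs hP hxQ hxP)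

/-- Z13 -/
theorem merge : St_merge := by
  classical
  intro V _ _ Ad In U W P r hG hB hW hrW hmax hrU hrP hP hcl
  refine ⟨?_, ?_, ?_⟩
  · intro x hx
    rcases hP x hx with rfl | ⟨Q, hQ, hxQ, _, _⟩
    · simp
    · intro h
      exact hQ.out x hxQ (Finset.mem_of_mem_erase h)
  · intro x hx y hxy
    rcases hP x hx with rfl | ⟨Q, hQ, hxQ, hQP, _⟩
    · by_cases hy : y ∈ U
      · right
        rw [mem_erase]
        refine ⟨?_, hy⟩
        rintro rfl
        exact hG.c2 _ hxy
      · left
        exact hcl y hxy hy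
    · rcases hQ.cl x hxQ y hxy with h | h
      · left
        exact hQP h
      · by_cases hyr : y = r
        · left
          rw [hyr]
          exact hrP
        · right
          exact mem_erase.2 ⟨hyr, h⟩
  · refine hB.mono _ W ?_ hW
    intro v hv
    unfold onb at hv
    rw [mem_filter] at hv
    obtain ⟨_, hvU, x, hx, hxv⟩ := hv
    have hvU' := Finset.mem_of_mem_erase hvU
    rcases hP x hx with rfl | ⟨Q, hQ, hxQ, hQP, y, hy, hry⟩
    · have h1 := hmax {x, v} (hB.edge _ _ hxv) (by
        intro z hz
        rw [mem_insert, mem_singleton] at hz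
        rcases hz with rfl | rfl
        · exact hrU
        · exact hvU') (by simp)
      exact h1 (by simp)
    · have h1 := hmax (onb Ad U Q) hQ.inn (by
        intro z hz
        unfold onb at hz
        rw [mem_filter] at hz
        exact hz.2.1) (by
        unfold onb
        rw [mem_filter]
        exact ⟨mem_univ _, hrU, y, hy, hG.symm hry⟩)
      apply h1
      unfold onb
      rw [mem_filter]
      exact ⟨mem_univ _, hvU', x, hxQ, hxv⟩

end Pool.Agent.TH676.Z
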