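import Pool.Agent.TH676.Z.Cnt

set_option autoImplicit false
set_option linter.unusedSectionVars false

/-! # No branch is a path with four vertices attached at its end -/

namespace Pool.Agent.TH676.Z

open Finset

namespace PE

variable {V : Type} [DecidableEq V] {Ad : V → V → Prop} {U R : Finset V}
  {r w w' w1 w2 w3 m y d b3 b4 b5 : V}

/-- the far part of the path `w - m - y - d` -/
structure Dat (Ad : V → V → Prop) (U R : Finset V) (w m y d b3 b4 b5 : V) : Prop where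
  wU : w ∉ U
  mU : m ∉ U
  yU : y ∉ U
  dU : d ∉ U
  wy : w ≠ y
  md : m ≠ d
  a1 : Ad w m
  a2 : Ad m y
  a3 : Ad y d
  c3 : Ad y b3
  c4 : Ad d b4
  c5 : Ad d b5
  r3 : b3 ∈ R
  r4 : b4 ∈ R
  r5 : b5 ∈ R
  n : b4 ≠ b5

/-- `w` and a neighbour of `w` have neighbours in `R` -/
def LL (Ad : V → V → Prop) (U R : Finset V) (w p m q : V) : Prop :=
  w ∉ U ∧ Ad w p ∧ p ∈ R ∧ m ∉ U ∧ Ad w m ∧ Ad m q ∧ q ∈ R

section dat

variable (c : Cx Ad U R r) (D : Dat Ad U R w m y d b3 b4 b5)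

include c D in
theorem p3 : P3 Ad r w y := ⟨m, D.a1, fun e => D.mU (e ▸ c.rU), D.a2, D.wy.symm⟩

include c D in
theorem p4 : P4 Ad r w d :=
  ⟨m, y, D.a1, fun e => D.mU (e ▸ c.rU), D.a2, D.wy.symm, D.a3, D.md.symm⟩

include c D in
theorem p5 {b : V} (h : Ad d b) (hb : b ∈ R) : P5 Ad r w b :=
  ⟨m, y, d, D.a1, fun e => D.mU (e ▸ c.rU), D.a2, D.wy.symm, D.a3, D.md.symm, h,
    ne_of_R c.sub hb D.yU⟩

include c D in
theorem m4 : b3 ∈ N4 Ad R r w := mem4 c D.mU D.wy.symm D.a1 D.a2 D.c3 D.r3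

include c D in
theorem b_nn {b : V} (h : Ad d b) (hb : b ∈ R) : b ∉ NN Ad R r w := by
  intro k
  rw [mem_NN] at k
  obtain ⟨-, k⟩ := k
  rcases k with k | k | k
  · subst k
    exact s51 c.gi (p5 c D h hb)
  · exact s52 c.gi (p5 c D h hb) k.1
  · exact s53 c.gi (p5 c D h hb) k

include c D in
theorem b_3 {b : V} (h : Ad d b) : b ≠ b3 := by
  rintro rfl
  exact c.gi.c3 y _ d D.c3 (c.gi.symm h) (c.gi.symm D.a3)

include c D in
theorem far_nn {x : V} (h : x = b3 ∨ (Ad d x ∧ x ∈ R)) : x ∉ NN Ad R r w := by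
  rcases h with rfl | ⟨h, hx⟩
  · exact disjoint_left.mp (N4_self c.gi) (m4 c D)
  · exact b_nn c D h hx

include c D in
theorem b_w {b : V} (hw : Ad r w) (hw' : Ad r w') (hne : w ≠ w') (h : Ad d b) (hb : b ∈ R) :
    b ≠ w' := by
  rintro rfl
  exact d15 c.gi hw hw' hne (p5 c D h hb)

include c D in
theorem b3_n2 (hw : Ad r w) (hw' : Ad r w') (hne : w ≠ w') : b3 ∉ N2 Ad R r w' :=
  disjoint_left.mp (N4_disj c.gi hw hw' hne) (m4 c D)

include c D in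
theorem pick (hw : Ad r w) (hw' : Ad r w') (hne : w ≠ w') :
    ∃ b, Ad d b ∧ b ∈ R ∧ b ∉ NN Ad R r w' := by
  by_cases h : b4 ∈ NN Ad R r w'
  · refine ⟨b5, D.c5, D.r5, fun h' => ?_⟩
    have k := p4 c D
    refine two_near c.gi (l := d) ?_ (fun k' => d24 c.gi hw hw' hne k k') D.c4 D.c5 D.n h h'
    rintro rfl
    exact d14 c.gi hw hw' k
  · exact ⟨b4, D.c4, D.r4, h⟩

include c D in
theorem key {p m' b : V} (hw : Ad r w) (hw' : Ad r w') (L : LL Ad U R w' p m' b3)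
    (h : Ad d b) (hb : b ∈ R) : b ≠ p := by
  obtain ⟨l1, l2, l3, l4, l5, l6, l7⟩ := L
  rintro rfl
  refine c.gi.c6 d b w' m' b3 y h (c.gi.symm l2) l5 l6 (c.gi.symm D.c3) D.a3 ?_
    (ne_of_R c.sub hb l4) (ne_of_R c.sub D.r3 l1).symm ?_ (ne_of_R c.sub D.r3 D.dU)
    (ne_of_R c.sub hb D.yU).symm
  · rintro rfl
    exact d14 c.gi hw hw' (p4 c D)
  · rintro rfl
    exact d23 c.gi hw hw' (p3 c D) ⟨l5, fun e => l4 (e ▸ c.rU)⟩

end dat

section cases

variable (t : Tri Ad U R r w1 w2 w3) (D : Dat Ad U R w1 m y d b3 b4 b5)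
  (h2 : 2 ≤ (NN Ad R r w1).card)

include t D h2 in
theorem core {T2 T3 X : Finset V}
    (k2 : T2 ⊆ NN Ad R r w2) (k3 : T3 ⊆ NN Ad R r w3)
    (hX : ∀ x ∈ X, x = b3 ∨ (Ad d x ∧ x ∈ R)) (e2 : ∀ x ∈ X, x ∉ T2) (e3 : ∀ x ∈ X, x ∉ T3)
    (h : 5 ≤ T2.card + T3.card + X.card) : False := by
  have hXR : X ⊆ R := by
    intro x hx
    rcases hX x hx with rfl | ⟨_, k⟩
    · exact D.r3
    · exact k
  have hX1 : Disjoint X (NN Ad R r w1) := by
    rw [disjoint_left]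
    intro x hx
    exact far_nn t.cx D (hX x hx)
  have := card4 NN_sub (k2.trans NN_sub) (k3.trans NN_sub) hXR
    ((NN_disj (R := R) t.cx.gi t.a1 t.a2 t.h12).mono_right k2)
    ((NN_disj (R := R) t.cx.gi t.a1 t.a3 t.h13).mono_right k3) hX1.symm
    ((NN_disj (R := R) t.cx.gi t.a2 t.a3 t.h23).mono k2 k3)
    (disjoint_left.mpr e2).symm (disjoint_left.mpr e3).symm
  have := t.cx.card
  omega

theorem self_sub {w : V} (h : w ∈ R) : ({w} : Finset V) ⊆ NN Ad R r w :=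
  singleton_subset_iff.mpr (mem_NN.mpr ⟨h, Or.inl rfl⟩)

theorem LL_sub (c : Cx Ad U R r) {w p m q : V} (L : LL Ad U R w p m q) :
    ({p, q} : Finset V) ⊆ NN Ad R r w := by
  obtain ⟨l1, l2, l3, l4, l5, l6, l7⟩ := L
  intro x hx
  rw [mem_insert, mem_singleton] at hx
  rcases hx with rfl | rfl
  · exact N2_NN (mem2 c l2 l3)
  · exact mem3 c l4 l1 l5 l6 l7

theorem LL_card (c : Cx Ad U R r) {w p m q : V} (L : LL Ad U R w p m q) :
    ({p, q} : Finset V).card = 2 := by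
  obtain ⟨l1, l2, l3, l4, l5, l6, l7⟩ := L
  refine card_pair ?_
  rintro rfl
  exact c.gi.c3 w p m l2 (c.gi.symm l6) (c.gi.symm l5)

theorem LL_ne (hw : Ad r w) (hw' : Ad r w') (hne : w ≠ w') (c : Cx Ad U R r)
    (D : Dat Ad U R w m y d b3 b4 b5) {p m' q : V} (L : LL Ad U R w' p m' q) : b3 ≠ p := by
  rintro rfl
  exact b3_n2 c D hw hw' hne (mem2 c L.2.1 L.2.2.1)

include t D h2 in
theorem cEE (k2 : w2 ∈ R) (k3 : w3 ∈ R) : False := by
  refine core t D h2 (T2 := {w2}) (T3 := {w3}) (X := {b3, b4, b5}) (self_sub k2) (self_sub k3)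
    ?_ ?_ ?_ ?_
  · intro x hx
    simp only [mem_insert, mem_singleton] at hx
    rcases hx with rfl | rfl | rfl
    · exact Or.inl rfl
    · exact Or.inr ⟨D.c4, D.r4⟩
    · exact Or.inr ⟨D.c5, D.r5⟩
  · intro x hx
    simp only [mem_insert, mem_singleton] at hx ⊢
    rcases hx with rfl | rfl | rfl
    · rintro rfl
      exact b3_n2 t.cx D t.a1 t.a2 t.h12 (mem_N2.mpr ⟨k2, Or.inl rfl⟩)
    · exact b_w t.cx D t.a1 t.a2 t.h12 D.c4 D.r4
    · exact b_w t.cx D t.a1 t.a2 t.h12 D.c5 D.r5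
  · intro x hx
    simp only [mem_insert, mem_singleton] at hx ⊢
    rcases hx with rfl | rfl | rfl
    · rintro rfl
      exact b3_n2 t.cx D t.a1 t.a3 t.h13 (mem_N2.mpr ⟨k3, Or.inl rfl⟩)
    · exact b_w t.cx D t.a1 t.a3 t.h13 D.c4 D.r4
    · exact b_w t.cx D t.a1 t.a3 t.h13 D.c5 D.r5
  · have e : ({b3, b4, b5} : Finset V).card = 3 :=
      card_eq_three.mpr ⟨b3, b4, b5, (b_3 t.cx D D.c4).symm, (b_3 t.cx D D.c5).symm, D.n, rfl⟩
    rw [e, card_singleton, card_singleton]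

include t D h2 in
/-- the extra set `{b3, b}` -/
theorem core2 {T2 T3 : Finset V} {b : V} (hb : Ad d b) (hbR : b ∈ R)
    (k2 : T2 ⊆ NN Ad R r w2) (k3 : T3 ⊆ NN Ad R r w3)
    (e2 : b3 ∉ T2) (f2 : b ∉ T2) (e3 : b3 ∉ T3) (f3 : b ∉ T3)
    (h : 3 ≤ T2.card + T3.card) : False := by
  refine core t D h2 (T2 := T2) (T3 := T3) (X := {b3, b}) k2 k3 ?_ ?_ ?_ ?_
  · intro x hx
    simp only [mem_insert, mem_singleton] at hx
    rcases hx with rfl | rfl
    · exact Or.inl rfl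
    · exact Or.inr ⟨hb, hbR⟩
  · intro x hx
    simp only [mem_insert, mem_singleton] at hx
    rcases hx with rfl | rfl <;> assumption
  · intro x hx
    simp only [mem_insert, mem_singleton] at hx
    rcases hx with rfl | rfl <;> assumption
  · rw [card_pair (b_3 t.cx D hb).symm]
    omega

include t D h2 in
/-- the extra set `{b}` -/
theorem core1 {T2 T3 : Finset V} {b : V} (hb : b = b3 ∨ (Ad d b ∧ b ∈ R))
    (k2 : T2 ⊆ NN Ad R r w2) (k3 : T3 ⊆ NN Ad R r w3)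
    (f2 : b ∉ T2) (f3 : b ∉ T3) (h : 4 ≤ T2.card + T3.card) : False := by
  refine core t D h2 (T2 := T2) (T3 := T3) (X := {b}) k2 k3 ?_ ?_ ?_ ?_
  · intro x hx
    rw [mem_singleton] at hx
    subst hx
    exact hb
  · intro x hx
    rw [mem_singleton] at hx
    subst hx
    exact f2
  · intro x hx
    rw [mem_singleton] at hx
    subst hx
    exact f3
  · rw [card_singleton]
    omega

include t D h2 in
theorem cES (k2 : w2 ∈ R) (k3 : 2 ≤ (N2 Ad R r w3).card) : False := by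
  obtain ⟨b, b1, b2, b3'⟩ := pick t.cx D t.a1 t.a3 t.h13
  refine core2 t D h2 (T2 := {w2}) (T3 := N2 Ad R r w3) b1 b2 (self_sub k2) N2_NN ?_ ?_
    (b3_n2 t.cx D t.a1 t.a3 t.h13) (fun k => b3' (N2_NN k)) ?_
  · rw [mem_singleton]
    rintro rfl
    exact b3_n2 t.cx D t.a1 t.a2 t.h12 (mem_N2.mpr ⟨k2, Or.inl rfl⟩)
  · rw [mem_singleton]
    exact b_w t.cx D t.a1 t.a2 t.h12 b1 b2
  · rw [card_singleton]
    omega

include t D h2 in
theorem cE3 (k2 : w2 ∈ R) (k3 : 3 ≤ (NN Ad R r w3).card) : False := by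
  obtain ⟨b, b1, b2, b3'⟩ := pick t.cx D t.a1 t.a3 t.h13
  refine core1 t D h2 (T2 := {w2}) (T3 := NN Ad R r w3) (Or.inr ⟨b1, b2⟩) (self_sub k2)
    (Subset.refl _) ?_ b3' ?_
  · rw [mem_singleton]
    exact b_w t.cx D t.a1 t.a2 t.h12 b1 b2
  · rw [card_singleton]
    omega

include t D h2 in
theorem cEL (k2 : w2 ∈ R) {p m' q : V} (L : LL Ad U R w3 p m' q) : False := by
  have n2 : b3 ∉ ({w2} : Finset V) := by
    rw [mem_singleton]
    rintro rfl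
    exact b3_n2 t.cx D t.a1 t.a2 t.h12 (mem_N2.mpr ⟨k2, Or.inl rfl⟩)
  have h3p := LL_ne t.a1 t.a3 t.h13 t.cx D L
  by_cases hq : b3 = q
  · subst hq
    refine core t D h2 (T2 := {w2}) (T3 := {p, b3}) (X := {b4, b5}) (self_sub k2)
      (LL_sub t.cx L) ?_ ?_ ?_ ?_
    · intro x hx
      simp only [mem_insert, mem_singleton] at hx
      rcases hx with rfl | rfl
      · exact Or.inr ⟨D.c4, D.r4⟩
      · exact Or.inr ⟨D.c5, D.r5⟩
    · intro x hx
      simp only [mem_insert, mem_singleton] at hx ⊢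
      rcases hx with rfl | rfl
      · exact b_w t.cx D t.a1 t.a2 t.h12 D.c4 D.r4
      · exact b_w t.cx D t.a1 t.a2 t.h12 D.c5 D.r5
    · intro x hx
      simp only [mem_insert, mem_singleton, not_or] at hx ⊢
      rcases hx with rfl | rfl
      · exact ⟨key t.cx D t.a1 t.a3 L D.c4 D.r4, b_3 t.cx D D.c4⟩
      · exact ⟨key t.cx D t.a1 t.a3 L D.c5 D.r5, b_3 t.cx D D.c5⟩
    · rw [LL_card t.cx L, card_singleton, card_pair D.n]
  · obtain ⟨b, b1, b2, b3'⟩ := pick t.cx D t.a1 t.a3 t.h13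
    refine core2 t D h2 (T2 := {w2}) (T3 := {p, q}) b1 b2 (self_sub k2) (LL_sub t.cx L) n2 ?_ ?_
      (fun k => b3' (LL_sub t.cx L k)) ?_
    · rw [mem_singleton]
      exact b_w t.cx D t.a1 t.a2 t.h12 b1 b2
    · simp only [mem_insert, mem_singleton, not_or]
      exact ⟨h3p, hq⟩
    · rw [LL_card t.cx L, card_singleton]

include t D h2 in
theorem cSS (k2 : 2 ≤ (N2 Ad R r w2).card) (k3 : 2 ≤ (N2 Ad R r w3).card) : False :=
  core1 t D h2 (T2 := N2 Ad R r w2) (T3 := N2 Ad R r w3) (Or.inl rfl) N2_NN N2_NN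
    (b3_n2 t.cx D t.a1 t.a2 t.h12) (b3_n2 t.cx D t.a1 t.a3 t.h13) (by omega)

include t D h2 in
theorem cSL (k2 : 2 ≤ (N2 Ad R r w2).card) {p m' q : V} (L : LL Ad U R w3 p m' q) : False := by
  have hc := LL_card t.cx L
  by_cases hq : b3 = q
  · subst hq
    obtain ⟨b, b1, b2, b3'⟩ := pick t.cx D t.a1 t.a2 t.h12
    refine core1 t D h2 (T2 := N2 Ad R r w2) (T3 := {p, b3}) (Or.inr ⟨b1, b2⟩) N2_NN
      (LL_sub t.cx L) (fun k => b3' (N2_NN k)) ?_ (by omega)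
    simp only [mem_insert, mem_singleton, not_or]
    exact ⟨key t.cx D t.a1 t.a3 L b1 b2, b_3 t.cx D b1⟩
  · refine core1 t D h2 (T2 := N2 Ad R r w2) (T3 := {p, q}) (Or.inl rfl) N2_NN
      (LL_sub t.cx L) (b3_n2 t.cx D t.a1 t.a2 t.h12) ?_ (by omega)
    simp only [mem_insert, mem_singleton, not_or]
    exact ⟨LL_ne t.a1 t.a3 t.h13 t.cx D L, hq⟩

include t D h2 in
theorem cLL {p m' q p2 m2 q2 : V} (L : LL Ad U R w2 p m' q) (L2 : LL Ad U R w3 p2 m2 q2) :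
    False := by
  have hc := LL_card t.cx L
  have hc2 := LL_card t.cx L2
  by_cases hq : b3 = q
  · subst hq
    obtain ⟨b, b1, b2, b3'⟩ := pick t.cx D t.a1 t.a3 t.h13
    refine core1 t D h2 (T2 := {p, b3}) (T3 := {p2, q2}) (Or.inr ⟨b1, b2⟩) (LL_sub t.cx L)
      (LL_sub t.cx L2) ?_ (fun k => b3' (LL_sub t.cx L2 k)) (by omega)
    simp only [mem_insert, mem_singleton, not_or]
    exact ⟨key t.cx D t.a1 t.a2 L b1 b2, b_3 t.cx D b1⟩
  · by_cases hq2 : b3 = q2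
    · subst hq2
      obtain ⟨b, b1, b2, b3'⟩ := pick t.cx D t.a1 t.a2 t.h12
      refine core1 t D h2 (T2 := {p, q}) (T3 := {p2, b3}) (Or.inr ⟨b1, b2⟩) (LL_sub t.cx L)
        (LL_sub t.cx L2) (fun k => b3' (LL_sub t.cx L k)) ?_ (by omega)
      simp only [mem_insert, mem_singleton, not_or]
      exact ⟨key t.cx D t.a1 t.a3 L2 b1 b2, b_3 t.cx D b1⟩
    · refine core1 t D h2 (T2 := {p, q}) (T3 := {p2, q2}) (Or.inl rfl) (LL_sub t.cx L)
        (LL_sub t.cx L2) ?_ ?_ (by omega)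
      · simp only [mem_insert, mem_singleton, not_or]
        exact ⟨LL_ne t.a1 t.a2 t.h12 t.cx D L, hq⟩
      · simp only [mem_insert, mem_singleton, not_or]
        exact ⟨LL_ne t.a1 t.a3 t.h13 t.cx D L2, hq2⟩

/-- the kinds of the other neighbours -/
def Kd (Ad : V → V → Prop) (U R : Finset V) (r w : V) : Prop :=
  w ∈ R ∨ 2 ≤ (N2 Ad R r w).card ∨ (∃ p m q, LL Ad U R w p m q) ∨ 3 ≤ (NN Ad R r w).card

theorem kind (hB : Brn Ad U R w1) (t : Tri Ad U R r w1 w2 w3) : Kd Ad U R r w2 := by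
  have c := t.cx
  rcases t.b2 with h | h | h | h | h | h | h | h | h
  · exact Or.inl h
  · exact Or.inr (Or.inl (BS.n2 c h))
  · exact Or.inr (Or.inr (Or.inr (BD.nn c h)))
  · obtain ⟨hU, ⟨p, p1, p2⟩, m, x, hm, hx, hwx, hwm, hmx, ⟨q, q1, q2⟩, _⟩ := h
    exact Or.inr (Or.inr (Or.inl ⟨p, m, q, hU, p1, p2, hm, hwm, q1, q2⟩))
  · exact Or.inr (Or.inr (Or.inr (by have := BTM.nn c h; omega)))
  · obtain ⟨hU, ⟨p, p1, p2⟩, m, y, d, hm, hy, hd, hwy, hmd, hwm, hmy, hyd, ⟨q, q1, q2⟩, _⟩ := h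
    exact Or.inr (Or.inr (Or.inl ⟨p, m, q, hU, p1, p2, hm, hwm, q1, q2⟩))
  · exact Or.inr (Or.inr (Or.inr (BPI.nn c h)))
  · exact absurd h (K V Ad U R r w2 w1 w3 (t.swap12 hB))
  · exact Or.inr (Or.inr (Or.inr (by have := BKC.nn c h; omega)))

theorem LL_nn (c : Cx Ad U R r) {w p m q : V} (L : LL Ad U R w p m q) :
    2 ≤ (NN Ad R r w).card := by
  rw [← LL_card c L]
  exact card_le_card (LL_sub c L)

end cases

end PE

theorem PE : St_PE := by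
  intro V _ Ad U R r w1 w2 w3 t h
  have hB : Brn Ad U R w1 := by unfold Brn; tauto
  have s := t.sum
  have h2 := BPE.nn t.cx h
  have K2 := PE.kind hB t
  have K3 := PE.kind hB t.swap23
  obtain ⟨hU, _, m, y, d, hm, hy, hd, hwy, hmd, hwm, hmy, hyd, _, ⟨b3, u1, u2⟩, b4, b5, hn, v1, v2,
    v3, v4⟩ := h
  have D : PE.Dat Ad U R w1 m y d b3 b4 b5 :=
    ⟨hU, hm, hy, hd, hwy, hmd, hwm, hmy, hyd, u1, v1, v2, u2, v3, v4, hn⟩
  have l2 := N2_le (Ad := Ad) (R := R) (r := r) (w := w2)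
  have l3 := N2_le (Ad := Ad) (R := R) (r := r) (w := w3)
  rcases K2 with k2 | k2 | ⟨p, m', q, k2⟩ | k2 <;> rcases K3 with k3 | k3 | ⟨p', m'', q', k3⟩ | k3
  · exact PE.cEE t D h2 k2 k3
  · exact PE.cES t D h2 k2 k3
  · exact PE.cEL t D h2 k2 k3
  · exact PE.cE3 t D h2 k2 k3
  · exact PE.cES t.swap23 D h2 k3 k2
  · exact PE.cSS t D h2 k2 k3
  · exact PE.cSL t D h2 k2 k3
  · omega
  · exact PE.cEL t.swap23 D h2 k3 k2
  · exact PE.cSL t.swap23 D h2 k3 k2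
  · exact PE.cLL t D h2 k2 k3
  · have := PE.LL_nn t.cx k2
    omega
  · exact PE.cE3 t.swap23 D h2 k3 k2
  · omega
  · have := PE.LL_nn t.cx k3
    omega
  · omega

end Pool.Agent.TH676.Z
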