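import Pool.Agent.TH676.Z.Cnt

set_option autoImplicit false
set_option linter.unusedSectionVars false

/-! # The elimination step -/

namespace Pool.Agent.TH676.Z

open Finset

section

variable {V : Type} [Fintype V] [DecidableEq V] {Ad : V → V → Prop} {In : Finset V → Prop}
  {U R : Finset V} {r : V}

omit [Fintype V] in
theorem Ty.brn {P : Finset V} {w : V} (h : Ty Ad U R P w) : Brn Ad U R w := by
  unfold Brn
  rcases h with h | h | h | h | h | h | h | h
  · exact Or.inr (Or.inl h.1)
  · exact Or.inr (Or.inr (Or.inl h.1))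
  · exact Or.inr (Or.inr (Or.inr (Or.inl h.1)))
  · exact Or.inr (Or.inr (Or.inr (Or.inr (Or.inl h.1))))
  · tauto
  · tauto
  · tauto
  · tauto

/-- the small types -/
def Ty4 (Ad : V → V → Prop) (U R P : Finset V) (w : V) : Prop :=
  (BS Ad U R w ∧ P = {w}) ∨
  (BD Ad U R w ∧ ∃ z, Ad w z ∧ P = {w, z}) ∨
  (BTE Ad U R w ∧ ∃ m x, Ad w m ∧ Ad m x ∧ w ≠ x ∧ P = {w, m, x}) ∨
  (BTM Ad U R w ∧ ∃ a b, Ad w a ∧ Ad w b ∧ a ≠ b ∧ P = {a, w, b})

theorem Ty.red (h8 : St_PE) {P : Finset V} {w w2 w3 : V} (t : Tri Ad U R r w w2 w3)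
    (h : Ty Ad U R P w) : Ty4 Ad U R P w := by
  rcases h with h | h | h | h | h | h | h | h
  · exact Or.inl h
  · exact Or.inr (Or.inl h)
  · exact Or.inr (Or.inr (Or.inl h))
  · exact Or.inr (Or.inr (Or.inr h))
  · exact absurd h (h8 V Ad U R r w w2 w3 t)
  · exact absurd h (PI V Ad U R r w w2 w3 t)
  · exact absurd h (K V Ad U R r w w2 w3 t)
  · exact absurd h (KC V Ad U R r w w2 w3 t)

/-- the description of the new piece -/
structure Good (Ad : V → V → Prop) (In : Finset V → Prop) (U : Finset V) (r : V) (P : Finset V) :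
    Prop where
  mem : r ∈ P
  sh : Sh Ad P
  src : ∀ x ∈ P, x = r ∨ ∃ Q, Pc Ad In U Q ∧ Sh Ad Q ∧ x ∈ Q ∧ Q ⊆ P ∧ ∃ y ∈ Q, Ad r y
  nbr : ∀ y, Ad r y → y ∉ U → y ∈ P

/-- there are two more neighbours -/
theorem two_more (h3 : Three Ad) {w : V} (hw : Ad r w) :
    ∃ p q, Ad r p ∧ Ad r q ∧ p ≠ q ∧ w ≠ p ∧ w ≠ q := by
  obtain ⟨a, b, c, ha, hb, hc, hab, hac, hbc⟩ := h3 r w hw
  by_cases h1 : w = a
  · exact ⟨b, c, hb, hc, hbc, h1 ▸ hab, h1 ▸ hac⟩
  · by_cases h2 : w = b
    · exact ⟨a, c, ha, hc, hac, h1, h2 ▸ hbc⟩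
    · exact ⟨a, b, ha, hb, hab, h1, h2⟩

theorem one_more (h3 : Three Ad) {w w' : V} (hw : Ad r w) :
    ∃ p, Ad r p ∧ w ≠ p ∧ w' ≠ p := by
  obtain ⟨p, q, hp, hq, hpq, h1, h2⟩ := two_more h3 hw
  by_cases h : w' = p
  · exact ⟨q, hq, h2, h ▸ hpq⟩
  · exact ⟨p, hp, h1, h⟩

theorem good (h8 : St_PE) (h9 : St_TE) (hTM : St_TM) (hDD : St_DD) (hSS : St_SS)
    (c : Cx Ad U R r) (h3 : Three Ad)
    (nb : ∀ v, Ad r v → v ∈ R ∨ (v ∉ U ∧ ∃ Q, v ∈ Q ∧ Pc Ad In U Q ∧ Sh Ad Q ∧ Ty Ad U R Q v))
    {w0 : V} (hw0 : Ad r w0) : ∃ P, Good Ad In U r P := by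
  have g := c.gi
  have brn : ∀ v, Ad r v → Brn Ad U R v := by
    intro v hv
    rcases nb v hv with h | ⟨_, Q, _, _, _, h⟩
    · exact Or.inl h
    · exact h.brn
  have tri : ∀ a b d, Ad r a → Ad r b → Ad r d → a ≠ b → a ≠ d → b ≠ d → Tri Ad U R r a b d :=
    fun a b d ha hb hd h1 h2 h3 => ⟨c, ha, hb, hd, h1, h2, h3, brn b hb, brn d hd⟩
  have get : ∀ v, Ad r v → v ∉ U → ∃ Q, v ∈ Q ∧ Pc Ad In U Q ∧ Sh Ad Q ∧ Ty4 Ad U R Q v := by
    intro v hv hvU
    rcases nb v hv with h | ⟨_, Q, h1, h2, h4, h⟩
    · exact absurd (c.sub h) hvU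
    · obtain ⟨p, q, hp, hq, hpq, e1, e2⟩ := two_more h3 hv
      exact ⟨Q, h1, h2, h4, h.red h8 (tri v p q hv hp hq e1 e2 hpq)⟩
  -- next to a path with three vertices all neighbours are in `U`
  have noT : ∀ v v', Ad r v → Ad r v' → v ≠ v' → v' ∉ U → ¬ BTE Ad U R v ∧ ¬ BTM Ad U R v := by
    intro v v' hv hv' hne hU
    obtain ⟨p, hp, e1, e2⟩ := one_more (w' := v') h3 hv
    have t := tri v v' p hv hv' hp hne e1 e2
    exact ⟨fun h => hU (h9 V Ad U R r v v' p t h), fun h => hU (hTM V Ad U R r v v' p t h)⟩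
  have noD : ∀ v v' v'', Ad r v → Ad r v' → Ad r v'' → v ≠ v' → v ≠ v'' → v' ≠ v'' → v' ∉ U →
      v'' ∉ U → ¬ BD Ad U R v := by
    intro v v' v'' hv hv' hv'' e1 e2 e3 hU hU2 h
    rcases (hDD V Ad U R r v v' v'' (tri v v' v'' hv hv' hv'' e1 e2 e3) h).2 with h | h
    · exact hU h
    · exact hU2 h
  have rne : ∀ v z, Ad r v → Ad v z → z ∉ U → r ≠ z := by
    rintro v z _ _ hz rfl
    exact hz c.rU
  by_cases hN1 : ∃ w, Ad r w ∧ w ∉ U
  · obtain ⟨w, hw, hwU⟩ := hN1
    obtain ⟨Q, hwQ, hQ, hQs, hT⟩ := get w hw hwU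
    by_cases hN2 : ∃ w', Ad r w' ∧ w' ∉ U ∧ w ≠ w'
    · obtain ⟨w', hw', hwU', hne⟩ := hN2
      obtain ⟨Q', hwQ', hQ', hQs', hT'⟩ := get w' hw' hwU'
      -- both are single or double
      have hT2 : (BS Ad U R w ∧ Q = {w}) ∨ (BD Ad U R w ∧ ∃ z, Ad w z ∧ Q = {w, z}) := by
        have := noT w w' hw hw' hne hwU'
        rcases hT with h | h | h | h
        · exact Or.inl h
        · exact Or.inr h
        · exact absurd h.1 this.1
        · exact absurd h.1 this.2
      have hT2' : (BS Ad U R w' ∧ Q' = {w'}) ∨ (BD Ad U R w' ∧ ∃ z, Ad w' z ∧ Q' = {w', z}) := by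
        have := noT w' w hw' hw hne.symm hwU
        rcases hT' with h | h | h | h
        · exact Or.inl h
        · exact Or.inr h
        · exact absurd h.1 this.1
        · exact absurd h.1 this.2
      by_cases hN3 : ∃ w'', Ad r w'' ∧ w'' ∉ U ∧ w ≠ w'' ∧ w' ≠ w''
      · obtain ⟨w'', hw'', hwU'', hne2, hne3⟩ := hN3
        obtain ⟨Q'', hwQ'', hQ'', hQs'', hT''⟩ := get w'' hw'' hwU''
        have e1 : Q = {w} := by
          rcases hT2 with h | h
          · exact h.2
          · exact absurd h.1 (noD w w' w'' hw hw' hw'' hne hne2 hne3 hwU' hwU'')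
        have e2 : Q' = {w'} := by
          rcases hT2' with h | h
          · exact h.2
          · exact absurd h.1 (noD w' w w'' hw' hw hw'' hne.symm hne3 hne2 hwU hwU'')
        have e3 : Q'' = {w''} := by
          have := noT w'' w hw'' hw hne2.symm hwU
          rcases hT'' with h | h | h | h
          · exact h.2
          · exact absurd h.1 (noD w'' w w' hw'' hw hw' hne2.symm hne3.symm hne hwU hwU')
          · exact absurd h.1 this.1
          · exact absurd h.1 this.2
        subst e1; subst e2; subst e3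
        refine ⟨{r, w, w', w''}, by simp, ?_, ?_, ?_⟩
        · exact Or.inr (Or.inr (Or.inr (Or.inr ⟨r, w, w', w'', hw, hw', hw'', hne, hne2, hne3,
            rfl⟩)))
        · intro x hx
          simp only [mem_insert, mem_singleton] at hx
          rcases hx with rfl | rfl | rfl | rfl
          · exact Or.inl rfl
          · exact Or.inr ⟨_, hQ, hQs, mem_singleton_self _, by
              intro y hy; rw [mem_singleton] at hy; simp [hy], _, mem_singleton_self _, hw⟩
          · exact Or.inr ⟨_, hQ', hQs', mem_singleton_self _, by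
              intro y hy; rw [mem_singleton] at hy; simp [hy], _, mem_singleton_self _, hw'⟩
          · exact Or.inr ⟨_, hQ'', hQs'', mem_singleton_self _, by
              intro y hy; rw [mem_singleton] at hy; simp [hy], _, mem_singleton_self _, hw''⟩
        · intro y hy hyU
          by_contra hc
          simp only [mem_insert, mem_singleton, not_or] at hc
          rcases hSS V Ad U R r w w' w'' y (tri w w' w'' hw hw' hw'' hne hne2 hne3)
            (brn w hw) hy hc.2.1 hc.2.2.1 hc.2.2.2 (brn y hy) with h | h | h | h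
          · exact hwU h
          · exact hwU' h
          · exact hwU'' h
          · exact hyU h
      · have honly : ∀ y, Ad r y → y ∉ U → y = w ∨ y = w' := by
          intro y hy hyU
          by_contra hc
          push Not at hc
          exact hN3 ⟨y, hy, hyU, hc.1.symm, hc.2.symm⟩
        rcases hT2 with ⟨_, e1⟩ | ⟨hd, z, hz, e1⟩ <;> rcases hT2' with ⟨_, e2⟩ | ⟨hd', z', hz', e2⟩
        · subst e1; subst e2
          refine ⟨{w, r, w'}, by simp, ?_, ?_, ?_⟩
          · exact Or.inr (Or.inr (Or.inl ⟨w, r, w', g.symm hw, hw', hne, rfl⟩))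
          · intro x hx
            simp only [mem_insert, mem_singleton] at hx
            rcases hx with rfl | rfl | rfl
            · exact Or.inr ⟨_, hQ, hQs, mem_singleton_self _, by
                intro y hy; rw [mem_singleton] at hy; simp [hy], _, mem_singleton_self _, hw⟩
            · exact Or.inl rfl
            · exact Or.inr ⟨_, hQ', hQs', mem_singleton_self _, by
                intro y hy; rw [mem_singleton] at hy; simp [hy], _, mem_singleton_self _, hw'⟩
          · intro y hy hyU
            rcases honly y hy hyU with rfl | rfl <;> simp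
        · subst e1; subst e2
          have hzU : z' ∉ U := hQ'.out z' (by simp)
          refine ⟨{w, r, w', z'}, by simp, ?_, ?_, ?_⟩
          · exact Or.inr (Or.inr (Or.inr (Or.inl ⟨w, r, w', z', g.symm hw, hw', hz', hne,
              rne w' z' hw' hz' hzU, rfl⟩)))
          · intro x hx
            simp only [mem_insert, mem_singleton] at hx
            rcases hx with rfl | rfl | rfl | rfl
            · exact Or.inr ⟨_, hQ, hQs, mem_singleton_self _, by
                intro y hy; rw [mem_singleton] at hy; simp [hy], _, mem_singleton_self _, hw⟩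
            · exact Or.inl rfl
            · exact Or.inr ⟨_, hQ', hQs', by simp, by
                intro y hy; simp only [mem_insert, mem_singleton] at hy
                rcases hy with hy | hy <;> simp [hy], x, by simp, hw'⟩
            · exact Or.inr ⟨_, hQ', hQs', by simp, by
                intro y hy; simp only [mem_insert, mem_singleton] at hy
                rcases hy with hy | hy <;> simp [hy], w', by simp, hw'⟩
          · intro y hy hyU
            rcases honly y hy hyU with rfl | rfl <;> simp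
        · subst e1; subst e2
          have hzU : z ∉ U := hQ.out z (by simp)
          refine ⟨{w', r, w, z}, by simp, ?_, ?_, ?_⟩
          · exact Or.inr (Or.inr (Or.inr (Or.inl ⟨w', r, w, z, g.symm hw', hw, hz, hne.symm,
              rne w z hw hz hzU, rfl⟩)))
          · intro x hx
            simp only [mem_insert, mem_singleton] at hx
            rcases hx with rfl | rfl | rfl | rfl
            · exact Or.inr ⟨_, hQ', hQs', mem_singleton_self _, by
                intro y hy; rw [mem_singleton] at hy; simp [hy], _, mem_singleton_self _, hw'⟩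
            · exact Or.inl rfl
            · exact Or.inr ⟨_, hQ, hQs, by simp, by
                intro y hy; simp only [mem_insert, mem_singleton] at hy
                rcases hy with hy | hy <;> simp [hy], x, by simp, hw⟩
            · exact Or.inr ⟨_, hQ, hQs, by simp, by
                intro y hy; simp only [mem_insert, mem_singleton] at hy
                rcases hy with hy | hy <;> simp [hy], w, by simp, hw⟩
          · intro y hy hyU
            rcases honly y hy hyU with rfl | rfl <;> simp
        · exfalso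
          obtain ⟨p, hp, e1, e2⟩ := one_more (w' := w') h3 hw
          have t := tri w w' p hw hw' hp hne e1 e2
          have s := t.sum
          have a1 := BD.nn c hd
          have a2 := BD.nn c hd'
          have a3 := Brn.nn c (brn p hp)
          omega
    · have honly : ∀ y, Ad r y → y ∉ U → y = w := by
        intro y hy hyU
        by_contra hc
        exact hN2 ⟨y, hy, hyU, Ne.symm hc⟩
      rcases hT with ⟨_, e1⟩ | ⟨_, z, hz, e1⟩ | ⟨_, m, x, hm, hx, hwx, e1⟩ | ⟨_, a, b, ha, hb, hab, e1⟩
      · subst e1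
        refine ⟨{r, w}, by simp, Or.inr (Or.inl ⟨r, w, hw, rfl⟩), ?_, ?_⟩
        · intro x hx
          simp only [mem_insert, mem_singleton] at hx
          rcases hx with rfl | rfl
          · exact Or.inl rfl
          · exact Or.inr ⟨_, hQ, hQs, mem_singleton_self _, by
              intro y hy; rw [mem_singleton] at hy; simp [hy], _, mem_singleton_self _, hw⟩
        · intro y hy hyU
          rw [honly y hy hyU]; simp
      · subst e1
        have hzU : z ∉ U := hQ.out z (by simp)
        refine ⟨insert r {w, z}, by simp, Or.inr (Or.inr (Or.inl ⟨r, w, z, hw, hz,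
          rne w z hw hz hzU, rfl⟩)), ?_, ?_⟩
        · intro x hx
          rw [mem_insert] at hx
          rcases hx with rfl | hx
          · exact Or.inl rfl
          · exact Or.inr ⟨_, hQ, hQs, hx, subset_insert _ _, w, hwQ, hw⟩
        · intro y hy hyU
          rw [honly y hy hyU]; simp
      · subst e1
        have hmU : m ∉ U := hQ.out m (by simp)
        refine ⟨insert r {w, m, x}, by simp, Or.inr (Or.inr (Or.inr (Or.inl ⟨r, w, m, x, hw, hm, hx,
          rne w m hw hm hmU, hwx, rfl⟩))), ?_, ?_⟩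
        · intro y hy
          rw [mem_insert] at hy
          rcases hy with rfl | hy
          · exact Or.inl rfl
          · exact Or.inr ⟨_, hQ, hQs, hy, subset_insert _ _, w, hwQ, hw⟩
        · intro y hy hyU
          rw [honly y hy hyU]; simp
      · subst e1
        have haU : a ∉ U := hQ.out a (by simp)
        have hbU : b ∉ U := hQ.out b (by simp)
        refine ⟨insert r {a, w, b}, by simp, Or.inr (Or.inr (Or.inr (Or.inr ⟨w, r, a, b, g.symm hw,
          ha, hb, rne w a hw ha haU, rne w b hw hb hbU, hab, ?_⟩))), ?_, ?_⟩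
        · ext y
          simp only [mem_insert, mem_singleton]
          tauto
        · intro y hy
          rw [mem_insert] at hy
          rcases hy with rfl | hy
          · exact Or.inl rfl
          · exact Or.inr ⟨_, hQ, hQs, hy, subset_insert _ _, w, hwQ, hw⟩
        · intro y hy hyU
          rw [honly y hy hyU]; simp
  · push Not at hN1
    refine ⟨{r}, by simp, Or.inl ⟨r, rfl⟩, ?_, ?_⟩
    · intro x hx
      exact Or.inl (mem_singleton.mp hx)
    · intro y hy hyU
      exact absurd (hN1 y hy) hyU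

end

theorem step (h8 : St_PE) (h9 : St_TE) (hTM : St_TM) (hDD : St_DD) (hSS : St_SS)
    (h11 : St_type) (h12 : St_uniq) (h13 : St_merge) : St_step := by
  intro V _ _ Ad In U W r g h3 hb hW hrW hel hrU hI
  classical
  have hrWU : r ∈ W ∩ U := mem_inter.mpr ⟨hrW, hrU⟩
  have c : Cx Ad U ((W ∩ U).erase r) r :=
    ⟨g, (erase_subset _ _).trans inter_subset_right, hrU, notMem_erase _ _, by
      rw [card_erase_of_mem hrWU]
      have := card_le_card (inter_subset_left (s₁ := W) (s₂ := U))
      have := hb.card W hW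
      omega⟩
  have persist : ∀ P, Pc Ad In U P → (∀ y ∈ P, ¬ Ad r y) → Pc Ad In (U.erase r) P := by
    intro P hP hr
    refine ⟨fun x hx h => hP.out x hx (mem_of_mem_erase h), ?_, ?_⟩
    · intro x hx y hxy
      rcases hP.cl x hx y hxy with h | h
      · exact Or.inl h
      · refine Or.inr (mem_erase.mpr ⟨?_, h⟩)
        rintro rfl
        exact hr x hx (g.symm hxy)
    · refine hb.mono _ _ ?_ hP.inn
      intro v hv
      unfold onb at hv ⊢
      rw [mem_filter] at hv ⊢
      exact ⟨hv.1, mem_of_mem_erase hv.2.1, hv.2.2⟩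
  have nb : ∀ v, Ad r v → v ∈ (W ∩ U).erase r ∨ (v ∉ U ∧ ∃ Q, v ∈ Q ∧ Pc Ad In U Q ∧ Sh Ad Q ∧
      Ty Ad U ((W ∩ U).erase r) Q v) := by
    intro v hv
    by_cases hvU : v ∈ U
    · refine Or.inl (mem_erase.mpr ⟨?_, mem_inter.mpr ⟨?_, hvU⟩⟩)
      · rintro rfl
        exact g.c2 _ hv
      · refine hel {r, v} (hb.edge r v hv) ?_ (by simp) (by simp)
        intro x hx
        rw [mem_insert, mem_singleton] at hx
        rcases hx with rfl | rfl <;> assumption
    · obtain ⟨P, hP1, hP2, hP3⟩ := hI v hvU ⟨r, g.symm hv⟩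
      exact Or.inr ⟨hvU, P, hP1, hP2, hP3,
        h11 V Ad In U W P r v g h3 hb hel hrU hv hP1 hP2 hP3⟩
  by_cases hr : ∃ w, Ad r w
  · obtain ⟨w0, hw0⟩ := hr
    obtain ⟨P, hP⟩ := good (In := In) h8 h9 hTM hDD hSS c h3 nb hw0
    have hPc : Pc Ad In (U.erase r) P := h13 V Ad In U W P r g hb hW hrW hel hrU hP.mem
      (fun x hx => by
        rcases hP.src x hx with h | ⟨Q, h1, _, h4, h5, h6⟩
        · exact Or.inl h
        · exact Or.inr ⟨Q, h1, h4, h5, h6⟩) hP.nbr
    intro x hx hxn
    by_cases hxr : x = r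
    · subst hxr
      exact ⟨P, hP.mem, hPc, hP.sh⟩
    · have hxU : x ∉ U := fun h => hx (mem_erase.mpr ⟨hxr, h⟩)
      obtain ⟨Q, hQ1, hQ2, hQ3⟩ := hI x hxU hxn
      by_cases ha : ∃ y ∈ Q, Ad r y
      · obtain ⟨y, hy, hry⟩ := ha
        have hyU := hQ2.out y hy
        have hyP := hP.nbr y hry hyU
        rcases hP.src y hyP with h | ⟨Q', h1, h2, h4, h5, _⟩
        · subst h; exact absurd hry (g.c2 y)
        · have := h12 V Ad In U Q Q' y g hQ2 hQ3 h1 h2 hy h4
          exact ⟨P, h5 (this ▸ hQ1), hPc, hP.sh⟩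
      · push Not at ha
        exact ⟨Q, hQ1, persist Q hQ2 ha, hQ3⟩
  · push Not at hr
    intro x hx hxn
    have hxr : x ≠ r := by
      rintro rfl
      obtain ⟨y, hy⟩ := hxn
      exact hr y hy
    obtain ⟨Q, hQ1, hQ2, hQ3⟩ := hI x (fun h => hx (mem_erase.mpr ⟨hxr, h⟩)) hxn
    exact ⟨Q, hQ1, persist Q hQ2 (fun y _ => hr y), hQ3⟩

end Pool.Agent.TH676.Z
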