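import Pool.Agent.TH676.Z.Cnt

set_option autoImplicit false
set_option linter.unusedSectionVars false

/-! # Next to a path attached at its end all neighbours are in `U` -/

namespace Pool.Agent.TH676.Z

open Finset

namespace TE

variable {V : Type} [DecidableEq V] {Ad : V → V → Prop} {U R : Finset V} {r w1 w2 w3 : V}

theorem cnt2 (t : Tri Ad U R r w1 w2 w3) {B : Finset V} (hB : B ⊆ NN Ad R r w2) {f g : V}
    (hfg : f ≠ g) (hf : f ∈ R) (hg : g ∈ R) (f1 : f ∉ NN Ad R r w1) (g1 : g ∉ NN Ad R r w1)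
    (f2 : f ∉ B) (g2 : g ∉ B) (f3 : f ∉ N2 Ad R r w3) (g3 : g ∉ N2 Ad R r w3) :
    (NN Ad R r w1).card + B.card + (N2 Ad R r w3).card + 2 ≤ 6 := by
  have hd : ∀ A : Finset V, f ∉ A → g ∉ A → Disjoint A {f, g} := by
    intro A h1 h2
    rw [disjoint_left]
    intro y hy hy2
    rw [mem_insert, mem_singleton] at hy2
    rcases hy2 with rfl | rfl
    · exact h1 hy
    · exact h2 hy
  have hsub : ({f, g} : Finset V) ⊆ R := by
    intro y hy
    rw [mem_insert, mem_singleton] at hy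
    rcases hy with rfl | rfl <;> assumption
  have := card4 (A := NN Ad R r w1) (B := B) (C := N2 Ad R r w3) (D := {f, g}) (R := R) NN_sub
    (hB.trans NN_sub) N2_sub hsub ((NN_disj t.cx.gi t.a1 t.a2 t.h12).mono_right hB)
    (N2_disj t.cx.gi t.a3 t.a1 t.h13.symm).symm (hd _ f1 g1)
    ((N2_disj t.cx.gi t.a3 t.a2 t.h23.symm).symm.mono_left hB) (hd _ f2 g2) (hd _ f3 g3)
  rw [card_pair hfg] at this
  exact this.trans t.cx.card

theorem core (t : Tri Ad U R r w1 w2 w3) (n1 : 2 ≤ (NN Ad R r w1).card)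
    (n2 : 2 ≤ (NN Ad R r w2).card) (n3 : 1 ≤ (N2 Ad R r w3).card)
    {m x : V} (hm : m ∉ U) (hwx : w1 ≠ x) (hwm : Ad w1 m)
    (hmx : Ad m x) (hU2 : w2 ∉ U) {b1 b2 m' x' : V} (w2b1 : Ad w2 b1) (b1R : b1 ∈ R)
    (hm' : m' ∉ U) (hwx' : w2 ≠ x') (hwm' : Ad w2 m') (hmx' : Ad m' x')
    (mb2 : Ad m' b2) (b2R : b2 ∈ R) {f f' g : V} (hff : f ≠ f') (xf : Ad x f) (xf' : Ad x f')
    (fR : f ∈ R) (fR' : f' ∈ R) (hfn : f ∉ NN Ad R r w2) (xg : Ad x' g) (gR : g ∈ R)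
    (hgn : g ∉ NN Ad R r w1) : False := by
  have gi := t.cx.gi
  have q1 := mem4 t.cx hm hwx.symm hwm hmx xf fR
  have q2 := mem4 t.cx hm hwx.symm hwm hmx xf' fR'
  have q3 := mem4 t.cx hm' hwx'.symm hwm' hmx' xg gR
  have f1 := disjoint_left.mp (N4_self gi) q1
  have f1' := disjoint_left.mp (N4_self gi) q2
  have g2 := disjoint_left.mp (N4_self gi) q3
  have f3 := disjoint_left.mp (N4_disj gi t.a1 t.a3 t.h13) q1
  have f3' := disjoint_left.mp (N4_disj gi t.a1 t.a3 t.h13) q2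
  have g3 := disjoint_left.mp (N4_disj gi t.a2 t.a3 t.h23) q3
  by_cases hfg : f = g
  · subst hfg
    by_cases hb1 : f' = b1
    · subst hb1
      exact disjoint_left.mp (N4_disj gi t.a1 t.a2 t.h12) q2 (mem2 t.cx w2b1 b1R)
    · by_cases hb2 : f' = b2
      · subst hb2
        exact gi.c5 x f' m' x' f xf' (gi.symm mb2) hmx' xg (gi.symm xf)
      · have hne : b1 ≠ b2 := fun e => gi.c3 w2 b1 m' w2b1 (gi.symm (e ▸ mb2)) (gi.symm hwm')
        have hB : ({b1, b2} : Finset V) ⊆ NN Ad R r w2 := by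
          intro y hy
          rw [mem_insert, mem_singleton] at hy
          rcases hy with rfl | rfl
          · exact N2_NN (mem2 t.cx w2b1 b1R)
          · exact mem3 t.cx hm' hU2 hwm' mb2 b2R
        have h1 : f ∉ ({b1, b2} : Finset V) := fun h => hfn (hB h)
        have h2 : f' ∉ ({b1, b2} : Finset V) := by
          rw [mem_insert, mem_singleton]
          rintro (h | h)
          · exact hb1 h
          · exact hb2 h
        have := cnt2 t hB hff fR fR' f1 f1' h1 h2 f3 f3'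
        rw [card_pair hne] at this
        omega
  · have := cnt2 t (Subset.refl _) hfg fR gR f1 hgn hfn g2 f3 g3
    omega

end TE

open TE in
theorem TE (h8 : St_PE) : St_TE := by
  intro V _ Ad U R r w1 w2 w3 t h
  by_contra hw2
  have hB1 : Brn Ad U R w1 := by unfold Brn; tauto
  have n1 := BTE.nn t.cx h
  have n4 := BTE.n4 t.cx h
  have s := t.sum
  have s4 := t.sum4
  have le2 := N2_le (Ad := Ad) (R := R) (r := r) (w := w2)
  have le3 := N2_le (Ad := Ad) (R := R) (r := r) (w := w3)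
  have p2 := Brn.nn t.cx t.b2
  have p3 := Brn.nn t.cx t.b3
  have q3 := Brn.pos t.cx t.b3
  obtain ⟨hU1, ho1, m, x, hm, hx, hwx, hwm, hmx, ho2, f1, f2, hf12, xf1, xf2, f1R, f2R⟩ := h
  rcases t.b2 with k | k | k | k | k | k | k | k | k
  · exact hw2 (t.cx.sub k)
  · have := BS.n2 t.cx k
    rcases q3 with q3 | q3 <;> omega
  · have k1 := BD.nn t.cx k
    have k2 := t.far hwm hm hmx hwx.symm xf1 xf2 hf12 f1R f2R
    rcases q3 with q3 | q3 <;> omega
  · have n2 := BTE.nn t.cx k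
    rcases q3 with q3 | q3
    swap
    · omega
    obtain ⟨hU2, ⟨b1, w2b1, b1R⟩, m', x', hm', hx', hwx', hwm', hmx', ⟨b2, mb2, b2R⟩, g1, g2,
      hg12, xg1, xg2, g1R, g2R⟩ := k
    have gi := t.cx.gi
    have e1 : P3 Ad r w1 x := ⟨m, hwm, fun e => hm (e ▸ t.cx.rU), hmx, hwx.symm⟩
    have e2 : P3 Ad r w2 x' := ⟨m', hwm', fun e => hm' (e ▸ t.cx.rU), hmx', hwx'.symm⟩
    have e3 : x ≠ w2 := by
      rintro rfl
      exact d13 gi t.a1 t.a2 t.h12 e1
    have e4 : ¬ P2 Ad r w2 x := fun h => d23 gi t.a1 t.a2 e1 h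
    have e5 : x' ≠ w1 := by
      rintro rfl
      exact d13 gi t.a2 t.a1 t.h12.symm e2
    have e6 : ¬ P2 Ad r w1 x' := fun h => d23 gi t.a2 t.a1 e2 h
    have hF : ∃ f f', f ≠ f' ∧ Ad x f ∧ Ad x f' ∧ f ∈ R ∧ f' ∈ R ∧ f ∉ NN Ad R r w2 := by
      by_cases h1 : f1 ∈ NN Ad R r w2
      · exact ⟨f2, f1, hf12.symm, xf2, xf1, f2R, f1R,
          fun h2 => two_near gi e3 e4 xf1 xf2 hf12 h1 h2⟩
      · exact ⟨f1, f2, hf12, xf1, xf2, f1R, f2R, h1⟩
    have hG : ∃ g, Ad x' g ∧ g ∈ R ∧ g ∉ NN Ad R r w1 := by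
      by_cases h1 : g1 ∈ NN Ad R r w1
      · exact ⟨g2, xg2, g2R, fun h2 => two_near gi e5 e6 xg1 xg2 hg12 h1 h2⟩
      · exact ⟨g1, xg1, g1R, h1⟩
    obtain ⟨f, f', k1, k2, k3, k4, k5, k6⟩ := hF
    obtain ⟨g, l1, l2, l3⟩ := hG
    exact core t n1 n2 q3 hm hwx hwm hmx hU2 w2b1 b1R hm' hwx' hwm' hmx' mb2 b2R k1 k2 k3 k4 k5 k6
      l1 l2 l3
  · have := BTM.nn t.cx k
    omega
  · exact h8 V Ad U R r w2 w1 w3 (t.swap12 hB1) k
  · exact PI V Ad U R r w2 w1 w3 (t.swap12 hB1) k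
  · exact K V Ad U R r w2 w1 w3 (t.swap12 hB1) k
  · exact KC V Ad U R r w2 w1 w3 (t.swap12 hB1) k

end Pool.Agent.TH676.Z
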