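import Pool.Agent.TH676.Z.Cnt

set_option autoImplicit false
set_option linter.unusedSectionVars false

/-! # Branches of the types `TM`, `D`, `S` -/

namespace Pool.Agent.TH676.Z

open Finset

namespace TM

variable {V : Type} [DecidableEq V] {Ad : V → V → Prop} {U R : Finset V} {r w w' w'' : V}

/-- a branch at a vertex outside `U` has two near neighbours -/
theorem nn2 (t : Tri Ad U R r w w' w'') (b : Brn Ad U R w) (hU : w ∉ U) :
    2 ≤ (NN Ad R r w).card := by
  have h1 := N2_le (Ad := Ad) (R := R) (r := r) (w := w)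
  rcases b with h | h | h | h | h | h | h | h | h
  · exact absurd (t.cx.sub h) hU
  · have := BS.n2 t.cx h; omega
  · have := BD.nn t.cx h; omega
  · exact BTE.nn t.cx h
  · have := BTM.nn t.cx h; omega
  · exact BPE.nn t.cx h
  · have := BPI.nn t.cx h; omega
  · exact absurd h (K V Ad U R r w w' w'' t)
  · have := BKC.nn t.cx h; omega

end TM

theorem TM (h8 : St_PE) (h9 : St_TE) : St_TM := by
  intro V _ Ad U R r w1 w2 w3 t h
  by_contra hU
  have hB : Brn Ad U R w1 := by unfold Brn; tauto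
  have s := t.sum
  have a1 := BTM.nn t.cx h
  have a2 := TM.nn2 (t.swap12 hB) t.b2 hU
  have a3 := Brn.nn t.cx t.b3
  omega

theorem DD (h8 : St_PE) (h9 : St_TE) (h10 : St_TM) : St_DD := by
  intro V _ Ad U R r w1 w2 w3 t h
  have key : ∀ w2 w3 : V, Tri Ad U R r w1 w2 w3 → w2 ∈ U ∨ BS Ad U R w2 := by
    intro w2 w3 t
    have hB : Brn Ad U R w1 := by unfold Brn; tauto
    have s := t.sum
    have a1 := BD.nn t.cx h
    have a3 := Brn.nn t.cx t.b3
    have t' := t.swap12 hB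
    rcases t.b2 with h2 | h2 | h2 | h2 | h2 | h2 | h2 | h2 | h2
    · exact Or.inl (t.cx.sub h2)
    · exact Or.inr h2
    · have := BD.nn t.cx h2; omega
    · exact absurd (h9 V Ad U R r w2 w1 w3 t' h2) h.1
    · exact absurd (h10 V Ad U R r w2 w1 w3 t' h2) h.1
    · exact absurd h2 (h8 V Ad U R r w2 w1 w3 t')
    · exact absurd h2 (PI V Ad U R r w2 w1 w3 t')
    · exact absurd h2 (K V Ad U R r w2 w1 w3 t')
    · exact absurd h2 (KC V Ad U R r w2 w1 w3 t')
  refine ⟨key w2 w3 t, ?_⟩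
  rcases key w2 w3 t with h2 | h2
  · exact Or.inl h2
  rcases key w3 w2 t.swap23 with h3 | h3
  · exact Or.inr h3
  exfalso
  have s := t.sum
  have a1 := BD.nn t.cx h
  have a2 := BS.n2 t.cx h2
  have a3 := BS.n2 t.cx h3
  have b2 := N2_le (Ad := Ad) (R := R) (r := r) (w := w2)
  have b3 := N2_le (Ad := Ad) (R := R) (r := r) (w := w3)
  omega

theorem SS : St_SS := by
  intro V _ Ad U R r w1 w2 w3 w4 t hB a4 h41 h42 h43 hB4
  by_contra hU
  push_neg at hU
  obtain ⟨u1, u2, u3, u4⟩ := hU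
  have t4 : Tri Ad U R r w4 w1 w2 := ⟨t.cx, a4, t.a1, t.a2, h41, h42, t.h12, hB, t.b2⟩
  have c1 := TM.nn2 t hB u1
  have c2 := TM.nn2 (t.swap12 hB) t.b2 u2
  have c3 := TM.nn2 (t.swap13 hB) t.b3 u3
  have c4 := TM.nn2 t4 hB4 u4
  have := card4 (A := NN Ad R r w1) (B := NN Ad R r w2) (C := NN Ad R r w3) (D := NN Ad R r w4)
    NN_sub NN_sub NN_sub NN_sub
    (NN_disj t.cx.gi t.a1 t.a2 t.h12) (NN_disj t.cx.gi t.a1 t.a3 t.h13)
    (NN_disj t.cx.gi t.a1 a4 h41.symm) (NN_disj t.cx.gi t.a2 t.a3 t.h23)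
    (NN_disj t.cx.gi t.a2 a4 h42.symm) (NN_disj t.cx.gi t.a3 a4 h43.symm)
  have := t.cx.card
  omega

end Pool.Agent.TH676.Z
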