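import Pool.Agent.TH676.Z.Stm

/-! # The type of a piece at its neighbour -/

set_option autoImplicit false
set_option linter.unusedSectionVars false

namespace Pool.Agent.TH676.Z

open Finset

namespace TyPf

variable {V : Type} {Ad : V → V → Prop}

theorem two_of (hT : Three Ad) {x m : V} (h : Ad x m) :
    ∃ p q, p ≠ q ∧ p ≠ m ∧ q ≠ m ∧ Ad x p ∧ Ad x q := by
  obtain ⟨a, b, c, ha, hb, hc, hab, hac, hbc⟩ := hT x m h
  by_cases h1 : a = m
  · subst h1
    exact ⟨b, c, hbc, Ne.symm hab, Ne.symm hac, hb, hc⟩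
  · by_cases h2 : b = m
    · subst h2
      exact ⟨a, c, hac, h1, Ne.symm hbc, ha, hc⟩
    · exact ⟨a, b, hab, h1, h2, ha, hb⟩

theorem one_of (hT : Three Ad) {x m : V} (m' : V) (h : Ad x m) :
    ∃ p, p ≠ m ∧ p ≠ m' ∧ Ad x p := by
  obtain ⟨p, q, hpq, hp, hq, h1, h2⟩ := two_of hT h
  by_cases h3 : p = m'
  · subst h3
    exact ⟨q, hq, Ne.symm hpq, h2⟩
  · exact ⟨p, hp, h3, h1⟩

theorem two' (hT : Three Ad) {R : Finset V} {x m : V} (h : Ad x m)
    (hR : ∀ y, Ad x y → y = m ∨ y ∈ R) : Two Ad R x := by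
  obtain ⟨p, q, hpq, hp, hq, h1, h2⟩ := two_of hT h
  exact ⟨p, q, hpq, h1, h2, (hR p h1).resolve_left hp, (hR q h2).resolve_left hq⟩

theorem one' (hT : Three Ad) {R : Finset V} {x m : V} (m' : V) (h : Ad x m)
    (hR : ∀ y, Ad x y → y = m ∨ y = m' ∨ y ∈ R) : One Ad R x := by
  obtain ⟨p, hp, hp', h1⟩ := one_of hT m' h
  exact ⟨p, h1, ((hR p h1).resolve_left hp).resolve_left hp'⟩

end TyPf

open TyPf

variable {V : Type} [Fintype V] [DecidableEq V] {Ad : V → V → Prop} {U R P : Finset V} {r : V}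

namespace TyPf

/-- path with two vertices -/
theorem tyD (hG : Gi Ad) (hT : Three Ad) (hU : ∀ x ∈ P, x ∉ U)
    (hk : ∀ x ∈ P, ∀ y, Ad x y → y ∈ P ∨ y = r ∨ y ∈ R) {w z : V} (hrw : Ad r w)
    (hwz : Ad w z) (hP : ∀ y, y ∈ P ↔ y = w ∨ y = z) : BD Ad U R w := by
  have hw : w ∈ P := (hP w).2 (Or.inl rfl)
  have hz : z ∈ P := (hP z).2 (Or.inr rfl)
  refine ⟨hU w hw, one' hT r hwz fun y hy => ?_, z, hU z hz, hwz,
    two' hT (hG.symm hwz) fun y hy => ?_⟩
  · rcases hk w hw y hy with h | rfl | h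
    · rcases (hP y).1 h with rfl | rfl
      · exact (hG.c2 _ hy).elim
      · exact Or.inl rfl
    · exact Or.inr (Or.inl rfl)
    · exact Or.inr (Or.inr h)
  · rcases hk z hz y hy with h | rfl | h
    · rcases (hP y).1 h with rfl | rfl
      · exact Or.inl rfl
      · exact (hG.c2 _ hy).elim
    · exact (hG.c3 _ _ _ hrw hwz hy).elim
    · exact Or.inr h

/-- path with three vertices, `w` at the end -/
theorem tyTE (hG : Gi Ad) (hT : Three Ad) (hU : ∀ x ∈ P, x ∉ U) (hr : r ∈ U)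
    (hk : ∀ x ∈ P, ∀ y, Ad x y → y ∈ P ∨ y = r ∨ y ∈ R) {a b c : V} (hra : Ad r a)
    (hab : Ad a b) (hbc : Ad b c) (hac : a ≠ c) (hP : ∀ y, y ∈ P ↔ y = a ∨ y = b ∨ y = c) :
    BTE Ad U R a := by
  have ha : a ∈ P := (hP a).2 (Or.inl rfl)
  have hb : b ∈ P := (hP b).2 (Or.inr (Or.inl rfl))
  have hc : c ∈ P := (hP c).2 (Or.inr (Or.inr rfl))
  have hrb : r ≠ b := fun h => hU b hb (h ▸ hr)
  refine ⟨hU a ha, one' hT r hab fun y hy => ?_, b, c, hU b hb, hU c hc, hac, hab, hbc,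
    one' hT c (hG.symm hab) fun y hy => ?_, two' hT (hG.symm hbc) fun y hy => ?_⟩
  · rcases hk a ha y hy with h | rfl | h
    · rcases (hP y).1 h with rfl | rfl | rfl
      · exact (hG.c2 _ hy).elim
      · exact Or.inl rfl
      · exact (hG.c3 _ _ _ hab hbc (hG.symm hy)).elim
    · exact Or.inr (Or.inl rfl)
    · exact Or.inr (Or.inr h)
  · rcases hk b hb y hy with h | rfl | h
    · rcases (hP y).1 h with rfl | rfl | rfl
      · exact Or.inl rfl
      · exact (hG.c2 _ hy).elim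
      · exact Or.inr (Or.inl rfl)
    · exact (hG.c3 _ _ _ hra hab hy).elim
    · exact Or.inr (Or.inr h)
  · rcases hk c hc y hy with h | rfl | h
    · rcases (hP y).1 h with rfl | rfl | rfl
      · exact (hG.c3 _ _ _ hab hbc hy).elim
      · exact Or.inl rfl
      · exact (hG.c2 _ hy).elim
    · exact (hG.c4 _ _ _ _ hra hab hbc hy hrb hac).elim
    · exact Or.inr h

/-- path with three vertices, `w` in the middle -/
theorem tyTM (hG : Gi Ad) (hT : Three Ad) (hU : ∀ x ∈ P, x ∉ U)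
    (hk : ∀ x ∈ P, ∀ y, Ad x y → y ∈ P ∨ y = r ∨ y ∈ R) {a b c : V} (hrb : Ad r b)
    (hab : Ad a b) (hbc : Ad b c) (hac : a ≠ c) (hP : ∀ y, y ∈ P ↔ y = a ∨ y = b ∨ y = c) :
    BTM Ad U R b := by
  have ha : a ∈ P := (hP a).2 (Or.inl rfl)
  have hb : b ∈ P := (hP b).2 (Or.inr (Or.inl rfl))
  have hc : c ∈ P := (hP c).2 (Or.inr (Or.inr rfl))
  refine ⟨hU b hb, a, c, hU a ha, hU c hc, hac, hG.symm hab, hbc,
    two' hT hab fun y hy => ?_, two' hT (hG.symm hbc) fun y hy => ?_⟩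
  · rcases hk a ha y hy with h | rfl | h
    · rcases (hP y).1 h with rfl | rfl | rfl
      · exact (hG.c2 _ hy).elim
      · exact Or.inl rfl
      · exact (hG.c3 _ _ _ hab hbc (hG.symm hy)).elim
    · exact (hG.c3 _ _ _ hrb (hG.symm hab) hy).elim
    · exact Or.inr h
  · rcases hk c hc y hy with h | rfl | h
    · rcases (hP y).1 h with rfl | rfl | rfl
      · exact (hG.c3 _ _ _ hab hbc hy).elim
      · exact Or.inl rfl
      · exact (hG.c2 _ hy).elim
    · exact (hG.c3 _ _ _ hrb hbc hy).elim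
    · exact Or.inr h

/-- path with four vertices, `w` at the end -/
theorem tyPE (hG : Gi Ad) (hT : Three Ad) (hU : ∀ x ∈ P, x ∉ U) (hr : r ∈ U)
    (hk : ∀ x ∈ P, ∀ y, Ad x y → y ∈ P ∨ y = r ∨ y ∈ R) {a b c d : V} (hra : Ad r a)
    (hab : Ad a b) (hbc : Ad b c) (hcd : Ad c d) (hac : a ≠ c) (hbd : b ≠ d)
    (hP : ∀ y, y ∈ P ↔ y = a ∨ y = b ∨ y = c ∨ y = d) :
    BPE Ad U R a := by
  have ha : a ∈ P := (hP a).2 (Or.inl rfl)
  have hb : b ∈ P := (hP b).2 (Or.inr (Or.inl rfl))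
  have hc : c ∈ P := (hP c).2 (Or.inr (Or.inr (Or.inl rfl)))
  have hd : d ∈ P := (hP d).2 (Or.inr (Or.inr (Or.inr rfl)))
  have hrb : r ≠ b := fun h => hU b hb (h ▸ hr)
  refine ⟨hU a ha, one' hT r hab fun y hy => ?_, b, c, d, hU b hb, hU c hc, hU d hd, hac, hbd,
    hab, hbc, hcd, one' hT c (hG.symm hab) fun y hy => ?_, one' hT d (hG.symm hbc) fun y hy => ?_,
    two' hT (hG.symm hcd) fun y hy => ?_⟩
  · rcases hk a ha y hy with h | rfl | h
    · rcases (hP y).1 h with rfl | rfl | rfl | rfl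
      · exact (hG.c2 _ hy).elim
      · exact Or.inl rfl
      · exact (hG.c3 _ _ _ hab hbc (hG.symm hy)).elim
      · exact (hG.c4 _ _ _ _ hab hbc hcd (hG.symm hy) hac hbd).elim
    · exact Or.inr (Or.inl rfl)
    · exact Or.inr (Or.inr h)
  · rcases hk b hb y hy with h | rfl | h
    · rcases (hP y).1 h with rfl | rfl | rfl | rfl
      · exact Or.inl rfl
      · exact (hG.c2 _ hy).elim
      · exact Or.inr (Or.inl rfl)
      · exact (hG.c3 _ _ _ hbc hcd (hG.symm hy)).elim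
    · exact (hG.c3 _ _ _ hra hab hy).elim
    · exact Or.inr (Or.inr h)
  · rcases hk c hc y hy with h | rfl | h
    · rcases (hP y).1 h with rfl | rfl | rfl | rfl
      · exact (hG.c3 _ _ _ hab hbc hy).elim
      · exact Or.inl rfl
      · exact (hG.c2 _ hy).elim
      · exact Or.inr (Or.inl rfl)
    · exact (hG.c4 _ _ _ _ hra hab hbc hy hrb hac).elim
    · exact Or.inr (Or.inr h)
  · rcases hk d hd y hy with h | rfl | h
    · rcases (hP y).1 h with rfl | rfl | rfl | rfl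
      · exact (hG.c4 _ _ _ _ hab hbc hcd hy hac hbd).elim
      · exact (hG.c3 _ _ _ hbc hcd hy).elim
      · exact Or.inl rfl
      · exact (hG.c2 _ hy).elim
    · exact (hG.c5 _ _ _ _ _ hra hab hbc hcd hy).elim
    · exact Or.inr h

/-- path `a - b - c - d` with four vertices, `w = b` -/
theorem tyPI (hG : Gi Ad) (hT : Three Ad) (hU : ∀ x ∈ P, x ∉ U) (hr : r ∈ U)
    (hk : ∀ x ∈ P, ∀ y, Ad x y → y ∈ P ∨ y = r ∨ y ∈ R) {a b c d : V} (hrb : Ad r b)
    (hab : Ad a b) (hbc : Ad b c) (hcd : Ad c d) (hac : a ≠ c) (hbd : b ≠ d)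
    (hP : ∀ y, y ∈ P ↔ y = a ∨ y = b ∨ y = c ∨ y = d) :
    BPI Ad U R b := by
  have ha : a ∈ P := (hP a).2 (Or.inl rfl)
  have hb : b ∈ P := (hP b).2 (Or.inr (Or.inl rfl))
  have hc : c ∈ P := (hP c).2 (Or.inr (Or.inr (Or.inl rfl)))
  have hd : d ∈ P := (hP d).2 (Or.inr (Or.inr (Or.inr rfl)))
  have hrc : r ≠ c := fun h => hU c hc (h ▸ hr)
  refine ⟨hU b hb, a, c, d, hU a ha, hU c hc, hU d hd, hac, hbd, hG.symm hab, hbc, hcd,
    two' hT hab fun y hy => ?_, one' hT d (hG.symm hbc) fun y hy => ?_,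
    two' hT (hG.symm hcd) fun y hy => ?_⟩
  · rcases hk a ha y hy with h | rfl | h
    · rcases (hP y).1 h with rfl | rfl | rfl | rfl
      · exact (hG.c2 _ hy).elim
      · exact Or.inl rfl
      · exact (hG.c3 _ _ _ hab hbc (hG.symm hy)).elim
      · exact (hG.c4 _ _ _ _ hab hbc hcd (hG.symm hy) hac hbd).elim
    · exact (hG.c3 _ _ _ hrb (hG.symm hab) hy).elim
    · exact Or.inr h
  · rcases hk c hc y hy with h | rfl | h
    · rcases (hP y).1 h with rfl | rfl | rfl | rfl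
      · exact (hG.c3 _ _ _ hab hbc hy).elim
      · exact Or.inl rfl
      · exact (hG.c2 _ hy).elim
      · exact Or.inr (Or.inl rfl)
    · exact (hG.c3 _ _ _ hrb hbc hy).elim
    · exact Or.inr (Or.inr h)
  · rcases hk d hd y hy with h | rfl | h
    · rcases (hP y).1 h with rfl | rfl | rfl | rfl
      · exact (hG.c4 _ _ _ _ hab hbc hcd hy hac hbd).elim
      · exact (hG.c3 _ _ _ hbc hcd hy).elim
      · exact Or.inl rfl
      · exact (hG.c2 _ hy).elim
    · exact (hG.c4 _ _ _ _ hrb hbc hcd hy hrc hbd).elim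
    · exact Or.inr h

/-- star with centre `c`, `w` a leaf -/
theorem tyK (hG : Gi Ad) (hT : Three Ad) (hU : ∀ x ∈ P, x ∉ U) (hr : r ∈ U)
    (hk : ∀ x ∈ P, ∀ y, Ad x y → y ∈ P ∨ y = r ∨ y ∈ R) {c x y z : V} (hrx : Ad r x)
    (hx : Ad c x) (hy : Ad c y) (hz : Ad c z) (hxy : x ≠ y) (hxz : x ≠ z) (hyz : y ≠ z)
    (hP : ∀ u, u ∈ P ↔ u = c ∨ u = x ∨ u = y ∨ u = z) :
    BK Ad U R x := by
  have mc : c ∈ P := (hP c).2 (Or.inl rfl)
  have mx : x ∈ P := (hP x).2 (Or.inr (Or.inl rfl))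
  have my : y ∈ P := (hP y).2 (Or.inr (Or.inr (Or.inl rfl)))
  have mz : z ∈ P := (hP z).2 (Or.inr (Or.inr (Or.inr rfl)))
  have hrc : r ≠ c := fun h => hU c mc (h ▸ hr)
  refine ⟨hU x mx, one' hT r (hG.symm hx) fun u hu => ?_, c, y, z, hU c mc, hU y my, hU z mz,
    hyz, hxy, hxz, hG.symm hx, hy, hz, two' hT (hG.symm hy) fun u hu => ?_,
    two' hT (hG.symm hz) fun u hu => ?_⟩
  · rcases hk x mx u hu with h | rfl | h
    · rcases (hP u).1 h with rfl | rfl | rfl | rfl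
      · exact Or.inl rfl
      · exact (hG.c2 _ hu).elim
      · exact (hG.c3 _ _ _ hx hu (hG.symm hy)).elim
      · exact (hG.c3 _ _ _ hx hu (hG.symm hz)).elim
    · exact Or.inr (Or.inl rfl)
    · exact Or.inr (Or.inr h)
  · rcases hk y my u hu with h | rfl | h
    · rcases (hP u).1 h with rfl | rfl | rfl | rfl
      · exact Or.inl rfl
      · exact (hG.c3 _ _ _ hy hu (hG.symm hx)).elim
      · exact (hG.c2 _ hu).elim
      · exact (hG.c3 _ _ _ hy hu (hG.symm hz)).elim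
    · exact (hG.c4 _ _ _ _ hrx (hG.symm hx) hy hu hrc hxy).elim
    · exact Or.inr h
  · rcases hk z mz u hu with h | rfl | h
    · rcases (hP u).1 h with rfl | rfl | rfl | rfl
      · exact Or.inl rfl
      · exact (hG.c3 _ _ _ hz hu (hG.symm hx)).elim
      · exact (hG.c3 _ _ _ hz hu (hG.symm hy)).elim
      · exact (hG.c2 _ hu).elim
    · exact (hG.c4 _ _ _ _ hrx (hG.symm hx) hz hu hrc hxz).elim
    · exact Or.inr h

/-- leaves of a star whose centre is adjacent to `r` -/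
theorem leafKC (hG : Gi Ad) (hT : Three Ad)
    (hk : ∀ x ∈ P, ∀ y, Ad x y → y ∈ P ∨ y = r ∨ y ∈ R) {c x y z : V} (hrc : Ad r c)
    (hx : Ad c x) (hy : Ad c y) (hz : Ad c z)
    (hP : ∀ u, u ∈ P ↔ u = c ∨ u = x ∨ u = y ∨ u = z) : Two Ad R x := by
  have mx : x ∈ P := (hP x).2 (Or.inr (Or.inl rfl))
  refine two' hT (hG.symm hx) fun u hu => ?_
  rcases hk x mx u hu with h | rfl | h
  · rcases (hP u).1 h with rfl | rfl | rfl | rfl
    · exact Or.inl rfl
    · exact (hG.c2 _ hu).elim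
    · exact (hG.c3 _ _ _ hx hu (hG.symm hy)).elim
    · exact (hG.c3 _ _ _ hx hu (hG.symm hz)).elim
  · exact (hG.c3 _ _ _ hrc hx hu).elim
  · exact Or.inr h

/-- star with centre `w` -/
theorem tyKC (hG : Gi Ad) (hT : Three Ad) (hU : ∀ x ∈ P, x ∉ U)
    (hk : ∀ x ∈ P, ∀ y, Ad x y → y ∈ P ∨ y = r ∨ y ∈ R) {c x y z : V} (hrc : Ad r c)
    (hx : Ad c x) (hy : Ad c y) (hz : Ad c z) (hxy : x ≠ y) (hxz : x ≠ z) (hyz : y ≠ z)
    (hP : ∀ u, u ∈ P ↔ u = c ∨ u = x ∨ u = y ∨ u = z) :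
    BKC Ad U R c := by
  have mc : c ∈ P := (hP c).2 (Or.inl rfl)
  have mx : x ∈ P := (hP x).2 (Or.inr (Or.inl rfl))
  have my : y ∈ P := (hP y).2 (Or.inr (Or.inr (Or.inl rfl)))
  have mz : z ∈ P := (hP z).2 (Or.inr (Or.inr (Or.inr rfl)))
  refine ⟨hU c mc, x, y, z, hU x mx, hU y my, hU z mz, hxy, hxz, hyz, hx, hy, hz,
    leafKC hG hT hk hrc hx hy hz hP,
    leafKC hG hT hk hrc hy hx hz fun u => (hP u).trans (by tauto),
    leafKC hG hT hk hrc hz hx hy fun u => (hP u).trans (by tauto)⟩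

end TyPf

theorem type_ : St_type := by
  intro V _ _ Ad In U W P r w hG hT _ hW hr hrw hw hPc hS
  have hU : ∀ x ∈ P, x ∉ U := hPc.out
  have hon : onb Ad U P ⊆ U := by
    intro v hv
    simp only [onb, Finset.mem_filter, Finset.mem_univ, true_and] at hv
    exact hv.1
  have hmem : ∀ x ∈ P, ∀ y, Ad x y → y ∈ U → y ∈ onb Ad U P := by
    intro x hx y hxy hy
    simp only [onb, Finset.mem_filter, Finset.mem_univ, true_and]
    exact ⟨hy, x, hx, hxy⟩
  have hsub : onb Ad U P ⊆ W := hW _ hPc.inn hon (hmem w hw r (hG.symm hrw) hr)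
  have hk : ∀ x ∈ P, ∀ y, Ad x y → y ∈ P ∨ y = r ∨ y ∈ (W ∩ U).erase r := by
    intro x hx y hxy
    rcases hPc.cl x hx y hxy with h | h
    · exact Or.inl h
    · by_cases hyr : y = r
      · exact Or.inr (Or.inl hyr)
      · exact Or.inr (Or.inr (Finset.mem_erase.2 ⟨hyr, Finset.mem_inter.2
          ⟨hsub (hmem x hx y hxy h), h⟩⟩))
  unfold Ty
  rcases hS with ⟨a, rfl⟩ | ⟨a, b, hab, rfl⟩ | ⟨a, b, c, hab, hbc, hac, rfl⟩ |
    ⟨a, b, c, d, hab, hbc, hcd, hac, hbd, rfl⟩ | ⟨c, x, y, z, hx, hy, hz, hxy, hxz, hyz, rfl⟩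
  · left
    rw [Finset.mem_singleton] at hw
    subst hw
    refine ⟨⟨hU w (Finset.mem_singleton_self w), two' hT (hG.symm hrw) fun y hy => ?_⟩, rfl⟩
    rcases hk w (Finset.mem_singleton_self w) y hy with h | h | h
    · rw [Finset.mem_singleton] at h
      subst h
      exact (hG.c2 _ hy).elim
    · exact Or.inl h
    · exact Or.inr h
  · right; left
    have hw' : w = a ∨ w = b := by simpa using hw
    rcases hw' with rfl | rfl
    · exact ⟨tyD hG hT hU hk hrw hab (by intro y; simp), b, hab, rfl⟩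
    · exact ⟨tyD hG hT hU hk hrw (hG.symm hab) (by intro y; simp [or_comm]), a, hG.symm hab,
        Finset.pair_comm _ _⟩
  · have hw' : w = a ∨ w = b ∨ w = c := by simpa using hw
    rcases hw' with rfl | rfl | rfl
    · right; right; left
      exact ⟨tyTE hG hT hU hr hk hrw hab hbc hac (by intro y; simp), b, c, hab, hbc, hac, rfl⟩
    · right; right; right; left
      exact ⟨tyTM hG hT hU hk hrw hab hbc hac (by intro y; simp), a, c, hG.symm hab, hbc, hac, rfl⟩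
    · right; right; left
      refine ⟨tyTE hG hT hU hr hk hrw (hG.symm hbc) (hG.symm hab) (Ne.symm hac)
        (by intro y; simp; tauto), b, a, hG.symm hbc, hG.symm hab, Ne.symm hac, ?_⟩
      ext y
      simp
      tauto
  · right; right; right; right
    have hw' : w = a ∨ w = b ∨ w = c ∨ w = d := by simpa using hw
    rcases hw' with rfl | rfl | rfl | rfl
    · left
      exact tyPE hG hT hU hr hk hrw hab hbc hcd hac hbd (by intro y; simp)
    · right; left
      exact tyPI hG hT hU hr hk hrw hab hbc hcd hac hbd (by intro y; simp)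
    · right; left
      exact tyPI hG hT hU hr hk hrw (hG.symm hcd) (hG.symm hbc) (hG.symm hab) (Ne.symm hbd)
        (Ne.symm hac) (by intro y; simp; tauto)
    · left
      exact tyPE hG hT hU hr hk hrw (hG.symm hcd) (hG.symm hbc) (hG.symm hab) (Ne.symm hbd)
        (Ne.symm hac) (by intro y; simp; tauto)
  · right; right; right; right; right; right
    have hw' : w = c ∨ w = x ∨ w = y ∨ w = z := by simpa using hw
    rcases hw' with rfl | rfl | rfl | rfl
    · right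
      exact tyKC hG hT hU hk hrw hx hy hz hxy hxz hyz (by intro y; simp)
    · left
      exact tyK hG hT hU hr hk hrw hx hy hz hxy hxz hyz (by intro y; simp)
    · left
      exact tyK hG hT hU hr hk hrw hy hx hz (Ne.symm hxy) hyz hxz (by intro y; simp; tauto)
    · left
      exact tyK hG hT hU hr hk hrw hz hx hy (Ne.symm hxz) (Ne.symm hyz) hxy
        (by intro y; simp; tauto)

end Pool.Agent.TH676.Z
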