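import Pool.Agent.TH676.Z.Crit
import Pool.Agent.TH676.Z.Cut3
import Pool.Agent.TH676.Z.Three
import Pool.Agent.TH676.Z.Cut4
import Pool.Agent.TH676.Z.CircB
import Pool.Agent.TH676.Z.Gi
import Pool.Agent.TH676.Z.Type
import Pool.Agent.TH676.Z.Merge
import Pool.Agent.TH676.Z.Graph
import Pool.Agent.TH676.Z.PE
import Pool.Agent.TH676.Z.TE
import Pool.Agent.TH676.Z.TM
import Pool.Agent.TH676.Z.Step
import Pool.Agent.TH497.T4.Elim

set_option autoImplicit false
set_option linter.unusedSectionVars false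

/-! # Nowhere-zero 5-flows in graphs of treewidth at most six -/

namespace Pool.Agent.TH676.Z

open Finset

variable {V E : Type} [Fintype V] [DecidableEq V] [Fintype E] [DecidableEq E]

theorem graph_all : St_graph :=
  graph (step PE (TE PE) (TM PE (TE PE)) (DD PE (TE PE) (TM PE (TE PE))) SS type_ uniq merge) end_

theorem circ_all : St_circ := circ' (cut4 cut3 three)

theorem gi_all : St_gi := gi cut3 circ_all

open Pool.Agent.TH497.TW in
theorem mc (w : ℕ) : MC (V := V) (E := E) (HasTD w) :=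
  ⟨fun src dst e h _ => HasTD.loop src dst {e} h, fun src dst e h hne => HasTD.contract src dst e h hne⟩

open Pool.Agent.TH497.TW in
theorem bags {src dst : E → V} {w : ℕ} (h : HasTD w src dst) :
    ∃ In, Bags (Adj src dst) w In := by
  obtain ⟨In, h1, h2, h3, h4⟩ := Pool.Agent.TH497.T4.elim h
  refine ⟨In, h1, ?_, h3, h4⟩
  rintro a b ⟨_, e, ⟨rfl, rfl⟩ | ⟨rfl, rfl⟩⟩
  · exact h2 e
  · rw [pair_comm]; exact h2 e

/-- without proper edges there is a nowhere-zero flow -/
theorem flow_of_loops {src dst : E → V} (h : ∀ e, src e = dst e) : FlowOn src dst ∅ ∅ := by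
  refine ⟨fun _ => 1, fun v => ?_, fun e he => absurd he (notMem_empty _), fun _ _ _ => (by decide : (1 : ZMod 5) ≠ 0)⟩
  unfold bd
  refine sum_eq_zero fun e _ => ?_
  rw [h e, sub_self]

open Pool.Agent.TH497.TW in
/-- **Nowhere-zero 5-flows in graphs of treewidth at most six.** -/
theorem flowOn {src dst : E → V} (h : HasTD 7 src dst) (hb : Br src dst ∅ ∅) :
    FlowOn src dst ∅ ∅ := by
  by_contra hn
  obtain ⟨s, d, hs, hM⟩ := crit V E (HasTD 7) (mc 7) src dst h hb hn
  obtain ⟨hG, hT⟩ := gi_all V E s d hM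
  obtain ⟨In, hB⟩ := bags hs
  have hno := graph_all V (Adj s d) In hG hT hB
  refine hM.nf (flow_of_loops fun e => ?_)
  by_contra he
  exact hno (s e) (d e) ⟨he, e, Or.inl ⟨rfl, rfl⟩⟩

end Pool.Agent.TH676.Z
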