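import Pool.Agent.TH676.Z.Stm2

set_option autoImplicit false
set_option linter.unusedSectionVars false

/-! # The dimension of the cycle space -/

namespace Pool.Agent.TH676.Z

open Finset

namespace Dimx

variable {V E : Type} [Fintype V] [DecidableEq V] [Fintype E] [DecidableEq E]

/-- extension by zero -/
def ext (F : Finset E) : (F → ZMod 2) →ₗ[ZMod 2] (E → ZMod 2) where
  toFun x e := if h : e ∈ F then x ⟨e, h⟩ else 0
  map_add' x y := by
    funext e
    by_cases h : e ∈ F <;> simp [h]
  map_smul' c x := by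
    funext e
    by_cases h : e ∈ F <;> simp [h]

theorem ext_out {F : Finset E} (x : F → ZMod 2) {e : E} (h : e ∉ F) : ext F x e = 0 := by
  simp [ext, h]

theorem ext_in {F : Finset E} (x : F → ZMod 2) (e : F) : ext F x e = x e := by
  simp [ext]

theorem ext_inj (F : Finset E) {x y : F → ZMod 2} (h : ext F x = ext F y) : x = y := by
  funext e
  rw [← ext_in x e, ← ext_in y e, h]

/-- the boundary as a linear map -/
def bdL (src dst : E → V) : (E → ZMod 2) →ₗ[ZMod 2] (V → ZMod 2) where
  toFun x v := bd2 src dst x v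
  map_add' a b := by
    funext v
    change bd2 src dst (a + b) v = bd2 src dst a v + bd2 src dst b v
    unfold bd2
    rw [← sum_add_distrib]
    refine sum_congr rfl fun e _ => ?_
    simp only [Pi.add_apply]
    split_ifs <;> ring
  map_smul' c a := by
    funext v
    change bd2 src dst (c • a) v = c * bd2 src dst a v
    unfold bd2
    rw [mul_sum]
    refine sum_congr rfl fun e _ => ?_
    simp only [Pi.smul_apply, smul_eq_mul]
    split_ifs <;> ring

theorem sum_bd2 {src dst : E → V} {F : Finset E} {N : Finset V}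
    (hN : ∀ e ∈ F, src e ∈ N ∧ dst e ∈ N) {x : E → ZMod 2} (hx : ∀ e, e ∉ F → x e = 0) :
    ∑ v ∈ N, bd2 src dst x v = 0 := by
  unfold bd2
  rw [sum_comm]
  refine sum_eq_zero fun e _ => ?_
  by_cases he : e ∈ F
  · rw [sum_add_distrib, Finset.sum_ite_eq, Finset.sum_ite_eq, if_pos (hN e he).1,
      if_pos (hN e he).2]
    exact CharTwo.add_self_eq_zero _
  · simp [hx e he]

theorem bd2_out {src dst : E → V} {F : Finset E} {N : Finset V}
    (hN : ∀ e ∈ F, src e ∈ N ∧ dst e ∈ N) {x : E → ZMod 2} (hx : ∀ e, e ∉ F → x e = 0) {v : V}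
    (hv : v ∉ N) : bd2 src dst x v = 0 := by
  unfold bd2
  refine sum_eq_zero fun e _ => ?_
  by_cases he : e ∈ F
  · have h1 : src e ≠ v := fun h => hv (h ▸ (hN e he).1)
    have h2 : dst e ≠ v := fun h => hv (h ▸ (hN e he).2)
    rw [if_neg h1, if_neg h2, add_zero]
  · simp [hx e he]

/-- the boundary together with one more vector -/
def f (src dst : E → V) (F : Finset E) (N : Finset V) (v0 : V) :
    ((F → ZMod 2) × ZMod 2) →ₗ[ZMod 2] (N → ZMod 2) where
  toFun p v := bdL src dst (ext F p.1) v + (if (v : V) = v0 then p.2 else 0)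
  map_add' p q := by
    funext v
    simp only [Prod.fst_add, Prod.snd_add, map_add, Pi.add_apply]
    split_ifs <;> ring
  map_smul' c p := by
    funext v
    simp only [Prod.smul_fst, Prod.smul_snd, map_smul, Pi.smul_apply, smul_eq_mul,
      RingHom.id_apply]
    split_ifs <;> ring

theorem ker_f {src dst : E → V} {F : Finset E} {N : Finset V}
    (hN : ∀ e ∈ F, src e ∈ N ∧ dst e ∈ N) {v0 : V} (h0 : v0 ∈ N) {p : (F → ZMod 2) × ZMod 2}
    (hp : f src dst F N v0 p = 0) : p.2 = 0 ∧ ext F p.1 ∈ ZF src dst F := by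
  have key : ∀ v ∈ N, bd2 src dst (ext F p.1) v + (if v = v0 then p.2 else 0) = 0 := by
    intro v hv
    exact congrFun hp ⟨v, hv⟩
  have hx : ∀ e, e ∉ F → ext F p.1 e = 0 := fun e he => ext_out _ he
  have h2 : p.2 = 0 := by
    have s := sum_eq_zero key
    rw [sum_add_distrib, sum_bd2 hN hx, zero_add, Finset.sum_ite_eq', if_pos h0] at s
    exact s
  refine ⟨h2, hx, fun v => ?_⟩
  by_cases hv : v ∈ N
  · have := key v hv
    rwa [h2, ite_self, add_zero] at this
  · exact bd2_out hN hx hv

end Dimx

open Dimx in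
theorem dim : St_dim := by
  intro V E _ _ _ _ src dst F N hne hN
  obtain ⟨v0, h0⟩ := hne
  have r := LinearMap.finrank_range_add_finrank_ker (f src dst F N v0)
  have e1 : Module.finrank (ZMod 2) ((F → ZMod 2) × ZMod 2) = F.card + 1 := by
    rw [Module.finrank_prod, Module.finrank_fintype_fun_eq_card, Module.finrank_self,
      Fintype.card_coe]
  have e2 : Module.finrank (ZMod 2) (LinearMap.range (f src dst F N v0)) ≤ N.card := by
    refine (Submodule.finrank_le _).trans ?_
    rw [Module.finrank_fintype_fun_eq_card, Fintype.card_coe]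
  let g : LinearMap.ker (f src dst F N v0) →ₗ[ZMod 2] ZF src dst F :=
    { toFun := fun p => ⟨ext F p.1.1, (ker_f hN h0 (LinearMap.mem_ker.mp p.2)).2⟩
      map_add' := fun p q => by
        apply Subtype.ext
        simp
      map_smul' := fun c p => by
        apply Subtype.ext
        simp }
  have hg : Function.Injective g := by
    intro p q hpq
    have h1 : ext F p.1.1 = ext F q.1.1 := congrArg Subtype.val hpq
    apply Subtype.ext
    refine Prod.ext (ext_inj F h1) ?_
    rw [(ker_f hN h0 (LinearMap.mem_ker.mp p.2)).1, (ker_f hN h0 (LinearMap.mem_ker.mp q.2)).1]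
  have e3 := LinearMap.finrank_le_finrank_of_injective hg
  omega

end Pool.Agent.TH676.Z
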