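import Pool.Agent.TH676.Z.Stm3

set_option autoImplicit false
set_option linter.unusedSectionVars false

/-! # Apex vertices and surfaces, all cases which follow from girth eight: statements

`k` vertices deleted, MacLane defect (Euler genus) `h` of the rest:
`(k, h) = (0, 5), (1, 4), (2, 3), (3, 1)`. -/

namespace Pool.Agent.TH676.Z

open Finset

/-- the class: after deletion of at most `k` vertices MacLane's condition holds with defect `h` -/
def ApH {V E : Type} [Fintype V] [DecidableEq V] [Fintype E] [DecidableEq E] (k h : ℕ)
    (src dst : E → V) : Prop :=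
  ∃ S : Finset V, S.card ≤ k ∧ Mac h src dst (ES src dst S)

/-- D1: the class is closed under minors -/
def St_aphMC : Prop := ∀ (V E : Type) [Fintype V] [DecidableEq V] [Fintype E] [DecidableEq E]
  (k h : ℕ), MC (V := V) (E := E) (ApH k h)

/-- D2: the fourteen edges at distance at most two from a neighbour of `s` -/
def St_edge14 : Prop := ∀ (V E : Type) [Fintype V] [DecidableEq V] [Fintype E] [DecidableEq E]
  (src dst : E → V) (s : V), Gi (Adj src dst) → C7 (Adj src dst) → Three (Adj src dst) →
    14 * (Ns src dst s).card ≤ (Es src dst s).card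

/-- D3: the edges which are not at `s` -/
def St_split : Prop := ∀ (V E : Type) [Fintype V] [DecidableEq V] [Fintype E] [DecidableEq E]
  (src dst : E → V) (S : Finset V), NoPar src dst →
    (univ.filter (fun e => src e ≠ dst e)).card ≤
      (ES src dst S).card + ∑ s ∈ S, (Ns src dst s).card ∧
    ∀ s, (Es src dst s).card + (Ns src dst s).card ≤ (univ.filter (fun e => src e ≠ dst e)).card

/-- D4: the theorem -/
def St_apexH : Prop := ∀ (V E : Type) [Fintype V] [DecidableEq V] [Fintype E] [DecidableEq E]
  (src dst : E → V) (k h : ℕ), (k = 0 ∧ h = 5) ∨ (k = 1 ∧ h = 4) ∨ (k = 2 ∧ h = 3) ∨ (k = 3 ∧ h = 1) →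
    ApH k h src dst → Br src dst ∅ ∅ → FlowOn src dst ∅ ∅

end Pool.Agent.TH676.Z
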