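import Pool.Agent.TH676.Z.Apex2
import Pool.Agent.TH676.Z.Stm4
import Pool.Agent.TH676.Z.Dim

set_option autoImplicit false
set_option linter.unusedSectionVars false

/-! # Nowhere-zero 5-flows: apex vertices and surfaces -/

namespace Pool.Agent.TH676.Z

open Finset

/-- the numerical contradiction -/
theorem num4 {m n t r z k h : ℕ} (h1 : m + 1 ≤ z + n) (h2 : 3 * n ≤ 2 * m + t)
    (h3 : 15 * t ≤ k * (m + t)) (h4 : 1 ≤ r → 8 * (r + 1) ≤ 2 * m) (h5 : z ≤ r + h)
    (h6 : 45 ≤ m + t)
    (hk : (k = 0 ∧ h = 5) ∨ (k = 1 ∧ h = 4) ∨ (k = 2 ∧ h = 3) ∨ (k = 3 ∧ h = 1)) : False := by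
  rcases hk with ⟨rfl, rfl⟩ | ⟨rfl, rfl⟩ | ⟨rfl, rfl⟩ | ⟨rfl, rfl⟩ <;>
  · rcases Nat.eq_zero_or_pos r with h | h
    · omega
    · have := h4 h
      omega

theorem apexH (hMC : St_aphMC) (h14 : St_edge14) (hs : St_split) : St_apexH := by
  intro V E _ _ _ _ src dst k h hkh hA hb
  by_contra hn
  obtain ⟨S, D, hAp, hM⟩ := crit V E (ApH k h) (hMC V E k h) src dst hA hb hn
  obtain ⟨hG, hT⟩ := gi_all V E S D hM
  have hP := noPar V E S D hM
  have h7 := c7_all V E S D hM
  by_cases hno : ∀ e, S e = D e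
  · exact hM.nf (flow_of_loops hno)
  · push Not at hno
    obtain ⟨e0, he0⟩ := hno
    have ha0 : Adj S D (S e0) (D e0) := ⟨he0, e0, Or.inl ⟨rfl, rfl⟩⟩
    obtain ⟨T, hTc, l, K, k1, k2, k3⟩ := hAp
    obtain ⟨s1, s2⟩ := hs V E S D T hP
    have mem : ∀ x z, x ∉ T → Adj S D x z → x ∈ VS S D T := by
      intro x z hx hxz
      simp only [VS, mem_filter, mem_univ, true_and]
      exact ⟨hx, z, hxz⟩
    have hends : ∀ e ∈ ES S D T, S e ∈ VS S D T ∧ D e ∈ VS S D T := by
      intro e he
      unfold ES at he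
      rw [mem_filter] at he
      obtain ⟨_, h1, h2, h3'⟩ := he
      exact ⟨mem _ (D e) h2 ⟨h1, e, Or.inl ⟨rfl, rfl⟩⟩,
        mem _ (S e) h3' ⟨Ne.symm h1, e, Or.inr ⟨rfl, rfl⟩⟩⟩
    -- at least 45 edges
    have h45 : 45 ≤ (univ.filter (fun e => S e ≠ D e)).card := by
      obtain ⟨a, b, c, ha, hb', hc, hab, hac, hbc⟩ := hT _ _ ha0
      have h1 : 3 ≤ (Ns S D (S e0)).card := by
        refine len_le (l := [a, b, c]) ?_ ?_
        · simp only [List.nodup_cons, List.mem_cons, List.not_mem_nil, or_false, not_or,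
            not_false_eq_true, List.nodup_nil, and_true]
          exact ⟨⟨hab, hac⟩, hbc⟩
        · intro x hx
          simp only [List.mem_cons, List.not_mem_nil, or_false] at hx
          simp only [Ns, mem_filter, mem_univ, true_and]
          rcases hx with rfl | rfl | rfl <;> assumption
      have h2 := h14 V E S D (S e0) hG h7 hT
      have h3 := s2 (S e0)
      omega
    have h15 : 15 * ∑ s ∈ T, (Ns S D s).card ≤
        k * ((ES S D T).card + ∑ s ∈ T, (Ns S D s).card) := by
      have hs' : ∀ s ∈ T, 15 * (Ns S D s).card ≤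
          (ES S D T).card + ∑ s ∈ T, (Ns S D s).card := by
        intro s _
        have h1 := h14 V E S D s hG h7 hT
        have h2 := s2 s
        omega
      rw [mul_sum]
      calc ∑ s ∈ T, 15 * (Ns S D s).card
          ≤ ∑ _s ∈ T, ((ES S D T).card + ∑ s ∈ T, (Ns S D s).card) := sum_le_sum hs'
        _ = T.card * ((ES S D T).card + ∑ s ∈ T, (Ns S D s).card) := by
            rw [sum_const, smul_eq_mul]
        _ ≤ _ := Nat.mul_le_mul_right _ hTc
    have h6 : 45 ≤ (ES S D T).card + ∑ s ∈ T, (Ns S D s).card := h45.trans s1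
    have hk3 : k ≤ 3 := by omega
    have hne : (VS S D T).Nonempty := by
      rw [nonempty_iff_ne_empty]
      intro hem
      have h0 : (ES S D T).card = 0 := by
        rw [card_eq_zero, eq_empty_iff_forall_notMem]
        intro e he
        have := (hends e he).1
        rw [hem] at this
        exact absurd this (notMem_empty _)
      rw [h0, zero_add] at h15 h6
      have := h15.trans (Nat.mul_le_mul_right _ hk3)
      omega
    have e1 := dim V E S D (ES S D T) (VS S D T) hne hends
    have e2 := degS V E S D T hT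
    have e4 := facesG V E S D (ES S D T) l 8 K k1 k2 (even8 V E S D (ES S D T) hG h7 hP (by
      intro e he
      unfold ES at he
      rw [mem_filter] at he
      exact he.2.1))
    exact num4 e1 e2 h15 e4 k3 h6 hkh

end Pool.Agent.TH676.Z
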