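import Pool.Agent.TH676.Z.Stm2

set_option autoImplicit false
set_option linter.unusedSectionVars false

/-! # The class `Ap` is closed under deletions and contractions of edges -/

namespace Pool.Agent.TH676.Z

open Finset

namespace ApMCx

variable {V E : Type} [Fintype V] [DecidableEq V] [Fintype E] [DecidableEq E]

theorem sdiff_mac (h1 : St_macDel) (src dst : E → V) (F : Finset E) (h : ℕ)
    (hM : Mac h src dst F) (D : Finset E) : Mac h src dst (F \ D) := by
  induction D using Finset.induction_on with
  | empty => simpa using hM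
  | insert a D _ ih =>
    have hh : F \ insert a D = (F \ D).erase a := by
      ext x
      simp only [mem_sdiff, mem_insert, mem_erase, not_or]
      tauto
    rw [hh]
    exact h1 V E src dst (F \ D) h a ih

theorem sub_mac (h1 : St_macDel) (src dst : E → V) (F F' : Finset E) (h : ℕ)
    (hM : Mac h src dst F) (hs : F' ⊆ F) : Mac h src dst F' := by
  have h2 := sdiff_mac h1 src dst F h hM (F \ F')
  rwa [Finset.sdiff_sdiff_eq_self hs] at h2

theorem zf_congr (src dst src' dst' : E → V) (F : Finset E)
    (hc : ∀ e ∈ F, src' e = src e ∧ dst' e = dst e) : ZF src' dst' F = ZF src dst F := by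
  have key : ∀ x : E → ZMod 2, (∀ e, e ∉ F → x e = 0) → ∀ v, bd2 src' dst' x v = bd2 src dst x v := by
    intro x hx v
    unfold bd2
    refine sum_congr rfl fun e _ => ?_
    by_cases he : e ∈ F
    · rw [(hc e he).1, (hc e he).2]
    · rw [hx e he]; simp
  ext x
  constructor
  · rintro ⟨hx, hb⟩
    exact ⟨hx, fun v => by rw [← key x hx v]; exact hb v⟩
  · rintro ⟨hx, hb⟩
    exact ⟨hx, fun v => by rw [key x hx v]; exact hb v⟩

theorem mac_congr (src dst src' dst' : E → V) (F : Finset E) (h : ℕ)
    (hc : ∀ e ∈ F, src' e = src e ∧ dst' e = dst e) (hM : Mac h src dst F) :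
    Mac h src' dst' F := by
  unfold Mac at hM ⊢
  rw [zf_congr src dst src' dst' F hc]
  exact hM

theorem ctr_ne (u v x : V) (hx : ctr u v x ≠ u) : x ≠ u ∧ x ≠ v ∧ ctr u v x = x := by
  unfold ctr at hx ⊢
  split_ifs at hx ⊢ with h
  · exact absurd rfl hx
  · exact ⟨hx, h, rfl⟩

end ApMCx

open ApMCx

theorem apMC (h1 : St_macDel) (h2 : St_macCon) : St_apMC := by
  classical
  intro V E _ _ _ _
  refine ⟨?_, ?_⟩
  · rintro src dst e ⟨s, hM⟩ hne
    refine ⟨s, ?_⟩
    have hmem : ∀ d ∈ Es src (lp src dst {e}) s, d ∈ Es src dst s ∧ lp src dst {e} d = dst d := by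
      intro d hd
      simp only [Es, mem_filter, mem_univ, true_and] at hd ⊢
      have hde : d ≠ e := by
        rintro rfl
        apply hd.1
        simp [lp]
      have hl : lp src dst {e} d = dst d := by simp [lp, hde]
      rw [hl] at hd
      exact ⟨hd, hl⟩
    exact mac_congr _ _ _ _ _ _ (fun d hd => ⟨rfl, (hmem d hd).2⟩)
      (sub_mac h1 _ _ _ _ _ hM (fun d hd => (hmem d hd).1))
  · rintro src dst e ⟨s, hM⟩ hne
    by_cases hs : s = src e ∨ s = dst e
    · refine ⟨src e, ?_⟩
      have hmem : ∀ d ∈ Es (ctr (src e) (dst e) ∘ src) (ctr (src e) (dst e) ∘ dst) (src e),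
          d ∈ Es src dst s ∧ (ctr (src e) (dst e) ∘ src) d = src d ∧
            (ctr (src e) (dst e) ∘ dst) d = dst d := by
        intro d hd
        simp only [Es, mem_filter, mem_univ, true_and, Function.comp] at hd ⊢
        obtain ⟨ha, hb, hc⟩ := hd
        obtain ⟨b1, b2, b3⟩ := ctr_ne _ _ _ hb
        obtain ⟨c1, c2, c3⟩ := ctr_ne _ _ _ hc
        rw [b3, c3] at ha
        refine ⟨⟨ha, ?_, ?_⟩, b3, c3⟩
        · rcases hs with rfl | rfl <;> assumption
        · rcases hs with rfl | rfl <;> assumption
      exact mac_congr _ _ _ _ _ _ (fun d hd => (hmem d hd).2)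
        (sub_mac h1 _ _ _ _ _ hM (fun d hd => (hmem d hd).1))
    · push Not at hs
      obtain ⟨hs1, hs2⟩ := hs
      refine ⟨s, ?_⟩
      set F1 : Finset E := (Es src dst s).filter
        (fun d => d = e ∨ ¬ Jn src dst d (src e) (dst e)) with hF1
      have hM1 : Mac 2 src dst F1 := sub_mac h1 _ _ _ _ _ hM (filter_subset _ _)
      have he : e ∈ F1 := by
        simp only [hF1, Es, mem_filter, mem_univ, true_and, true_or, and_true]
        exact ⟨hne, Ne.symm hs1, Ne.symm hs2⟩
      have hM2 := h2 V E src dst F1 2 e hM1 he hne (by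
        intro d hd hde
        rw [hF1, mem_filter] at hd
        rcases hd.2 with h | h
        · exact absurd h hde
        · exact h)
      refine sub_mac h1 _ _ _ _ _ hM2 ?_
      intro d hd
      simp only [Es, mem_filter, mem_univ, true_and, Function.comp] at hd
      obtain ⟨ha, hb, hc⟩ := hd
      have hcu : ctr (src e) (dst e) (src e) = src e := by simp [ctr]
      have hcv : ctr (src e) (dst e) (dst e) = src e := by simp [ctr]
      have hcs : ctr (src e) (dst e) s = s := by simp [ctr, hs2]
      have hde : d ≠ e := by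
        rintro rfl
        rw [hcu, hcv] at ha
        exact ha rfl
      rw [mem_erase, hF1, mem_filter]
      refine ⟨hde, ?_, Or.inr ?_⟩
      · simp only [Es, mem_filter, mem_univ, true_and]
        refine ⟨fun h => ha (by rw [h]), fun h => hb (by rw [h, hcs]), fun h => hc (by rw [h, hcs])⟩
      · rintro (⟨h3, h4⟩ | ⟨h3, h4⟩)
        · rw [h3, h4, hcu, hcv] at ha
          exact ha rfl
        · rw [h3, h4, hcu, hcv] at ha
          exact ha rfl

end Pool.Agent.TH676.Z
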