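import Pool.Agent.TH676.Z.Stm2

set_option autoImplicit false
set_option linter.unusedSectionVars false

/-! # MacLane's condition and the contraction of an edge (Z5A-2, helper329) -/

namespace Pool.Agent.TH676.Z

open Finset

namespace MacConx

variable {V E : Type} [Fintype V] [DecidableEq V] [Fintype E] [DecidableEq E]

/-- put the coordinate `e` to `0` -/
def rho (e : E) : (E → ZMod 2) →ₗ[ZMod 2] (E → ZMod 2) where
  toFun x := fun d => if d = e then 0 else x d
  map_add' x y := by
    funext d
    by_cases h : d = e <;> simp [h]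
  map_smul' c x := by
    funext d
    by_cases h : d = e <;> simp [h]

theorem rho_apply (e : E) (x : E → ZMod 2) (d : E) : rho e x d = if d = e then 0 else x d := rfl

theorem two (a : ZMod 2) : a + a = 0 := CharTwo.add_self_eq_zero a

theorem bd2_add (src dst : E → V) (a b : E → ZMod 2) (v : V) :
    bd2 src dst (a + b) v = bd2 src dst a v + bd2 src dst b v := by
  unfold bd2
  rw [← sum_add_distrib]
  refine sum_congr rfl fun e _ => ?_
  simp only [Pi.add_apply]
  split_ifs <;> ring

theorem bd2_single (src dst : E → V) (e : E) (c : ZMod 2) (v : V) :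
    bd2 src dst (Pi.single e c) v = (if src e = v then c else 0) + (if dst e = v then c else 0) := by
  unfold bd2
  rw [sum_eq_single e]
  · simp
  · intro b _ hb
    simp [Pi.single_eq_of_ne hb]
  · intro h; exact absurd (mem_univ e) h

/-- the value on a loop does not matter -/
theorem bd2_rho (src dst : E → V) (e : E) (he : src e = dst e) (x : E → ZMod 2) (v : V) :
    bd2 src dst (rho e x) v = bd2 src dst x v := by
  unfold bd2
  refine sum_congr rfl fun d _ => ?_
  by_cases h : d = e
  · subst h
    rw [rho_apply, if_pos rfl, he]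
    split_ifs
    · simp [two]
    · rfl
  · rw [rho_apply, if_neg h]

/-- boundary after contraction -/
theorem bd2_ctr (src dst : E → V) (u v : V) (huv : u ≠ v) (f : E → ZMod 2) (x : V) :
    bd2 (ctr u v ∘ src) (ctr u v ∘ dst) f x =
      if x = v then 0 else if x = u then bd2 src dst f u + bd2 src dst f v else bd2 src dst f x := by
  unfold bd2
  by_cases hxv : x = v
  · subst hxv
    rw [if_pos rfl]
    refine sum_eq_zero fun e _ => ?_
    have h1 : ∀ y : V, ctr u x y ≠ x := by
      intro y hy
      unfold ctr at hy
      split_ifs at hy with h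
      · exact huv hy
      · exact h hy
    simp [h1]
  · rw [if_neg hxv]
    by_cases hxu : x = u
    · subst hxu
      rw [if_pos rfl, ← sum_add_distrib]
      refine sum_congr rfl fun e _ => ?_
      have h1 : ∀ y : V, (if ctr x v y = x then f e else 0)
          = (if y = x then f e else 0) + (if y = v then f e else 0) := by
        intro y
        unfold ctr
        by_cases h : y = v
        · simp [h, Ne.symm hxv]
        · simp [h]
      simp only [Function.comp]
      rw [h1, h1]; abel
    · rw [if_neg hxu]
      refine sum_congr rfl fun e _ => ?_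
      have h1 : ∀ y : V, (ctr u v y = x) ↔ (y = x) := by
        intro y
        unfold ctr
        by_cases h : y = v
        · simp only [h, if_true]
          exact ⟨fun h2 => absurd h2.symm hxu, fun h2 => absurd h2.symm hxv⟩
        · simp [h]
      simp only [Function.comp, h1]

theorem loop (src dst : E → V) (e : E) :
    (ctr (src e) (dst e) ∘ src) e = (ctr (src e) (dst e) ∘ dst) e := by
  simp only [Function.comp]
  unfold ctr
  simp

variable {src dst : E → V} {F : Finset E} {e : E}

theorem map_mem (hne : src e ≠ dst e) {x : E → ZMod 2} (hx : x ∈ ZF src dst F) :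
    rho e x ∈ ZF (ctr (src e) (dst e) ∘ src) (ctr (src e) (dst e) ∘ dst) (F.erase e) := by
  obtain ⟨h1, h2⟩ := hx
  refine ⟨fun d hd => ?_, fun v => ?_⟩
  · rw [rho_apply]
    split_ifs with h
    · rfl
    · exact h1 d fun hdF => hd (mem_erase.2 ⟨h, hdF⟩)
  · rw [bd2_rho _ _ _ (loop src dst e), bd2_ctr _ _ _ _ hne, h2, h2, h2]
    simp

theorem inj (hne : src e ≠ dst e) {x : E → ZMod 2} (hx : x ∈ ZF src dst F)
    (h0 : rho e x = 0) : x = 0 := by
  obtain ⟨-, h2⟩ := hx
  have h3 : x = Pi.single e (x e) := by
    funext d
    by_cases h : d = e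
    · subst h; simp
    · have := congrFun h0 d
      rw [rho_apply, if_neg h] at this
      rw [Pi.single_eq_of_ne h, this, Pi.zero_apply]
  have h4 := h2 (src e)
  rw [h3, bd2_single, if_pos rfl, if_neg (Ne.symm hne), add_zero] at h4
  rw [h3]
  have h5 : x e = 0 := by simpa using h4
  rw [h5, Pi.single_zero]

theorem surj (he : e ∈ F) (hne : src e ≠ dst e) {y : E → ZMod 2}
    (hy : y ∈ ZF (ctr (src e) (dst e) ∘ src) (ctr (src e) (dst e) ∘ dst) (F.erase e)) :
    ∃ x ∈ ZF src dst F, rho e x = y := by
  obtain ⟨h1, h2⟩ := hy
  have hye : y e = 0 := h1 e (by simp)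
  refine ⟨y + Pi.single e (bd2 src dst y (dst e)), ⟨fun d hd => ?_, fun v => ?_⟩, ?_⟩
  · have hde : d ≠ e := fun h => hd (h ▸ he)
    rw [Pi.add_apply, Pi.single_eq_of_ne hde, add_zero]
    exact h1 d fun h => hd (mem_of_mem_erase h)
  · rw [bd2_add, bd2_single]
    have h3 := h2 v
    rw [bd2_ctr _ _ _ _ hne] at h3
    by_cases hv : v = dst e
    · subst hv
      rw [if_neg hne, if_pos rfl, zero_add]
      exact two _
    · rw [if_neg hv] at h3
      by_cases hu : v = src e
      · subst hu
        rw [if_pos rfl] at h3
        rw [if_pos rfl, if_neg (Ne.symm hv), add_zero]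
        exact h3
      · rw [if_neg hu] at h3
        rw [if_neg (Ne.symm hu), if_neg (Ne.symm hv), add_zero, add_zero]
        exact h3
  · funext d
    rw [rho_apply]
    split_ifs with h
    · rw [h, hye]
    · rw [Pi.add_apply, Pi.single_eq_of_ne h, add_zero]

end MacConx

open MacConx in
theorem macCon : St_macCon := by
  intro V E _ _ _ _ src dst F h e ⟨k, K, hK, hc, hr⟩ he hne _
  have hmap : ZF (ctr (src e) (dst e) ∘ src) (ctr (src e) (dst e) ∘ dst) (F.erase e) =
      (ZF src dst F).map (rho e) := by
    ext y
    rw [Submodule.mem_map]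
    constructor
    · intro hy
      exact surj he hne hy
    · rintro ⟨x, hx, rfl⟩
      exact map_mem hne hx
  refine ⟨k, fun i => rho e (K i), fun i => map_mem hne (hK i), fun d => ?_, ?_⟩
  · refine (card_le_card ?_).trans (hc d)
    intro i hi
    rw [mem_filter] at hi ⊢
    refine ⟨hi.1, fun h0 => hi.2 ?_⟩
    show rho e (K i) d = 0
    rw [rho_apply, h0, ite_self]
  · have h1 : Module.finrank (ZMod 2)
        (ZF (ctr (src e) (dst e) ∘ src) (ctr (src e) (dst e) ∘ dst) (F.erase e)) ≤
        Module.finrank (ZMod 2) (ZF src dst F) := by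
      rw [hmap]
      exact Submodule.finrank_map_le _ _
    have h2 : Submodule.span (ZMod 2) (Set.range fun i => rho e (K i)) =
        (Submodule.span (ZMod 2) (Set.range K)).map (rho e) := by
      rw [Submodule.map_span]
      congr 1
      rw [← Set.range_comp]
      rfl
    have h3 : Submodule.span (ZMod 2) (Set.range K) ≤ ZF src dst F := by
      rw [Submodule.span_le]
      rintro _ ⟨i, rfl⟩
      exact hK i
    have h4 : Function.Injective ((rho e).domRestrict (Submodule.span (ZMod 2) (Set.range K))) := by
      rw [← LinearMap.ker_eq_bot, LinearMap.ker_eq_bot']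
      rintro ⟨x, hx⟩ h0
      have h5 : rho e x = 0 := h0
      exact Subtype.ext (inj hne (h3 hx) h5)
    have h6 := LinearMap.finrank_range_of_inj h4
    rw [LinearMap.range_domRestrict] at h6
    rw [h2, h6]
    exact h1.trans hr

end Pool.Agent.TH676.Z
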