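import Pool.Agent.TH676.Z.Stm2

set_option autoImplicit false
set_option linter.unusedSectionVars false

/-! # MacLane's condition is kept by the deletion of an edge -/

namespace Pool.Agent.TH676.Z

open Finset

namespace MacDelx

variable {V E : Type} [Fintype V] [DecidableEq V] [Fintype E] [DecidableEq E]

theorem mem_ZF {src dst : E → V} {F : Finset E} {x : E → ZMod 2} :
    x ∈ ZF src dst F ↔ (∀ e, e ∉ F → x e = 0) ∧ ∀ v, bd2 src dst x v = 0 := Iff.rfl

theorem ZF_mono {src dst : E → V} {F F' : Finset E} (h : F ⊆ F') :
    ZF src dst F ≤ ZF src dst F' :=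
  fun _ hx => ⟨fun e he => hx.1 e (fun h' => he (h h')), hx.2⟩

theorem mem_erase_of {src dst : E → V} {F : Finset E} {e : E} {x : E → ZMod 2}
    (hx : x ∈ ZF src dst F) (h : x e = 0) : x ∈ ZF src dst (F.erase e) := by
  refine ⟨fun e' he' => ?_, hx.2⟩
  by_cases h1 : e' = e
  · rw [h1, h]
  · exact hx.1 e' (fun h2 => he' (mem_erase.mpr ⟨h1, h2⟩))

theorem zmod2_add {a b : ZMod 2} (ha : a ≠ 0) (hb : b ≠ 0) : a + b = 0 := by
  revert a b; decide

theorem self_add (a : ZMod 2) : a + a = 0 := by
  revert a; decide

end MacDelx

open MacDelx in
/-- A1 -/
theorem macDel : St_macDel := by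
  intro V E _ _ _ _ src dst F h e hM
  obtain ⟨k, K, h1, h2, h3⟩ := hM
  by_cases hA : ∀ i, K i e = 0
  · refine ⟨k, K, fun i => mem_erase_of (h1 i) (hA i), h2, le_trans ?_ h3⟩
    exact Submodule.finrank_mono (ZF_mono (erase_subset e F))
  · push Not at hA
    obtain ⟨i1, hi1⟩ := hA
    set K' : Fin k → E → ZMod 2 := fun i => if i = i1 then 0 else
      if K i e ≠ 0 then K i + K i1 else K i with hK'
    refine ⟨k, K', fun i => ?_, fun e' => ?_, ?_⟩
    · rw [hK']
      beta_reduce
      split_ifs with a1 a2
      · exact Submodule.zero_mem _
      · refine mem_erase_of (Submodule.add_mem _ (h1 i) (h1 i1)) ?_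
        rw [Pi.add_apply]
        exact zmod2_add a2 hi1
      · rw [not_not] at a2
        exact mem_erase_of (h1 i) a2
    · have hsub : (univ.filter (fun i => K' i e' ≠ 0)) ⊆
          ((univ.filter (fun i => K i e' ≠ 0)).erase i1) ∪
            (if K i1 e' ≠ 0 then (univ.filter (fun i => K i e ≠ 0)).erase i1 else ∅) := by
        intro i hi
        rw [mem_filter] at hi
        have hi2 := hi.2
        rw [hK'] at hi2
        beta_reduce at hi2
        rw [mem_union, mem_erase, mem_filter]
        by_cases a1 : i = i1
        · rw [if_pos a1] at hi2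
          exact absurd rfl hi2
        · rw [if_neg a1] at hi2
          by_cases a2 : K i e' ≠ 0
          · exact Or.inl ⟨a1, mem_univ _, a2⟩
          · rw [not_not] at a2
            right
            by_cases a3 : K i e ≠ 0
            · rw [if_pos a3, Pi.add_apply, a2, zero_add] at hi2
              rw [if_pos hi2, mem_erase, mem_filter]
              exact ⟨a1, mem_univ _, a3⟩
            · rw [if_neg a3] at hi2
              exact absurd a2 hi2
      refine (card_le_card hsub).trans ((card_union_le _ _).trans ?_)
      by_cases a1 : K i1 e' ≠ 0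
      · rw [if_pos a1, card_erase_of_mem (by rw [mem_filter]; exact ⟨mem_univ _, a1⟩),
          card_erase_of_mem (by rw [mem_filter]; exact ⟨mem_univ _, hi1⟩)]
        have b1 := h2 e'
        have b2 := h2 e
        omega
      · rw [if_neg a1, card_empty, add_zero]
        exact (card_erase_le).trans (h2 e')
    · have hlt : ZF src dst (F.erase e) < ZF src dst F := by
        refine lt_of_le_of_ne (ZF_mono (erase_subset e F)) fun heq => ?_
        have := h1 i1
        rw [← heq] at this
        exact hi1 (this.1 e (notMem_erase e F))
      have h4 := Submodule.finrank_lt_finrank_of_lt hlt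
      have hspan : Submodule.span (ZMod 2) (Set.range K) ≤
          Submodule.span (ZMod 2) (Set.range K') ⊔ Submodule.span (ZMod 2) {K i1} := by
        rw [Submodule.span_le]
        rintro _ ⟨i, rfl⟩
        have c1 : K i1 ∈ Submodule.span (ZMod 2) (Set.range K') ⊔
            Submodule.span (ZMod 2) {K i1} :=
          Submodule.mem_sup_right (Submodule.mem_span_singleton_self _)
        have c2 : K' i ∈ Submodule.span (ZMod 2) (Set.range K') ⊔
            Submodule.span (ZMod 2) {K i1} :=
          Submodule.mem_sup_left (Submodule.subset_span ⟨i, rfl⟩)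
        by_cases a1 : i = i1
        · rw [a1]; exact c1
        · by_cases a3 : K i e ≠ 0
          · have c3 : K i = K' i + K i1 := by
              rw [hK']
              beta_reduce
              rw [if_neg a1, if_pos a3]
              funext x
              rw [Pi.add_apply, Pi.add_apply, add_assoc, self_add, add_zero]
            have c4 := Submodule.add_mem _ c2 c1
            rw [← c3] at c4
            exact c4
          · have c3 : K i = K' i := by
              rw [hK']
              beta_reduce
              rw [if_neg a1, if_neg a3]
            rw [← c3] at c2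
            exact c2
      have h5 := Submodule.finrank_mono hspan
      have h6 := Submodule.finrank_add_le_finrank_add_finrank
        (Submodule.span (ZMod 2) (Set.range K')) (Submodule.span (ZMod 2) {K i1})
      have h7 : Module.finrank (ZMod 2) (Submodule.span (ZMod 2) {K i1}) ≤ 1 := by
        have := finrank_span_le_card (R := ZMod 2) ({K i1} : Set (E → ZMod 2))
        simpa using this
      omega

end Pool.Agent.TH676.Z
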