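import Pool.Agent.TH676.Z.Stm3
import Pool.Agent.TH676.Z.ApMC
import Pool.Agent.TH676.Z.MacDel
import Pool.Agent.TH676.Z.MacCon

set_option autoImplicit false
set_option linter.unusedSectionVars false

/-! # The class `ApS k` is closed under deletions and contractions of edges -/

namespace Pool.Agent.TH676.Z

open Finset

namespace ApsMCx

variable {V E : Type} [Fintype V] [DecidableEq V] [Fintype E] [DecidableEq E]

theorem card_le (S : Finset V) (u v : V) (h : u ∈ S ∨ v ∈ S) :
    (insert u (S.erase v)).card ≤ S.card := by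
  by_cases hv : v ∈ S
  · refine (card_insert_le _ _).trans ?_
    rw [card_erase_of_mem hv]
    have := card_pos.2 ⟨v, hv⟩
    omega
  · have hu : u ∈ S := h.resolve_right hv
    rw [erase_eq_of_notMem hv, insert_eq_of_mem hu]

theorem ctr_not (S : Finset V) (u v x : V) (hv : v ∉ S) (h : ctr u v x ∉ S) : x ∉ S := by
  intro hx
  apply h
  have hne : x ≠ v := fun e => hv (e ▸ hx)
  unfold ctr
  rwa [if_neg hne]

end ApsMCx

open ApMCx ApsMCx

theorem apsMC : St_apsMC := by
  classical
  have h1 : St_macDel := macDel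
  have h2 : St_macCon := macCon
  intro V E _ _ _ _ k
  refine ⟨?_, ?_⟩
  · rintro src dst e ⟨S, hS, hM⟩ hne
    refine ⟨S, hS, ?_⟩
    have hmem : ∀ d ∈ ES src (lp src dst {e}) S, d ∈ ES src dst S ∧ lp src dst {e} d = dst d := by
      intro d hd
      simp only [ES, mem_filter, mem_univ, true_and] at hd ⊢
      have hde : d ≠ e := by
        rintro rfl
        apply hd.1
        simp [lp]
      have hl : lp src dst {e} d = dst d := by simp [lp, hde]
      rw [hl] at hd
      exact ⟨hd, hl⟩
    exact mac_congr _ _ _ _ _ _ (fun d hd => ⟨rfl, (hmem d hd).2⟩)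
      (sub_mac h1 _ _ _ _ _ hM (fun d hd => (hmem d hd).1))
  · rintro src dst e ⟨S, hS, hM⟩ hne
    by_cases hs : src e ∈ S ∨ dst e ∈ S
    · refine ⟨insert (src e) (S.erase (dst e)), (card_le S _ _ hs).trans hS, ?_⟩
      have hnot : ∀ x : V, x ∉ insert (src e) (S.erase (dst e)) → x ≠ dst e → x ∉ S := by
        intro x hx hxe hxS
        exact hx (mem_insert_of_mem (mem_erase.2 ⟨hxe, hxS⟩))
      have hmem : ∀ d ∈ ES (ctr (src e) (dst e) ∘ src) (ctr (src e) (dst e) ∘ dst)
          (insert (src e) (S.erase (dst e))),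
          d ∈ ES src dst S ∧ (ctr (src e) (dst e) ∘ src) d = src d ∧
            (ctr (src e) (dst e) ∘ dst) d = dst d := by
        intro d hd
        simp only [ES, mem_filter, mem_univ, true_and, Function.comp] at hd ⊢
        obtain ⟨ha, hb, hc⟩ := hd
        obtain ⟨b1, b2, b3⟩ := ctr_ne (src e) (dst e) (src d)
          (fun h => hb (by rw [h]; exact mem_insert_self _ _))
        obtain ⟨c1, c2, c3⟩ := ctr_ne (src e) (dst e) (dst d)
          (fun h => hc (by rw [h]; exact mem_insert_self _ _))
        rw [b3, c3] at ha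
        rw [b3] at hb
        rw [c3] at hc
        exact ⟨⟨ha, hnot _ hb b2, hnot _ hc c2⟩, b3, c3⟩
      exact mac_congr _ _ _ _ _ _ (fun d hd => (hmem d hd).2)
        (sub_mac h1 _ _ _ _ _ hM (fun d hd => (hmem d hd).1))
    · push Not at hs
      obtain ⟨hs1, hs2⟩ := hs
      refine ⟨S, hS, ?_⟩
      set F1 : Finset E := (ES src dst S).filter
        (fun d => d = e ∨ ¬ Jn src dst d (src e) (dst e)) with hF1
      have hM1 : Mac 2 src dst F1 := sub_mac h1 _ _ _ _ _ hM (filter_subset _ _)
      have he : e ∈ F1 := by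
        simp only [hF1, ES, mem_filter, mem_univ, true_and, true_or, and_true]
        exact ⟨hne, hs1, hs2⟩
      have hM2 := h2 V E src dst F1 2 e hM1 he hne (by
        intro d hd hde
        rw [hF1, mem_filter] at hd
        rcases hd.2 with h | h
        · exact absurd h hde
        · exact h)
      refine sub_mac h1 _ _ _ _ _ hM2 ?_
      intro d hd
      simp only [ES, mem_filter, mem_univ, true_and, Function.comp] at hd
      obtain ⟨ha, hb, hc⟩ := hd
      have hcu : ctr (src e) (dst e) (src e) = src e := by simp [ctr]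
      have hcv : ctr (src e) (dst e) (dst e) = src e := by simp [ctr]
      have hde : d ≠ e := by
        rintro rfl
        rw [hcu, hcv] at ha
        exact ha rfl
      rw [mem_erase, hF1, mem_filter]
      refine ⟨hde, ?_, Or.inr ?_⟩
      · simp only [ES, mem_filter, mem_univ, true_and]
        exact ⟨fun h => ha (by rw [h]), ctr_not S _ _ _ hs2 hb, ctr_not S _ _ _ hs2 hc⟩
      · rintro (⟨h3, h4⟩ | ⟨h3, h4⟩)
        · rw [h3, h4, hcu, hcv] at ha
          exact ha rfl
        · rw [h3, h4, hcu, hcv] at ha
          exact ha rfl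

end Pool.Agent.TH676.Z
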