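import Pool.Agent.TH676.Z.Stm4

set_option autoImplicit false
set_option linter.unusedSectionVars false

/-! # The fourteen edges at distance at most two from a neighbour of `s` (helper952) -/

namespace Pool.Agent.TH676.Z

open Finset

namespace Edge14x

/-- two neighbours different from a given neighbour -/
theorem two_nb {V : Type} {Ad : V → V → Prop} (t : Three Ad) {x y : V} (h : Ad x y) :
    ∃ a b, a ≠ b ∧ Ad x a ∧ Ad x b ∧ a ≠ y ∧ b ≠ y := by
  obtain ⟨a, b, c, h1, h2, h3, h12, h13, h23⟩ := t x y h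
  by_cases ha : a = y
  · subst ha
    exact ⟨b, c, h23, h2, h3, h12.symm, h13.symm⟩
  · by_cases hb : b = y
    · subst hb
      exact ⟨a, c, h13, h1, h3, h12, h23.symm⟩
    · exact ⟨a, b, h12, h1, h2, ha, hb⟩

theorem nb_card {V : Type} [Fintype V] [DecidableEq V] {Ad : V → V → Prop} (t : Three Ad)
    {x y : V} (h : Ad x y) {F : Finset V} (hF : ∀ z, Ad x z → z ≠ y → z ∈ F) : 2 ≤ F.card := by
  obtain ⟨a, b, hab, ha, hb, n1, n2⟩ := two_nb t h
  exact two_le (hF a ha n1) (hF b hb n2) hab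

/-- `x` is at distance one, two or three from `s` via `v` -/
def near {V : Type} (Ad : V → V → Prop) (s v x : V) : Prop := x = v ∨ P2 Ad s v x ∨ P3 Ad s v x

section lv

variable {V : Type} {Ad : V → V → Prop} (g : Gi Ad) {s v w x y : V} (hv : Ad s v) (hw : Ad s w)

include g hv in
theorem near_ne (h : near Ad s v x) : x ≠ s := by
  rintro rfl
  rcases h with h | h | ⟨y, h1, h2, h3, h4⟩
  · subst h
    exact g.c2 _ hv
  · exact h.2 rfl
  · exact g.c3 _ v y hv h1 h3

include g hv in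
theorem P4_ne (h : P4 Ad s v x) : x ≠ s := by
  rintro rfl
  obtain ⟨y, z, h1, h2, h3, h4, h5, h6⟩ := h
  exact g.c4 _ v y z hv h1 h3 h5 h2.symm h4.symm

include g hv hw in
theorem near_one (hne : v ≠ w) (h : near Ad s v x) (h' : near Ad s w x) : False := by
  rcases h with h | h | h <;> rcases h' with h' | h' | h'
  · exact hne (h.symm.trans h')
  · subst h
    exact g.c3 s w x hw h'.1 (g.symm hv)
  · subst h
    obtain ⟨y, a1, a2, a3, a4⟩ := h'
    exact g.c4 s w y x hw a1 a3 (g.symm hv) a2.symm hne.symm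
  · subst h'
    exact g.c3 s v x hv h.1 (g.symm hw)
  · exact g.c4 s v x w hv h.1 (g.symm h'.1) (g.symm hw) h.2.symm hne
  · obtain ⟨y, a1, a2, a3, a4⟩ := h'
    exact g.c5 s v x y w hv h.1 (g.symm a3) (g.symm a1) (g.symm hw)
  · subst h'
    obtain ⟨y, a1, a2, a3, a4⟩ := h
    exact g.c4 s v y x hv a1 a3 (g.symm hw) a2.symm hne
  · obtain ⟨y, a1, a2, a3, a4⟩ := h
    exact g.c5 s v y x w hv a1 a3 (g.symm h'.1) (g.symm hw)
  · obtain ⟨y, a1, a2, a3, a4⟩ := h
    obtain ⟨z, b1, b2, b3, b4⟩ := h'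
    by_cases hy : y = z
    · subst hy
      exact g.c4 s v y w hv a1 (g.symm b1) (g.symm hw) a2.symm hne
    · exact g.c6 s v y x z w hv a1 a3 (g.symm b3) (g.symm b1) (g.symm hw) a2.symm a4.symm hy b4
        b2 hne.symm

include g hv hw in
theorem aux23 (hne : v ≠ w) (h : P2 Ad s v x) (h' : P3 Ad s w y) (hxy : Ad x y) : False := by
  obtain ⟨z, b1, b2, b3, b4⟩ := h'
  refine g.c6 s v x y z w hv h.1 hxy (g.symm b3) (g.symm b1) (g.symm hw) h.2.symm ?_ ?_ b4 b2
    hne.symm
  · rintro rfl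
    exact g.c4 s w z v hw b1 b3 (g.symm hv) b2.symm hne.symm
  · rintro rfl
    exact g.c4 s v x w hv h.1 (g.symm b1) (g.symm hw) h.2.symm hne

include g hv hw in
theorem near_two (c7 : C7 Ad) (hne : v ≠ w) (h : near Ad s v x) (h' : near Ad s w y)
    (hxy : Ad x y) : False := by
  rcases h with h | h | h <;> rcases h' with h' | h' | h'
  · subst h h'
    exact g.c3 s x y hv hxy (g.symm hw)
  · subst h
    exact g.c4 s x y w hv hxy (g.symm h'.1) (g.symm hw) h'.2.symm hne
  · subst h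
    obtain ⟨z, b1, b2, b3, b4⟩ := h'
    exact g.c5 s x y z w hv hxy (g.symm b3) (g.symm b1) (g.symm hw)
  · subst h'
    exact g.c4 s y x v hw (g.symm hxy) (g.symm h.1) (g.symm hv) h.2.symm hne.symm
  · exact g.c5 s v x y w hv h.1 hxy (g.symm h'.1) (g.symm hw)
  · exact aux23 g hv hw hne h h' hxy
  · subst h'
    obtain ⟨z, b1, b2, b3, b4⟩ := h
    exact g.c5 s y x z v hw (g.symm hxy) (g.symm b3) (g.symm b1) (g.symm hv)
  · exact aux23 g hw hv hne.symm h' h (g.symm hxy)
  · obtain ⟨z, a1, a2, a3, a4⟩ := h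
    obtain ⟨u, b1, b2, b3, b4⟩ := h'
    exact c7 s v z x y u w hv a1 a3 hxy (g.symm b3) (g.symm b1) (g.symm hw)

/-- `p` is the parent of `x` -/
def par (Ad : V → V → Prop) (s v p x : V) : Prop :=
  (p = v ∧ P2 Ad s v x) ∨ (P2 Ad s v p ∧ P3 Ad s v x) ∨ (P3 Ad s v p ∧ P4 Ad s v x)

include g in
theorem l12 (h : P2 Ad s v v) : False := g.c2 _ h.1

theorem l13 (h : P3 Ad s v v) : False := by
  obtain ⟨y, h1, h2, h3, h4⟩ := h
  exact h4 rfl

include g in
theorem l23 (h : P2 Ad s v x) (h' : P3 Ad s v x) : False := by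
  obtain ⟨y, h1, h2, h3, h4⟩ := h'
  exact g.c3 v y x h1 h3 (g.symm h.1)

include g in
theorem par_anti [DecidableEq V] (h : par Ad s v x y) (h' : par Ad s v y x) : False := by
  rcases h with ⟨h1, h2⟩ | ⟨h1, h2⟩ | ⟨h1, h2⟩ <;> rcases h' with ⟨k1, k2⟩ | ⟨k1, k2⟩ | ⟨k1, k2⟩
  · subst h1
    exact l12 g k2
  · subst h1
    exact l13 k2
  · subst h1
    exact s41 g k2
  · subst k1
    exact l13 h2
  · exact l23 g h1 k2
  · exact s42 g k2 h1.1
  · subst k1
    exact s41 g h2
  · exact s42 g h2 k1.1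
  · exact s43 g k2 h1

end lv

/-- the edges with an end near `s` via `v` -/
noncomputable def T {V E : Type} [Fintype V] [DecidableEq V] [Fintype E] [DecidableEq E]
    (src dst : E → V) (s v : V) : Finset E :=
  open Classical in (Es src dst s).filter (fun e => near (Adj src dst) s v (src e) ∨
    near (Adj src dst) s v (dst e))

section count

variable {V : Type} [Fintype V] [DecidableEq V] {Ad : V → V → Prop}

/-- twice as many children -/
theorem dbl (F F' : Finset V) (ch : V → Finset V) (h2 : ∀ y ∈ F, 2 ≤ (ch y).card)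
    (hd : ∀ y ∈ F, ∀ z ∈ F, y ≠ z → ∀ x, x ∈ ch y → x ∈ ch z → False)
    (hs : ∀ y ∈ F, ch y ⊆ F') : 2 * F.card ≤ F'.card := by
  have h1 : F.card • 2 ≤ ∑ y ∈ F, (ch y).card := card_nsmul_le_sum _ _ _ h2
  have h3 : ∑ y ∈ F, (ch y).card = (F.biUnion ch).card := by
    rw [card_biUnion]
    intro y hy z hz hne
    exact disjoint_left.mpr fun x hx hx' => hd y hy z hz hne x hx hx'
  have h4 : (F.biUnion ch).card ≤ F'.card := card_le_card (biUnion_subset.2 hs)
  rw [smul_eq_mul] at h1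
  omega

open Classical in
/-- the fourteen children -/
theorem fourteen (g : Gi Ad) (t : Three Ad) {s v : V} (hv : Ad s v) :
    14 ≤ (univ.filter (fun x => P2 Ad s v x ∨ P3 Ad s v x ∨ P4 Ad s v x)).card := by
  obtain ⟨F1, hF1⟩ : ∃ F : Finset V, F = univ.filter (fun x => P2 Ad s v x) := ⟨_, rfl⟩
  obtain ⟨F2, hF2⟩ : ∃ F : Finset V, F = univ.filter (fun x => P3 Ad s v x) := ⟨_, rfl⟩
  obtain ⟨F3, hF3⟩ : ∃ F : Finset V, F = univ.filter (fun x => P4 Ad s v x) := ⟨_, rfl⟩
  have m1 : ∀ x, x ∈ F1 ↔ P2 Ad s v x := fun x => by rw [hF1]; simp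
  have m2 : ∀ x, x ∈ F2 ↔ P3 Ad s v x := fun x => by rw [hF2]; simp
  have m3 : ∀ x, x ∈ F3 ↔ P4 Ad s v x := fun x => by rw [hF3]; simp
  have c1 : 2 ≤ F1.card := nb_card t (g.symm hv) fun z hz hzs => (m1 z).2 ⟨hz, hzs⟩
  have c2 : 2 * F1.card ≤ F2.card := by
    refine dbl F1 F2 (fun y => univ.filter (fun x => Ad y x ∧ x ≠ v)) ?_ ?_ ?_
    · intro y hy
      exact nb_card t (g.symm ((m1 y).1 hy).1) fun z hz hzv => by
        rw [mem_filter]
        exact ⟨mem_univ _, hz, hzv⟩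
    · intro y hy z hz hne x hx hx'
      rw [mem_filter] at hx hx'
      exact g.c4 v y x z ((m1 y).1 hy).1 hx.2.1 (g.symm hx'.2.1) (g.symm ((m1 z).1 hz).1)
        hx.2.2.symm hne
    · intro y hy x hx
      rw [mem_filter] at hx
      exact (m2 x).2 ⟨y, ((m1 y).1 hy).1, ((m1 y).1 hy).2, hx.2.1, hx.2.2⟩
  have c3 : 2 * F2.card ≤ F3.card := by
    have hp : ∀ z, ∃ y, P3 Ad s v z → Ad v y ∧ y ≠ s ∧ Ad y z ∧ z ≠ v := by
      intro z
      by_cases h : P3 Ad s v z
      · obtain ⟨y, hy⟩ := h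
        exact ⟨y, fun _ => hy⟩
      · exact ⟨z, fun h' => absurd h' h⟩
    choose p hp using hp
    refine dbl F2 F3 (fun z => univ.filter (fun x => Ad z x ∧ x ≠ p z)) ?_ ?_ ?_
    · intro z hz
      exact nb_card t (g.symm (hp z ((m2 z).1 hz)).2.2.1) fun x hx hxp => by
        rw [mem_filter]
        exact ⟨mem_univ _, hx, hxp⟩
    · intro z hz z' hz' hne x hx hx'
      rw [mem_filter] at hx hx'
      obtain ⟨a1, a2, a3, a4⟩ := hp z ((m2 z).1 hz)
      obtain ⟨b1, b2, b3, b4⟩ := hp z' ((m2 z').1 hz')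
      by_cases e : p z = p z'
      · rw [← e] at b3
        exact g.c4 (p z) z x z' a3 hx.2.1 (g.symm hx'.2.1) (g.symm b3) hx.2.2.symm hne
      · exact g.c6 v (p z) z x z' (p z') a1 a3 hx.2.1 (g.symm hx'.2.1) (g.symm b3) (g.symm b1)
          a4.symm hx.2.2.symm hne hx'.2.2 b4 (Ne.symm e)
    · intro z hz x hx
      rw [mem_filter] at hx
      obtain ⟨a1, a2, a3, a4⟩ := hp z ((m2 z).1 hz)
      exact (m3 x).2 ⟨p z, z, a1, a2, a3, a4, hx.2.1, hx.2.2⟩
  have key := card3 (A := F1) (B := F2) (C := F3)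
    (R := univ.filter (fun x => P2 Ad s v x ∨ P3 Ad s v x ∨ P4 Ad s v x))
    (fun x hx => by
      rw [mem_filter]
      exact ⟨mem_univ _, Or.inl ((m1 x).1 hx)⟩)
    (fun x hx => by
      rw [mem_filter]
      exact ⟨mem_univ _, Or.inr (Or.inl ((m2 x).1 hx))⟩)
    (fun x hx => by
      rw [mem_filter]
      exact ⟨mem_univ _, Or.inr (Or.inr ((m3 x).1 hx))⟩)
    (disjoint_left.mpr fun x h1 h2 => l23 g ((m1 x).1 h1) ((m2 x).1 h2))
    (disjoint_left.mpr fun x h1 h2 => s42 g ((m3 x).1 h2) ((m1 x).1 h1).1)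
    (disjoint_left.mpr fun x h1 h2 => s43 g ((m3 x).1 h2) ((m2 x).1 h1))
  omega

end count

section edges

variable {V E : Type} [Fintype V] [DecidableEq V] [Fintype E] [DecidableEq E] {src dst : E → V}

theorem T_card (g : Gi (Adj src dst)) (t : Three (Adj src dst)) {s v : V}
    (hv : Adj src dst s v) : 14 ≤ (T src dst s v).card := by
  classical
  refine (fourteen g t hv).trans ?_
  have hx : ∀ x, ∃ e, (P2 (Adj src dst) s v x ∨ P3 (Adj src dst) s v x ∨
      P4 (Adj src dst) s v x) → e ∈ T src dst s v ∧ ∃ p, par (Adj src dst) s v p x ∧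
        Jn src dst e p x := by
    intro x
    have main : ∀ p, par (Adj src dst) s v p x → Adj src dst p x → near (Adj src dst) s v p →
        x ≠ s → ∃ e, e ∈ T src dst s v ∧ ∃ p, par (Adj src dst) s v p x ∧
        Jn src dst e p x := by
      intro p hp hpx hn hxs
      have hps := near_ne g hv hn
      obtain ⟨hne, e, he⟩ := hpx
      refine ⟨e, ?_, p, hp, he⟩
      unfold T Es
      rw [mem_filter, mem_filter]
      rcases he with ⟨h1, h2⟩ | ⟨h1, h2⟩
      · rw [h1, h2]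
        exact ⟨⟨mem_univ _, hne, hps, hxs⟩, Or.inl hn⟩
      · rw [h1, h2]
        exact ⟨⟨mem_univ _, hne.symm, hxs, hps⟩, Or.inr hn⟩
    by_cases h : P2 (Adj src dst) s v x ∨ P3 (Adj src dst) s v x ∨ P4 (Adj src dst) s v x
    · have : ∃ e, e ∈ T src dst s v ∧ ∃ p, par (Adj src dst) s v p x ∧ Jn src dst e p x := by
        rcases h with h | h | h
        · exact main v (Or.inl ⟨rfl, h⟩) h.1 (Or.inl rfl) h.2
        · obtain ⟨y, h1, h2, h3, h4⟩ := h
          exact main y (Or.inr (Or.inl ⟨⟨h1, h2⟩, ⟨y, h1, h2, h3, h4⟩⟩)) h3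
            (Or.inr (Or.inl ⟨h1, h2⟩))
            (near_ne g hv (Or.inr (Or.inr ⟨y, h1, h2, h3, h4⟩)))
        · have hxs := P4_ne g hv h
          obtain ⟨y, z, h1, h2, h3, h4, h5, h6⟩ := h
          exact main z (Or.inr (Or.inr ⟨⟨y, h1, h2, h3, h4⟩, ⟨y, z, h1, h2, h3, h4, h5, h6⟩⟩)) h5
            (Or.inr (Or.inr ⟨y, h1, h2, h3, h4⟩)) hxs
      obtain ⟨e, he⟩ := this
      exact ⟨e, fun _ => he⟩
    · by_cases hE : Nonempty E
      · obtain ⟨e⟩ := hE
        exact ⟨e, fun h' => absurd h' h⟩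
      · obtain ⟨_, e, _⟩ := hv
        exact absurd ⟨e⟩ hE
  choose f hf using hx
  refine card_le_card_of_injOn f ?_ ?_
  · intro x hx
    rw [mem_coe, mem_filter] at hx
    exact mem_coe.2 (hf x hx.2).1
  · intro x hx y hy hxy
    rw [mem_coe, mem_filter] at hx hy
    obtain ⟨_, p, hp, hj⟩ := hf x hx.2
    obtain ⟨_, q, hq, hk⟩ := hf y hy.2
    rw [← hxy] at hk
    by_contra hne
    rcases hj with ⟨a1, a2⟩ | ⟨a1, a2⟩ <;> rcases hk with ⟨b1, b2⟩ | ⟨b1, b2⟩
    · exact hne (a2.symm.trans b2)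
    · have e1 : p = y := a1.symm.trans b1
      have e2 : x = q := a2.symm.trans b2
      subst e1 e2
      exact par_anti g hp hq
    · have e1 : x = q := a1.symm.trans b1
      have e2 : p = y := a2.symm.trans b2
      subst e1 e2
      exact par_anti g hp hq
    · exact hne (a1.symm.trans b1)

theorem T_disj (g : Gi (Adj src dst)) (c7 : C7 (Adj src dst)) {s v w : V}
    (hv : Adj src dst s v) (hw : Adj src dst s w) (hne : v ≠ w) :
    Disjoint (T src dst s v) (T src dst s w) := by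
  classical
  rw [disjoint_left]
  intro e h1 h2
  unfold T Es at h1 h2
  rw [mem_filter, mem_filter] at h1 h2
  have hl := h1.1.2.1
  have ha : Adj src dst (src e) (dst e) := ⟨hl, e, Or.inl ⟨rfl, rfl⟩⟩
  rcases h1.2 with k | k <;> rcases h2.2 with l | l
  · exact near_one g hv hw hne k l
  · exact near_two g hv hw c7 hne k l ha
  · exact near_two g hv hw c7 hne k l (g.symm ha)
  · exact near_one g hv hw hne k l

end edges

end Edge14x

theorem edge14 : St_edge14 := by
  intro V E _ _ _ _ src dst s g c7 t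
  classical
  have hN : ∀ w ∈ Ns src dst s, Adj src dst s w := by
    intro w hw
    unfold Ns at hw
    rw [mem_filter] at hw
    exact hw.2
  have h1 : (Ns src dst s).card • 14 ≤ ∑ w ∈ Ns src dst s, (Edge14x.T src dst s w).card :=
    card_nsmul_le_sum _ _ _ fun w hw => Edge14x.T_card g t (hN w hw)
  have h2 : ∑ w ∈ Ns src dst s, (Edge14x.T src dst s w).card =
      ((Ns src dst s).biUnion fun w => Edge14x.T src dst s w).card := by
    rw [card_biUnion]
    intro w hw w' hw' hne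
    exact Edge14x.T_disj g c7 (hN w hw) (hN w' hw') hne
  have h3 : ((Ns src dst s).biUnion fun w => Edge14x.T src dst s w).card ≤
      (Es src dst s).card := by
    refine card_le_card (biUnion_subset.2 fun w _ => ?_)
    unfold Edge14x.T
    exact filter_subset _ _
  rw [smul_eq_mul] at h1
  omega

end Pool.Agent.TH676.Z
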