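import Pool.Agent.TH676.Z.Stm4

set_option autoImplicit false

/-! # The edges at a vertex and the other edges -/

namespace Pool.Agent.TH676.Z.Splitx

open Finset Pool.Agent.TH676.Z

variable {V E : Type} [Fintype V] [DecidableEq V] [Fintype E] [DecidableEq E]

/-- the other end -/
def oth (src dst : E → V) (s : V) (e : E) : V := if src e = s then dst e else src e

/-- the proper edges at `s` -/
def Is (src dst : E → V) (s : V) : Finset E :=
  univ.filter (fun e => src e ≠ dst e ∧ (src e = s ∨ dst e = s))

theorem mem_Is {src dst : E → V} {s : V} {e : E} :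
    e ∈ Is src dst s ↔ src e ≠ dst e ∧ (src e = s ∨ dst e = s) := by simp [Is]

theorem oth_facts {src dst : E → V} {s : V} {e : E} (h : e ∈ Is src dst s) :
    s ≠ oth src dst s e ∧ Jn src dst e s (oth src dst s e) := by
  rw [mem_Is] at h
  obtain ⟨hne, h1⟩ := h
  unfold oth Jn
  split_ifs with hs
  · exact ⟨fun h2 => hne (hs.trans h2), Or.inl ⟨hs, rfl⟩⟩
  · rcases h1 with h1 | h1
    · exact absurd h1 hs
    · exact ⟨fun h2 => hs h2.symm, Or.inr ⟨rfl, h1⟩⟩

theorem image_oth (src dst : E → V) (s : V) :
    (Is src dst s).image (oth src dst s) = Ns src dst s := by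
  ext v
  simp only [mem_image, Ns, mem_filter, mem_univ, true_and]
  constructor
  · rintro ⟨e, he, rfl⟩
    obtain ⟨h1, h2⟩ := oth_facts he
    exact ⟨h1, e, h2⟩
  · rintro ⟨hne, e, he⟩
    rcases he with ⟨h1, h2⟩ | ⟨h1, h2⟩
    · refine ⟨e, mem_Is.mpr ⟨by rw [h1, h2]; exact hne, Or.inl h1⟩, ?_⟩
      unfold oth
      rw [if_pos h1, h2]
    · refine ⟨e, mem_Is.mpr ⟨by rw [h1, h2]; exact hne.symm, Or.inr h2⟩, ?_⟩
      unfold oth
      rw [if_neg (by rw [h1]; exact hne.symm), h1]

theorem card_Is_ge (src dst : E → V) (s : V) : (Ns src dst s).card ≤ (Is src dst s).card := by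
  rw [← image_oth]
  exact card_image_le

theorem card_Is_le {src dst : E → V} (hp : NoPar src dst) (s : V) :
    (Is src dst s).card ≤ (Ns src dst s).card := by
  rw [← image_oth, card_image_of_injOn]
  intro e he e' he' h
  obtain ⟨h1, h2⟩ := oth_facts (mem_coe.mp he)
  obtain ⟨-, h4⟩ := oth_facts (mem_coe.mp he')
  rw [← show oth src dst s e = oth src dst s e' from h] at h4
  exact hp e e' s _ h1 h2 h4

end Pool.Agent.TH676.Z.Splitx

namespace Pool.Agent.TH676.Z

open Finset Splitx

theorem split : St_split := by
  intro V E _ _ _ _ src dst S hp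
  constructor
  · have h1 : univ.filter (fun e => src e ≠ dst e) ⊆
        ES src dst S ∪ S.biUnion (fun s => Is src dst s) := by
      intro e he
      have hne : src e ≠ dst e := (mem_filter.mp he).2
      rw [mem_union, mem_biUnion]
      by_cases h2 : src e ∈ S
      · exact Or.inr ⟨src e, h2, mem_Is.mpr ⟨hne, Or.inl rfl⟩⟩
      · by_cases h3 : dst e ∈ S
        · exact Or.inr ⟨dst e, h3, mem_Is.mpr ⟨hne, Or.inr rfl⟩⟩
        · left
          simp only [ES, mem_filter, mem_univ, true_and]
          exact ⟨hne, h2, h3⟩
    calc (univ.filter (fun e => src e ≠ dst e)).card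
        ≤ (ES src dst S ∪ S.biUnion (fun s => Is src dst s)).card := card_le_card h1
      _ ≤ (ES src dst S).card + (S.biUnion (fun s => Is src dst s)).card := card_union_le _ _
      _ ≤ (ES src dst S).card + ∑ s ∈ S, (Is src dst s).card :=
        Nat.add_le_add_left card_biUnion_le _
      _ ≤ (ES src dst S).card + ∑ s ∈ S, (Ns src dst s).card :=
        Nat.add_le_add_left (sum_le_sum fun s _ => card_Is_le hp s) _
  · intro s
    have hd : Disjoint (Es src dst s) (Is src dst s) := by
      rw [disjoint_left]
      intro e h1 h2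
      simp only [Es, mem_filter, mem_univ, true_and] at h1
      rw [mem_Is] at h2
      rcases h2.2 with h | h
      · exact h1.2.1 h
      · exact h1.2.2 h
    calc (Es src dst s).card + (Ns src dst s).card
        ≤ (Es src dst s).card + (Is src dst s).card := Nat.add_le_add_left (card_Is_ge src dst s) _
      _ = (Es src dst s ∪ Is src dst s).card := (card_union_of_disjoint hd).symm
      _ ≤ _ := card_le_card (by
          intro e he
          rcases mem_union.mp he with h | h
          · simp only [Es, mem_filter, mem_univ, true_and] at h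
            simp only [mem_filter, mem_univ, true_and]
            exact h.1
          · rw [mem_Is] at h
            simp only [mem_filter, mem_univ, true_and]
            exact h.1)

end Pool.Agent.TH676.Z
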