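import Pool.Agent.TH676.Z.ApexH
import Pool.Agent.TH676.Z.AphMC
import Pool.Agent.TH676.Z.Edge14
import Pool.Agent.TH676.Z.Split
import Pool.Agent.TH676.Z.MacCon
import Pool.Agent.TH676.Z.MacDel

set_option autoImplicit false
set_option linter.unusedSectionVars false

/-! # Nowhere-zero 5-flows: cyclomatic number at most `15 - 2 k` after the deletion of `k` vertices -/

namespace Pool.Agent.TH676.Z

open Finset

/-- the class: after the deletion of the vertices in `S` the cyclomatic number is at most
`15 - 2 |S|` -/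
def Cy {V E : Type} [Fintype V] [DecidableEq V] [Fintype E] [DecidableEq E]
    (src dst : E → V) : Prop :=
  ∃ S : Finset V, Module.finrank (ZMod 2) (ZF src dst (ES src dst S)) + 2 * S.card ≤ 15

namespace Cycx

variable {V E : Type} [Fintype V] [DecidableEq V] [Fintype E] [DecidableEq E]

theorem fr_mono {src dst : E → V} {F F' : Finset E} (h : F' ⊆ F) :
    Module.finrank (ZMod 2) (ZF src dst F') ≤ Module.finrank (ZMod 2) (ZF src dst F) :=
  Submodule.finrank_mono (MacDelx.ZF_mono h)

theorem fr_con {src dst : E → V} {F : Finset E} {e : E} (he : e ∈ F) (hne : src e ≠ dst e) :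
    Module.finrank (ZMod 2)
        (ZF (ctr (src e) (dst e) ∘ src) (ctr (src e) (dst e) ∘ dst) (F.erase e)) ≤
      Module.finrank (ZMod 2) (ZF src dst F) := by
  have h1 : ZF (ctr (src e) (dst e) ∘ src) (ctr (src e) (dst e) ∘ dst) (F.erase e) ≤
      (ZF src dst F).map (MacConx.rho e) := by
    intro y hy
    obtain ⟨x, hx, hxy⟩ := MacConx.surj he hne hy
    exact ⟨x, hx, hxy⟩
  exact (Submodule.finrank_mono h1).trans (Submodule.finrank_map_le _ _)

theorem num15 {m n t z k : ℕ} (h1 : m + 1 ≤ z + n) (h2 : 3 * n ≤ 2 * m + t)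
    (h3 : 15 * t ≤ k * (m + t)) (h6 : 45 ≤ m + t) (hz : z + 2 * k ≤ 15) : False := by
  have hk : k ≤ 7 := by omega
  interval_cases k <;> omega

end Cycx

open ApMCx ApsMCx Cycx

theorem cyMC (V E : Type) [Fintype V] [DecidableEq V] [Fintype E] [DecidableEq E] :
    MC (V := V) (E := E) Cy := by
  classical
  refine ⟨?_, ?_⟩
  · rintro src dst e ⟨S, hM⟩ hne
    refine ⟨S, le_trans (Nat.add_le_add_right ?_ _) hM⟩
    have hmem : ∀ d ∈ ES src (lp src dst {e}) S, d ∈ ES src dst S ∧ lp src dst {e} d = dst d := by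
      intro d hd
      simp only [ES, mem_filter, mem_univ, true_and] at hd ⊢
      have hde : d ≠ e := by
        rintro rfl
        apply hd.1
        simp [lp]
      have hl : lp src dst {e} d = dst d := by simp [lp, hde]
      rw [hl] at hd
      exact ⟨hd, hl⟩
    rw [zf_congr src dst src (lp src dst {e}) _ (fun d hd => ⟨rfl, (hmem d hd).2⟩)]
    exact fr_mono (fun d hd => (hmem d hd).1)
  · rintro src dst e ⟨S, hM⟩ hne
    by_cases hs : src e ∈ S ∨ dst e ∈ S
    · refine ⟨insert (src e) (S.erase (dst e)),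
        le_trans (Nat.add_le_add ?_ (Nat.mul_le_mul_left 2 (card_le S _ _ hs))) hM⟩
      have hnot : ∀ x : V, x ∉ insert (src e) (S.erase (dst e)) → x ≠ dst e → x ∉ S := by
        intro x hx hxe hxS
        exact hx (mem_insert_of_mem (mem_erase.2 ⟨hxe, hxS⟩))
      have hmem : ∀ d ∈ ES (ctr (src e) (dst e) ∘ src) (ctr (src e) (dst e) ∘ dst)
          (insert (src e) (S.erase (dst e))),
          d ∈ ES src dst S ∧ (ctr (src e) (dst e) ∘ src) d = src d ∧
            (ctr (src e) (dst e) ∘ dst) d = dst d := by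
        intro d hd
        simp only [ES, mem_filter, mem_univ, true_and, Function.comp] at hd ⊢
        obtain ⟨ha, hb, hc⟩ := hd
        obtain ⟨b1, b2, b3⟩ := ctr_ne (src e) (dst e) (src d)
          (fun h => hb (by rw [h]; exact mem_insert_self _ _))
        obtain ⟨c1, c2, c3⟩ := ctr_ne (src e) (dst e) (dst d)
          (fun h => hc (by rw [h]; exact mem_insert_self _ _))
        rw [b3, c3] at ha
        rw [b3] at hb
        rw [c3] at hc
        exact ⟨⟨ha, hnot _ hb b2, hnot _ hc c2⟩, b3, c3⟩
      rw [zf_congr src dst _ _ _ (fun d hd => (hmem d hd).2)]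
      exact fr_mono (fun d hd => (hmem d hd).1)
    · push Not at hs
      obtain ⟨hs1, hs2⟩ := hs
      refine ⟨S, le_trans (Nat.add_le_add_right ?_ _) hM⟩
      set F1 : Finset E := (ES src dst S).filter
        (fun d => d = e ∨ ¬ Jn src dst d (src e) (dst e)) with hF1
      have hM1 : Module.finrank (ZMod 2) (ZF src dst F1) ≤
          Module.finrank (ZMod 2) (ZF src dst (ES src dst S)) := fr_mono (filter_subset _ _)
      have he : e ∈ F1 := by
        simp only [hF1, ES, mem_filter, mem_univ, true_and, true_or, and_true]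
        exact ⟨hne, hs1, hs2⟩
      have hM2 := fr_con he hne
      refine (fr_mono ?_).trans (hM2.trans hM1)
      intro d hd
      simp only [ES, mem_filter, mem_univ, true_and, Function.comp] at hd
      obtain ⟨ha, hb, hc⟩ := hd
      have hcu : ctr (src e) (dst e) (src e) = src e := by simp [ctr]
      have hcv : ctr (src e) (dst e) (dst e) = src e := by simp [ctr]
      have hde : d ≠ e := by
        rintro rfl
        rw [hcu, hcv] at ha
        exact ha rfl
      rw [mem_erase, hF1, mem_filter]
      refine ⟨hde, ?_, Or.inr ?_⟩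
      · simp only [ES, mem_filter, mem_univ, true_and]
        exact ⟨fun h => ha (by rw [h]), ctr_not S _ _ _ hs2 hb, ctr_not S _ _ _ hs2 hc⟩
      · rintro (⟨h3, h4⟩ | ⟨h3, h4⟩)
        · rw [h3, h4, hcu, hcv] at ha
          exact ha rfl
        · rw [h3, h4, hcu, hcv] at ha
          exact ha rfl


/-- **5-flows.**  If `G - S` has cyclomatic number at most `15 - 2 |S|` then `G` has a nowhere-zero
5-flow. -/
theorem cyc15 (V E : Type) [Fintype V] [DecidableEq V] [Fintype E] [DecidableEq E]
    (src dst : E → V) (hA : Cy src dst) (hb : Br src dst ∅ ∅) : FlowOn src dst ∅ ∅ := by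
  have h14 := edge14
  have hs := split
  by_contra hn
  obtain ⟨S, D, hAp, hM⟩ := crit V E Cy (cyMC V E) src dst hA hb hn
  obtain ⟨hG, hT⟩ := gi_all V E S D hM
  have hP := noPar V E S D hM
  have h7 := c7_all V E S D hM
  by_cases hno : ∀ e, S e = D e
  · exact hM.nf (flow_of_loops hno)
  · push Not at hno
    obtain ⟨e0, he0⟩ := hno
    have ha0 : Adj S D (S e0) (D e0) := ⟨he0, e0, Or.inl ⟨rfl, rfl⟩⟩
    obtain ⟨T, hT15⟩ := hAp
    obtain ⟨s1, s2⟩ := hs V E S D T hP
    have mem : ∀ x z, x ∉ T → Adj S D x z → x ∈ VS S D T := by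
      intro x z hx hxz
      simp only [VS, mem_filter, mem_univ, true_and]
      exact ⟨hx, z, hxz⟩
    have hends : ∀ e ∈ ES S D T, S e ∈ VS S D T ∧ D e ∈ VS S D T := by
      intro e he
      unfold ES at he
      rw [mem_filter] at he
      obtain ⟨_, h1, h2, h3'⟩ := he
      exact ⟨mem _ (D e) h2 ⟨h1, e, Or.inl ⟨rfl, rfl⟩⟩,
        mem _ (S e) h3' ⟨Ne.symm h1, e, Or.inr ⟨rfl, rfl⟩⟩⟩
    -- at least 45 edges
    have h45 : 45 ≤ (univ.filter (fun e => S e ≠ D e)).card := by
      obtain ⟨a, b, c, ha, hb', hc, hab, hac, hbc⟩ := hT _ _ ha0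
      have h1 : 3 ≤ (Ns S D (S e0)).card := by
        refine len_le (l := [a, b, c]) ?_ ?_
        · simp only [List.nodup_cons, List.mem_cons, List.not_mem_nil, or_false, not_or,
            not_false_eq_true, List.nodup_nil, and_true]
          exact ⟨⟨hab, hac⟩, hbc⟩
        · intro x hx
          simp only [List.mem_cons, List.not_mem_nil, or_false] at hx
          simp only [Ns, mem_filter, mem_univ, true_and]
          rcases hx with rfl | rfl | rfl <;> assumption
      have h2 := h14 V E S D (S e0) hG h7 hT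
      have h3 := s2 (S e0)
      omega
    have h15 : 15 * ∑ s ∈ T, (Ns S D s).card ≤
        T.card * ((ES S D T).card + ∑ s ∈ T, (Ns S D s).card) := by
      have hs' : ∀ s ∈ T, 15 * (Ns S D s).card ≤
          (ES S D T).card + ∑ s ∈ T, (Ns S D s).card := by
        intro s _
        have h1 := h14 V E S D s hG h7 hT
        have h2 := s2 s
        omega
      rw [mul_sum]
      calc ∑ s ∈ T, 15 * (Ns S D s).card
          ≤ ∑ _s ∈ T, ((ES S D T).card + ∑ s ∈ T, (Ns S D s).card) := sum_le_sum hs'
        _ = T.card * ((ES S D T).card + ∑ s ∈ T, (Ns S D s).card) := by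
            rw [sum_const, smul_eq_mul]
    have h6 : 45 ≤ (ES S D T).card + ∑ s ∈ T, (Ns S D s).card := h45.trans s1
    have hk3 : T.card ≤ 7 := by omega
    have hne : (VS S D T).Nonempty := by
      rw [nonempty_iff_ne_empty]
      intro hem
      have h0 : (ES S D T).card = 0 := by
        rw [card_eq_zero, eq_empty_iff_forall_notMem]
        intro e he
        have := (hends e he).1
        rw [hem] at this
        exact absurd this (notMem_empty _)
      rw [h0, zero_add] at h15 h6
      have := h15.trans (Nat.mul_le_mul_right _ hk3)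
      omega
    have e1 := dim V E S D (ES S D T) (VS S D T) hne hends
    have e2 := degS V E S D T hT
    exact num15 e1 e2 h15 h6 hT15


end Pool.Agent.TH676.Z
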