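import Pool.Agent.TH676.Z.Stm3

set_option autoImplicit false

/-! # Counting the faces, general length -/

namespace Pool.Agent.TH676.Z

open Finset

namespace FacesGx

theorem zmod2_one {a : ZMod 2} (h : a ≠ 0) : a = 1 := by
  revert a; decide

/-- a sum over `ZMod 2` is the number of nonzero terms -/
theorem sum_eq_card {κ : Type} [Fintype κ] (f : κ → ZMod 2) :
    ∑ j, f j = (((univ.filter (fun j => f j ≠ 0)).card : ℕ) : ZMod 2) := by
  rw [Finset.card_filter]
  push_cast
  refine sum_congr rfl fun j _ => ?_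
  split_ifs with h
  · exact zmod2_one h
  · push Not at h
    exact h

theorem key {κ : Type} [Fintype κ] (f : κ → ZMod 2)
    (h : (univ.filter (fun j => f j ≠ 0)).card ≤ 2) :
    (univ.filter (fun j => f j ≠ 0)).card + (if ∑ j, f j ≠ 0 then 1 else 0) ≤ 2 := by
  rw [sum_eq_card]
  generalize (univ.filter (fun j => f j ≠ 0)).card = c at h ⊢
  have : c = 0 ∨ c = 1 ∨ c = 2 := by omega
  rcases this with rfl | rfl | rfl <;> decide

end FacesGx

theorem facesG : St_facesG := by
  classical
  intro V E _ _ _ _ src dst F k g K hK h2 hg hr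
  obtain ⟨κ, a, ha, hspan, hli⟩ := exists_linearIndependent' (ZMod 2) K
  haveI : Finite κ := Finite.of_injective a ha
  haveI := Fintype.ofFinite κ
  have hcard : Module.finrank (ZMod 2) (Submodule.span (ZMod 2) (Set.range K)) =
      Fintype.card κ := by
    rw [← hspan]
    exact finrank_span_eq_card hli
  rw [hcard] at hr ⊢
  haveI : Nonempty κ := Fintype.card_pos_iff.mp hr
  set S : E → ZMod 2 := ∑ j, K (a j) with hS
  have hSe : ∀ e, S e = ∑ j, K (a j) e := fun e => by rw [hS, Finset.sum_apply]
  have hSZ : S ∈ ZF src dst F := Submodule.sum_mem _ fun j _ => hK (a j)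
  have hS0 : S ≠ 0 := by
    intro h0
    have h1 := Fintype.linearIndependent_iff.mp hli (fun _ => 1) (by
      simpa [Function.comp] using h0)
    obtain ⟨j⟩ := ‹Nonempty κ›
    exact one_ne_zero (h1 j)
  have hlow1 : ∀ j : κ, g ≤ (univ.filter (fun e => K (a j) e ≠ 0)).card :=
    fun j => hg _ (hK (a j)) (hli.ne_zero j)
  have hlow2 : g ≤ (univ.filter (fun e => S e ≠ 0)).card := hg _ hSZ hS0
  have hsum1 : Fintype.card κ * g ≤ ∑ j : κ, (univ.filter (fun e => K (a j) e ≠ 0)).card := by
    have := Finset.card_nsmul_le_sum (univ : Finset κ)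
      (fun j => (univ.filter (fun e => K (a j) e ≠ 0)).card) g (fun j _ => hlow1 j)
    simpa using this
  have hswap : ∑ j : κ, (univ.filter (fun e => K (a j) e ≠ 0)).card =
      ∑ e : E, (univ.filter (fun j : κ => K (a j) e ≠ 0)).card := by
    simp only [Finset.card_filter]
    exact Finset.sum_comm
  have hup : ∀ e : E, (univ.filter (fun j : κ => K (a j) e ≠ 0)).card +
      (if S e ≠ 0 then 1 else 0) ≤ if e ∈ F then 2 else 0 := by
    intro e
    by_cases he : e ∈ F
    · rw [if_pos he]
      have hc : (univ.filter (fun j : κ => K (a j) e ≠ 0)).card ≤ 2 := by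
        refine le_trans ?_ (h2 e)
        refine Finset.card_le_card_of_injOn a ?_ ha.injOn
        intro j hj
        simpa using hj
      have := FacesGx.key (fun j => K (a j) e) hc
      rw [← hSe e] at this
      exact this
    · rw [if_neg he]
      have h0 : ∀ i, K i e = 0 := fun i => (hK i).1 e he
      have hSe0 : S e = 0 := hSZ.1 e he
      simp [h0, hSe0]
  have htot : ∑ e : E, ((univ.filter (fun j : κ => K (a j) e ≠ 0)).card +
      (if S e ≠ 0 then 1 else 0)) ≤ ∑ e : E, (if e ∈ F then 2 else 0) :=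
    Finset.sum_le_sum fun e _ => hup e
  rw [Finset.sum_add_distrib, ← hswap] at htot
  have hSc : ∑ e : E, (if S e ≠ 0 then 1 else 0) = (univ.filter (fun e => S e ≠ 0)).card := by
    rw [Finset.card_filter]
  have hFc : ∑ e : E, (if e ∈ F then 2 else 0) = 2 * F.card := by
    rw [← Finset.sum_filter]
    simp [Finset.filter_mem_eq_inter, mul_comm]
  rw [hSc, hFc] at htot
  calc g * (Fintype.card κ + 1) = Fintype.card κ * g + g := by ring
    _ ≤ _ := Nat.add_le_add hsum1 hlow2
    _ ≤ _ := htot

end Pool.Agent.TH676.Z
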