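import Pool.Agent.TH676.Z.Stm2
import Pool.Agent.TH676.Z.Main

set_option autoImplicit false
set_option linter.unusedSectionVars false

/-! # Nowhere-zero 5-flows in apex graphs over surfaces of nonnegative Euler characteristic -/

namespace Pool.Agent.TH676.Z

open Finset

theorem noPar : St_noPar := by
  intro V E _ _ _ _ src dst hM e e' x y hxy h h'
  exact GiAux.no_par circ_all hM hxy h h'

/-- the numerical contradiction -/
theorem num {m n t r z : ℕ} (h1 : m + 1 ≤ z + n) (h2 : 3 * n ≤ 2 * m + t) (h3 : 7 * t ≤ n)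
    (h4 : 1 ≤ r → 7 * (r + 1) ≤ 2 * m) (h5 : z ≤ r + 2) (h6 : 3 ≤ n) : False := by
  rcases Nat.eq_zero_or_pos r with h | h
  · omega
  · have := h4 h
    omega

theorem apex (h3 : St_apMC) (h4 : St_even7) (h5 : St_faces) (h6 : St_dim) (h7 : St_deg)
    (h8 : St_ball) : St_apex := by
  intro V E _ _ _ _ src dst s hA hb
  by_contra hn
  obtain ⟨S, D, hAp, hM⟩ := crit V E Ap (h3 V E) src dst ⟨s, hA⟩ hb hn
  obtain ⟨hG, hT⟩ := gi_all V E S D hM
  have hP := noPar V E S D hM
  by_cases hno : ∀ e, S e = D e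
  · exact hM.nf (flow_of_loops hno)
  · push Not at hno
    obtain ⟨e0, he0⟩ := hno
    have ha0 : Adj S D (S e0) (D e0) := ⟨he0, e0, Or.inl ⟨rfl, rfl⟩⟩
    obtain ⟨t, k, K, k1, k2, k3⟩ := hAp
    -- a vertex with three neighbours different from `t`
    obtain ⟨v, y, hv, hvy⟩ : ∃ v y, v ≠ t ∧ Adj S D v y := by
      by_cases h : S e0 = t
      · exact ⟨D e0, S e0, fun h' => he0 (h.trans h'.symm), GiAux.adj_symm ha0⟩
      · exact ⟨S e0, D e0, h, ha0⟩
    have mem : ∀ x z, x ≠ t → Adj S D x z → x ∈ Vs S D t := by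
      intro x z hx hxz
      simp only [Vs, mem_filter, mem_univ, true_and]
      exact ⟨hx, z, hxz⟩
    have hv3 : 3 ≤ (Vs S D t).card := by
      obtain ⟨a, b, c, ha, hb', hc, hab, hac, hbc⟩ := hT v y hvy
      -- two of them are different from `t`
      have two : ∃ p q, p ≠ q ∧ p ≠ t ∧ q ≠ t ∧ Adj S D v p ∧ Adj S D v q := by
        by_cases h1 : a = t
        · exact ⟨b, c, hbc, fun h => hab (h1.trans h.symm), fun h => hac (h1.trans h.symm), hb', hc⟩
        · by_cases h2 : b = t
          · exact ⟨a, c, hac, h1, fun h => hbc (h2.trans h.symm), ha, hc⟩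
          · exact ⟨a, b, hab, h1, h2, ha, hb'⟩
      obtain ⟨p, q, hpq, hpt, hqt, hp, hq⟩ := two
      refine len_le (l := [v, p, q]) ?_ ?_
      · simp only [List.nodup_cons, List.mem_cons, List.not_mem_nil, or_false, not_or,
          not_false_eq_true, List.nodup_nil, and_true]
        exact ⟨⟨hp.1, hq.1⟩, hpq⟩
      · intro x hx
        simp only [List.mem_cons, List.not_mem_nil, or_false] at hx
        rcases hx with rfl | rfl | rfl
        · exact mem _ _ hv hvy
        · exact mem _ _ hpt (GiAux.adj_symm hp)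
        · exact mem _ _ hqt (GiAux.adj_symm hq)
    have e1 := h6 V E S D (Es S D t) (Vs S D t) (card_pos.mp (by omega)) (by
      intro e he
      unfold Es at he
      rw [mem_filter] at he
      obtain ⟨_, h1, h2, h3'⟩ := he
      exact ⟨mem _ (D e) h2 ⟨h1, e, Or.inl ⟨rfl, rfl⟩⟩,
        mem _ (S e) h3' ⟨Ne.symm h1, e, Or.inr ⟨rfl, rfl⟩⟩⟩)
    have e2 := h7 V E S D t hT hP
    have e3 := h8 V E S D t hG hT
    have e4 := h5 V E S D (Es S D t) k K k1 k2 (h4 V E S D (Es S D t) hG hP (by
      intro e he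
      unfold Es at he
      rw [mem_filter] at he
      exact he.2.1))
    exact num e1 e2 e3 e4 k3 hv3

end Pool.Agent.TH676.Z
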