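import Pool.Agent.TH676.Z.Stm2

set_option autoImplicit false

/-! # The balls of radius two around the neighbours of a vertex (helper475) -/

namespace Pool.Agent.TH676.Z

open Finset

namespace Ballx

/-- two neighbours different from a given neighbour -/
theorem two_nb {V : Type} {Ad : V → V → Prop} (t : Three Ad) {x y : V} (h : Ad x y) :
    ∃ a b, a ≠ b ∧ Ad x a ∧ Ad x b ∧ a ≠ y ∧ b ≠ y := by
  obtain ⟨a, b, c, h1, h2, h3, h12, h13, h23⟩ := t x y h
  by_cases ha : a = y
  · subst ha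
    exact ⟨b, c, h23, h2, h3, h12.symm, h13.symm⟩
  · by_cases hb : b = y
    · subst hb
      exact ⟨a, c, h13, h1, h3, h12, h23.symm⟩
    · exact ⟨a, b, h12, h1, h2, ha, hb⟩

theorem seven {V : Type} [DecidableEq V] {Ad : V → V → Prop} (g : Gi Ad) (t : Three Ad)
    {R : Finset V} {s w : V} (hR : ∀ x y, x ≠ s → Ad x y → x ∈ R) (hw : Ad s w) :
    7 ≤ (NN Ad R s w).card := by
  have ne : ∀ {x y}, Ad x y → x ≠ y := by
    intro x y h e
    subst e
    exact g.c2 _ h
  obtain ⟨a, b, hab, ha, hb, has, hbs⟩ := two_nb t (g.symm hw)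
  obtain ⟨a1, a2, h12, h1, h2, n1, n2⟩ := two_nb t (g.symm ha)
  obtain ⟨b1, b2, k12, k1, k2, m1, m2⟩ := two_nb t (g.symm hb)
  have ns : ∀ {y x}, Ad w y → Ad y x → x ≠ s := by
    intro y x hy hx e
    subst e
    exact g.c3 _ w y hw hy hx
  have far : ∀ {y x}, Ad w y → Ad y x → y ≠ s → x ≠ w → x ∈ NN Ad R s w := by
    intro y x hy hx hys hxw
    exact mem_NN.2 ⟨hR x y (ns hy hx) (g.symm hx), Or.inr (Or.inr ⟨y, hy, hys, hx, hxw⟩)⟩
  have near : ∀ {y}, Ad w y → y ≠ s → y ∈ NN Ad R s w := by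
    intro y hy hys
    exact mem_NN.2 ⟨hR y w hys (g.symm hy), Or.inr (Or.inl ⟨hy, hys⟩)⟩
  have tri : ∀ {y z x}, Ad w y → Ad w z → Ad z x → y ≠ x := by
    intro y z x hy hz hx e
    subst e
    exact g.c3 w z y hz hx (g.symm hy)
  have quad : ∀ {x y}, Ad a x → Ad b y → x ≠ w → x ≠ y := by
    intro x y hx hy hxw e
    subst e
    exact g.c4 w a x b ha hx (g.symm hy) (g.symm hb) hxw.symm hab
  refine len_le (l := [w, a, b, a1, a2, b1, b2]) ?_ ?_
  · simp only [List.nodup_cons, List.mem_cons, List.not_mem_nil, or_false, not_or,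
      not_false_eq_true, List.nodup_nil, and_true]
    exact ⟨⟨ne ha, ne hb, n1.symm, n2.symm, m1.symm, m2.symm⟩,
      ⟨hab, ne h1, ne h2, tri ha hb k1, tri ha hb k2⟩,
      ⟨tri hb ha h1, tri hb ha h2, ne k1, ne k2⟩,
      ⟨h12, quad h1 k1 n1, quad h1 k2 n1⟩,
      ⟨quad h2 k1 n2, quad h2 k2 n2⟩, k12⟩
  · intro x hx
    simp only [List.mem_cons, List.not_mem_nil, or_false] at hx
    rcases hx with rfl | rfl | rfl | rfl | rfl | rfl | rfl
    · exact mem_NN.2 ⟨hR _ s (ne hw).symm (g.symm hw), Or.inl rfl⟩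
    · exact near ha has
    · exact near hb hbs
    · exact far ha h1 has n1
    · exact far ha h2 has n2
    · exact far hb k1 hbs m1
    · exact far hb k2 hbs m2

end Ballx

theorem ball : St_ball := by
  intro V E _ _ _ _ src dst s g t
  classical
  have hR : ∀ x y, x ≠ s → Adj src dst x y → x ∈ Vs src dst s := by
    intro x y hx hxy
    unfold Vs
    rw [mem_filter]
    exact ⟨mem_univ x, hx, y, hxy⟩
  have hN : ∀ w ∈ Ns src dst s, Adj src dst s w := by
    intro w hw
    unfold Ns at hw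
    rw [mem_filter] at hw
    exact hw.2
  have h1 : (Ns src dst s).card • 7 ≤ ∑ w ∈ Ns src dst s,
      (NN (Adj src dst) (Vs src dst s) s w).card :=
    card_nsmul_le_sum _ _ _ fun w hw => Ballx.seven g t hR (hN w hw)
  have h2 : ∑ w ∈ Ns src dst s, (NN (Adj src dst) (Vs src dst s) s w).card =
      ((Ns src dst s).biUnion fun w => NN (Adj src dst) (Vs src dst s) s w).card := by
    rw [card_biUnion]
    intro w hw w' hw' hne
    exact NN_disj g (hN w hw) (hN w' hw') hne
  have h3 : ((Ns src dst s).biUnion fun w => NN (Adj src dst) (Vs src dst s) s w).card ≤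
      (Vs src dst s).card :=
    card_le_card (biUnion_subset.2 fun w _ => NN_sub)
  rw [smul_eq_mul] at h1
  omega

end Pool.Agent.TH676.Z
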