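import Pool.Agent.TH676.Z.Stm2

set_option autoImplicit false

/-! # Z5A-7: counting degrees (helper634) -/

namespace Pool.Agent.TH676.Z

open Finset

theorem deg : St_deg := by
  intro V E _ _ _ _ src dst s hT _
  classical
  set Nb : V → Finset V := fun v => univ.filter (fun y => Adj src dst v y) with hNb
  have h3 : ∀ v ∈ Vs src dst s, 3 ≤ (Nb v).card := by
    intro v hv
    obtain ⟨-, -, y, hy⟩ := mem_filter.1 hv
    obtain ⟨a, b, c, ha, hb, hc, hab, hac, hbc⟩ := hT v y hy
    have h1 : ({a, b, c} : Finset V) ⊆ Nb v := by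
      intro x hx
      simp only [mem_insert, mem_singleton] at hx
      rw [hNb, mem_filter]
      rcases hx with rfl | rfl | rfl
      · exact ⟨mem_univ _, ha⟩
      · exact ⟨mem_univ _, hb⟩
      · exact ⟨mem_univ _, hc⟩
    have h2 : ({a, b, c} : Finset V).card = 3 := card_eq_three.2 ⟨a, b, c, hab, hac, hbc, rfl⟩
    rw [← h2]
    exact card_le_card h1
  have hsum : 3 * (Vs src dst s).card ≤ ∑ v ∈ Vs src dst s, (Nb v).card := by
    have := Finset.card_nsmul_le_sum (Vs src dst s) (fun v => (Nb v).card) 3 h3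
    rw [smul_eq_mul, mul_comm] at this
    exact this
  have hsplit : ∀ v, (Nb v).card =
      ((Nb v).filter (fun y => y ≠ s)).card + ((Nb v).filter (fun y => ¬ y ≠ s)).card :=
    fun v => (card_filter_add_card_filter_not (s := Nb v) (fun y => y ≠ s)).symm
  have hA : ∑ v ∈ Vs src dst s, ((Nb v).filter (fun y => y ≠ s)).card ≤
      2 * (Es src dst s).card := by
    rw [← card_sigma]
    have hsub : ((Vs src dst s).sigma fun v => (Nb v).filter (fun y => y ≠ s)) ⊆
        ((Es src dst s) ×ˢ (univ : Finset Bool)).image (fun p : E × Bool =>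
          (if p.2 then (⟨src p.1, dst p.1⟩ : Σ _ : V, V) else ⟨dst p.1, src p.1⟩)) := by
      rintro ⟨v, y⟩ h
      rw [mem_sigma] at h
      obtain ⟨h1, h2⟩ := h
      rw [mem_filter] at h2
      obtain ⟨h2, hys⟩ := h2
      rw [hNb, mem_filter] at h2
      obtain ⟨-, hvy, e, he⟩ := h2
      have hvs : v ≠ s := (mem_filter.1 h1).2.1
      rw [mem_image]
      rcases he with ⟨rfl, rfl⟩ | ⟨rfl, rfl⟩
      · refine ⟨(e, true), ?_, ?_⟩
        · rw [mem_product]
          refine ⟨?_, mem_univ _⟩
          unfold Es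
          rw [mem_filter]
          exact ⟨mem_univ _, hvy, hvs, hys⟩
        · simp
      · refine ⟨(e, false), ?_, ?_⟩
        · rw [mem_product]
          refine ⟨?_, mem_univ _⟩
          unfold Es
          rw [mem_filter]
          exact ⟨mem_univ _, hvy.symm, hys, hvs⟩
        · simp
    refine (card_le_card hsub).trans (card_image_le.trans ?_)
    rw [card_product, card_univ, Fintype.card_bool, mul_comm]
  have hB : ∑ v ∈ Vs src dst s, ((Nb v).filter (fun y => ¬ y ≠ s)).card ≤
      (Ns src dst s).card := by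
    rw [← card_sigma]
    refine card_le_card_of_injOn (fun p => p.1) ?_ ?_
    · rintro ⟨v, y⟩ h
      rw [mem_coe, mem_sigma] at h
      obtain ⟨h1, h2⟩ := h
      rw [mem_filter, not_not] at h2
      obtain ⟨h2, hys⟩ := h2
      rw [hNb, mem_filter] at h2
      obtain ⟨-, hvy, e, he⟩ := h2
      simp only at hys hvy he
      subst hys
      unfold Ns
      rw [mem_coe, mem_filter]
      exact ⟨mem_univ _, hvy.symm, e, he.symm⟩
    · rintro ⟨v, y⟩ h ⟨v', y'⟩ h' heq
      rw [mem_coe, mem_sigma] at h h'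
      have e1 := (mem_filter.1 h.2).2
      have e2 := (mem_filter.1 h'.2).2
      rw [not_not] at e1 e2
      simp only at e1 e2 heq
      subst e1 e2 heq
      rfl
  calc 3 * (Vs src dst s).card ≤ ∑ v ∈ Vs src dst s, (Nb v).card := hsum
    _ = ∑ v ∈ Vs src dst s, ((Nb v).filter (fun y => y ≠ s)).card +
        ∑ v ∈ Vs src dst s, ((Nb v).filter (fun y => ¬ y ≠ s)).card := by
        rw [← sum_add_distrib]
        exact sum_congr rfl fun v _ => hsplit v
    _ ≤ 2 * (Es src dst s).card + (Ns src dst s).card := add_le_add hA hB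

end Pool.Agent.TH676.Z
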