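import Pool.Agent.TH676.Z.Stm2

set_option autoImplicit false
set_option linter.unusedSectionVars false

/-! # Z5A-4: nonzero elements of the cycle space have at least seven edges -/

namespace Pool.Agent.TH676.Z.Even7x

open Finset Pool.Agent.TH676.Z

section

variable {V E : Type}

lemma jn_symm {src dst : E → V} {e : E} {a b : V} (h : Jn src dst e a b) : Jn src dst e b a := by
  rcases h with ⟨h1, h2⟩ | ⟨h1, h2⟩
  · exact Or.inr ⟨h1, h2⟩
  · exact Or.inl ⟨h1, h2⟩

lemma jn_mem {src dst : E → V} {e : E} {a b c d : V} (h : Jn src dst e a b)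
    (h' : Jn src dst e c d) : c = a ∨ c = b := by
  rcases h with ⟨h1, h2⟩ | ⟨h1, h2⟩ <;> rcases h' with ⟨h3, h4⟩ | ⟨h3, h4⟩
  · exact Or.inl (h3.symm.trans h1)
  · exact Or.inr (h4.symm.trans h2)
  · exact Or.inr (h3.symm.trans h1)
  · exact Or.inl (h4.symm.trans h2)

end

section

variable {V E : Type} [Fintype V] [DecidableEq V] [Fintype E] [DecidableEq E]

/-- joined by an edge of the support -/
def R (src dst : E → V) (x : E → ZMod 2) (a b : V) : Prop := ∃ e, x e ≠ 0 ∧ Jn src dst e a b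

lemma step {src dst : E → V} {x : E → ZMod 2} (hp : NoPar src dst)
    (hl : ∀ e, x e ≠ 0 → src e ≠ dst e) (hb : ∀ v, bd2 src dst x v = 0) {a b : V}
    (h : R src dst x a b) : ∃ c, R src dst x b c ∧ a ≠ c := by
  obtain ⟨e0, h0, hj⟩ := h
  by_contra hc
  push Not at hc
  have hall : ∀ e, e ≠ e0 →
      ((if src e = b then x e else 0) + (if dst e = b then x e else 0)) = 0 := by
    intro e he
    by_cases hx : x e = 0
    · simp [hx]
    · have hne := hl e hx
      have h1 : src e ≠ b := by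
        intro hs
        have h2 : a = dst e := hc (dst e) ⟨e, hx, Or.inl ⟨hs, rfl⟩⟩
        have h3 : b ≠ a := by rw [h2, ← hs]; exact hne
        exact he (hp e e0 b a h3 (Or.inl ⟨hs, h2.symm⟩) (jn_symm hj))
      have h2 : dst e ≠ b := by
        intro hs
        have h2 : a = src e := hc (src e) ⟨e, hx, Or.inr ⟨rfl, hs⟩⟩
        have h3 : b ≠ a := by rw [h2, ← hs]; exact hne.symm
        exact he (hp e e0 b a h3 (Or.inr ⟨h2.symm, hs⟩) (jn_symm hj))
      simp [h1, h2]
  have hs := hb b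
  unfold bd2 at hs
  rw [Finset.sum_eq_single e0 (fun e _ he => hall e he) (fun h => absurd (mem_univ _) h)] at hs
  have hne := hl e0 h0
  rcases hj with ⟨h1, h2⟩ | ⟨h1, h2⟩
  · have h3 : src e0 ≠ b := by rw [← h2]; exact hne
    rw [if_neg h3, if_pos h2, zero_add] at hs
    exact h0 hs
  · have h3 : dst e0 ≠ b := by rw [← h1]; exact hne.symm
    rw [if_pos h1, if_neg h3, add_zero] at hs
    exact h0 hs

lemma dist {Ad : V → V → Prop} (hg : Gi Ad) (v : ℕ → V) (h1 : ∀ n, Ad (v n) (v (n + 1)))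
    (h2 : ∀ n, v n ≠ v (n + 2)) (n k : ℕ) (hk : 1 ≤ k) (hk' : k ≤ 6) : v n ≠ v (n + k) := by
  have d4 : ∀ n, v n ≠ v (n + 4) := by
    intro n h
    have h4 := h1 (n + 3)
    rw [show n + 3 + 1 = n + 4 from rfl, ← h] at h4
    exact hg.c4 _ _ _ _ (h1 n) (h1 (n + 1)) (h1 (n + 2)) h4 (h2 n) (h2 (n + 1))
  intro h
  interval_cases k
  · have := h1 n
    rw [← h] at this
    exact hg.c2 _ this
  · exact h2 n h
  · have h3 := h1 (n + 2)
    rw [show n + 2 + 1 = n + 3 from rfl, ← h] at h3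
    exact hg.c3 _ _ _ (h1 n) (h1 (n + 1)) h3
  · exact d4 n h
  · have h5 := h1 (n + 4)
    rw [show n + 4 + 1 = n + 5 from rfl, ← h] at h5
    exact hg.c5 _ _ _ _ _ (h1 n) (h1 (n + 1)) (h1 (n + 2)) (h1 (n + 3)) h5
  · have h6 := h1 (n + 5)
    rw [show n + 5 + 1 = n + 6 from rfl, ← h] at h6
    exact hg.c6 _ _ _ _ _ _ (h1 n) (h1 (n + 1)) (h1 (n + 2)) (h1 (n + 3)) (h1 (n + 4)) h6
      (h2 n) (h2 (n + 1)) (h2 (n + 2)) (h2 (n + 3)) (d4 n).symm (d4 (n + 1)).symm

lemma walk {src dst : E → V} {x : E → ZMod 2} (hp : NoPar src dst)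
    (hl : ∀ e, x e ≠ 0 → src e ≠ dst e) (hb : ∀ v, bd2 src dst x v = 0) {a b : V}
    (h : R src dst x a b) : ∃ v : ℕ → V, (∀ n, R src dst x (v n) (v (n + 1))) ∧
      ∀ n, v n ≠ v (n + 2) := by
  classical
  choose! f hf using fun (a b : V) (h : R src dst x a b) => step hp hl hb h
  let g : ℕ → V × V := fun n => Nat.rec (a, b) (fun _ p => (p.2, f p.1 p.2)) n
  have g1 : ∀ n, g (n + 1) = ((g n).2, f (g n).1 (g n).2) := fun n => rfl
  have hR : ∀ n, R src dst x (g n).1 (g n).2 := by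
    intro n
    induction n with
    | zero => exact h
    | succ n ih => rw [g1]; exact (hf _ _ ih).1
  refine ⟨fun n => (g n).1, fun n => ?_, fun n => ?_⟩
  · have := hR n
    simp only [g1]
    exact this
  · have h3 : (g (n + 2)).1 = f (g n).1 (g n).2 := rfl
    show (g n).1 ≠ (g (n + 2)).1
    rw [h3]
    exact (hf _ _ (hR n)).2

lemma main (src dst : E → V) (F : Finset E) (hg : Gi (Adj src dst)) (hp : NoPar src dst)
    (hl : ∀ e ∈ F, src e ≠ dst e) (x : E → ZMod 2) (hx : x ∈ ZF src dst F) (h0 : x ≠ 0) :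
    7 ≤ (univ.filter (fun e => x e ≠ 0)).card := by
  classical
  obtain ⟨hF, hb⟩ := hx
  have hl' : ∀ e, x e ≠ 0 → src e ≠ dst e := by
    intro e he
    refine hl e ?_
    by_contra hc
    exact he (hF e hc)
  obtain ⟨e0, he0⟩ := Function.ne_iff.1 h0
  obtain ⟨v, hv, hv2⟩ := walk hp hl' hb (a := src e0) (b := dst e0)
    ⟨e0, he0, Or.inl ⟨rfl, rfl⟩⟩
  choose e he hj using hv
  have hA : ∀ n, Adj src dst (v n) (v (n + 1)) := by
    intro n
    refine ⟨?_, e n, hj n⟩
    have h1 := hl' _ (he n)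
    rcases hj n with ⟨h2, h3⟩ | ⟨h2, h3⟩
    · rw [← h2, ← h3]; exact h1
    · rw [← h2, ← h3]; exact h1.symm
  have hd := dist hg v hA hv2
  have hne : ∀ n k, 1 ≤ k → k ≤ 6 → e n ≠ e (n + k) := by
    intro n k hk hk' h
    have h1 := hj (n + k)
    rw [← h] at h1
    rcases Nat.lt_or_ge k 2 with h2 | h2
    · have h3 : k = 1 := by omega
      subst h3
      rcases jn_mem (hj n) (jn_symm h1) with h4 | h4
      · exact hd n 2 (by norm_num) (by norm_num) h4.symm
      · exact hd (n + 1) 1 le_rfl (by norm_num) h4.symm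
    · rcases jn_mem (hj n) h1 with h4 | h4
      · exact hd n k hk hk' h4.symm
      · have h5 := hd (n + 1) (k - 1) (by omega) (by omega)
        rw [show n + 1 + (k - 1) = n + k by omega] at h5
        exact h5 h4.symm
  have hinj : Set.InjOn e (Finset.range 7 : Finset ℕ) := by
    intro i hi j hj' hij
    simp only [Finset.coe_range, Set.mem_Iio] at hi hj'
    by_contra hc
    rcases Nat.lt_or_gt_of_ne hc with h | h
    · have h1 := hne i (j - i) (by omega) (by omega)
      rw [show i + (j - i) = j by omega] at h1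
      exact h1 hij
    · have h1 := hne j (i - j) (by omega) (by omega)
      rw [show j + (i - j) = i by omega] at h1
      exact h1 hij.symm
  calc 7 = (Finset.range 7).card := by simp
    _ ≤ _ := Finset.card_le_card_of_injOn e (fun n _ => by simp [he n]) hinj

end

end Pool.Agent.TH676.Z.Even7x

namespace Pool.Agent.TH676.Z

theorem even7 : St_even7 := fun _ _ _ _ _ _ src dst F hg hp hl x hx h0 =>
  Even7x.main src dst F hg hp hl x hx h0

end Pool.Agent.TH676.Z
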