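import Pool.Agent.TH676.Z.Stm2

set_option autoImplicit false
set_option linter.unusedSectionVars false

/-! # Counting the faces -/

namespace Pool.Agent.TH676.Z

open Finset

namespace Facesx

theorem z2 (a : ZMod 2) (h : a ≠ 0) : a = 1 := by
  revert a
  decide

theorem edge {E : Type} (B : Finset (E → ZMod 2)) (e : E) :
    (∑ x ∈ B, x) e = ((B.filter (fun x => x e ≠ 0)).card : ZMod 2) := by
  rw [Finset.sum_apply, card_filter]
  push_cast
  refine sum_congr rfl fun x _ => ?_
  split_ifs with h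
  · exact z2 _ h
  · exact not_not.1 h

theorem edge_le {E : Type} (B : Finset (E → ZMod 2)) (e : E)
    (h : (B.filter (fun x => x e ≠ 0)).card ≤ 2) :
    (B.filter (fun x => x e ≠ 0)).card + (if (∑ x ∈ B, x) e ≠ 0 then 1 else 0) ≤ 2 := by
  rw [edge B e]
  generalize (B.filter (fun x => x e ≠ 0)).card = c at h ⊢
  interval_cases c
  · simp
  · simp
  · have h2 : ((2 : ℕ) : ZMod 2) = 0 := by decide
    rw [h2, if_neg (by simp)]

end Facesx

open Facesx in
theorem faces : St_faces := by
  intro V E _ _ _ _ src dst F k K hK h2 h7 hr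
  classical
  obtain ⟨b, hb1, hb2, hb3⟩ := exists_linearIndependent (ZMod 2) (Set.range K)
  have hbfin : b.Finite := (Set.finite_range K).subset hb1
  have : Fintype b := hbfin.fintype
  have hBcard : Module.finrank (ZMod 2) (Submodule.span (ZMod 2) (Set.range K)) = b.toFinset.card := by
    rw [← hb2]
    exact finrank_span_set_eq_card hb3
  rw [hBcard] at hr ⊢
  set B := b.toFinset with hB
  have hBK : ∀ x ∈ B, ∃ i, K i = x := fun x hx => hb1 (Set.mem_toFinset.1 hx)
  have hBZ : ∀ x ∈ B, x ∈ ZF src dst F := by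
    intro x hx
    obtain ⟨i, rfl⟩ := hBK x hx
    exact hK i
  have hne : ∀ x ∈ B, x ≠ 0 := by
    intro x hx
    exact hb3.ne_zero (⟨x, Set.mem_toFinset.1 hx⟩ : b)
  set S : E → ZMod 2 := ∑ x ∈ B, x with hS
  have hSZ : S ∈ ZF src dst F := Submodule.sum_mem _ hBZ
  have hS0 : S ≠ 0 := by
    intro h0
    have h1 := linearIndependent_iff'.1 hb3 univ (fun _ => 1) (by
      simp only [one_smul]
      rw [Finset.sum_set_coe b (f := fun x : E → ZMod 2 => x)]
      exact h0)
    obtain ⟨x, hx⟩ := Finset.card_pos.1 (lt_of_lt_of_le Nat.zero_lt_one hr)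
    exact one_ne_zero (h1 ⟨x, Set.mem_toFinset.1 hx⟩ (mem_univ _))
  have hc : ∀ e, (B.filter (fun x => x e ≠ 0)).card ≤ 2 := by
    intro e
    refine le_trans ?_ (h2 e)
    refine le_trans (card_le_card (t := (univ.filter (fun i => K i e ≠ 0)).image K) ?_) card_image_le
    intro x hx
    obtain ⟨hx1, hx2⟩ := mem_filter.1 hx
    obtain ⟨i, rfl⟩ := hBK x hx1
    exact mem_image_of_mem K (mem_filter.2 ⟨mem_univ _, hx2⟩)
  have h1 : ∑ x ∈ B, 7 ≤ ∑ x ∈ B, (univ.filter (fun e => x e ≠ 0)).card :=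
    sum_le_sum fun x hx => h7 x (hBZ x hx) (hne x hx)
  rw [sum_const, smul_eq_mul] at h1
  have h3 : ∑ x ∈ B, (univ.filter (fun e => x e ≠ 0)).card =
      ∑ e, (B.filter (fun x => x e ≠ 0)).card := by
    simp only [card_filter]
    exact sum_comm
  have h4 : (univ.filter (fun e => S e ≠ 0)).card = ∑ e, (if S e ≠ 0 then 1 else 0) :=
    card_filter _ _
  have h5 : ∑ e, ((B.filter (fun x => x e ≠ 0)).card + (if S e ≠ 0 then 1 else 0)) ≤
      ∑ e, (if e ∈ F then 2 else 0) := by
    refine sum_le_sum fun e _ => ?_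
    by_cases he : e ∈ F
    · rw [if_pos he]
      exact edge_le B e (hc e)
    · rw [if_neg he]
      have h6 : B.filter (fun x => x e ≠ 0) = ∅ := by
        rw [filter_eq_empty_iff]
        intro x hx
        rw [not_not]
        exact (hBZ x hx).1 e he
      rw [h6, card_empty, if_neg (not_not.2 (hSZ.1 e he))]
  rw [sum_add_distrib, ← h3, ← h4, sum_ite_mem, univ_inter, sum_const, smul_eq_mul] at h5
  have h6 := h7 S hSZ hS0
  omega

end Pool.Agent.TH676.Z
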