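import Pool.Agent.TH676.Z.Stm3
import Pool.Agent.TH676.Z.Gi

/-! A minimal counterexample has no closed walk of length seven. -/

set_option autoImplicit false
set_option linter.unusedSectionVars false

namespace Pool.Agent.TH676.Z

namespace C7x

variable {V : Type} {Ad : V → V → Prop}

theorem n2 (G : Gi Ad) {a b c d e f g : V} (_ : Ad a b) (_ : Ad b c) (h3 : Ad c d)
    (h4 : Ad d e) (h5 : Ad e f) (h6 : Ad f g) (h7 : Ad g a) : a ≠ c := by
  rintro rfl
  exact G.c5 _ _ _ _ _ h3 h4 h5 h6 h7

theorem n3 (G : Gi Ad) {a b c d : V} (h1 : Ad a b) (h2 : Ad b c) (h3 : Ad c d) : a ≠ d := by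
  rintro rfl
  exact G.c3 _ _ _ h1 h2 h3

theorem inj7 {a b c d e f g : V} (h01 : a ≠ b) (h02 : a ≠ c) (h03 : a ≠ d) (h04 : a ≠ e)
    (h05 : a ≠ f) (h06 : a ≠ g) (h12 : b ≠ c) (h13 : b ≠ d) (h14 : b ≠ e) (h15 : b ≠ f)
    (h16 : b ≠ g) (h23 : c ≠ d) (h24 : c ≠ e) (h25 : c ≠ f) (h26 : c ≠ g) (h34 : d ≠ e)
    (h35 : d ≠ f) (h36 : d ≠ g) (h45 : e ≠ f) (h46 : e ≠ g) (h56 : f ≠ g) :
    Function.Injective ![a, b, c, d, e, f, g] := by
  intro i j hij
  fin_cases i <;> fin_cases j <;> first
    | rfl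
    | exact absurd hij h01 | exact absurd hij h02 | exact absurd hij h03
    | exact absurd hij h04 | exact absurd hij h05 | exact absurd hij h06
    | exact absurd hij h12 | exact absurd hij h13 | exact absurd hij h14
    | exact absurd hij h15 | exact absurd hij h16 | exact absurd hij h23
    | exact absurd hij h24 | exact absurd hij h25 | exact absurd hij h26
    | exact absurd hij h34 | exact absurd hij h35 | exact absurd hij h36
    | exact absurd hij h45 | exact absurd hij h46 | exact absurd hij h56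
    | exact absurd hij.symm h01 | exact absurd hij.symm h02 | exact absurd hij.symm h03
    | exact absurd hij.symm h04 | exact absurd hij.symm h05 | exact absurd hij.symm h06
    | exact absurd hij.symm h12 | exact absurd hij.symm h13 | exact absurd hij.symm h14
    | exact absurd hij.symm h15 | exact absurd hij.symm h16 | exact absurd hij.symm h23
    | exact absurd hij.symm h24 | exact absurd hij.symm h25 | exact absurd hij.symm h26
    | exact absurd hij.symm h34 | exact absurd hij.symm h35 | exact absurd hij.symm h36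
    | exact absurd hij.symm h45 | exact absurd hij.symm h46 | exact absurd hij.symm h56

end C7x

open C7x in
theorem c7 (hG : St_gi) (h : St_circ7) : St_c7 := by
  intro V E _ _ _ _ src dst hM a b c d e f g h1 h2 h3 h4 h5 h6 h7
  have G := (hG V E src dst hM).1
  have hv : Function.Injective ![a, b, c, d, e, f, g] :=
    inj7 h1.1 (n2 G h1 h2 h3 h4 h5 h6 h7) (n3 G h1 h2 h3) (n3 G h5 h6 h7).symm
      (n2 G h6 h7 h1 h2 h3 h4 h5).symm h7.1.symm
      h2.1 (n2 G h2 h3 h4 h5 h6 h7 h1) (n3 G h2 h3 h4) (n3 G h6 h7 h1).symm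
      (n2 G h7 h1 h2 h3 h4 h5 h6).symm
      h3.1 (n2 G h3 h4 h5 h6 h7 h1 h2) (n3 G h3 h4 h5) (n3 G h7 h1 h2).symm
      h4.1 (n2 G h4 h5 h6 h7 h1 h2 h3) (n3 G h4 h5 h6)
      h5.1 (n2 G h5 h6 h7 h1 h2 h3 h4)
      h6.1
  have hA : ∀ i : Fin 7, Adj src dst (![a, b, c, d, e, f, g] i) (![a, b, c, d, e, f, g] (i + 1)) := by
    intro i
    fin_cases i
    · exact h1
    · exact h2
    · exact h3
    · exact h4
    · exact h5
    · exact h6
    · exact h7
  generalize ![a, b, c, d, e, f, g] = v at hv hA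
  choose ed hed using fun i => (hA i).2
  refine h V E src dst hM v ed hv ?_ hed
  intro i j hij
  have e1 : Jn src dst (ed i) (v i) (v (i + 1)) := hed i
  have e2 : Jn src dst (ed i) (v j) (v (j + 1)) := by rw [hij]; exact hed j
  rcases GiAux.jn_eq e1 e2 with ⟨e3, _⟩ | ⟨e3, e4⟩
  · exact hv e3
  · exfalso
    have e5 := hv e3
    have e6 := hv e4
    rw [e5] at e6
    have key : ∀ j : Fin 7, j + 1 + 1 = j → False := by decide
    exact key j e6

end Pool.Agent.TH676.Z
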