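import Pool.Agent.TH676.Z.Stm3

set_option autoImplicit false
set_option linter.unusedSectionVars false

/-! # Certificates for circuits of length seven -/

namespace Pool.Agent.TH676.Z

open Finset

namespace Cert7x

/-- the sum over `B` -/
def bsum (s : List ℕ) : List ℕ → ℕ
  | [] => 0
  | i :: B => s.getD i 0 + bsum s B

/-- the check: all partitions of the list of indices -/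
def chk : ℕ → List ℕ → List (ℤ × List ℕ × List ℕ) → Bool
  | _, _, [] => true
  | _, [], e :: T => decide (((e :: T).map (fun e => e.1)).sum = 0)
  | 0, _ :: _, _ :: _ => false
  | k + 1, h :: t, e :: T => (t.sublists).all (fun B =>
      chk k (t.filter (fun i => !(B.contains i)))
        ((e :: T).filter (fun e => (e.2.2.getD h 0 + bsum e.2.2 B) % 5 == 0)))

/-- all classes of `p` in `rem` have sum zero -/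
def good (p : ℕ → ℕ) (rem : List ℕ) (s : List ℕ) : Prop :=
  ∀ i ∈ rem, (bsum s (rem.filter (fun j => p j == p i))) % 5 = 0

instance (p : ℕ → ℕ) (rem : List ℕ) (s : List ℕ) : Decidable (good p rem s) := by
  unfold good; infer_instance

theorem good_nil (p : ℕ → ℕ) (s : List ℕ) : good p [] s := by
  intro i hi; simp at hi

theorem good_cons (p : ℕ → ℕ) (h : ℕ) (t : List ℕ) (s : List ℕ) :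
    good p (h :: t) s ↔ (s.getD h 0 + bsum s (t.filter (fun j => p j == p h))) % 5 = 0 ∧
      good p (t.filter (fun j => !(p j == p h))) s := by
  have e1 : (h :: t).filter (fun j => p j == p h) = h :: t.filter (fun j => p j == p h) := by
    simp
  have e2 : ∀ i, p i ≠ p h → (h :: t).filter (fun j => p j == p i) =
      (t.filter (fun j => !(p j == p h))).filter (fun j => p j == p i) := by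
    intro i hi
    rw [List.filter_filter]
    have h1 : (p h == p i) = false := by simpa using (Ne.symm hi)
    rw [List.filter_cons_of_neg (by simp [h1])]
    refine List.filter_congr fun j _ => ?_
    by_cases hj : p j = p i
    · simp [hj, hi]
    · simp [hj]
  constructor
  · intro hg
    refine ⟨?_, ?_⟩
    · have := hg h (List.mem_cons_self ..)
      rw [e1] at this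
      exact this
    · intro i hi
      rw [List.mem_filter] at hi
      have hne : p i ≠ p h := by simpa using hi.2
      rw [← e2 i hne]
      exact hg i (List.mem_cons_of_mem _ hi.1)
  · rintro ⟨h1, h2⟩ i hi
    by_cases hne : p i = p h
    · rw [hne, e1]; exact h1
    · rw [e2 i hne]
      rw [List.mem_cons] at hi
      rcases hi with rfl | hi
      · exact absurd rfl hne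
      · exact h2 i (List.mem_filter.mpr ⟨hi, by simpa using hne⟩)

theorem filt (p : ℕ → ℕ) (i : ℕ) (t : List ℕ) (L : List (ℤ × List ℕ × List ℕ)) :
    (L.map (fun e => if good p (i :: t) e.2.2 then e.1 else 0)).sum =
      ((L.filter (fun e => (e.2.2.getD i 0 + bsum e.2.2 (t.filter (fun j => p j == p i))) % 5 == 0)).map
        (fun e => if good p (t.filter (fun j => !(p j == p i))) e.2.2 then e.1 else 0)).sum := by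
  induction L with
  | nil => simp
  | cons a L ihL =>
    have key := good_cons p i t a.2.2
    by_cases hz : (a.2.2.getD i 0 + bsum a.2.2 (t.filter (fun j => p j == p i))) % 5 = 0
    · rw [List.filter_cons_of_pos (by simpa using hz), List.map_cons, List.map_cons,
        List.sum_cons, List.sum_cons, ihL]
      congr 1
      by_cases hg : good p (t.filter (fun j => !(p j == p i))) a.2.2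
      · rw [if_pos hg, if_pos (key.mpr ⟨hz, hg⟩)]
      · rw [if_neg hg, if_neg (fun h => hg (key.mp h).2)]
    · rw [List.filter_cons_of_neg (by simpa using hz), List.map_cons,
        List.sum_cons, ihL, if_neg (fun h => hz (key.mp h).1), zero_add]

theorem chk_sound (p : ℕ → ℕ) : ∀ (k : ℕ) (rem : List ℕ) (T : List (ℤ × List ℕ × List ℕ)),
    chk k rem T = true →
    (T.map (fun e => if good p rem e.2.2 then e.1 else 0)).sum = 0 := by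
  intro k
  induction k with
  | zero =>
    intro rem T h
    cases T with
    | nil => simp
    | cons e T =>
      cases rem with
      | nil =>
        simp only [chk, decide_eq_true_eq] at h
        have : (fun e : ℤ × List ℕ × List ℕ => if good p [] e.2.2 then e.1 else 0) = fun e => e.1 := by
          funext e
          rw [if_pos (good_nil p _)]
        rw [this]; exact h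
      | cons i t => simp [chk] at h
  | succ k ih =>
    intro rem T h
    cases T with
    | nil => simp
    | cons e T =>
      cases rem with
      | nil =>
        simp only [chk, decide_eq_true_eq] at h
        have : (fun e : ℤ × List ℕ × List ℕ => if good p [] e.2.2 then e.1 else 0) = fun e => e.1 := by
          funext e
          rw [if_pos (good_nil p _)]
        rw [this]; exact h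
      | cons i t =>
        simp only [chk, List.all_eq_true] at h
        have h1 := h (t.filter (fun j => p j == p i)) (List.mem_sublists.mpr List.filter_sublist)
        have e1 : t.filter (fun j => !((t.filter (fun j => p j == p i)).contains j)) =
            t.filter (fun j => !(p j == p i)) := by
          refine List.filter_congr fun j hj => ?_
          have : (t.filter (fun j => p j == p i)).contains j = (p j == p i) := by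
            by_cases hp : p j = p i
            · simp [hp, hj]
            · simp [hp]
          rw [this]
        rw [e1] at h1
        have h2 := ih _ _ h1
        refine Eq.trans ?_ h2
        -- the terms which are filtered out contribute zero
        exact filt p i t (e :: T)

/-- the function with the values of the list -/
def fn (l : List ℕ) : Fin 7 → ZMod 5 := fun i => ((l.getD i.val 0 : ℕ) : ZMod 5)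

/-- extension of a labelling -/
def ext (p : Fin 7 → Fin 7) (j : ℕ) : ℕ := if h : j < 7 then (p ⟨j, h⟩).val else 0

theorem bsum_cast (s : List ℕ) (q : ℕ → Bool) (rem : List ℕ) :
    ((bsum s (rem.filter q) : ℕ) : ZMod 5) =
      (rem.map (fun j => if q j then ((s.getD j 0 : ℕ) : ZMod 5) else 0)).sum := by
  induction rem with
  | nil => simp [bsum]
  | cons a t ih =>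
    by_cases h : q a = true
    · rw [List.filter_cons_of_pos h, List.map_cons, List.sum_cons, if_pos h, ← ih]
      simp [bsum]
    · rw [List.filter_cons_of_neg h, List.map_cons, List.sum_cons, if_neg h, ih, zero_add]

theorem sum_list (f : Fin 7 → ZMod 5) : ∑ i, f i =
    ((List.range 7).map (fun j => if h : j < 7 then f ⟨j, h⟩ else 0)).sum := by
  rw [Fin.sum_univ_seven]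
  simp [List.range_succ]
  ring

theorem zs_iff (p : Fin 7 → Fin 7) (s : List ℕ) :
    zs p (fn s) ↔ good (ext p) (List.range 7) s := by
  have key : ∀ i : Fin 7, (bsum s ((List.range 7).filter (fun j => ext p j == ext p i.val)) % 5 = 0 ↔
      ∑ j, (if p j = p i then fn s j else 0) = 0) := by
    intro i
    rw [sum_list]
    have h1 := bsum_cast s (fun j => ext p j == ext p i.val) (List.range 7)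
    have h2 : ((List.range 7).map (fun j => if h : j < 7 then (if p ⟨j, h⟩ = p i then fn s ⟨j, h⟩ else 0) else 0)) =
        ((List.range 7).map (fun j => if (fun j => ext p j == ext p i.val) j then ((s.getD j 0 : ℕ) : ZMod 5) else 0)) := by
      refine List.map_congr_left fun j hj => ?_
      rw [List.mem_range] at hj
      rw [dif_pos hj]
      have h3 : ext p j = (p ⟨j, hj⟩).val := dif_pos hj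
      have h4 : ext p i.val = (p i).val := dif_pos i.isLt
      by_cases h5 : p ⟨j, hj⟩ = p i
      · rw [if_pos h5]
        have : (fun j => ext p j == ext p i.val) j = true := by simp [h3, h4, h5]
        rw [if_pos this]
        rfl
      · rw [if_neg h5]
        have : ¬ ((fun j => ext p j == ext p i.val) j = true) := by
          simp only [h3, h4, beq_iff_eq]
          exact fun h => h5 (Fin.ext h)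
        rw [if_neg this]
    rw [h2, ← h1, ZMod.natCast_eq_zero_iff]
    exact (Nat.dvd_iff_mod_eq_zero).symm
  constructor
  · intro h j hj
    rw [List.mem_range] at hj
    exact (key ⟨j, hj⟩).mpr (h (p ⟨j, hj⟩))
  · intro h a
    by_cases ha : ∃ i, p i = a
    · obtain ⟨i, rfl⟩ := ha
      exact (key i).mp (h i.val (List.mem_range.mpr i.isLt))
    · push Not at ha
      exact sum_eq_zero fun i _ => if_neg (ha i)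

/-- the entries are fitting -/
def okE (e : ℤ × List ℕ × List ℕ) : Bool :=
  (List.finRange 7).all (fun i => decide (fn e.2.1 i ≠ 0) &&
    decide (fn e.2.1 (i - 1) - fn e.2.1 i = fn e.2.2 i))

theorem of_data (D : List (ℤ × List ℕ × List ℕ)) (d : ℤ) (hd : d ≠ 0) (t : List ℕ)
    (x y z : ZMod 5) (ht : fn t = vec7 x y z) (hok : D.all okE = true)
    (hchk : chk 7 (List.range 7) ((-d, [], t) :: D) = true) :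
    ∃ (m : ℕ) (c : Fin m → ℤ) (s : Fin m → Fin 7 → ZMod 5) (d : ℤ), d ≠ 0 ∧ (∀ j, Fit (s j)) ∧
    ∀ p : Fin 7 → Fin 7, ∑ j, (if zs p (s j) then c j else 0) =
      if zs p (vec7 x y z) then d else 0 := by
  refine ⟨D.length, fun j => (D.get j).1, fun j => fn (D.get j).2.2, d, hd, ?_, ?_⟩
  · intro j
    have h1 := List.all_eq_true.mp hok (D.get j) (List.get_mem D j)
    unfold okE at h1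
    rw [List.all_eq_true] at h1
    refine ⟨fn (D.get j).2.1, fun i => ?_, fun i => ?_⟩
    · have := h1 i (List.mem_finRange i)
      rw [Bool.and_eq_true, decide_eq_true_eq, decide_eq_true_eq] at this
      exact this.1
    · have := h1 i (List.mem_finRange i)
      rw [Bool.and_eq_true, decide_eq_true_eq, decide_eq_true_eq] at this
      exact this.2
  · intro p
    have h1 := chk_sound (ext p) 7 (List.range 7) _ hchk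
    rw [List.map_cons, List.sum_cons] at h1
    have h2 : (∑ j : Fin D.length, if zs p (fn (D.get j).2.2) then (D.get j).1 else 0) =
        (D.map (fun e => if good (ext p) (List.range 7) e.2.2 then e.1 else 0)).sum := by
      rw [← List.sum_ofFn]
      congr 1
      refine List.ext_get (by simp) fun k h3 h4 => ?_
      simp only [List.get_ofFn, List.get_eq_getElem, List.getElem_map, List.getElem_ofFn, zs_iff]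
    have h3 : (if zs p (vec7 x y z) then d else 0) =
        if good (ext p) (List.range 7) t then d else 0 := by
      rw [← ht]
      simp only [zs_iff]
    have h4 : (∑ j : Fin D.length, if zs p (fn (D.get j).2.2) then (D.get j).1 else 0) =
        if zs p (vec7 x y z) then d else 0 := by
      rw [h2, h3]
      by_cases hg : good (ext p) (List.range 7) t
      · rw [if_pos hg] at h1 ⊢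
        linarith
      · rw [if_neg hg] at h1 ⊢
        linarith
    exact h4

/-- certificate for the values (2, 3, 4) -/
def D0 : List (ℤ × List ℕ × List ℕ) := [
  (8, [2, 1, 4, 3, 2, 1, 3], [1, 1, 2, 1, 1, 1, 3]),
  (-5, [3, 2, 1, 4, 3, 2, 4], [1, 1, 1, 2, 1, 1, 3]),
  (-6, [1, 4, 2, 3, 1, 4, 2], [1, 2, 2, 4, 2, 2, 2]),
  (9, [2, 1, 4, 3, 2, 4, 3], [1, 1, 2, 1, 1, 3, 1]),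
  (1, [2, 1, 2, 4, 2, 4, 3], [1, 1, 4, 3, 2, 3, 1]),
  (3, [2, 1, 2, 4, 1, 4, 3], [1, 1, 4, 3, 3, 2, 1]),
  (-9, [3, 2, 4, 3, 2, 1, 4], [1, 1, 3, 1, 1, 1, 2]),
  (-11, [3, 2, 4, 1, 3, 2, 4], [1, 1, 3, 3, 3, 1, 3]),
  (6, [3, 2, 3, 2, 3, 1, 4], [1, 1, 4, 1, 4, 2, 2]),
  (-5, [1, 4, 3, 2, 1, 4, 2], [1, 2, 1, 1, 1, 2, 2]),
  (-2, [1, 4, 3, 2, 1, 3, 2], [1, 2, 1, 1, 1, 3, 1]),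
  (2, [1, 4, 3, 2, 4, 3, 2], [1, 2, 1, 1, 3, 1, 1]),
  (14, [1, 4, 2, 1, 4, 3, 2], [1, 2, 2, 1, 2, 1, 1]),
  (12, [3, 1, 4, 2, 3, 1, 4], [1, 2, 2, 2, 4, 2, 2]),
  (2, [2, 4, 3, 2, 1, 4, 3], [1, 3, 1, 1, 1, 2, 1]),
  (-3, [1, 3, 2, 1, 4, 3, 2], [1, 3, 1, 1, 2, 1, 1]),
  (3, [2, 4, 2, 4, 3, 1, 3], [1, 3, 2, 3, 1, 2, 3]),
  (-7, [2, 4, 2, 4, 2, 1, 3], [1, 3, 2, 3, 2, 1, 3]),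
  (2, [2, 4, 1, 3, 2, 4, 3], [1, 3, 3, 3, 1, 3, 1]),
  (-7, [2, 4, 1, 3, 4, 1, 3], [1, 3, 3, 3, 4, 3, 3]),
  (-7, [3, 2, 1, 4, 3, 1, 4], [1, 1, 1, 2, 1, 2, 2]),
  (-7, [3, 2, 1, 4, 2, 1, 4], [1, 1, 1, 2, 2, 1, 2]),
  (-2, [2, 1, 4, 2, 4, 1, 3], [1, 1, 2, 2, 3, 3, 3]),
  (-6, [2, 1, 3, 2, 4, 1, 3], [1, 1, 3, 1, 3, 3, 3]),
  (3, [3, 2, 4, 2, 4, 1, 4], [1, 1, 3, 2, 3, 3, 2]),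
  (-3, [3, 2, 3, 1, 4, 1, 4], [1, 1, 4, 2, 2, 3, 2]),
  (-4, [3, 2, 3, 1, 3, 2, 4], [1, 1, 4, 2, 3, 1, 3]),
  (9, [3, 2, 3, 1, 3, 1, 4], [1, 1, 4, 2, 3, 2, 2]),
  (5, [3, 2, 3, 4, 3, 1, 4], [1, 1, 4, 4, 1, 2, 2]),
  (-3, [3, 2, 3, 4, 2, 1, 4], [1, 1, 4, 4, 2, 1, 2]),
  (5, [1, 4, 3, 1, 4, 3, 2], [1, 2, 1, 2, 2, 1, 1]),
  (6, [3, 1, 4, 3, 2, 1, 4], [1, 2, 2, 1, 1, 1, 2]),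
  (-3, [1, 4, 1, 4, 1, 3, 2], [1, 2, 3, 2, 3, 3, 1]),
  (-2, [3, 1, 3, 4, 3, 2, 4], [1, 2, 3, 4, 1, 1, 3]),
  (-3, [1, 4, 1, 2, 1, 4, 2], [1, 2, 3, 4, 1, 2, 2]),
  (-2, [3, 1, 3, 4, 2, 1, 4], [1, 2, 3, 4, 2, 1, 2]),
  (3, [3, 1, 2, 3, 2, 1, 4], [1, 2, 4, 4, 1, 1, 2]),
  (2, [1, 3, 2, 4, 1, 3, 2], [1, 3, 1, 3, 3, 3, 1]),
  (-13, [2, 4, 2, 1, 2, 1, 3], [1, 3, 2, 1, 4, 1, 3]),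
  (3, [1, 3, 1, 4, 1, 3, 2], [1, 3, 2, 2, 3, 3, 1]),
  (-6, [1, 3, 4, 2, 1, 3, 2], [1, 3, 4, 2, 1, 3, 1]),
  (7, [1, 3, 4, 2, 4, 3, 2], [1, 3, 4, 2, 3, 1, 1]),
  (-2, [1, 3, 4, 2, 4, 1, 2], [1, 3, 4, 2, 3, 3, 4]),
  (-2, [1, 2, 1, 3, 1, 4, 2], [1, 4, 1, 3, 2, 2, 2]),
  (-2, [2, 3, 4, 2, 4, 1, 3], [1, 4, 4, 2, 3, 3, 3]),
  (3, [3, 2, 1, 3, 2, 1, 4], [1, 1, 1, 3, 1, 1, 2]),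
  (5, [2, 1, 4, 2, 1, 4, 3], [1, 1, 2, 2, 1, 2, 1]),
  (-8, [2, 1, 3, 2, 1, 4, 3], [1, 1, 3, 1, 1, 2, 1]),
  (-3, [3, 2, 4, 1, 4, 1, 4], [1, 1, 3, 3, 2, 3, 2]),
  (2, [3, 2, 4, 1, 3, 1, 4], [1, 1, 3, 3, 3, 2, 2]),
  (9, [2, 1, 2, 4, 3, 1, 3], [1, 1, 4, 3, 1, 2, 3]),
  (2, [3, 1, 3, 2, 3, 1, 4], [1, 2, 3, 1, 4, 2, 2]),
  (-7, [1, 3, 4, 1, 4, 3, 2], [1, 3, 4, 3, 2, 1, 1]),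
  (2, [1, 2, 1, 4, 1, 3, 2], [1, 4, 1, 2, 3, 3, 1]),
  (2, [2, 3, 4, 1, 4, 2, 3], [1, 4, 4, 3, 2, 2, 4]),
  (6, [2, 1, 4, 3, 1, 4, 3], [1, 1, 2, 1, 2, 2, 1]),
  (4, [3, 1, 2, 4, 3, 1, 4], [1, 2, 4, 3, 1, 2, 2]),
  (-3, [3, 1, 2, 4, 2, 1, 4], [1, 2, 4, 3, 2, 1, 2]),
  (-4, [2, 4, 3, 2, 4, 1, 3], [1, 3, 1, 1, 3, 3, 3]),
  (3, [2, 4, 3, 1, 3, 2, 3], [1, 3, 1, 2, 3, 1, 4]),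
  (-3, [1, 3, 1, 2, 1, 4, 2], [1, 3, 2, 4, 1, 2, 2]),
  (7, [1, 3, 1, 2, 1, 3, 2], [1, 3, 2, 4, 1, 3, 1]),
  (-1, [2, 3, 2, 1, 4, 2, 3], [1, 4, 1, 1, 2, 2, 4]),
  (5, [1, 2, 3, 4, 1, 3, 2], [1, 4, 4, 4, 3, 3, 1]),
  (8, [2, 1, 4, 1, 4, 1, 3], [1, 1, 2, 3, 2, 3, 3]),
  (3, [3, 2, 4, 3, 4, 1, 4], [1, 1, 3, 1, 4, 3, 2]),
  (6, [2, 1, 3, 1, 2, 4, 3], [1, 1, 3, 2, 4, 3, 1]),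
  (-6, [3, 2, 3, 2, 4, 1, 4], [1, 1, 4, 1, 3, 3, 2]),
  (-9, [3, 1, 2, 1, 2, 1, 4], [1, 2, 4, 1, 4, 1, 2]),
  (1, [1, 3, 1, 3, 1, 3, 2], [1, 3, 2, 3, 2, 3, 1]),
  (6, [2, 1, 4, 3, 4, 1, 3], [1, 1, 2, 1, 4, 3, 3]),
  (-4, [2, 1, 2, 3, 2, 1, 3], [1, 1, 4, 4, 1, 1, 3]),
  (2, [2, 1, 2, 3, 4, 1, 3], [1, 1, 4, 4, 4, 3, 3]),
  (3, [1, 4, 3, 1, 4, 1, 2], [1, 2, 1, 2, 2, 3, 4]),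
  (3, [3, 1, 4, 3, 4, 2, 4], [1, 2, 2, 1, 4, 2, 3]),
  (-3, [1, 4, 2, 1, 2, 3, 2], [1, 2, 2, 1, 4, 4, 1]),
  (2, [3, 1, 3, 2, 3, 2, 4], [1, 2, 3, 1, 4, 1, 3]),
  (-3, [1, 4, 1, 3, 2, 4, 2], [1, 2, 3, 3, 1, 3, 2]),
  (3, [1, 4, 1, 2, 1, 3, 2], [1, 2, 3, 4, 1, 3, 1]),
  (-3, [1, 3, 2, 4, 3, 1, 2], [1, 3, 1, 3, 1, 2, 4]),
  (1, [2, 4, 2, 1, 2, 4, 3], [1, 3, 2, 1, 4, 3, 1]),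
  (-1, [1, 3, 4, 1, 4, 1, 2], [1, 3, 4, 3, 2, 3, 4]),
  (1, [1, 2, 1, 4, 3, 1, 2], [1, 4, 1, 2, 1, 2, 4]),
  (3, [1, 2, 1, 4, 2, 4, 2], [1, 4, 1, 2, 2, 3, 2]),
  (-1, [1, 2, 1, 4, 1, 4, 2], [1, 4, 1, 2, 3, 2, 2]),
  (-3, [2, 3, 2, 4, 3, 1, 3], [1, 4, 1, 3, 1, 2, 3]),
  (3, [2, 3, 2, 4, 2, 1, 3], [1, 4, 1, 3, 2, 1, 3]),
  (-2, [1, 2, 1, 3, 1, 3, 2], [1, 4, 1, 3, 2, 3, 1]),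
  (-2, [1, 2, 3, 1, 3, 1, 2], [1, 4, 4, 2, 3, 2, 4]),
  (3, [1, 2, 3, 1, 3, 4, 2], [1, 4, 4, 2, 3, 4, 2]),
  (-3, [1, 2, 3, 1, 2, 4, 2], [1, 4, 4, 2, 4, 3, 2]),
  (-1, [2, 3, 4, 1, 4, 1, 3], [1, 4, 4, 3, 2, 3, 3]),
  (3, [2, 3, 4, 1, 3, 1, 3], [1, 4, 4, 3, 3, 2, 3]),
  (-5, [2, 3, 4, 1, 2, 4, 3], [1, 4, 4, 3, 4, 3, 1]),
  (-2, [3, 2, 1, 2, 3, 1, 4], [1, 1, 1, 4, 4, 2, 2]),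
  (-1, [2, 1, 4, 1, 2, 1, 3], [1, 1, 2, 3, 4, 1, 3]),
  (-5, [2, 1, 4, 1, 2, 4, 3], [1, 1, 2, 3, 4, 3, 1]),
  (1, [2, 1, 3, 1, 4, 1, 3], [1, 1, 3, 2, 2, 3, 3]),
  (5, [3, 2, 4, 2, 3, 1, 4], [1, 1, 3, 2, 4, 2, 2]),
  (-6, [3, 2, 4, 1, 4, 2, 4], [1, 1, 3, 3, 2, 2, 3])]

/-- certificate for the values (2, 4, 3) -/
def D1 : List (ℤ × List ℕ × List ℕ) := [
  (-25, [3, 1, 4, 2, 3, 1, 4], [1, 2, 2, 2, 4, 2, 2]),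
  (-2, [3, 1, 3, 2, 3, 2, 4], [1, 2, 3, 1, 4, 1, 3]),
  (-1, [1, 4, 3, 2, 1, 3, 2], [1, 2, 1, 1, 1, 3, 1]),
  (9, [2, 4, 3, 2, 4, 1, 3], [1, 3, 1, 1, 3, 3, 3]),
  (-17, [2, 1, 3, 2, 1, 4, 3], [1, 1, 3, 1, 1, 2, 1]),
  (12, [2, 1, 4, 3, 2, 4, 3], [1, 1, 2, 1, 1, 3, 1]),
  (15, [1, 3, 1, 2, 3, 4, 2], [1, 3, 2, 4, 4, 4, 2]),
  (4, [3, 4, 3, 1, 2, 1, 4], [1, 4, 1, 2, 4, 1, 2]),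
  (4, [3, 2, 1, 3, 2, 1, 4], [1, 1, 1, 3, 1, 1, 2]),
  (104, [3, 2, 4, 3, 2, 1, 4], [1, 1, 3, 1, 1, 1, 2]),
  (-24, [2, 4, 1, 3, 2, 4, 3], [1, 3, 3, 3, 1, 3, 1]),
  (5, [3, 2, 4, 1, 3, 2, 4], [1, 1, 3, 3, 3, 1, 3]),
  (-18, [1, 2, 1, 3, 1, 3, 2], [1, 4, 1, 3, 2, 3, 1]),
  (13, [3, 2, 4, 1, 2, 3, 4], [1, 1, 3, 3, 4, 4, 4]),
  (27, [2, 4, 3, 2, 3, 1, 3], [1, 3, 1, 1, 4, 2, 3]),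
  (-30, [1, 4, 2, 3, 1, 4, 2], [1, 2, 2, 4, 2, 2, 2]),
  (-22, [1, 4, 2, 1, 2, 4, 2], [1, 2, 2, 1, 4, 3, 2]),
  (-24, [2, 3, 2, 4, 2, 1, 3], [1, 4, 1, 3, 2, 1, 3]),
  (-66, [2, 1, 4, 3, 2, 1, 3], [1, 1, 2, 1, 1, 1, 3]),
  (-18, [1, 4, 1, 3, 1, 3, 2], [1, 2, 3, 3, 2, 3, 1]),
  (15, [1, 4, 1, 3, 4, 1, 2], [1, 2, 3, 3, 4, 3, 4]),
  (4, [1, 4, 1, 4, 1, 3, 2], [1, 2, 3, 2, 3, 3, 1]),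
  (27, [2, 4, 2, 1, 2, 4, 3], [1, 3, 2, 1, 4, 3, 1]),
  (-20, [1, 3, 2, 1, 4, 3, 2], [1, 3, 1, 1, 2, 1, 1]),
  (-52, [3, 2, 3, 2, 3, 1, 4], [1, 1, 4, 1, 4, 2, 2]),
  (64, [2, 1, 3, 2, 4, 1, 3], [1, 1, 3, 1, 3, 3, 3]),
  (16, [3, 2, 1, 4, 3, 1, 4], [1, 1, 1, 2, 1, 2, 2]),
  (-15, [3, 2, 4, 1, 4, 3, 4], [1, 1, 3, 3, 2, 1, 4]),
  (-72, [1, 4, 2, 1, 4, 3, 2], [1, 2, 2, 1, 2, 1, 1]),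
  (-22, [1, 4, 3, 1, 2, 4, 2], [1, 2, 1, 2, 4, 3, 2]),
  (-34, [3, 2, 1, 3, 1, 3, 4], [1, 1, 1, 3, 2, 3, 4]),
  (-45, [2, 4, 1, 3, 4, 1, 3], [1, 3, 3, 3, 4, 3, 3]),
  (87, [3, 4, 3, 1, 3, 2, 4], [1, 4, 1, 2, 3, 1, 3]),
  (48, [1, 4, 3, 2, 1, 4, 2], [1, 2, 1, 1, 1, 2, 2]),
  (28, [2, 3, 4, 1, 2, 4, 3], [1, 4, 4, 3, 4, 3, 1]),
  (-2, [3, 1, 4, 3, 2, 1, 4], [1, 2, 2, 1, 1, 1, 2]),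
  (11, [3, 2, 1, 4, 2, 1, 4], [1, 1, 1, 2, 2, 1, 2]),
  (64, [2, 4, 2, 1, 2, 1, 3], [1, 3, 2, 1, 4, 1, 3]),
  (35, [1, 3, 2, 4, 1, 3, 2], [1, 3, 1, 3, 3, 3, 1]),
  (-5, [2, 4, 3, 1, 3, 1, 3], [1, 3, 1, 2, 3, 2, 3]),
  (86, [2, 4, 1, 2, 4, 1, 3], [1, 3, 3, 4, 3, 3, 3]),
  (-17, [2, 3, 2, 3, 4, 1, 3], [1, 4, 1, 4, 4, 3, 3]),
  (4, [2, 1, 2, 3, 4, 1, 3], [1, 1, 4, 4, 4, 3, 3]),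
  (-80, [2, 1, 4, 2, 1, 4, 3], [1, 1, 2, 2, 1, 2, 1]),
  (-5, [3, 4, 2, 1, 3, 1, 4], [1, 4, 2, 1, 3, 2, 2]),
  (12, [1, 3, 2, 1, 2, 4, 2], [1, 3, 1, 1, 4, 3, 2]),
  (57, [3, 2, 1, 4, 3, 2, 4], [1, 1, 1, 2, 1, 1, 3]),
  (34, [2, 3, 2, 1, 4, 1, 3], [1, 4, 1, 1, 2, 3, 3]),
  (29, [1, 2, 1, 4, 1, 3, 2], [1, 4, 1, 2, 3, 3, 1]),
  (107, [1, 3, 1, 2, 1, 4, 2], [1, 3, 2, 4, 1, 2, 2]),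
  (-6, [3, 1, 3, 4, 3, 2, 4], [1, 2, 3, 4, 1, 1, 3]),
  (2, [1, 2, 4, 2, 4, 3, 2], [1, 4, 3, 2, 3, 1, 1]),
  (37, [1, 2, 4, 3, 1, 3, 2], [1, 4, 3, 1, 2, 3, 1]),
  (13, [3, 1, 3, 1, 2, 3, 4], [1, 2, 3, 2, 4, 4, 4]),
  (-8, [1, 4, 3, 1, 4, 3, 2], [1, 2, 1, 2, 2, 1, 1]),
  (-39, [2, 3, 1, 2, 1, 4, 3], [1, 4, 2, 4, 1, 2, 1]),
  (-8, [1, 3, 1, 3, 1, 3, 2], [1, 3, 2, 3, 2, 3, 1]),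
  (15, [1, 2, 4, 1, 2, 1, 2], [1, 4, 3, 3, 4, 1, 4]),
  (19, [3, 1, 3, 1, 3, 2, 4], [1, 2, 3, 2, 3, 1, 3]),
  (18, [1, 3, 1, 2, 3, 1, 2], [1, 3, 2, 4, 4, 2, 4]),
  (-14, [2, 1, 2, 4, 1, 2, 3], [1, 1, 4, 3, 3, 4, 4]),
  (-53, [3, 4, 2, 1, 2, 1, 4], [1, 4, 2, 1, 4, 1, 2]),
  (-3, [2, 4, 3, 2, 1, 4, 3], [1, 3, 1, 1, 1, 2, 1]),
  (45, [3, 2, 3, 1, 2, 1, 4], [1, 1, 4, 2, 4, 1, 2]),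
  (-53, [1, 2, 1, 4, 1, 4, 2], [1, 4, 1, 2, 3, 2, 2]),
  (-9, [2, 3, 1, 3, 1, 4, 3], [1, 4, 2, 3, 2, 2, 1]),
  (13, [1, 4, 2, 1, 2, 3, 2], [1, 2, 2, 1, 4, 4, 1]),
  (9, [3, 2, 1, 4, 1, 2, 4], [1, 1, 1, 2, 3, 4, 3]),
  (20, [2, 3, 1, 4, 2, 1, 3], [1, 4, 2, 2, 2, 1, 3]),
  (15, [1, 4, 3, 2, 3, 1, 2], [1, 2, 1, 1, 4, 2, 4]),
  (13, [2, 1, 4, 1, 3, 1, 3], [1, 1, 2, 3, 3, 2, 3]),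
  (-11, [1, 2, 4, 1, 4, 3, 2], [1, 4, 3, 3, 2, 1, 1]),
  (5, [2, 3, 2, 1, 3, 1, 3], [1, 4, 1, 1, 3, 2, 3]),
  (-33, [1, 4, 1, 3, 4, 3, 2], [1, 2, 3, 3, 4, 1, 1]),
  (16, [1, 4, 1, 2, 4, 3, 2], [1, 2, 3, 4, 3, 1, 1]),
  (4, [1, 2, 4, 3, 4, 3, 2], [1, 4, 3, 1, 4, 1, 1]),
  (20, [3, 2, 3, 1, 3, 1, 4], [1, 1, 4, 2, 3, 2, 2]),
  (18, [1, 4, 1, 2, 1, 4, 2], [1, 2, 3, 4, 1, 2, 2]),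
  (2, [1, 3, 4, 3, 4, 1, 2], [1, 3, 4, 1, 4, 3, 4]),
  (15, [3, 1, 3, 2, 4, 3, 4], [1, 2, 3, 1, 3, 1, 4]),
  (-32, [1, 4, 1, 2, 4, 1, 2], [1, 2, 3, 4, 3, 3, 4]),
  (9, [2, 4, 1, 3, 1, 4, 3], [1, 3, 3, 3, 2, 2, 1]),
  (-86, [1, 4, 1, 2, 1, 3, 2], [1, 2, 3, 4, 1, 3, 1]),
  (-13, [3, 2, 4, 1, 3, 1, 4], [1, 1, 3, 3, 3, 2, 2]),
  (41, [3, 2, 3, 1, 3, 2, 4], [1, 1, 4, 2, 3, 1, 3]),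
  (-2, [3, 1, 4, 2, 3, 2, 4], [1, 2, 2, 2, 4, 1, 3]),
  (27, [3, 2, 1, 2, 3, 1, 4], [1, 1, 1, 4, 4, 2, 2]),
  (-25, [1, 4, 3, 4, 1, 3, 2], [1, 2, 1, 4, 3, 3, 1]),
  (-49, [2, 3, 2, 3, 1, 4, 3], [1, 4, 1, 4, 2, 2, 1]),
  (44, [2, 3, 4, 3, 4, 1, 3], [1, 4, 4, 1, 4, 3, 3]),
  (-16, [2, 1, 4, 3, 1, 4, 3], [1, 1, 2, 1, 2, 2, 1]),
  (-42, [3, 4, 3, 2, 3, 1, 4], [1, 4, 1, 1, 4, 2, 2]),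
  (9, [3, 4, 3, 1, 4, 2, 4], [1, 4, 1, 2, 2, 2, 3]),
  (34, [2, 3, 2, 1, 2, 1, 3], [1, 4, 1, 1, 4, 1, 3]),
  (-10, [3, 2, 3, 4, 3, 1, 4], [1, 1, 4, 4, 1, 2, 2]),
  (-4, [2, 4, 1, 3, 2, 1, 3], [1, 3, 3, 3, 1, 1, 3]),
  (-28, [1, 2, 3, 4, 1, 3, 2], [1, 4, 4, 4, 3, 3, 1]),
  (-20, [2, 3, 1, 3, 2, 1, 3], [1, 4, 2, 3, 1, 1, 3]),
  (52, [1, 3, 4, 3, 1, 4, 2], [1, 3, 4, 1, 2, 2, 2]),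
  (-29, [2, 3, 2, 4, 3, 1, 3], [1, 4, 1, 3, 1, 2, 3]),
  (-13, [2, 1, 3, 1, 3, 4, 3], [1, 1, 3, 2, 3, 4, 1]),
  (-15, [3, 1, 2, 4, 1, 3, 4], [1, 2, 4, 3, 3, 3, 4]),
  (-14, [2, 1, 2, 4, 2, 1, 3], [1, 1, 4, 3, 2, 1, 3]),
  (29, [1, 3, 2, 4, 2, 4, 2], [1, 3, 1, 3, 2, 3, 2]),
  (49, [1, 2, 1, 2, 1, 4, 2], [1, 4, 1, 4, 1, 2, 2]),
  (32, [1, 4, 3, 1, 3, 1, 2], [1, 2, 1, 2, 3, 2, 4]),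
  (10, [2, 4, 2, 3, 4, 1, 3], [1, 3, 2, 4, 4, 3, 3]),
  (-17, [3, 1, 4, 3, 4, 2, 4], [1, 2, 2, 1, 4, 2, 3]),
  (-46, [3, 2, 4, 2, 3, 1, 4], [1, 1, 3, 2, 4, 2, 2]),
  (-13, [3, 4, 1, 3, 2, 3, 4], [1, 4, 3, 3, 1, 4, 4]),
  (-15, [2, 1, 2, 1, 4, 2, 3], [1, 1, 4, 1, 2, 2, 4]),
  (9, [2, 4, 1, 2, 3, 1, 3], [1, 3, 3, 4, 4, 2, 3]),
  (-60, [2, 1, 2, 4, 2, 4, 3], [1, 1, 4, 3, 2, 3, 1]),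
  (-37, [1, 3, 1, 2, 1, 3, 2], [1, 3, 2, 4, 1, 3, 1]),
  (-23, [1, 3, 4, 2, 1, 4, 2], [1, 3, 4, 2, 1, 2, 2]),
  (-52, [3, 1, 3, 2, 3, 1, 4], [1, 2, 3, 1, 4, 2, 2]),
  (9, [3, 4, 1, 2, 3, 2, 4], [1, 4, 3, 4, 4, 1, 3]),
  (34, [2, 4, 2, 4, 2, 1, 3], [1, 3, 2, 3, 2, 1, 3]),
  (29, [3, 1, 2, 1, 2, 1, 4], [1, 2, 4, 1, 4, 1, 2]),
  (-14, [3, 1, 3, 2, 1, 2, 4], [1, 2, 3, 1, 1, 4, 3]),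
  (-15, [3, 2, 1, 3, 4, 1, 4], [1, 1, 1, 3, 4, 3, 2]),
  (-34, [3, 1, 2, 1, 3, 1, 4], [1, 2, 4, 1, 3, 2, 2]),
  (-9, [1, 4, 2, 3, 2, 3, 2], [1, 2, 2, 4, 1, 4, 1])]

/-- certificate for the values (3, 2, 4) -/
def D2 : List (ℤ × List ℕ × List ℕ) := [
  (18, [3, 2, 3, 1, 3, 2, 4], [1, 1, 4, 2, 3, 1, 3]),
  (270, [2, 1, 4, 3, 2, 1, 3], [1, 1, 2, 1, 1, 1, 3]),
  (-564, [2, 1, 4, 3, 2, 4, 3], [1, 1, 2, 1, 1, 3, 1]),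
  (255, [3, 2, 1, 4, 3, 2, 4], [1, 1, 1, 2, 1, 1, 3]),
  (591, [1, 4, 3, 2, 1, 3, 2], [1, 2, 1, 1, 1, 3, 1]),
  (-96, [1, 3, 4, 3, 4, 1, 2], [1, 3, 4, 1, 4, 3, 4]),
  (177, [1, 4, 1, 4, 1, 3, 2], [1, 2, 3, 2, 3, 3, 1]),
  (-630, [1, 4, 2, 3, 1, 4, 2], [1, 2, 2, 4, 2, 2, 2]),
  (29, [3, 2, 1, 4, 3, 1, 4], [1, 1, 1, 2, 1, 2, 2]),
  (186, [1, 3, 2, 1, 4, 3, 2], [1, 3, 1, 1, 2, 1, 1]),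
  (-726, [1, 2, 1, 3, 1, 4, 2], [1, 4, 1, 3, 2, 2, 2]),
  (652, [2, 4, 1, 3, 2, 1, 3], [1, 3, 3, 3, 1, 1, 3]),
  (-768, [2, 4, 3, 2, 1, 4, 3], [1, 3, 1, 1, 1, 2, 1]),
  (-606, [3, 1, 2, 4, 2, 1, 4], [1, 2, 4, 3, 2, 1, 2]),
  (171, [3, 1, 4, 2, 3, 1, 4], [1, 2, 2, 2, 4, 2, 2]),
  (-96, [3, 4, 3, 2, 3, 1, 4], [1, 4, 1, 1, 4, 2, 2]),
  (618, [1, 3, 1, 2, 1, 3, 2], [1, 3, 2, 4, 1, 3, 1]),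
  (-466, [2, 4, 3, 2, 4, 1, 3], [1, 3, 1, 1, 3, 3, 3]),
  (12, [2, 1, 2, 4, 3, 1, 3], [1, 1, 4, 3, 1, 2, 3]),
  (510, [2, 3, 4, 2, 4, 1, 3], [1, 4, 4, 2, 3, 3, 3]),
  (18, [3, 2, 3, 1, 4, 1, 4], [1, 1, 4, 2, 2, 3, 2]),
  (231, [3, 2, 3, 2, 3, 1, 4], [1, 1, 4, 1, 4, 2, 2]),
  (713, [3, 2, 4, 1, 3, 2, 4], [1, 1, 3, 3, 3, 1, 3]),
  (42, [2, 1, 2, 3, 1, 4, 3], [1, 1, 4, 4, 2, 2, 1]),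
  (-192, [3, 2, 4, 1, 4, 1, 4], [1, 1, 3, 3, 2, 3, 2]),
  (3, [1, 4, 3, 2, 4, 3, 2], [1, 2, 1, 1, 3, 1, 1]),
  (597, [2, 1, 2, 4, 1, 4, 3], [1, 1, 4, 3, 3, 2, 1]),
  (11, [1, 4, 3, 1, 4, 3, 2], [1, 2, 1, 2, 2, 1, 1]),
  (82, [1, 4, 2, 1, 4, 3, 2], [1, 2, 2, 1, 2, 1, 1]),
  (-114, [2, 3, 2, 3, 1, 4, 3], [1, 4, 1, 4, 2, 2, 1]),
  (-495, [1, 4, 1, 2, 1, 4, 2], [1, 2, 3, 4, 1, 2, 2]),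
  (792, [2, 1, 3, 2, 1, 4, 3], [1, 1, 3, 1, 1, 2, 1]),
  (150, [1, 2, 1, 4, 1, 3, 2], [1, 4, 1, 2, 3, 3, 1]),
  (741, [1, 3, 1, 4, 1, 3, 2], [1, 3, 2, 2, 3, 3, 1]),
  (120, [2, 4, 2, 4, 1, 4, 3], [1, 3, 2, 3, 3, 2, 1]),
  (-300, [2, 1, 2, 1, 4, 2, 3], [1, 1, 4, 1, 2, 2, 4]),
  (-129, [1, 3, 4, 2, 1, 3, 2], [1, 3, 4, 2, 1, 3, 1]),
  (-270, [3, 1, 3, 4, 3, 2, 4], [1, 2, 3, 4, 1, 1, 3]),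
  (-414, [2, 4, 1, 3, 4, 1, 3], [1, 3, 3, 3, 4, 3, 3]),
  (351, [1, 3, 1, 3, 1, 3, 2], [1, 3, 2, 3, 2, 3, 1]),
  (57, [3, 2, 1, 3, 2, 1, 4], [1, 1, 1, 3, 1, 1, 2]),
  (-1229, [2, 1, 4, 2, 1, 4, 3], [1, 1, 2, 2, 1, 2, 1]),
  (180, [3, 2, 3, 4, 2, 1, 4], [1, 1, 4, 4, 2, 1, 2]),
  (-325, [2, 4, 1, 3, 2, 4, 3], [1, 3, 3, 3, 1, 3, 1]),
  (534, [2, 4, 1, 2, 4, 1, 3], [1, 3, 3, 4, 3, 3, 3]),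
  (-288, [3, 1, 2, 3, 2, 1, 4], [1, 2, 4, 4, 1, 1, 2]),
  (43, [3, 2, 1, 4, 2, 1, 4], [1, 1, 1, 2, 2, 1, 2]),
  (75, [3, 2, 3, 4, 3, 1, 4], [1, 1, 4, 4, 1, 2, 2]),
  (-543, [2, 1, 2, 4, 2, 4, 3], [1, 1, 4, 3, 2, 3, 1]),
  (-213, [3, 1, 2, 4, 3, 1, 4], [1, 2, 4, 3, 1, 2, 2]),
  (663, [2, 1, 2, 3, 2, 4, 3], [1, 1, 4, 4, 1, 3, 1]),
  (369, [1, 2, 3, 2, 4, 1, 2], [1, 4, 4, 1, 3, 3, 4]),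
  (-411, [2, 1, 2, 3, 2, 1, 3], [1, 1, 4, 4, 1, 1, 3]),
  (8, [2, 1, 4, 3, 1, 4, 3], [1, 1, 2, 1, 2, 2, 1]),
  (253, [1, 4, 3, 2, 1, 4, 2], [1, 2, 1, 1, 1, 2, 2]),
  (-519, [2, 4, 2, 3, 2, 1, 3], [1, 3, 2, 4, 1, 1, 3]),
  (-354, [1, 4, 1, 2, 1, 3, 2], [1, 2, 3, 4, 1, 3, 1]),
  (651, [2, 4, 2, 1, 2, 1, 3], [1, 3, 2, 1, 4, 1, 3]),
  (-57, [1, 4, 1, 2, 4, 3, 2], [1, 2, 3, 4, 3, 1, 1]),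
  (372, [3, 4, 3, 1, 3, 2, 4], [1, 4, 1, 2, 3, 1, 3]),
  (-180, [3, 1, 4, 1, 3, 2, 4], [1, 2, 2, 3, 3, 1, 3]),
  (288, [1, 3, 1, 2, 4, 3, 2], [1, 3, 2, 4, 3, 1, 1]),
  (-426, [1, 2, 1, 2, 1, 4, 2], [1, 4, 1, 4, 1, 2, 2]),
  (-327, [2, 1, 3, 4, 2, 4, 3], [1, 1, 3, 4, 2, 3, 1]),
  (258, [3, 4, 1, 2, 4, 3, 4], [1, 4, 3, 4, 3, 1, 4]),
  (-27, [1, 4, 3, 4, 2, 3, 2], [1, 2, 1, 4, 2, 4, 1]),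
  (435, [1, 3, 4, 1, 4, 3, 2], [1, 3, 4, 3, 2, 1, 1]),
  (-192, [2, 1, 3, 4, 3, 1, 3], [1, 1, 3, 4, 1, 2, 3]),
  (-492, [2, 3, 2, 1, 4, 2, 3], [1, 4, 1, 1, 2, 2, 4]),
  (264, [1, 3, 2, 3, 1, 4, 2], [1, 3, 1, 4, 2, 2, 2]),
  (354, [2, 4, 3, 1, 3, 1, 3], [1, 3, 1, 2, 3, 2, 3]),
  (-330, [3, 1, 2, 1, 4, 3, 4], [1, 2, 4, 1, 2, 1, 4]),
  (-93, [3, 4, 3, 4, 2, 1, 4], [1, 4, 1, 4, 2, 1, 2]),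
  (-219, [2, 3, 4, 1, 4, 2, 3], [1, 4, 4, 3, 2, 2, 4]),
  (27, [3, 2, 4, 2, 1, 2, 4], [1, 1, 3, 2, 1, 4, 3]),
  (-162, [3, 4, 2, 1, 4, 3, 4], [1, 4, 2, 1, 2, 1, 4]),
  (120, [1, 2, 3, 4, 1, 3, 2], [1, 4, 4, 4, 3, 3, 1]),
  (185, [3, 1, 4, 3, 2, 1, 4], [1, 2, 2, 1, 1, 1, 2]),
  (-146, [1, 3, 2, 4, 1, 3, 2], [1, 3, 1, 3, 3, 3, 1]),
  (-429, [2, 4, 1, 4, 1, 4, 3], [1, 3, 3, 2, 3, 2, 1]),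
  (366, [1, 2, 1, 2, 4, 1, 2], [1, 4, 1, 4, 3, 3, 4]),
  (-96, [2, 3, 4, 1, 3, 2, 3], [1, 4, 4, 3, 3, 1, 4]),
  (-666, [3, 2, 3, 1, 2, 1, 4], [1, 1, 4, 2, 4, 1, 2]),
  (-162, [3, 4, 1, 4, 3, 2, 4], [1, 4, 3, 2, 1, 1, 3]),
  (285, [1, 2, 4, 3, 4, 1, 2], [1, 4, 3, 1, 4, 3, 4]),
  (219, [2, 4, 2, 3, 1, 4, 3], [1, 3, 2, 4, 2, 2, 1]),
  (-39, [1, 4, 3, 4, 2, 1, 2], [1, 2, 1, 4, 2, 1, 4]),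
  (120, [2, 3, 1, 3, 1, 4, 3], [1, 4, 2, 3, 2, 2, 1]),
  (-41, [2, 1, 3, 2, 4, 1, 3], [1, 1, 3, 1, 3, 3, 3]),
  (-90, [2, 3, 1, 3, 2, 1, 3], [1, 4, 2, 3, 1, 1, 3]),
  (96, [1, 2, 4, 3, 1, 4, 2], [1, 4, 3, 1, 2, 2, 2]),
  (-30, [3, 1, 3, 2, 3, 2, 4], [1, 2, 3, 1, 4, 1, 3]),
  (90, [2, 4, 2, 4, 3, 1, 3], [1, 3, 2, 3, 1, 2, 3]),
  (30, [2, 3, 4, 3, 4, 1, 3], [1, 4, 4, 1, 4, 3, 3]),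
  (-138, [2, 4, 2, 3, 4, 1, 3], [1, 3, 2, 4, 4, 3, 3]),
  (378, [3, 1, 2, 1, 2, 1, 4], [1, 2, 4, 1, 4, 1, 2]),
  (621, [2, 1, 3, 4, 1, 4, 3], [1, 1, 3, 4, 3, 2, 1]),
  (426, [1, 4, 1, 2, 3, 1, 2], [1, 2, 3, 4, 4, 2, 4]),
  (-378, [3, 1, 3, 1, 2, 1, 4], [1, 2, 3, 2, 4, 1, 2]),
  (120, [2, 3, 4, 1, 3, 1, 3], [1, 4, 4, 3, 3, 2, 3]),
  (30, [2, 1, 3, 1, 3, 2, 3], [1, 1, 3, 2, 3, 1, 4]),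
  (96, [3, 1, 2, 1, 4, 1, 4], [1, 2, 4, 1, 2, 3, 2]),
  (-120, [2, 4, 1, 3, 1, 4, 3], [1, 3, 3, 3, 2, 2, 1]),
  (-120, [1, 2, 1, 4, 2, 4, 2], [1, 4, 1, 2, 2, 3, 2]),
  (180, [1, 3, 4, 3, 2, 4, 2], [1, 3, 4, 1, 1, 3, 2]),
  (-165, [2, 1, 4, 1, 2, 1, 3], [1, 1, 2, 3, 4, 1, 3]),
  (30, [3, 1, 4, 2, 3, 2, 4], [1, 2, 2, 2, 4, 1, 3]),
  (-294, [1, 4, 2, 3, 1, 3, 2], [1, 2, 2, 4, 2, 3, 1]),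
  (-219, [2, 4, 3, 1, 2, 1, 3], [1, 3, 1, 2, 4, 1, 3])]

/-- certificate for the values (3, 4, 2) -/
def D3 : List (ℤ × List ℕ × List ℕ) := [
  (4536, [1, 4, 3, 2, 1, 3, 2], [1, 2, 1, 1, 1, 3, 1]),
  (2895, [3, 1, 4, 2, 3, 1, 4], [1, 2, 2, 2, 4, 2, 2]),
  (-1491, [2, 3, 2, 4, 2, 1, 3], [1, 4, 1, 3, 2, 1, 3]),
  (-1336, [2, 1, 4, 2, 1, 4, 3], [1, 1, 2, 2, 1, 2, 1]),
  (-7311, [2, 1, 4, 3, 2, 4, 3], [1, 1, 2, 1, 1, 3, 1]),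
  (7056, [2, 1, 3, 2, 1, 4, 3], [1, 1, 3, 1, 1, 2, 1]),
  (-48, [2, 4, 2, 1, 2, 4, 3], [1, 3, 2, 1, 4, 3, 1]),
  (-2547, [3, 2, 1, 4, 3, 2, 4], [1, 1, 1, 2, 1, 1, 3]),
  (1480, [3, 2, 1, 4, 3, 1, 4], [1, 1, 1, 2, 1, 2, 2]),
  (2478, [3, 2, 1, 3, 2, 1, 4], [1, 1, 1, 3, 1, 1, 2]),
  (5235, [2, 1, 4, 3, 2, 1, 3], [1, 1, 2, 1, 1, 1, 3]),
  (-282, [2, 1, 4, 2, 3, 4, 3], [1, 1, 2, 2, 4, 4, 1]),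
  (-4692, [3, 2, 4, 3, 2, 1, 4], [1, 1, 3, 1, 1, 1, 2]),
  (-2280, [3, 2, 3, 2, 3, 1, 4], [1, 1, 4, 1, 4, 2, 2]),
  (1197, [1, 4, 2, 3, 1, 4, 2], [1, 2, 2, 4, 2, 2, 2]),
  (-4343, [2, 4, 3, 2, 4, 1, 3], [1, 3, 1, 1, 3, 3, 3]),
  (-4000, [1, 3, 2, 4, 1, 3, 2], [1, 3, 1, 3, 3, 3, 1]),
  (3078, [2, 4, 2, 4, 2, 1, 3], [1, 3, 2, 3, 2, 1, 3]),
  (1919, [2, 4, 1, 3, 2, 1, 3], [1, 3, 3, 3, 1, 1, 3]),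
  (-3276, [2, 4, 1, 3, 4, 1, 3], [1, 3, 3, 3, 4, 3, 3]),
  (-633, [2, 4, 1, 2, 4, 1, 3], [1, 3, 3, 4, 3, 3, 3]),
  (308, [3, 2, 1, 4, 2, 1, 4], [1, 1, 1, 2, 2, 1, 2]),
  (435, [3, 2, 1, 3, 1, 2, 4], [1, 1, 1, 3, 2, 4, 3]),
  (2966, [2, 1, 3, 2, 4, 1, 3], [1, 1, 3, 1, 3, 3, 3]),
  (517, [3, 2, 4, 1, 3, 2, 4], [1, 1, 3, 3, 3, 1, 3]),
  (1806, [2, 1, 2, 4, 2, 1, 3], [1, 1, 4, 3, 2, 1, 3]),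
  (1343, [1, 4, 3, 2, 1, 4, 2], [1, 2, 1, 1, 1, 2, 2]),
  (58, [3, 1, 4, 3, 2, 1, 4], [1, 2, 2, 1, 1, 1, 2]),
  (858, [1, 4, 2, 1, 2, 4, 2], [1, 2, 2, 1, 4, 3, 2]),
  (-1245, [3, 1, 3, 2, 4, 1, 4], [1, 2, 3, 1, 3, 3, 2]),
  (-1029, [3, 1, 3, 2, 3, 2, 4], [1, 2, 3, 1, 4, 1, 3]),
  (-3258, [3, 1, 3, 2, 3, 1, 4], [1, 2, 3, 1, 4, 2, 2]),
  (-141, [1, 4, 1, 4, 1, 3, 2], [1, 2, 3, 2, 3, 3, 1]),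
  (-333, [1, 4, 1, 3, 1, 3, 2], [1, 2, 3, 3, 2, 3, 1]),
  (-2310, [1, 4, 1, 3, 4, 3, 2], [1, 2, 3, 3, 4, 1, 1]),
  (279, [1, 4, 1, 3, 4, 1, 2], [1, 2, 3, 3, 4, 3, 4]),
  (-4083, [2, 4, 3, 2, 1, 4, 3], [1, 3, 1, 1, 1, 2, 1]),
  (-810, [1, 3, 1, 4, 3, 1, 2], [1, 3, 2, 2, 1, 2, 4]),
  (666, [1, 3, 1, 2, 1, 4, 2], [1, 3, 2, 4, 1, 2, 2]),
  (-3221, [2, 4, 1, 3, 2, 4, 3], [1, 3, 3, 3, 1, 3, 1]),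
  (2343, [3, 4, 3, 2, 3, 1, 4], [1, 4, 1, 1, 4, 2, 2]),
  (-69, [3, 4, 3, 1, 3, 2, 4], [1, 4, 1, 2, 3, 1, 3]),
  (-105, [1, 2, 1, 4, 1, 4, 2], [1, 4, 1, 2, 3, 2, 2]),
  (-903, [3, 4, 3, 1, 2, 1, 4], [1, 4, 1, 2, 4, 1, 2]),
  (1701, [3, 4, 2, 1, 2, 1, 4], [1, 4, 2, 1, 4, 1, 2]),
  (474, [3, 2, 3, 1, 3, 1, 4], [1, 1, 4, 2, 3, 2, 2]),
  (1895, [1, 4, 2, 1, 4, 3, 2], [1, 2, 2, 1, 2, 1, 1]),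
  (795, [3, 1, 3, 2, 1, 3, 4], [1, 2, 3, 1, 1, 3, 4]),
  (-795, [1, 4, 1, 2, 1, 3, 2], [1, 2, 3, 4, 1, 3, 1]),
  (-624, [2, 4, 3, 2, 3, 1, 3], [1, 3, 1, 1, 4, 2, 3]),
  (1764, [2, 4, 2, 1, 2, 1, 3], [1, 3, 2, 1, 4, 1, 3]),
  (-942, [1, 3, 1, 4, 1, 3, 2], [1, 3, 2, 2, 3, 3, 1]),
  (1248, [1, 3, 1, 3, 4, 3, 2], [1, 3, 2, 3, 4, 1, 1]),
  (-264, [1, 3, 1, 2, 3, 1, 2], [1, 3, 2, 4, 4, 2, 4]),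
  (942, [2, 4, 1, 4, 1, 4, 3], [1, 3, 3, 2, 3, 2, 1]),
  (3742, [2, 1, 4, 3, 1, 4, 3], [1, 1, 2, 1, 2, 2, 1]),
  (-117, [2, 1, 4, 2, 1, 2, 3], [1, 1, 2, 2, 1, 4, 4]),
  (195, [3, 2, 3, 4, 3, 1, 4], [1, 1, 4, 4, 1, 2, 2]),
  (130, [1, 4, 3, 1, 4, 3, 2], [1, 2, 1, 2, 2, 1, 1]),
  (1608, [1, 4, 1, 3, 2, 1, 2], [1, 2, 3, 3, 1, 1, 4]),
  (-399, [3, 1, 3, 4, 3, 2, 4], [1, 2, 3, 4, 1, 1, 3]),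
  (-630, [2, 4, 3, 1, 3, 1, 3], [1, 3, 1, 2, 3, 2, 3]),
  (630, [1, 3, 2, 4, 1, 4, 2], [1, 3, 1, 3, 3, 2, 2]),
  (-267, [1, 3, 1, 2, 3, 4, 2], [1, 3, 2, 4, 4, 4, 2]),
  (-534, [1, 3, 4, 2, 3, 1, 2], [1, 3, 4, 2, 4, 2, 4]),
  (936, [2, 3, 2, 1, 4, 1, 3], [1, 4, 1, 1, 2, 3, 3]),
  (606, [3, 4, 3, 1, 4, 2, 4], [1, 4, 1, 2, 2, 2, 3]),
  (1176, [1, 2, 1, 3, 1, 4, 2], [1, 4, 1, 3, 2, 2, 2]),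
  (333, [1, 2, 1, 3, 1, 3, 2], [1, 4, 1, 3, 2, 3, 1]),
  (762, [2, 3, 2, 3, 4, 1, 3], [1, 4, 1, 4, 4, 3, 3]),
  (465, [2, 3, 1, 4, 2, 1, 3], [1, 4, 2, 2, 2, 1, 3]),
  (-1635, [3, 4, 2, 4, 2, 1, 4], [1, 4, 2, 3, 2, 1, 2]),
  (-1542, [1, 2, 4, 3, 1, 3, 2], [1, 4, 3, 1, 2, 3, 1]),
  (-543, [1, 2, 4, 3, 4, 1, 2], [1, 4, 3, 1, 4, 3, 4]),
  (-153, [1, 2, 4, 1, 4, 3, 2], [1, 4, 3, 3, 2, 1, 1]),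
  (87, [1, 2, 4, 1, 2, 1, 2], [1, 4, 3, 3, 4, 1, 4]),
  (102, [3, 2, 4, 3, 4, 1, 4], [1, 1, 3, 1, 4, 3, 2]),
  (-267, [2, 1, 3, 1, 3, 4, 3], [1, 1, 3, 2, 3, 4, 1]),
  (-474, [2, 1, 3, 1, 2, 4, 3], [1, 1, 3, 2, 4, 3, 1]),
  (282, [3, 2, 4, 1, 2, 3, 4], [1, 1, 3, 3, 4, 4, 4]),
  (-60, [3, 2, 3, 2, 4, 1, 4], [1, 1, 4, 1, 3, 3, 2]),
  (1596, [3, 2, 3, 1, 2, 1, 4], [1, 1, 4, 2, 4, 1, 2]),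
  (684, [2, 1, 2, 3, 4, 1, 3], [1, 1, 4, 4, 4, 3, 3]),
  (-153, [1, 4, 2, 1, 2, 3, 2], [1, 2, 2, 1, 4, 4, 1]),
  (-1470, [2, 4, 2, 1, 4, 1, 3], [1, 3, 2, 1, 2, 3, 3]),
  (-444, [1, 3, 1, 3, 1, 3, 2], [1, 3, 2, 3, 2, 3, 1]),
  (318, [2, 4, 1, 3, 1, 4, 3], [1, 3, 3, 3, 2, 2, 1]),
  (-465, [1, 2, 1, 4, 3, 1, 2], [1, 4, 1, 2, 1, 2, 4]),
  (1218, [1, 2, 1, 2, 1, 4, 2], [1, 4, 1, 4, 1, 2, 2]),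
  (-165, [3, 4, 2, 1, 3, 1, 4], [1, 4, 2, 1, 3, 2, 2]),
  (183, [2, 3, 1, 4, 3, 2, 3], [1, 4, 2, 2, 1, 1, 4]),
  (-936, [2, 3, 1, 4, 1, 4, 3], [1, 4, 2, 2, 3, 2, 1]),
  (-945, [3, 4, 2, 3, 2, 1, 4], [1, 4, 2, 4, 1, 1, 2]),
  (-15, [3, 2, 1, 4, 1, 2, 4], [1, 1, 1, 2, 3, 4, 3]),
  (-1746, [2, 1, 2, 1, 4, 1, 3], [1, 1, 4, 1, 2, 3, 3]),
  (-474, [3, 2, 3, 1, 4, 2, 4], [1, 1, 4, 2, 2, 2, 3]),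
  (-54, [3, 2, 3, 1, 3, 2, 4], [1, 1, 4, 2, 3, 1, 3]),
  (-324, [2, 1, 2, 4, 2, 4, 3], [1, 1, 4, 3, 2, 3, 1]),
  (-618, [1, 4, 3, 1, 2, 4, 2], [1, 2, 1, 2, 4, 3, 2]),
  (-636, [1, 4, 3, 4, 3, 1, 2], [1, 2, 1, 4, 1, 2, 4]),
  (-87, [3, 1, 4, 2, 1, 3, 4], [1, 2, 2, 2, 1, 3, 4]),
  (621, [1, 4, 2, 3, 2, 1, 2], [1, 2, 2, 4, 1, 1, 4]),
  (309, [1, 4, 2, 3, 2, 4, 2], [1, 2, 2, 4, 1, 3, 2]),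
  (720, [1, 4, 2, 3, 4, 1, 2], [1, 2, 2, 4, 4, 3, 4]),
  (-636, [1, 4, 1, 4, 3, 1, 2], [1, 2, 3, 2, 1, 2, 4]),
  (267, [3, 1, 3, 1, 2, 3, 4], [1, 2, 3, 2, 4, 4, 4]),
  (24, [1, 4, 1, 2, 1, 4, 2], [1, 2, 3, 4, 1, 2, 2]),
  (-1251, [1, 4, 1, 2, 3, 1, 2], [1, 2, 3, 4, 4, 2, 4]),
  (534, [3, 1, 2, 3, 4, 1, 4], [1, 2, 4, 4, 4, 3, 2]),
  (-537, [1, 3, 2, 4, 3, 1, 2], [1, 3, 1, 3, 1, 2, 4]),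
  (-216, [2, 4, 3, 4, 3, 1, 3], [1, 3, 1, 4, 1, 2, 3]),
  (1719, [1, 3, 1, 4, 1, 4, 2], [1, 3, 2, 2, 3, 2, 2]),
  (-774, [1, 3, 1, 3, 2, 1, 2], [1, 3, 2, 3, 1, 1, 4]),
  (1317, [2, 4, 2, 4, 3, 1, 3], [1, 3, 2, 3, 1, 2, 3]),
  (1251, [1, 3, 1, 3, 4, 1, 2], [1, 3, 2, 3, 4, 3, 4]),
  (-780, [2, 4, 2, 3, 2, 1, 3], [1, 3, 2, 4, 1, 1, 3]),
  (-1185, [1, 3, 1, 2, 1, 3, 2], [1, 3, 2, 4, 1, 3, 1]),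
  (1392, [2, 4, 2, 3, 4, 1, 3], [1, 3, 2, 4, 4, 3, 3]),
  (3, [2, 4, 1, 3, 4, 2, 3], [1, 3, 3, 3, 4, 2, 4]),
  (1254, [2, 4, 1, 2, 1, 4, 3], [1, 3, 3, 4, 1, 2, 1]),
  (-1263, [2, 4, 1, 2, 3, 1, 3], [1, 3, 3, 4, 4, 2, 3]),
  (15, [2, 4, 1, 2, 3, 4, 3], [1, 3, 3, 4, 4, 4, 1]),
  (528, [1, 3, 4, 3, 4, 1, 2], [1, 3, 4, 1, 4, 3, 4]),
  (-978, [3, 4, 3, 2, 4, 1, 4], [1, 4, 1, 1, 3, 3, 2]),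
  (-318, [2, 3, 2, 1, 2, 1, 3], [1, 4, 1, 1, 4, 1, 3]),
  (-231, [1, 2, 1, 4, 1, 3, 2], [1, 4, 1, 2, 3, 3, 1]),
  (912, [1, 2, 1, 3, 4, 3, 2], [1, 4, 1, 3, 4, 1, 1]),
  (102, [1, 2, 4, 1, 2, 3, 2], [1, 4, 3, 3, 4, 4, 1]),
  (-345, [2, 3, 4, 3, 4, 1, 3], [1, 4, 4, 1, 4, 3, 3]),
  (30, [3, 2, 1, 3, 1, 3, 4], [1, 1, 1, 3, 2, 3, 4]),
  (1242, [3, 2, 1, 3, 4, 2, 4], [1, 1, 1, 3, 4, 2, 3]),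
  (-957, [3, 2, 1, 2, 3, 1, 4], [1, 1, 1, 4, 4, 2, 2])]

/-- certificate for the values (4, 2, 3) -/
def D4 : List (ℤ × List ℕ × List ℕ) := [
  (1, [1, 4, 3, 2, 1, 3, 2], [1, 2, 1, 1, 1, 3, 1]),
  (2, [2, 1, 4, 3, 1, 4, 3], [1, 1, 2, 1, 2, 2, 1]),
  (3, [3, 1, 3, 1, 3, 2, 4], [1, 2, 3, 2, 3, 1, 3]),
  (6, [3, 2, 1, 4, 3, 2, 4], [1, 1, 1, 2, 1, 1, 3]),
  (-2, [2, 1, 3, 2, 1, 4, 3], [1, 1, 3, 1, 1, 2, 1]),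
  (-4, [3, 2, 1, 4, 3, 1, 4], [1, 1, 1, 2, 1, 2, 2]),
  (5, [1, 3, 2, 4, 1, 3, 2], [1, 3, 1, 3, 3, 3, 1]),
  (-2, [2, 4, 1, 2, 4, 1, 3], [1, 3, 3, 4, 3, 3, 3]),
  (-1, [3, 2, 1, 3, 2, 1, 4], [1, 1, 1, 3, 1, 1, 2]),
  (-2, [1, 2, 1, 3, 1, 4, 2], [1, 4, 1, 3, 2, 2, 2]),
  (-2, [2, 4, 2, 1, 2, 1, 3], [1, 3, 2, 1, 4, 1, 3]),
  (-2, [3, 2, 4, 1, 4, 1, 4], [1, 1, 3, 3, 2, 3, 2]),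
  (2, [1, 3, 1, 2, 4, 3, 2], [1, 3, 2, 4, 3, 1, 1]),
  (5, [1, 4, 1, 2, 1, 4, 2], [1, 2, 3, 4, 1, 2, 2]),
  (-3, [1, 3, 1, 4, 1, 3, 2], [1, 3, 2, 2, 3, 3, 1]),
  (1, [1, 4, 2, 3, 1, 4, 2], [1, 2, 2, 4, 2, 2, 2]),
  (1, [3, 1, 4, 2, 3, 1, 4], [1, 2, 2, 2, 4, 2, 2]),
  (-2, [3, 1, 2, 4, 3, 1, 4], [1, 2, 4, 3, 1, 2, 2]),
  (3, [2, 1, 2, 3, 1, 4, 3], [1, 1, 4, 4, 2, 2, 1]),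
  (-2, [1, 4, 3, 2, 1, 4, 2], [1, 2, 1, 1, 1, 2, 2]),
  (2, [2, 1, 3, 2, 4, 1, 3], [1, 1, 3, 1, 3, 3, 3]),
  (1, [2, 1, 4, 2, 1, 4, 3], [1, 1, 2, 2, 1, 2, 1]),
  (3, [3, 1, 4, 1, 3, 2, 4], [1, 2, 2, 3, 3, 1, 3]),
  (2, [2, 4, 1, 3, 2, 1, 3], [1, 3, 3, 3, 1, 1, 3]),
  (-2, [2, 4, 3, 1, 2, 1, 3], [1, 3, 1, 2, 4, 1, 3]),
  (-6, [1, 3, 1, 2, 1, 3, 2], [1, 3, 2, 4, 1, 3, 1]),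
  (3, [3, 4, 3, 1, 3, 2, 4], [1, 4, 1, 2, 3, 1, 3]),
  (6, [1, 4, 3, 1, 4, 3, 2], [1, 2, 1, 2, 2, 1, 1]),
  (-2, [1, 4, 3, 2, 4, 3, 2], [1, 2, 1, 1, 3, 1, 1]),
  (-3, [1, 4, 3, 2, 3, 1, 2], [1, 2, 1, 1, 4, 2, 4]),
  (-4, [1, 4, 3, 1, 3, 1, 2], [1, 2, 1, 2, 3, 2, 4]),
  (2, [1, 2, 1, 3, 2, 4, 2], [1, 4, 1, 3, 1, 3, 2]),
  (-6, [2, 3, 2, 3, 1, 4, 3], [1, 4, 1, 4, 2, 2, 1]),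
  (3, [3, 1, 4, 3, 4, 2, 4], [1, 2, 2, 1, 4, 2, 3]),
  (3, [3, 1, 4, 2, 3, 2, 4], [1, 2, 2, 2, 4, 1, 3]),
  (1, [2, 4, 3, 1, 3, 1, 3], [1, 3, 1, 2, 3, 2, 3]),
  (-1, [1, 3, 2, 4, 2, 1, 2], [1, 3, 1, 3, 2, 1, 4]),
  (1, [1, 4, 1, 3, 1, 3, 2], [1, 2, 3, 3, 2, 3, 1]),
  (-2, [3, 2, 4, 3, 2, 1, 4], [1, 1, 3, 1, 1, 1, 2]),
  (3, [2, 1, 4, 3, 2, 4, 3], [1, 1, 2, 1, 1, 3, 1]),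
  (8, [1, 4, 1, 3, 1, 4, 2], [1, 2, 3, 3, 2, 2, 2]),
  (2, [3, 4, 3, 2, 3, 1, 4], [1, 4, 1, 1, 4, 2, 2]),
  (2, [1, 2, 1, 4, 3, 1, 2], [1, 4, 1, 2, 1, 2, 4]),
  (1, [3, 1, 3, 2, 1, 3, 4], [1, 2, 3, 1, 1, 3, 4]),
  (2, [2, 3, 1, 4, 2, 1, 3], [1, 4, 2, 2, 2, 1, 3]),
  (2, [2, 4, 1, 3, 4, 1, 3], [1, 3, 3, 3, 4, 3, 3]),
  (3, [3, 1, 4, 2, 4, 3, 4], [1, 2, 2, 2, 3, 1, 4]),
  (-1, [3, 1, 3, 2, 4, 1, 4], [1, 2, 3, 1, 3, 3, 2]),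
  (-2, [2, 4, 3, 2, 4, 1, 3], [1, 3, 1, 1, 3, 3, 3]),
  (-2, [3, 4, 2, 1, 3, 1, 4], [1, 4, 2, 1, 3, 2, 2]),
  (1, [2, 4, 2, 1, 3, 2, 3], [1, 3, 2, 1, 3, 1, 4]),
  (-1, [1, 3, 1, 2, 1, 4, 2], [1, 3, 2, 4, 1, 2, 2]),
  (-7, [3, 4, 2, 1, 3, 2, 4], [1, 4, 2, 1, 3, 1, 3]),
  (3, [3, 2, 3, 4, 3, 1, 4], [1, 1, 4, 4, 1, 2, 2]),
  (1, [3, 1, 3, 4, 3, 2, 4], [1, 2, 3, 4, 1, 1, 3]),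
  (-4, [1, 3, 2, 1, 4, 3, 2], [1, 3, 1, 1, 2, 1, 1]),
  (-5, [1, 3, 4, 2, 4, 3, 2], [1, 3, 4, 2, 3, 1, 1]),
  (-1, [1, 4, 1, 3, 2, 4, 2], [1, 2, 3, 3, 1, 3, 2]),
  (6, [2, 3, 1, 2, 1, 4, 3], [1, 4, 2, 4, 1, 2, 1]),
  (3, [2, 3, 1, 4, 1, 4, 3], [1, 4, 2, 2, 3, 2, 1]),
  (-1, [1, 3, 1, 3, 2, 4, 2], [1, 3, 2, 3, 1, 3, 2]),
  (-1, [2, 3, 4, 1, 2, 4, 3], [1, 4, 4, 3, 4, 3, 1]),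
  (2, [1, 4, 2, 1, 3, 1, 2], [1, 2, 2, 1, 3, 2, 4]),
  (-2, [1, 3, 2, 4, 2, 4, 2], [1, 3, 1, 3, 2, 3, 2]),
  (1, [1, 4, 3, 2, 4, 1, 2], [1, 2, 1, 1, 3, 3, 4]),
  (1, [2, 3, 4, 2, 1, 4, 3], [1, 4, 4, 2, 1, 2, 1]),
  (1, [1, 4, 1, 2, 1, 3, 2], [1, 2, 3, 4, 1, 3, 1]),
  (2, [2, 3, 2, 1, 4, 1, 3], [1, 4, 1, 1, 2, 3, 3]),
  (-5, [1, 3, 2, 1, 2, 4, 2], [1, 3, 1, 1, 4, 3, 2]),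
  (-1, [2, 4, 2, 3, 2, 1, 3], [1, 3, 2, 4, 1, 1, 3]),
  (-1, [1, 3, 4, 1, 4, 3, 2], [1, 3, 4, 3, 2, 1, 1]),
  (3, [2, 4, 2, 1, 3, 1, 3], [1, 3, 2, 1, 3, 2, 3]),
  (1, [3, 1, 4, 3, 2, 1, 4], [1, 2, 2, 1, 1, 1, 2]),
  (2, [1, 4, 2, 1, 2, 1, 2], [1, 2, 2, 1, 4, 1, 4]),
  (-4, [1, 2, 1, 3, 1, 3, 2], [1, 4, 1, 3, 2, 3, 1]),
  (1, [2, 1, 4, 3, 4, 1, 3], [1, 1, 2, 1, 4, 3, 3]),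
  (-1, [3, 1, 3, 2, 4, 3, 4], [1, 2, 3, 1, 3, 1, 4]),
  (2, [3, 1, 2, 3, 2, 1, 4], [1, 2, 4, 4, 1, 1, 2]),
  (-2, [3, 2, 3, 1, 3, 2, 4], [1, 1, 4, 2, 3, 1, 3]),
  (1, [2, 3, 4, 1, 4, 1, 3], [1, 4, 4, 3, 2, 3, 3]),
  (-4, [1, 2, 1, 4, 1, 3, 2], [1, 4, 1, 2, 3, 3, 1]),
  (-1, [1, 3, 2, 3, 4, 1, 2], [1, 3, 1, 4, 4, 3, 4]),
  (3, [1, 2, 4, 2, 1, 3, 2], [1, 4, 3, 2, 1, 3, 1]),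
  (-6, [1, 4, 3, 4, 1, 3, 2], [1, 2, 1, 4, 3, 3, 1]),
  (-3, [3, 4, 2, 4, 3, 1, 4], [1, 4, 2, 3, 1, 2, 2]),
  (-3, [3, 2, 4, 3, 1, 3, 4], [1, 1, 3, 1, 2, 3, 4]),
  (-3, [1, 4, 2, 1, 4, 3, 2], [1, 2, 2, 1, 2, 1, 1]),
  (1, [2, 1, 2, 3, 2, 4, 3], [1, 1, 4, 4, 1, 3, 1]),
  (-7, [3, 1, 3, 4, 2, 1, 4], [1, 2, 3, 4, 2, 1, 2]),
  (-1, [1, 4, 1, 2, 3, 1, 2], [1, 2, 3, 4, 4, 2, 4]),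
  (-3, [1, 2, 4, 2, 4, 3, 2], [1, 4, 3, 2, 3, 1, 1]),
  (6, [3, 4, 3, 4, 2, 1, 4], [1, 4, 1, 4, 2, 1, 2]),
  (-2, [2, 4, 2, 1, 4, 2, 3], [1, 3, 2, 1, 2, 2, 4]),
  (-1, [1, 3, 4, 3, 1, 3, 2], [1, 3, 4, 1, 2, 3, 1]),
  (-2, [2, 3, 2, 4, 2, 1, 3], [1, 4, 1, 3, 2, 1, 3]),
  (3, [3, 4, 1, 4, 2, 1, 4], [1, 4, 3, 2, 2, 1, 2]),
  (3, [3, 2, 1, 3, 1, 3, 4], [1, 1, 1, 3, 2, 3, 4]),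
  (1, [2, 1, 3, 1, 4, 2, 3], [1, 1, 3, 2, 2, 2, 4]),
  (1, [2, 1, 3, 1, 3, 1, 3], [1, 1, 3, 2, 3, 2, 3]),
  (1, [3, 2, 3, 2, 3, 1, 4], [1, 1, 4, 1, 4, 2, 2]),
  (-2, [3, 4, 3, 1, 4, 2, 4], [1, 4, 1, 2, 2, 2, 3])]

/-- certificate for the values (4, 3, 2) -/
def D5 : List (ℤ × List ℕ × List ℕ) := [
  (-13, [3, 2, 4, 1, 3, 2, 4], [1, 1, 3, 3, 3, 1, 3]),
  (13435, [2, 4, 1, 3, 2, 1, 3], [1, 3, 3, 3, 1, 1, 3]),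
  (-47619, [2, 1, 4, 3, 2, 4, 3], [1, 1, 2, 1, 1, 3, 1]),
  (59235, [1, 4, 3, 2, 1, 3, 2], [1, 2, 1, 1, 1, 3, 1]),
  (-5502, [3, 1, 4, 2, 3, 1, 4], [1, 2, 2, 2, 4, 2, 2]),
  (5310, [1, 4, 2, 3, 1, 4, 2], [1, 2, 2, 4, 2, 2, 2]),
  (33261, [1, 4, 1, 3, 1, 3, 2], [1, 2, 3, 3, 2, 3, 1]),
  (-4374, [3, 4, 3, 2, 3, 1, 4], [1, 4, 1, 1, 4, 2, 2]),
  (-34917, [3, 2, 1, 4, 3, 2, 4], [1, 1, 1, 2, 1, 1, 3]),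
  (-16741, [3, 2, 1, 4, 3, 1, 4], [1, 1, 1, 2, 1, 2, 2]),
  (20403, [3, 2, 1, 3, 2, 1, 4], [1, 1, 1, 3, 1, 1, 2]),
  (52362, [2, 1, 4, 3, 2, 1, 3], [1, 1, 2, 1, 1, 1, 3]),
  (31874, [2, 1, 4, 3, 1, 4, 3], [1, 1, 2, 1, 2, 2, 1]),
  (-35789, [2, 1, 4, 2, 1, 4, 3], [1, 1, 2, 2, 1, 2, 1]),
  (-36, [2, 1, 4, 2, 4, 2, 3], [1, 1, 2, 2, 3, 2, 4]),
  (-42012, [3, 2, 4, 3, 2, 1, 4], [1, 1, 3, 1, 1, 1, 2]),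
  (22528, [2, 1, 3, 2, 4, 1, 3], [1, 1, 3, 1, 3, 3, 3]),
  (-13542, [3, 2, 3, 1, 3, 1, 4], [1, 1, 4, 2, 3, 2, 2]),
  (-10233, [3, 2, 3, 4, 3, 1, 4], [1, 1, 4, 4, 1, 2, 2]),
  (-14279, [1, 4, 3, 2, 1, 4, 2], [1, 2, 1, 1, 1, 2, 2]),
  (5003, [1, 4, 3, 1, 4, 3, 2], [1, 2, 1, 2, 2, 1, 1]),
  (13735, [1, 4, 2, 1, 4, 3, 2], [1, 2, 2, 1, 2, 1, 1]),
  (-9633, [3, 1, 4, 1, 3, 2, 4], [1, 2, 2, 3, 3, 1, 3]),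
  (-5733, [3, 1, 3, 1, 3, 2, 4], [1, 2, 3, 2, 3, 1, 3]),
  (-67554, [2, 4, 3, 2, 1, 4, 3], [1, 3, 1, 1, 1, 2, 1]),
  (-22252, [2, 4, 3, 2, 4, 1, 3], [1, 3, 1, 1, 3, 3, 3]),
  (8862, [1, 3, 2, 1, 2, 4, 2], [1, 3, 1, 1, 4, 3, 2]),
  (3264, [2, 4, 3, 1, 2, 4, 3], [1, 3, 1, 2, 4, 3, 1]),
  (-11645, [1, 3, 2, 4, 1, 3, 2], [1, 3, 1, 3, 3, 3, 1]),
  (-1428, [2, 4, 2, 1, 2, 4, 3], [1, 3, 2, 1, 4, 3, 1]),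
  (-12114, [1, 3, 1, 4, 3, 1, 2], [1, 3, 2, 2, 1, 2, 4]),
  (-10566, [1, 3, 1, 4, 1, 3, 2], [1, 3, 2, 2, 3, 3, 1]),
  (14199, [2, 4, 2, 4, 2, 1, 3], [1, 3, 2, 3, 2, 1, 3]),
  (15990, [1, 3, 1, 2, 1, 4, 2], [1, 3, 2, 4, 1, 2, 2]),
  (1167, [2, 4, 1, 4, 2, 1, 3], [1, 3, 3, 2, 2, 1, 3]),
  (-3412, [2, 4, 1, 3, 2, 4, 3], [1, 3, 3, 3, 1, 3, 1]),
  (6273, [2, 4, 1, 3, 4, 1, 3], [1, 3, 3, 3, 4, 3, 3]),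
  (61299, [2, 1, 3, 2, 1, 4, 3], [1, 1, 3, 1, 1, 2, 1]),
  (17229, [3, 2, 4, 1, 4, 3, 4], [1, 1, 3, 3, 2, 1, 4]),
  (5115, [2, 1, 3, 4, 2, 1, 3], [1, 1, 3, 4, 2, 1, 3]),
  (24249, [2, 1, 2, 4, 2, 1, 3], [1, 1, 4, 3, 2, 1, 3]),
  (-37812, [1, 4, 3, 2, 4, 3, 2], [1, 2, 1, 1, 3, 1, 1]),
  (-8976, [3, 1, 3, 2, 3, 2, 4], [1, 2, 3, 1, 4, 1, 3]),
  (8418, [1, 4, 1, 3, 2, 1, 2], [1, 2, 3, 3, 1, 1, 4]),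
  (-7071, [1, 4, 1, 3, 4, 3, 2], [1, 2, 3, 3, 4, 1, 1]),
  (-9408, [3, 1, 3, 4, 3, 2, 4], [1, 2, 3, 4, 1, 1, 3]),
  (-2904, [3, 1, 2, 4, 3, 2, 4], [1, 2, 4, 3, 1, 1, 3]),
  (37812, [1, 3, 2, 1, 4, 3, 2], [1, 3, 1, 1, 2, 1, 1]),
  (-12762, [1, 3, 1, 4, 1, 4, 2], [1, 3, 2, 2, 3, 2, 2]),
  (1290, [2, 3, 2, 1, 4, 1, 3], [1, 4, 1, 1, 2, 3, 3]),
  (5712, [2, 3, 2, 1, 2, 4, 3], [1, 4, 1, 1, 4, 3, 1]),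
  (-375, [1, 2, 1, 4, 1, 4, 2], [1, 4, 1, 2, 3, 2, 2]),
  (36, [2, 3, 2, 4, 2, 1, 3], [1, 4, 1, 3, 2, 1, 3]),
  (1518, [1, 2, 1, 3, 1, 3, 2], [1, 4, 1, 3, 2, 3, 1]),
  (-6663, [3, 4, 2, 1, 3, 1, 4], [1, 4, 2, 1, 3, 2, 2]),
  (1326, [2, 3, 1, 4, 1, 4, 3], [1, 4, 2, 2, 3, 2, 1]),
  (2904, [1, 2, 4, 3, 1, 3, 2], [1, 4, 3, 1, 2, 3, 1]),
  (-1374, [1, 2, 4, 1, 4, 3, 2], [1, 4, 3, 3, 2, 1, 1]),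
  (-1889, [3, 2, 1, 4, 2, 1, 4], [1, 1, 1, 2, 2, 1, 2]),
  (-12573, [2, 1, 4, 1, 3, 2, 3], [1, 1, 2, 3, 3, 1, 4]),
  (1077, [2, 1, 3, 1, 3, 2, 3], [1, 1, 3, 2, 3, 1, 4]),
  (-29028, [3, 2, 3, 1, 3, 2, 4], [1, 1, 4, 2, 3, 1, 3]),
  (5117, [3, 1, 4, 3, 2, 1, 4], [1, 2, 2, 1, 1, 1, 2]),
  (-5619, [1, 3, 1, 3, 2, 1, 2], [1, 3, 2, 3, 1, 1, 4]),
  (10026, [2, 4, 2, 3, 2, 1, 3], [1, 3, 2, 4, 1, 1, 3]),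
  (10611, [2, 4, 1, 4, 3, 2, 3], [1, 3, 3, 2, 1, 1, 4]),
  (-17076, [3, 2, 1, 4, 1, 3, 4], [1, 1, 1, 2, 3, 3, 4]),
  (-1989, [3, 2, 1, 2, 4, 1, 4], [1, 1, 1, 4, 3, 3, 2]),
  (2469, [3, 2, 1, 2, 3, 1, 4], [1, 1, 1, 4, 4, 2, 2]),
  (10494, [2, 1, 4, 1, 4, 2, 3], [1, 1, 2, 3, 2, 2, 4]),
  (1476, [2, 1, 3, 1, 4, 2, 3], [1, 1, 3, 2, 2, 2, 4]),
  (-6015, [3, 2, 4, 1, 4, 2, 4], [1, 1, 3, 3, 2, 2, 3]),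
  (-8163, [3, 2, 3, 2, 4, 1, 4], [1, 1, 4, 1, 3, 3, 2]),
  (-2469, [3, 2, 3, 2, 3, 1, 4], [1, 1, 4, 1, 4, 2, 2]),
  (3936, [3, 2, 3, 1, 4, 2, 4], [1, 1, 4, 2, 2, 2, 3]),
  (-8571, [3, 2, 3, 4, 1, 3, 4], [1, 1, 4, 4, 3, 3, 4]),
  (6582, [1, 4, 2, 4, 3, 1, 2], [1, 2, 2, 3, 1, 2, 4]),
  (-4926, [1, 4, 2, 4, 2, 1, 2], [1, 2, 2, 3, 2, 1, 4]),
  (2469, [1, 4, 2, 4, 1, 3, 2], [1, 2, 2, 3, 3, 3, 1]),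
  (-3264, [3, 1, 3, 2, 4, 1, 4], [1, 2, 3, 1, 3, 3, 2]),
  (-1476, [1, 4, 1, 4, 3, 1, 2], [1, 2, 3, 2, 1, 2, 4]),
  (-5733, [1, 4, 1, 4, 1, 3, 2], [1, 2, 3, 2, 3, 3, 1]),
  (-17787, [1, 4, 1, 2, 1, 4, 2], [1, 2, 3, 4, 1, 2, 2]),
  (12417, [3, 1, 3, 4, 2, 1, 4], [1, 2, 3, 4, 2, 1, 2]),
  (-1395, [3, 1, 2, 4, 3, 1, 4], [1, 2, 4, 3, 1, 2, 2]),
  (11001, [3, 1, 2, 4, 2, 1, 4], [1, 2, 4, 3, 2, 1, 2]),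
  (1302, [2, 4, 3, 1, 4, 1, 3], [1, 3, 1, 2, 2, 3, 3]),
  (3264, [1, 3, 2, 4, 2, 4, 2], [1, 3, 1, 3, 2, 3, 2]),
  (1989, [1, 3, 2, 3, 2, 4, 2], [1, 3, 1, 4, 1, 3, 2]),
  (-1302, [2, 4, 2, 1, 4, 1, 3], [1, 3, 2, 1, 2, 3, 3]),
  (-1167, [1, 3, 1, 3, 1, 3, 2], [1, 3, 2, 3, 2, 3, 1]),
  (17787, [1, 3, 1, 2, 1, 3, 2], [1, 3, 2, 4, 1, 3, 1]),
  (4431, [2, 4, 1, 4, 2, 4, 3], [1, 3, 3, 2, 2, 3, 1]),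
  (4227, [1, 3, 4, 3, 2, 4, 2], [1, 3, 4, 1, 1, 3, 2]),
  (1395, [1, 3, 4, 2, 1, 3, 2], [1, 3, 4, 2, 1, 3, 1]),
  (-2469, [1, 2, 1, 2, 1, 4, 2], [1, 4, 1, 4, 1, 2, 2]),
  (2469, [1, 2, 3, 2, 1, 4, 2], [1, 4, 4, 1, 1, 2, 2]),
  (-3636, [3, 2, 1, 3, 1, 3, 4], [1, 1, 1, 3, 2, 3, 4]),
  (3084, [2, 1, 4, 2, 4, 1, 3], [1, 1, 2, 2, 3, 3, 3]),
  (-933, [2, 1, 4, 1, 3, 1, 3], [1, 1, 2, 3, 3, 2, 3]),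
  (408, [3, 2, 4, 3, 1, 3, 4], [1, 1, 3, 1, 2, 3, 4]),
  (9099, [2, 1, 3, 1, 3, 1, 3], [1, 1, 3, 2, 3, 2, 3]),
  (-8946, [3, 2, 4, 2, 4, 1, 4], [1, 1, 3, 2, 3, 3, 2]),
  (-14028, [3, 2, 4, 1, 3, 1, 4], [1, 1, 3, 3, 3, 2, 2]),
  (-3264, [2, 1, 3, 4, 2, 4, 3], [1, 1, 3, 4, 2, 3, 1]),
  (7248, [2, 1, 2, 1, 4, 2, 3], [1, 1, 4, 1, 2, 2, 4]),
  (-6480, [2, 1, 2, 1, 4, 1, 3], [1, 1, 4, 1, 2, 3, 3]),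
  (20022, [2, 1, 2, 4, 2, 4, 3], [1, 1, 4, 3, 2, 3, 1]),
  (8238, [2, 1, 2, 3, 1, 4, 3], [1, 1, 4, 4, 2, 2, 1]),
  (-6390, [1, 4, 3, 4, 3, 1, 2], [1, 2, 1, 4, 1, 2, 4]),
  (-5598, [3, 1, 4, 3, 4, 2, 4], [1, 2, 2, 1, 4, 2, 3]),
  (-3264, [1, 4, 2, 1, 2, 3, 2], [1, 2, 2, 1, 4, 4, 1]),
  (12114, [3, 1, 3, 2, 1, 3, 4], [1, 2, 3, 1, 1, 3, 4]),
  (1428, [3, 1, 3, 2, 3, 1, 4], [1, 2, 3, 1, 4, 2, 2]),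
  (-15990, [1, 4, 1, 2, 1, 3, 2], [1, 2, 3, 4, 1, 3, 1]),
  (-12771, [2, 4, 3, 1, 3, 1, 3], [1, 3, 1, 2, 3, 2, 3]),
  (15990, [1, 3, 2, 4, 1, 4, 2], [1, 3, 1, 3, 3, 2, 2]),
  (-6504, [1, 3, 2, 3, 4, 1, 2], [1, 3, 1, 4, 4, 3, 4]),
  (-10797, [2, 4, 2, 1, 3, 1, 3], [1, 3, 2, 1, 3, 2, 3]),
  (10674, [2, 4, 2, 1, 2, 1, 3], [1, 3, 2, 1, 4, 1, 3]),
  (14061, [2, 4, 2, 4, 3, 1, 3], [1, 3, 2, 3, 1, 2, 3]),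
  (1428, [1, 3, 1, 3, 2, 4, 2], [1, 3, 2, 3, 1, 3, 2]),
  (-10797, [2, 4, 2, 4, 1, 4, 3], [1, 3, 2, 3, 3, 2, 1]),
  (6504, [1, 3, 1, 3, 4, 3, 2], [1, 3, 2, 3, 4, 1, 1]),
  (657, [2, 4, 1, 4, 3, 1, 3], [1, 3, 3, 2, 1, 2, 3]),
  (-657, [2, 4, 1, 4, 1, 4, 3], [1, 3, 3, 2, 3, 2, 1]),
  (3264, [2, 4, 1, 2, 1, 2, 3], [1, 3, 3, 4, 1, 4, 4])]

theorem ok0 : D0.all okE = true := by decide +kernel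

theorem ch0 : chk 7 (List.range 7) ((-1, [], [4, 4, 1, 3, 2, 2, 4]) :: D0) = true := by decide +kernel

theorem ok1 : D1.all okE = true := by decide +kernel

theorem ch1 : chk 7 (List.range 7) ((-51, [], [3, 4, 1, 3, 2, 1, 1]) :: D1) = true := by decide +kernel

theorem ok2 : D2.all okE = true := by decide +kernel

theorem ch2 : chk 7 (List.range 7) ((-177, [], [4, 4, 1, 2, 3, 3, 3]) :: D2) = true := by decide +kernel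

theorem ok3 : D3.all okE = true := by decide +kernel

theorem ch3 : chk 7 (List.range 7) ((-570, [], [2, 4, 1, 2, 3, 1, 2]) :: D3) = true := by decide +kernel

theorem ok4 : D4.all okE = true := by decide +kernel

theorem ch4 : chk 7 (List.range 7) ((-2, [], [3, 4, 1, 1, 4, 3, 4]) :: D4) = true := by decide +kernel

theorem ok5 : D5.all okE = true := by decide +kernel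

theorem ch5 : chk 7 (List.range 7) ((-2862, [], [2, 4, 1, 1, 4, 2, 1]) :: D5) = true := by decide +kernel

end Cert7x

open Cert7x in
theorem cert7 : St_cert7 := by
  intro x y z hx hy hz hx1 hy1 hz1 hxy hxz hyz
  have key : ∀ x : ZMod 5, x ≠ 0 → x ≠ 1 → x = 2 ∨ x = 3 ∨ x = 4 := by decide
  rcases key x hx hx1 with rfl | rfl | rfl <;> rcases key y hy hy1 with rfl | rfl | rfl <;>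
    rcases key z hz hz1 with rfl | rfl | rfl <;>
    first
    | exact absurd rfl hxy
    | exact absurd rfl hxz
    | exact absurd rfl hyz
    | exact of_data D0 1 (by norm_num) [4, 4, 1, 3, 2, 2, 4] _ _ _ (by decide) ok0 ch0
    | exact of_data D1 51 (by norm_num) [3, 4, 1, 3, 2, 1, 1] _ _ _ (by decide) ok1 ch1
    | exact of_data D2 177 (by norm_num) [4, 4, 1, 2, 3, 3, 3] _ _ _ (by decide) ok2 ch2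
    | exact of_data D3 570 (by norm_num) [2, 4, 1, 2, 3, 1, 2] _ _ _ (by decide) ok3 ch3
    | exact of_data D4 2 (by norm_num) [3, 4, 1, 1, 4, 3, 4] _ _ _ (by decide) ok4 ch4
    | exact of_data D5 2862 (by norm_num) [2, 4, 1, 1, 4, 2, 1] _ _ _ (by decide) ok5 ch5

end Pool.Agent.TH676.Z
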