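import Pool.Agent.TH676.Z.Stm3
import Pool.Agent.TH676.Z.CircB

set_option autoImplicit false
set_option linter.unusedSectionVars false

/-! # There is no circuit of length seven -/

namespace Pool.Agent.TH676.Z.Circ7x

open Finset Pool.Agent.TH676.Z.CircB

variable {V E : Type} [Fintype V] [DecidableEq V] [Fintype E] [DecidableEq E]
variable {src dst : E → V} {k : ℕ} {v : Fin (k + 2) → V} {ed : Fin (k + 2) → E}

/-- the function with value `w i` on `ed i` in the direction `v i -> v (i + 1)` -/
def wc (src : E → V) (v : Fin (k + 2) → V) (ed : Fin (k + 2) → E) (w : Fin (k + 2) → ZMod 5) :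
    E → ZMod 5 :=
  fun e => ∑ i, if e = ed i then (if src (ed i) = v i then w i else - w i) else 0

theorem wc_ed (hed : Function.Injective ed) (w : Fin (k + 2) → ZMod 5) (i : Fin (k + 2)) :
    wc src v ed w (ed i) = if src (ed i) = v i then w i else - w i := by
  unfold wc
  rw [sum_eq_single i]
  · rw [if_pos rfl]
  · intro b _ hb
    rw [if_neg (fun h => hb (hed h).symm)]
  · intro h; exact absurd (mem_univ i) h

theorem wc_off {w : Fin (k + 2) → ZMod 5} {e : E} (h : ∀ i, e ≠ ed i) :
    wc src v ed w e = 0 := by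
  unfold wc
  exact sum_eq_zero fun i _ => if_neg (h i)

theorem bd_wc (hv : Function.Injective v)
    (hJ : ∀ i, Jn src dst (ed i) (v i) (v (i + 1))) (w : Fin (k + 2) → ZMod 5) (x : V) :
    bd src dst (wc src v ed w) x = dem v (fun i => w i - w (i - 1)) x := by
  unfold bd
  have h1 : ∀ e, ((if src e = x then wc src v ed w e else 0) -
      (if dst e = x then wc src v ed w e else 0))
      = ∑ i, if e = ed i then ((if v i = x then w i else 0) -
        (if v (i + 1) = x then w i else 0)) else 0 := by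
    intro e
    unfold wc
    have h2 : (if src e = x then ∑ i, (if e = ed i then (if src (ed i) = v i then w i else - w i) else 0) else 0)
        = ∑ i, (if src e = x then (if e = ed i then (if src (ed i) = v i then w i else - w i) else 0) else 0) := by
      split_ifs
      · rfl
      · simp
    have h3 : (if dst e = x then ∑ i, (if e = ed i then (if src (ed i) = v i then w i else - w i) else 0) else 0)
        = ∑ i, (if dst e = x then (if e = ed i then (if src (ed i) = v i then w i else - w i) else 0) else 0) := by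
      split_ifs
      · rfl
      · simp
    rw [h2, h3, ← sum_sub_distrib]
    refine sum_congr rfl fun i _ => ?_
    by_cases he : e = ed i
    · subst he
      simp only [if_true]
      have hn := succ_ne hv i
      rcases hJ i with ⟨a, b⟩ | ⟨a, b⟩
      · rw [a, b, if_pos rfl]
      · rw [a, b, if_neg hn.symm]
        by_cases h4 : v i = x <;> by_cases h5 : v (i + 1) = x <;> simp [h4, h5]
    · simp [he]
  rw [sum_congr rfl (fun e _ => h1 e), sum_comm]
  have h4 : ∀ i, (∑ e, if e = ed i then ((if v i = x then w i else 0) -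
        (if v (i + 1) = x then w i else 0)) else 0) = (if v i = x then w i else 0) -
        (if v (i + 1) = x then w i else 0) := by
    intro i
    rw [sum_ite_eq']
    simp
  rw [sum_congr rfl (fun i _ => h4 i), sum_sub_distrib]
  have h5 : ∑ i, (if v (i + 1) = x then w i else 0) = ∑ i, (if v i = x then w (i - 1) else 0) := by
    rw [← Equiv.sum_comp (Equiv.addRight (1 : Fin (k + 2)))
      (fun i => if v i = x then w (i - 1) else 0)]
    refine sum_congr rfl fun i _ => ?_
    simp
  rw [h5, ← sum_sub_distrib]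
  unfold dem
  refine sum_congr rfl fun i _ => ?_
  by_cases h : v i = x <;> simp [h]

theorem dem_neg {n : ℕ} (v : Fin n → V) (s t : Fin n → ZMod 5) (h : ∀ i, s i + t i = 0) (x : V) :
    dem v s x + dem v t x = 0 := by
  unfold dem
  rw [← sum_add_distrib]
  refine sum_eq_zero fun i _ => ?_
  by_cases hx : v i = x
  · simp [hx, h i]
  · simp [hx]

/-- a function on the rest of the graph with the right boundary gives a flow -/
theorem noflow (hM : MinCx src dst) (hv : Function.Injective v) (hed : Function.Injective ed)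
    (hJ : ∀ i, Jn src dst (ed i) (v i) (v (i + 1))) (h : E → ZMod 5) (b : Fin (k + 2) → ZMod 5)
    (h0 : ∀ i, h (ed i) = 0) (h1 : ∀ e, (∀ i, e ≠ ed i) → h e ≠ 0) (hb : ∀ i, b i ≠ 0)
    (hbd : ∀ x, bd src dst h x = dem v (fun i => b (i - 1) - b i) x) : False := by
  refine hM.nf ⟨h + wc src v ed b, fun w => ?_, fun e he => absurd he (notMem_empty _),
    fun e _ _ => ?_⟩
  · rw [Three.bd_add, hbd, bd_wc hv hJ]
    exact dem_neg v _ _ (fun i => by ring) w
  · by_cases he : ∃ i, e = ed i
    · obtain ⟨i, rfl⟩ := he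
      rw [Pi.add_apply, h0 i, zero_add, wc_ed hed]
      split_ifs
      · exact hb i
      · exact neg_ne_zero.mpr (hb i)
    · push Not at he
      rw [Pi.add_apply, wc_off he, add_zero]
      exact h1 e he

theorem br7 {v : Fin (5 + 2) → V} {ed : Fin (5 + 2) → E} (h4 : St_cut4) (hM : MinCx src dst)
    (hv : Function.Injective v)
    (hJ : ∀ i, Jn src dst (ed i) (v i) (v (i + 1))) :
    Br src dst (({0, 2, 4} : Finset (Fin (5 + 2))).image ed)
      ((({0, 2, 4} : Finset (Fin (5 + 2)))ᶜ).image ed) := by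
  have ne : ∀ i j : Fin (5 + 2), i ≠ j → v i ≠ v j := fun i j h h' => h (hv h')
  intro Y hd h1
  have hC : ∀ i : Fin (5 + 2), i ∉ ({0, 2, 4} : Finset (Fin (5 + 2))) → (v i ∈ Y ↔ v (i + 1) ∈ Y) := by
    intro i hi
    by_contra hc
    exact disjoint_left.mp hd ((cross hJ Y i).mpr hc) (mem_image_of_mem _ (mem_compl.mpr hi))
  have c1 : v 1 ∈ Y ↔ v 2 ∈ Y := hC 1 (by decide)
  have c3 : v 3 ∈ Y ↔ v 4 ∈ Y := hC 3 (by decide)
  have c5' : v 5 ∈ Y ↔ v 6 ∈ Y := hC 5 (by decide)
  have c6 : v 6 ∈ Y ↔ v 0 ∈ Y := hC 6 (by decide)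
  have c5 : v 5 ∈ Y ↔ v 0 ∈ Y := c5'.trans c6
  have x0 : ed 0 ∈ crs src dst Y ↔ ¬ (v 0 ∈ Y ↔ v 1 ∈ Y) := cross hJ Y 0
  have x2 : ed 2 ∈ crs src dst Y ↔ ¬ (v 2 ∈ Y ↔ v 3 ∈ Y) := cross hJ Y 2
  have x4 : ed 4 ∈ crs src dst Y ↔ ¬ (v 4 ∈ Y ↔ v 5 ∈ Y) := cross hJ Y 4
  have hD : ∀ e, e ∈ image ed ({0, 2, 4} : Finset (Fin (5 + 2))) → e = ed 0 ∨ e = ed 2 ∨ e = ed 4 := by
    intro e he
    rw [mem_image] at he
    obtain ⟨i, hi, rfl⟩ := he
    rw [mem_insert, mem_insert, mem_singleton] at hi
    rcases hi with rfl | rfl | rfl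
    · exact Or.inl rfl
    · exact Or.inr (Or.inl rfl)
    · exact Or.inr (Or.inr rfl)
  -- a pair of vertices on each side
  have fin4 : (crs src dst Y).card ≤ 3 → ∀ i i' j j' : Fin (5 + 2), i ≠ i' → j ≠ j' →
      (v i ∈ Y ↔ v i' ∈ Y) → (v j ∈ Y ↔ v j' ∈ Y) → ¬ (v i ∈ Y ↔ v j ∈ Y) → False := by
    intro hle i i' j j' hi hj a b c
    by_cases h0 : v i ∈ Y
    · have h1' : v j ∉ Y := fun h => c ⟨fun _ => h, fun _ => h0⟩
      have := h4 V E src dst hM Y (v i) (v i') (v j) (v j') h0 (a.mp h0) (ne i i' hi) h1'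
        (fun h => h1' (b.mpr h)) (ne j j' hj) (nis hv hJ i) (nis hv hJ i') (nis hv hJ j)
        (nis hv hJ j')
      omega
    · have h1' : v j ∈ Y := by
        by_contra h
        exact c ⟨fun h' => absurd h' h0, fun h' => absurd h' h⟩
      have := h4 V E src dst hM Y (v j) (v j') (v i) (v i') h1' (b.mp h1') (ne j j' hj) h0
        (fun h => h0 (a.mpr h)) (ne i i' hi) (nis hv hJ j) (nis hv hJ j') (nis hv hJ i)
        (nis hv hJ i')
      omega
  by_cases hb : v 0 ∈ Y ↔ v 1 ∈ Y
  · by_cases hb2 : v 0 ∈ Y ↔ v 3 ∈ Y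
    · refine br_of hM h1 ?_
      intro e he heD
      rcases hD e heD with rfl | rfl | rfl
      · exact (x0.mp he) hb
      · exact (x2.mp he) (by rw [← c1, ← hb, hb2])
      · exact (x4.mp he) (by rw [← c3, c5, hb2])
    · refine fin4 (le3 (a := ed 2) (b := ed 4) h1 ?_) 0 5 3 4 (by decide) (by decide) c5.symm c3 hb2
      intro e he heD
      rcases hD e heD with rfl | rfl | rfl
      · exact absurd hb (x0.mp he)
      · exact Or.inl rfl
      · exact Or.inr rfl
  · by_cases hb2 : v 0 ∈ Y ↔ v 3 ∈ Y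
    · refine fin4 (le3 (a := ed 0) (b := ed 2) h1 ?_) 0 5 1 2 (by decide) (by decide) c5.symm c1 hb
      intro e he heD
      rcases hD e heD with rfl | rfl | rfl
      · exact Or.inl rfl
      · exact Or.inr rfl
      · exact absurd (by rw [← c3, c5, hb2]) (x4.mp he)
    · refine fin4 (le3 (a := ed 0) (b := ed 4) h1 ?_) 0 5 1 2 (by decide) (by decide) c5.symm c1 hb
      intro e he heD
      rcases hD e heD with rfl | rfl | rfl
      · exact Or.inl rfl
      · refine absurd ?_ (x2.mp he)
        rw [← c1]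
        constructor
        · intro h
          by_contra h'
          exact hb2 ⟨fun h0 => absurd ⟨fun _ => h, fun _ => h0⟩ hb, fun h3 => absurd h3 h'⟩
        · intro h
          by_contra h'
          exact hb ⟨fun h0 => absurd ⟨fun _ => h, fun _ => h0⟩ hb2, fun h3 => absurd h3 h'⟩
      · exact Or.inr rfl

theorem scale : ∀ a b c d : ZMod 5,
    (∀ x : ZMod 5, x = 0 ∨ x = -a ∨ x = -b ∨ x = -c ∨ x = -d) →
    ∃ u : ZMod 5, u * a = 1 ∧ u * b ≠ 0 ∧ u * c ≠ 0 ∧ u * d ≠ 0 ∧ u * b ≠ 1 ∧ u * c ≠ 1 ∧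
      u * d ≠ 1 ∧ u * b ≠ u * c ∧ u * b ≠ u * d ∧ u * c ≠ u * d := by
  decide +kernel

theorem seven {v : Fin (5 + 2) → V} {ed : Fin (5 + 2) → E} (h1 : St_lin) (h2 : St_cert7)
    (h4 : St_cut4) (hM : MinCx src dst)
    (hv : Function.Injective v) (hed : Function.Injective ed)
    (hJ : ∀ i, Jn src dst (ed i) (v i) (v (i + 1))) : False := by
  haveI : Fact (Nat.Prime 5) := ⟨by norm_num⟩
  obtain ⟨f, f1, f2, f3⟩ := hM.crit (({0, 2, 4} : Finset (Fin (5 + 2))).image ed)
    ((({0, 2, 4} : Finset (Fin (5 + 2)))ᶜ).image ed) (by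
    rw [disjoint_left]
    intro e h1 h2
    rw [mem_image] at h1 h2
    obtain ⟨i, hi, rfl⟩ := h1
    obtain ⟨j, hj, hij⟩ := h2
    rw [hed hij] at hj
    exact (mem_compl.mp hj) hi) (by
    refine ⟨ed 0, mem_union_left _ (mem_image_of_mem _ (by decide)), ?_⟩
    have := succ_ne hv 0
    rcases hJ 0 with ⟨a, b⟩ | ⟨a, b⟩
    · rw [a, b]; exact this
    · rw [a, b]; exact this.symm) (br7 h4 hM hv hJ)
  set a : Fin (5 + 2) → ZMod 5 := fun i => if src (ed i) = v i then f (ed i) else - f (ed i) with ha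
  have a0 : a 0 = 0 := by
    simp only [ha]; rw [f2 _ (mem_image_of_mem _ (by decide))]; simp
  have a2 : a 2 = 0 := by
    simp only [ha]; rw [f2 _ (mem_image_of_mem _ (by decide))]; simp
  have a4 : a 4 = 0 := by
    simp only [ha]; rw [f2 _ (mem_image_of_mem _ (by decide))]; simp
  set g : E → ZMod 5 := fun e => f e - wc src v ed a e with hg
  have g0 : ∀ i, g (ed i) = 0 := by
    intro i
    simp only [hg]
    rw [wc_ed hed]
    simp only [ha]
    split_ifs <;> simp
  have goff : ∀ e, (∀ i, e ≠ ed i) → g e ≠ 0 := by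
    intro e he
    simp only [hg]
    rw [wc_off he, sub_zero]
    refine f3 e ?_ ?_
    · intro h
      rw [mem_image] at h
      obtain ⟨i, _, hi⟩ := h
      exact he i hi.symm
    · intro h
      rw [mem_image] at h
      obtain ⟨i, _, hi⟩ := h
      exact he i hi.symm
  have gbd : ∀ x, bd src dst g x = dem v (fun i => a (i - 1) - a i) x := by
    intro x
    have e1 : (g + wc src v ed a) = f := by
      funext e
      simp only [hg, Pi.add_apply, sub_add_cancel]
    have e2 := Three.bd_add src dst g (wc src v ed a) x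
    rw [e1, f1 x, bd_wc hv hJ] at e2
    have e3 := dem_neg v (fun i => a (i - 1) - a i) (fun i => a i - a (i - 1))
      (fun i => by ring) x
    linear_combination -e2 - e3
  by_cases hx : ∃ x : ZMod 5, ∀ i, x ≠ - a i
  · obtain ⟨x, hx⟩ := hx
    refine noflow hM hv hed hJ g (fun i => a i + x) g0 goff ?_ ?_
    · intro i h
      exact hx i (by linear_combination h)
    · intro w
      rw [gbd w]
      congr 1
      funext i
      ring
  push Not at hx
  obtain ⟨u, u1, u2, u3, u4, u5, u6, u7, u8, u9, u10⟩ := scale (a 1) (a 3) (a 5) (a 6) (by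
    intro x
    obtain ⟨i, hi⟩ := hx x
    fin_cases i
    · left; rw [hi]; change - a 0 = 0; rw [a0, neg_zero]
    · right; left; exact hi
    · left; rw [hi]; change - a 2 = 0; rw [a2, neg_zero]
    · right; right; left; exact hi
    · left; rw [hi]; change - a 4 = 0; rw [a4, neg_zero]
    · right; right; right; left; exact hi
    · right; right; right; right; exact hi)
  have hu : u ≠ 0 := by
    rintro rfl
    rw [zero_mul] at u1
    exact zero_ne_one u1
  have hvec : ∀ i : Fin 7, u * a i = ![0, 1, 0, u * a 3, 0, u * a 5, u * a 6] i := by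
    intro i
    fin_cases i
    · change u * a 0 = 0; rw [a0, mul_zero]
    · exact u1
    · change u * a 2 = 0; rw [a2, mul_zero]
    · rfl
    · change u * a 4 = 0; rw [a4, mul_zero]
    · rfl
    · rfl
  have hpos : cnt src dst (univ.image ed) v (vec7 (u * a 3) (u * a 5) (u * a 6)) ≠ 0 := by
    classical
    unfold cnt
    rw [Finset.card_ne_zero]
    refine ⟨fun e => u * g e, ?_⟩
    rw [mem_filter]
    refine ⟨mem_univ _, ?_, ?_, ?_⟩
    · intro e he
      rw [mem_image] at he
      obtain ⟨i, _, rfl⟩ := he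
      change u * g (ed i) = 0
      rw [g0 i, mul_zero]
    · intro e he
      refine mul_ne_zero hu (goff e ?_)
      rintro i rfl
      exact he (mem_image_of_mem _ (mem_univ _))
    · intro x
      rw [Three.bd_smul, gbd x]
      unfold dem
      rw [mul_sum]
      refine sum_congr rfl fun i _ => ?_
      have e1 : vec7 (u * a 3) (u * a 5) (u * a 6) i = u * (a (i - 1) - a i) := by
        unfold vec7
        rw [← hvec (i - 1), ← hvec i]
        ring
      by_cases hx : v i = x
      · simp only [hx, if_true]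
        exact e1.symm
      · simp only [hx, if_false, mul_zero]
  obtain ⟨m, c, s, d, hd, hfit, hcert⟩ := h2 _ _ _ u2 u3 u4 u5 u6 u7 u8 u9 u10
  have hlin := h1 V E src dst (univ.image ed) 7 v hv (m + 1) (Fin.cons (-d) c)
    (Fin.cons (vec7 (u * a 3) (u * a 5) (u * a 6)) s) (by
      intro p
      rw [Fin.sum_univ_succ]
      simp only [Fin.cons_zero, Fin.cons_succ]
      rw [hcert p]
      split_ifs <;> ring)
  rw [Fin.sum_univ_succ] at hlin
  simp only [Fin.cons_zero, Fin.cons_succ] at hlin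
  have hex : ∃ j, cnt src dst (univ.image ed) v (s j) ≠ 0 := by
    by_contra hc
    push Not at hc
    have h0 : ∑ j, c j * (cnt src dst (univ.image ed) v (s j) : ℤ) = 0 :=
      sum_eq_zero fun j _ => by rw [hc j]; simp
    rw [h0, add_zero] at hlin
    rcases mul_eq_zero.mp hlin with h | h
    · exact hd (neg_eq_zero.mp h)
    · exact hpos (by exact_mod_cast h)
  obtain ⟨j, hj⟩ := hex
  obtain ⟨b, hb0, hb⟩ := hfit j
  classical
  unfold cnt at hj
  rw [Finset.card_ne_zero] at hj
  obtain ⟨h, hh⟩ := hj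
  rw [mem_filter] at hh
  obtain ⟨_, q1, q2, q3⟩ := hh
  refine noflow hM hv hed hJ h b (fun i => q1 _ (mem_image_of_mem _ (mem_univ _))) ?_ hb0 ?_
  · intro e he
    refine q2 e ?_
    intro hmem
    rw [mem_image] at hmem
    obtain ⟨i, _, hi⟩ := hmem
    exact he i hi.symm
  · intro x
    rw [q3 x]
    congr 1
    funext i
    exact (hb i).symm

end Pool.Agent.TH676.Z.Circ7x

namespace Pool.Agent.TH676.Z

theorem circ7 (h1 : St_lin) (h2 : St_cert7) (h4 : St_cut4) : St_circ7 := by
  intro V E _ _ _ _ src dst hM v ed hv hed hJ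
  exact Circ7x.seven (v := v) (ed := ed) h1 h2 h4 hM hv hed hJ

end Pool.Agent.TH676.Z
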