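import Pool.Agent.TH676.Z.Stm3

set_option autoImplicit false

/-! # Z5B-8: counting degrees; ten vertices (helper474) -/

namespace Pool.Agent.TH676.Z

open Finset

theorem degS : St_degS := by
  intro V E _ _ _ _ src dst S hT
  classical
  set Nb : V → Finset V := fun v => univ.filter (fun y => Adj src dst v y) with hNb
  have h3 : ∀ v ∈ VS src dst S, 3 ≤ (Nb v).card := by
    intro v hv
    obtain ⟨-, -, y, hy⟩ := mem_filter.1 hv
    obtain ⟨a, b, c, ha, hb, hc, hab, hac, hbc⟩ := hT v y hy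
    have h1 : ({a, b, c} : Finset V) ⊆ Nb v := by
      intro x hx
      simp only [mem_insert, mem_singleton] at hx
      rw [hNb, mem_filter]
      rcases hx with rfl | rfl | rfl
      · exact ⟨mem_univ _, ha⟩
      · exact ⟨mem_univ _, hb⟩
      · exact ⟨mem_univ _, hc⟩
    have h2 : ({a, b, c} : Finset V).card = 3 := card_eq_three.2 ⟨a, b, c, hab, hac, hbc, rfl⟩
    rw [← h2]
    exact card_le_card h1
  have hsum : 3 * (VS src dst S).card ≤ ∑ v ∈ VS src dst S, (Nb v).card := by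
    have := Finset.card_nsmul_le_sum (VS src dst S) (fun v => (Nb v).card) 3 h3
    rw [smul_eq_mul, mul_comm] at this
    exact this
  have hsplit : ∀ v, (Nb v).card =
      ((Nb v).filter (fun y => y ∉ S)).card + ((Nb v).filter (fun y => ¬ y ∉ S)).card :=
    fun v => (card_filter_add_card_filter_not (s := Nb v) (fun y => y ∉ S)).symm
  have hA : ∑ v ∈ VS src dst S, ((Nb v).filter (fun y => y ∉ S)).card ≤
      2 * (ES src dst S).card := by
    rw [← card_sigma]
    have hsub : ((VS src dst S).sigma fun v => (Nb v).filter (fun y => y ∉ S)) ⊆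
        ((ES src dst S) ×ˢ (univ : Finset Bool)).image (fun p : E × Bool =>
          (if p.2 then (⟨src p.1, dst p.1⟩ : Σ _ : V, V) else ⟨dst p.1, src p.1⟩)) := by
      rintro ⟨v, y⟩ h
      rw [mem_sigma] at h
      obtain ⟨h1, h2⟩ := h
      rw [mem_filter] at h2
      obtain ⟨h2, hys⟩ := h2
      rw [hNb, mem_filter] at h2
      obtain ⟨-, hvy, e, he⟩ := h2
      have hvs : v ∉ S := (mem_filter.1 h1).2.1
      rw [mem_image]
      rcases he with ⟨rfl, rfl⟩ | ⟨rfl, rfl⟩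
      · refine ⟨(e, true), ?_, ?_⟩
        · rw [mem_product]
          refine ⟨?_, mem_univ _⟩
          unfold ES
          rw [mem_filter]
          exact ⟨mem_univ _, hvy, hvs, hys⟩
        · simp
      · refine ⟨(e, false), ?_, ?_⟩
        · rw [mem_product]
          refine ⟨?_, mem_univ _⟩
          unfold ES
          rw [mem_filter]
          exact ⟨mem_univ _, hvy.symm, hys, hvs⟩
        · simp
    refine (card_le_card hsub).trans (card_image_le.trans ?_)
    rw [card_product, card_univ, Fintype.card_bool, mul_comm]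
  have hB : ∑ v ∈ VS src dst S, ((Nb v).filter (fun y => ¬ y ∉ S)).card ≤
      ∑ s ∈ S, (Ns src dst s).card := by
    rw [← card_sigma, ← card_sigma]
    refine card_le_card_of_injOn (fun p => (⟨p.2, p.1⟩ : Σ _ : V, V)) ?_ ?_
    · rintro ⟨v, y⟩ h
      rw [mem_coe, mem_sigma] at h
      obtain ⟨h1, h2⟩ := h
      rw [mem_filter, not_not] at h2
      obtain ⟨h2, hys⟩ := h2
      rw [hNb, mem_filter] at h2
      obtain ⟨-, hvy, e, he⟩ := h2
      simp only at hys hvy he
      rw [mem_coe, mem_sigma]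
      refine ⟨hys, ?_⟩
      unfold Ns
      rw [mem_filter]
      exact ⟨mem_univ _, hvy.symm, e, he.symm⟩
    · rintro ⟨v, y⟩ h ⟨v', y'⟩ h' heq
      simp only [Sigma.mk.injEq, heq_eq_eq] at heq
      obtain ⟨e1, e2⟩ := heq
      subst e1 e2
      rfl
  calc 3 * (VS src dst S).card ≤ ∑ v ∈ VS src dst S, (Nb v).card := hsum
    _ = ∑ v ∈ VS src dst S, ((Nb v).filter (fun y => y ∉ S)).card +
        ∑ v ∈ VS src dst S, ((Nb v).filter (fun y => ¬ y ∉ S)).card := by
        rw [← sum_add_distrib]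
        exact sum_congr rfl fun v _ => hsplit v
    _ ≤ 2 * (ES src dst S).card + ∑ s ∈ S, (Ns src dst s).card := add_le_add hA hB

namespace DegSx

variable {V : Type} {Ad : V → V → Prop}

theorem two_more (g : Gi Ad) (t : Three Ad) {x a : V} (h : Ad x a) :
    ∃ p q, Ad a p ∧ Ad a q ∧ p ≠ q ∧ p ≠ x ∧ q ≠ x := by
  obtain ⟨p, q, r, hp, hq, hr, hpq, hpr, hqr⟩ := t a x (g.symm h)
  by_cases h1 : p = x
  · subst h1
    exact ⟨q, r, hq, hr, hqr, hpq.symm, hpr.symm⟩
  · by_cases h2 : q = x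
    · subst h2
      exact ⟨p, r, hp, hr, hpr, h1, hqr.symm⟩
    · exact ⟨p, q, hp, hq, hpq, h1, h2⟩

theorem n0 (g : Gi Ad) {x a : V} (h : Ad x a) : x ≠ a := by
  rintro rfl
  exact g.c2 x h

theorem n1 (g : Gi Ad) {x a b p : V} (ha : Ad x a) (hb : Ad x b) (hp : Ad b p) : a ≠ p := by
  rintro rfl
  exact g.c3 x b a hb hp (g.symm ha)

theorem n2 (g : Gi Ad) {x a b p q : V} (hab : a ≠ b) (ha : Ad x a) (hb : Ad x b) (hp : Ad a p)
    (hq : Ad b q) (hpx : p ≠ x) : p ≠ q := by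
  rintro rfl
  exact g.c4 x a p b ha hp (g.symm hq) (g.symm hb) hpx.symm hab

end DegSx

open DegSx in
theorem ten : St_ten := by
  intro V _ _ Ad g t x y hxy
  obtain ⟨a, b, c, ha, hb, hc, hab, hac, hbc⟩ := t x y hxy
  obtain ⟨a1, a2, ha1, ha2, haa, hax1, hax2⟩ := two_more g t ha
  obtain ⟨b1, b2, hb1, hb2, hbb, hbx1, hbx2⟩ := two_more g t hb
  obtain ⟨c1, c2, hc1, hc2, hcc, hcx1, hcx2⟩ := two_more g t hc
  refine ⟨[x, a, b, c, a1, a2, b1, b2, c1, c2], ?_, rfl, ?_⟩
  · have e1 := n0 g ha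
    have e2 := n0 g hb
    have e3 := n0 g hc
    have f1 := n1 g ha ha ha1
    have f2 := n1 g ha ha ha2
    have f3 := n1 g ha hb hb1
    have f4 := n1 g ha hb hb2
    have f5 := n1 g ha hc hc1
    have f6 := n1 g ha hc hc2
    have f7 := n1 g hb ha ha1
    have f8 := n1 g hb ha ha2
    have f9 := n1 g hb hb hb1
    have f10 := n1 g hb hb hb2
    have f11 := n1 g hb hc hc1
    have f12 := n1 g hb hc hc2
    have f13 := n1 g hc ha ha1
    have f14 := n1 g hc ha ha2
    have f15 := n1 g hc hb hb1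
    have f16 := n1 g hc hb hb2
    have f17 := n1 g hc hc hc1
    have f18 := n1 g hc hc hc2
    have g1 := n2 g hab ha hb ha1 hb1 hax1
    have g2 := n2 g hab ha hb ha1 hb2 hax1
    have g3 := n2 g hab ha hb ha2 hb1 hax2
    have g4 := n2 g hab ha hb ha2 hb2 hax2
    have g5 := n2 g hac ha hc ha1 hc1 hax1
    have g6 := n2 g hac ha hc ha1 hc2 hax1
    have g7 := n2 g hac ha hc ha2 hc1 hax2
    have g8 := n2 g hac ha hc ha2 hc2 hax2
    have g9 := n2 g hbc hb hc hb1 hc1 hbx1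
    have g10 := n2 g hbc hb hc hb1 hc2 hbx1
    have g11 := n2 g hbc hb hc hb2 hc1 hbx2
    have g12 := n2 g hbc hb hc hb2 hc2 hbx2
    simp only [List.nodup_cons, List.mem_cons, List.not_mem_nil, or_false, not_or,
      not_false_eq_true, List.nodup_nil, and_true]
    exact ⟨⟨e1, e2, e3, hax1.symm, hax2.symm, hbx1.symm, hbx2.symm, hcx1.symm, hcx2.symm⟩,
      ⟨hab, hac, f1, f2, f3, f4, f5, f6⟩, ⟨hbc, f7, f8, f9, f10, f11, f12⟩,
      ⟨f13, f14, f15, f16, f17, f18⟩, ⟨haa, g1, g2, g5, g6⟩, ⟨g3, g4, g7, g8⟩,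
      ⟨hbb, g9, g10⟩, ⟨g11, g12⟩, hcc⟩
  · intro z hz
    simp only [List.mem_cons, List.not_mem_nil, or_false] at hz
    rcases hz with rfl | rfl | rfl | rfl | rfl | rfl | rfl | rfl | rfl | rfl
    · exact ⟨y, hxy⟩
    · exact ⟨_, ha1⟩
    · exact ⟨_, hb1⟩
    · exact ⟨_, hc1⟩
    · exact ⟨_, g.symm ha1⟩
    · exact ⟨_, g.symm ha2⟩
    · exact ⟨_, g.symm hb1⟩
    · exact ⟨_, g.symm hb2⟩
    · exact ⟨_, g.symm hc1⟩
    · exact ⟨_, g.symm hc2⟩

end Pool.Agent.TH676.Z
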