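import Pool.Agent.TH676.Z.Stm3
import Pool.Agent.TH676.Z.Even7

set_option autoImplicit false
set_option linter.unusedSectionVars false

/-! # Z5B-5: nonzero elements of the cycle space have at least eight edges -/

namespace Pool.Agent.TH676.Z.Even8x

open Finset Pool.Agent.TH676.Z

variable {V E : Type} [Fintype V] [DecidableEq V] [Fintype E] [DecidableEq E]

lemma dist {Ad : V → V → Prop} (hg : Gi Ad) (h7 : C7 Ad) (v : ℕ → V)
    (h1 : ∀ n, Ad (v n) (v (n + 1)))
    (h2 : ∀ n, v n ≠ v (n + 2)) (n k : ℕ) (hk : 1 ≤ k) (hk' : k ≤ 7) : v n ≠ v (n + k) := by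
  rcases Nat.lt_or_ge k 7 with h | h
  · exact Even7x.dist hg v h1 h2 n k hk (by omega)
  · have h3 : k = 7 := by omega
    subst h3
    intro h4
    have h5 := h1 (n + 6)
    rw [show n + 6 + 1 = n + 7 from rfl, ← h4] at h5
    exact h7 _ _ _ _ _ _ _ (h1 n) (h1 (n + 1)) (h1 (n + 2)) (h1 (n + 3)) (h1 (n + 4))
      (h1 (n + 5)) h5

lemma main (src dst : E → V) (F : Finset E) (hg : Gi (Adj src dst)) (h7 : C7 (Adj src dst))
    (hp : NoPar src dst)
    (hl : ∀ e ∈ F, src e ≠ dst e) (x : E → ZMod 2) (hx : x ∈ ZF src dst F) (h0 : x ≠ 0) :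
    8 ≤ (univ.filter (fun e => x e ≠ 0)).card := by
  classical
  obtain ⟨hF, hb⟩ := hx
  have hl' : ∀ e, x e ≠ 0 → src e ≠ dst e := by
    intro e he
    refine hl e ?_
    by_contra hc
    exact he (hF e hc)
  obtain ⟨e0, he0⟩ := Function.ne_iff.1 h0
  obtain ⟨v, hv, hv2⟩ := Even7x.walk hp hl' hb (a := src e0) (b := dst e0)
    ⟨e0, he0, Or.inl ⟨rfl, rfl⟩⟩
  choose e he hj using hv
  have hA : ∀ n, Adj src dst (v n) (v (n + 1)) := by
    intro n
    refine ⟨?_, e n, hj n⟩
    have h1 := hl' _ (he n)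
    rcases hj n with ⟨h2, h3⟩ | ⟨h2, h3⟩
    · rw [← h2, ← h3]; exact h1
    · rw [← h2, ← h3]; exact h1.symm
  have hd := dist hg h7 v hA hv2
  have hne : ∀ n k, 1 ≤ k → k ≤ 7 → e n ≠ e (n + k) := by
    intro n k hk hk' h
    have h1 := hj (n + k)
    rw [← h] at h1
    rcases Nat.lt_or_ge k 2 with h2 | h2
    · have h3 : k = 1 := by omega
      subst h3
      rcases Even7x.jn_mem (hj n) (Even7x.jn_symm h1) with h4 | h4
      · exact hd n 2 (by norm_num) (by norm_num) h4.symm
      · exact hd (n + 1) 1 le_rfl (by norm_num) h4.symm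
    · rcases Even7x.jn_mem (hj n) h1 with h4 | h4
      · exact hd n k hk hk' h4.symm
      · have h5 := hd (n + 1) (k - 1) (by omega) (by omega)
        rw [show n + 1 + (k - 1) = n + k by omega] at h5
        exact h5 h4.symm
  have hinj : Set.InjOn e (Finset.range 8 : Finset ℕ) := by
    intro i hi j hj' hij
    simp only [Finset.coe_range, Set.mem_Iio] at hi hj'
    by_contra hc
    rcases Nat.lt_or_gt_of_ne hc with h | h
    · have h1 := hne i (j - i) (by omega) (by omega)
      rw [show i + (j - i) = j by omega] at h1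
      exact h1 hij
    · have h1 := hne j (i - j) (by omega) (by omega)
      rw [show j + (i - j) = i by omega] at h1
      exact h1 hij.symm
  calc 8 = (Finset.range 8).card := by simp
    _ ≤ _ := Finset.card_le_card_of_injOn e (fun n _ => by simp [he n]) hinj

end Pool.Agent.TH676.Z.Even8x

namespace Pool.Agent.TH676.Z

theorem even8 : St_even8 := fun _ _ _ _ _ _ src dst F hg h7 hp hl x hx h0 =>
  Even8x.main src dst F hg h7 hp hl x hx h0

end Pool.Agent.TH676.Z
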