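import Pool.Agent.TH676.Z.Stm3
import Pool.Agent.TH676.Z.Three

set_option autoImplicit false
set_option linter.unusedSectionVars false

/-! # Linear relations between the numbers `cnt` (B1) -/

namespace Pool.Agent.TH676.Z

open Finset

namespace Linx

variable {V E : Type} [Fintype V] [DecidableEq V] [Fintype E] [DecidableEq E]

open Classical in
/-- the functions with boundary `dem v s`, zero outside `S` and nonzero on `R` -/
noncomputable def TT (src dst : E → V) {n : ℕ} (v : Fin n → V) (R S : Finset E)
    (s : Fin n → ZMod 5) : Finset (E → ZMod 5) :=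
  univ.filter (fun g => (∀ e, e ∉ S → g e = 0) ∧ (∀ e ∈ R, g e ≠ 0) ∧
    ∀ x, bd src dst g x = dem v s x)

theorem mem_TT {src dst : E → V} {n : ℕ} {v : Fin n → V} {R S : Finset E}
    {s : Fin n → ZMod 5} {g : E → ZMod 5} :
    g ∈ TT src dst v R S s ↔ (∀ e, e ∉ S → g e = 0) ∧ (∀ e ∈ R, g e ≠ 0) ∧
      ∀ x, bd src dst g x = dem v s x := by
  classical
  unfold TT
  rw [mem_filter]
  exact ⟨fun h => h.2, fun h => ⟨mem_univ g, h⟩⟩

theorem split (src dst : E → V) {n : ℕ} (v : Fin n → V) (R S : Finset E)
    (s : Fin n → ZMod 5) (e0 : E) :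
    (TT src dst v R S s).card = (TT src dst v (insert e0 R) S s).card +
      (TT src dst v R (S.erase e0) s).card := by
  classical
  rw [← card_union_of_disjoint]
  · congr 1
    ext g
    rw [mem_union, mem_TT, mem_TT, mem_TT]
    constructor
    · rintro ⟨h1, h2, h3⟩
      by_cases h6 : g e0 = 0
      · right
        refine ⟨fun e he => ?_, h2, h3⟩
        by_cases h7 : e = e0
        · rw [h7]
          exact h6
        · exact h1 e (fun h8 => he (mem_erase.2 ⟨h7, h8⟩))
      · left
        refine ⟨h1, fun e he => ?_, h3⟩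
        rcases mem_insert.1 he with rfl | h7
        · exact h6
        · exact h2 e h7
    · rintro (⟨h1, h2, h3⟩ | ⟨h1, h2, h3⟩)
      · exact ⟨h1, fun e he => h2 e (mem_insert_of_mem he), h3⟩
      · exact ⟨fun e he => h1 e (fun h => he (mem_erase.1 h).2), h2, h3⟩
  · rw [Finset.disjoint_left]
    intro g h1 h2
    rw [mem_TT] at h1 h2
    exact h1.2.1 e0 (mem_insert_self e0 R) (h2.1 e0 (fun h => (mem_erase.1 h).1 rfl))

/-- two sets of solutions, both nonempty -/
theorem le_of {src dst : E → V} {n : ℕ} {v : Fin n → V} {S : Finset E}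
    {s s' : Fin n → ZMod 5} {g0 g1 : E → ZMod 5} (h0 : g0 ∈ TT src dst v ∅ S s)
    (h1 : g1 ∈ TT src dst v ∅ S s') :
    (TT src dst v ∅ S s).card ≤ (TT src dst v ∅ S s').card := by
  rw [mem_TT] at h0 h1
  apply card_le_card_of_injOn (fun g => g + (fun e => g1 e + -1 * g0 e))
  · intro g hg
    rw [mem_coe, mem_TT] at hg
    rw [mem_coe, mem_TT]
    refine ⟨fun e he => ?_, fun e he => absurd he (notMem_empty e), fun x => ?_⟩
    · show g e + (g1 e + -1 * g0 e) = 0
      rw [hg.1 e he, h1.1 e he, h0.1 e he]
      ring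
    · have e1 : (fun e => g1 e + -1 * g0 e) = g1 + (fun e => -1 * g0 e) := rfl
      show bd src dst (g + (fun e => g1 e + -1 * g0 e)) x = dem v s' x
      rw [e1, Three.bd_add, Three.bd_add, Three.bd_smul, hg.2.2 x, h1.2.2 x, h0.2.2 x]
      ring
  · intro g _ g' _ hgg
    exact add_right_cancel hgg

theorem dem_zero {n : ℕ} (v : Fin n → V) (x : V) : dem v 0 x = 0 := by
  unfold dem
  exact sum_eq_zero fun i _ => by simp

/-- the sum of the boundary over a set -/
theorem sum_dem {n : ℕ} (v : Fin n → V) (s : Fin n → ZMod 5) (rep : V → V) (y : V) :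
    ∑ x ∈ univ.filter (fun x => rep x = y), dem v s x =
      ∑ i, if rep (v i) = y then s i else 0 := by
  unfold dem
  rw [sum_comm]
  refine sum_congr rfl fun i _ => ?_
  rw [sum_ite_eq]
  simp only [mem_filter, mem_univ, true_and]

/-- the number of solutions supported on `S` -/
theorem base (src dst : E → V) {n : ℕ} (v : Fin n → V) (S : Finset E) :
    ∃ p : Fin n → Fin n, ∀ s : Fin n → ZMod 5,
      (TT src dst v ∅ S s).card = if zs p s then (TT src dst v ∅ S 0).card else 0 := by
  classical
  let r : V → V → Prop := fun x y => ∃ e ∈ S, src e = x ∧ dst e = y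
  let st : Setoid V := Relation.EqvGen.setoid r
  let rep : V → V := fun v => (Quotient.mk st v).out
  have hrep : ∀ v, Relation.EqvGen r v (rep v) := fun v =>
    Relation.EqvGen.symm _ _ (Quotient.mk_out (s := st) v)
  have heq : ∀ e ∈ S, rep (src e) = rep (dst e) := by
    intro e he
    have h1 : Quotient.mk st (src e) = Quotient.mk st (dst e) :=
      Quotient.sound (Relation.EqvGen.rel _ _ ⟨e, he, rfl, rfl⟩)
    show (Quotient.mk st (src e)).out = (Quotient.mk st (dst e)).out
    rw [h1]
  have hex : ∀ i, ∃ k, rep (v k) = rep (v i) := fun i => ⟨i, rfl⟩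
  let p : Fin n → Fin n := fun i => Classical.choose (hex i)
  have hp1 : ∀ i, rep (v (p i)) = rep (v i) := fun i => Classical.choose_spec (hex i)
  have hch : ∀ (a b : V) (ha : ∃ k, rep (v k) = a) (hb : ∃ k, rep (v k) = b), a = b →
      Classical.choose ha = Classical.choose hb := by
    rintro a b ha hb rfl
    rfl
  have hp2 : ∀ i j, p i = p j ↔ rep (v i) = rep (v j) := by
    intro i j
    constructor
    · intro h
      rw [← hp1 i, ← hp1 j, h]
    · intro h
      exact hch _ _ (hex i) (hex j) h
  have hzs : ∀ s : Fin n → ZMod 5,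
      zs p s ↔ ∀ y, ∑ i, (if rep (v i) = y then s i else 0) = 0 := by
    intro s
    constructor
    · intro h y
      by_cases hy : ∃ k, rep (v k) = y
      · obtain ⟨k, rfl⟩ := hy
        have h1 := h (p k)
        simp only [hp2] at h1
        exact h1
      · refine sum_eq_zero fun i _ => if_neg fun h1 => hy ⟨i, h1⟩
    · intro h a
      by_cases ha : ∃ k, p k = a
      · obtain ⟨k, rfl⟩ := ha
        have h1 := h (rep (v k))
        simp only [hp2]
        exact h1
      · refine sum_eq_zero fun i _ => if_neg fun h1 => ha ⟨i, h1⟩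
  refine ⟨p, fun s => ?_⟩
  have h0 : (0 : E → ZMod 5) ∈ TT src dst v ∅ S 0 := by
    rw [mem_TT]
    refine ⟨fun _ _ => rfl, fun e he => absurd he (notMem_empty e), fun x => ?_⟩
    rw [dem_zero]
    unfold bd
    simp
  split_ifs with hz
  · rw [hzs] at hz
    obtain ⟨q, hq1, hq2⟩ := Three.img src dst S (dem v s) rep hrep (fun x => by
      rw [sum_dem]
      exact hz x)
    have hq : q ∈ TT src dst v ∅ S s := by
      rw [mem_TT]
      exact ⟨hq1, fun e he => absurd he (notMem_empty e), hq2⟩
    exact le_antisymm (le_of hq h0) (le_of h0 hq)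
  · rw [card_eq_zero, eq_empty_iff_forall_notMem]
    intro g hg
    rw [mem_TT] at hg
    apply hz
    rw [hzs]
    intro y
    rw [← sum_dem]
    have h1 := Three.sum_bd src dst g (univ.filter (fun x => rep x = y))
    rw [sum_congr rfl (fun x _ => hg.2.2 x)] at h1
    rw [h1]
    refine sum_eq_zero fun e _ => ?_
    by_cases he : e ∈ S
    · simp only [mem_filter, mem_univ, true_and, heq e he, sub_self, mul_zero]
    · rw [hg.1 e he, zero_mul]

end Linx

open Linx in
/-- **B1** -/
theorem lin : St_lin := by
  intro V E _ _ _ _ src dst C n v _ m c s hc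
  classical
  have key : ∀ R S : Finset E, ∑ j, c j * ((TT src dst v R S (s j)).card : ℤ) = 0 := by
    intro R
    induction R using Finset.induction_on with
    | empty =>
      intro S
      obtain ⟨p, hp⟩ := base src dst v S
      have h1 := hc p
      have h2 : ∀ j, c j * ((TT src dst v ∅ S (s j)).card : ℤ) =
          (if zs p (s j) then c j else 0) * ((TT src dst v ∅ S 0).card : ℤ) := by
        intro j
        rw [hp (s j)]
        split_ifs <;> simp
      rw [sum_congr rfl (fun j _ => h2 j), ← sum_mul, h1, zero_mul]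
    | insert e0 R _ ih =>
      intro S
      have h1 := ih S
      have h2 := ih (S.erase e0)
      have h3 : ∀ j, c j * ((TT src dst v (insert e0 R) S (s j)).card : ℤ) =
          c j * ((TT src dst v R S (s j)).card : ℤ) -
            c j * ((TT src dst v R (S.erase e0) (s j)).card : ℤ) := by
        intro j
        rw [split src dst v R S (s j) e0]
        push_cast
        ring
      rw [sum_congr rfl (fun j _ => h3 j), sum_sub_distrib, h1, h2, sub_zero]
  have h1 : ∀ j, cnt src dst C v (s j) = (TT src dst v (univ \ C) (univ \ C) (s j)).card := by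
    intro j
    unfold cnt
    congr 1
    ext g
    rw [mem_TT]
    simp only [mem_filter, mem_univ, true_and, mem_sdiff, not_not]
  simp only [h1]
  exact key _ _

end Pool.Agent.TH676.Z
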