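import Pool.Agent.TH676.Z.Apex
import Pool.Agent.TH676.Z.Cert7
import Pool.Agent.TH676.Z.Lin
import Pool.Agent.TH676.Z.Circ7
import Pool.Agent.TH676.Z.C7
import Pool.Agent.TH676.Z.Even8
import Pool.Agent.TH676.Z.FacesG
import Pool.Agent.TH676.Z.ApsMC
import Pool.Agent.TH676.Z.DegS
import Pool.Agent.TH676.Z.Ball

set_option autoImplicit false
set_option linter.unusedSectionVars false

/-! # Nowhere-zero 5-flows with two apex vertices -/

namespace Pool.Agent.TH676.Z

open Finset

theorem circ7_all : St_circ7 := circ7 lin cert7 (cut4 cut3 three)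

theorem c7_all : St_c7 := c7 gi_all circ7_all

/-- the numerical contradiction -/
theorem num2 {m n t r z : ℕ} (h1 : m + 1 ≤ z + n) (h2 : 3 * n ≤ 2 * m + t) (h3 : 7 * t ≤ 2 * (n + 1))
    (h4 : 1 ≤ r → 8 * (r + 1) ≤ 2 * m) (h5 : z ≤ r + 2) (h6 : 8 ≤ n) : False := by
  rcases Nat.eq_zero_or_pos r with h | h
  · omega
  · have := h4 h
    omega

theorem apex2 (h6 : St_dim) : St_apex2 := by
  intro V E _ _ _ _ src dst S0 hS0 hA hb
  by_contra hn
  obtain ⟨S, D, hAp, hM⟩ := crit V E (ApS 2) (apsMC V E 2) src dst ⟨S0, hS0, hA⟩ hb hn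
  obtain ⟨hG, hT⟩ := gi_all V E S D hM
  have hP := noPar V E S D hM
  have h7 := c7_all V E S D hM
  by_cases hno : ∀ e, S e = D e
  · exact hM.nf (flow_of_loops hno)
  · push Not at hno
    obtain ⟨e0, he0⟩ := hno
    have ha0 : Adj S D (S e0) (D e0) := ⟨he0, e0, Or.inl ⟨rfl, rfl⟩⟩
    obtain ⟨T, hTc, k, K, k1, k2, k3⟩ := hAp
    have mem : ∀ x z, x ∉ T → Adj S D x z → x ∈ VS S D T := by
      intro x z hx hxz
      simp only [VS, mem_filter, mem_univ, true_and]
      exact ⟨hx, z, hxz⟩
    have hn8 : 8 ≤ (VS S D T).card := by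
      obtain ⟨l, hl1, hl2, hl3⟩ := ten V (Adj S D) hG hT _ _ ha0
      have h1 : l.toFinset ⊆ VS S D T ∪ T := by
        intro x hx
        obtain ⟨b, hb'⟩ := hl3 x (List.mem_toFinset.mp hx)
        by_cases hxT : x ∈ T
        · exact mem_union_right _ hxT
        · exact mem_union_left _ (mem _ b hxT hb')
      have h2 := card_le_card h1
      have h3 := card_union_le (VS S D T) T
      have h4 : l.toFinset.card = 10 := by rw [List.toFinset_card_of_nodup hl1, hl2]
      omega
    have e1 := h6 V E S D (ES S D T) (VS S D T) (card_pos.mp (by omega)) (by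
      intro e he
      unfold ES at he
      rw [mem_filter] at he
      obtain ⟨_, h1, h2, h3'⟩ := he
      exact ⟨mem _ (D e) h2 ⟨h1, e, Or.inl ⟨rfl, rfl⟩⟩,
        mem _ (S e) h3' ⟨Ne.symm h1, e, Or.inr ⟨rfl, rfl⟩⟩⟩)
    have e2 := degS V E S D T hT
    have e3 : 7 * ∑ s ∈ T, (Ns S D s).card ≤ 2 * ((VS S D T).card + 1) := by
      have hs : ∀ s ∈ T, 7 * (Ns S D s).card ≤ (VS S D T).card + 1 := by
        intro s hs
        have h1 := ball V E S D s hG hT
        have h2 : Vs S D s ⊆ VS S D T ∪ T.erase s := by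
          intro x hx
          simp only [Vs, mem_filter, mem_univ, true_and] at hx
          obtain ⟨hxs, y, hy⟩ := hx
          by_cases hxT : x ∈ T
          · exact mem_union_right _ (mem_erase.mpr ⟨hxs, hxT⟩)
          · exact mem_union_left _ (mem _ y hxT hy)
        have h3 := card_le_card h2
        have h4 := card_union_le (VS S D T) (T.erase s)
        have h5 : (T.erase s).card = T.card - 1 := card_erase_of_mem hs
        omega
      rw [mul_sum]
      calc ∑ s ∈ T, 7 * (Ns S D s).card ≤ ∑ _s ∈ T, ((VS S D T).card + 1) := sum_le_sum hs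
        _ = T.card * ((VS S D T).card + 1) := by rw [sum_const, smul_eq_mul]
        _ ≤ 2 * ((VS S D T).card + 1) := Nat.mul_le_mul_right _ hTc
    have e4 := facesG V E S D (ES S D T) k 8 K k1 k2 (even8 V E S D (ES S D T) hG h7 hP (by
      intro e he
      unfold ES at he
      rw [mem_filter] at he
      exact he.2.1))
    exact num2 e1 e2 e3 e4 k3 hn8

end Pool.Agent.TH676.Z
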