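import Pool.Agent.TH676.Z.Stm

set_option autoImplicit false
set_option linter.unusedSectionVars false

/-! # Counting the outer neighbours of the branches at a vertex -/

namespace Pool.Agent.TH676.Z

open Finset

variable {V : Type} [DecidableEq V]

/-- at distance two from `r`, via `w` -/
def P2 (Ad : V → V → Prop) (r w x : V) : Prop := Ad w x ∧ x ≠ r
/-- at distance three from `r`, via `w` -/
def P3 (Ad : V → V → Prop) (r w x : V) : Prop := ∃ y, Ad w y ∧ y ≠ r ∧ Ad y x ∧ x ≠ w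
/-- at distance four from `r`, via `w` -/
def P4 (Ad : V → V → Prop) (r w x : V) : Prop :=
  ∃ y z, Ad w y ∧ y ≠ r ∧ Ad y z ∧ z ≠ w ∧ Ad z x ∧ x ≠ y
/-- at distance five from `r`, via `w` -/
def P5 (Ad : V → V → Prop) (r w x : V) : Prop :=
  ∃ y z u, Ad w y ∧ y ≠ r ∧ Ad y z ∧ z ≠ w ∧ Ad z u ∧ u ≠ y ∧ Ad u x ∧ x ≠ z

section dist

variable {Ad : V → V → Prop} (g : Gi Ad) {r w w' x : V} (hw : Ad r w) (hw' : Ad r w') (hne : w ≠ w')

include g hw hw' in
theorem d12 : ¬ P2 Ad r w w' := fun h => g.c3 r w w' hw h.1 (g.symm hw')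

include g hw hw' hne in
theorem d13 : ¬ P3 Ad r w w' := by
  rintro ⟨y, h1, h2, h3, _⟩
  exact g.c4 r w y w' hw h1 h3 (g.symm hw') h2.symm hne

include g hw hw' in
theorem d14 : ¬ P4 Ad r w w' := by
  rintro ⟨y, z, h1, h2, h3, h4, h5, _⟩
  exact g.c5 r w y z w' hw h1 h3 h5 (g.symm hw')

include g hw hw' hne in
theorem d15 : ¬ P5 Ad r w w' := by
  rintro ⟨y, z, u, h1, h2, h3, h4, h5, h6, h7, h8⟩
  refine g.c6 r w y z u w' hw h1 h3 h5 h7 (g.symm hw') h2.symm h4.symm h6.symm h8.symm ?_ hne.symm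
  rintro rfl
  exact g.c4 _ w y z hw h1 h3 h5 h2.symm h4.symm

include g hw hw' hne in
theorem d22 (h : P2 Ad r w x) (h' : P2 Ad r w' x) : False :=
  g.c4 r w x w' hw h.1 (g.symm h'.1) (g.symm hw') h.2.symm hne

include g hw hw' in
theorem d23 (h : P3 Ad r w x) (h' : P2 Ad r w' x) : False := by
  obtain ⟨y, h1, h2, h3, _⟩ := h
  exact g.c5 r w y x w' hw h1 h3 (g.symm h'.1) (g.symm hw')

include g hw hw' hne in
theorem d24 (h : P4 Ad r w x) (h' : P2 Ad r w' x) : False := by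
  obtain ⟨y, z, h1, h2, h3, h4, h5, h6⟩ := h
  refine g.c6 r w y z x w' hw h1 h3 h5 (g.symm h'.1) (g.symm hw') h2.symm h4.symm h6.symm ?_ h'.2
    hne.symm
  rintro rfl
  exact g.c4 r w y _ hw h1 h3 (g.symm hw') h2.symm hne

include g hw hw' hne in
theorem d33 (h : P3 Ad r w x) (h' : P3 Ad r w' x) : False := by
  obtain ⟨y, h1, h2, h3, h4⟩ := h
  obtain ⟨y', k1, k2, k3, k4⟩ := h'
  by_cases hy : y = y'
  · subst hy
    exact g.c4 r w y w' hw h1 (g.symm k1) (g.symm hw') h2.symm hne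
  · exact g.c6 r w y x y' w' hw h1 h3 (g.symm k3) (g.symm k1) (g.symm hw') h2.symm h4.symm hy k4
      k2 hne.symm

include g in
theorem s41 : ¬ P4 Ad r w w := by
  rintro ⟨y, z, h1, h2, h3, h4, h5, h6⟩
  exact g.c3 w y z h1 h3 h5

include g in
theorem s42 (h : P4 Ad r w x) (h' : Ad w x) : False := by
  obtain ⟨y, z, h1, h2, h3, h4, h5, h6⟩ := h
  exact g.c4 w y z x h1 h3 h5 (g.symm h') h4.symm h6.symm

include g in
theorem s43 (h : P4 Ad r w x) (h' : P3 Ad r w x) : False := by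
  obtain ⟨y, z, h1, h2, h3, h4, h5, h6⟩ := h
  obtain ⟨y', k1, k2, k3, k4⟩ := h'
  exact g.c5 w y z x y' h1 h3 h5 (g.symm k3) (g.symm k1)

include g in
theorem s51 : ¬ P5 Ad r w w := by
  rintro ⟨y, z, u, h1, h2, h3, h4, h5, h6, h7, h8⟩
  exact g.c4 w y z u h1 h3 h5 h7 h4.symm h6.symm

include g in
theorem s52 (h : P5 Ad r w x) (h' : Ad w x) : False := by
  obtain ⟨y, z, u, h1, h2, h3, h4, h5, h6, h7, h8⟩ := h
  exact g.c5 w y z u x h1 h3 h5 h7 (g.symm h')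

include g in
theorem s53 (h : P5 Ad r w x) (h' : P3 Ad r w x) : False := by
  obtain ⟨y, z, u, h1, h2, h3, h4, h5, h6, h7, h8⟩ := h
  obtain ⟨y', k1, k2, k3, k4⟩ := h'
  by_cases hy : y = y'
  · subst hy
    exact g.c4 y z u x h3 h5 h7 (g.symm k3) h6.symm h8.symm
  · refine g.c6 w y z u x y' h1 h3 h5 h7 (g.symm k3) (g.symm k1) h4.symm h6.symm h8.symm ?_ k4
      (Ne.symm hy)
    rintro rfl
    exact g.c4 w y z _ h1 h3 h5 (g.symm k1) h4.symm h6.symm

end dist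

open Classical in
/-- the vertices of `R` at distance at most three from `r` via `w` -/
noncomputable def NN (Ad : V → V → Prop) (R : Finset V) (r w : V) : Finset V :=
  R.filter (fun x => x = w ∨ P2 Ad r w x ∨ P3 Ad r w x)

open Classical in
/-- the vertices of `R` at distance at most two from `r` via `w` -/
noncomputable def N2 (Ad : V → V → Prop) (R : Finset V) (r w : V) : Finset V :=
  R.filter (fun x => x = w ∨ P2 Ad r w x)

open Classical in
/-- the vertices of `R` at distance four from `r` via `w` -/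
noncomputable def N4 (Ad : V → V → Prop) (R : Finset V) (r w : V) : Finset V :=
  R.filter (fun x => P4 Ad r w x)

theorem mem_NN {Ad : V → V → Prop} {R : Finset V} {r w x : V} :
    x ∈ NN Ad R r w ↔ x ∈ R ∧ (x = w ∨ P2 Ad r w x ∨ P3 Ad r w x) := by simp [NN]

theorem mem_N2 {Ad : V → V → Prop} {R : Finset V} {r w x : V} :
    x ∈ N2 Ad R r w ↔ x ∈ R ∧ (x = w ∨ P2 Ad r w x) := by simp [N2]

theorem mem_N4 {Ad : V → V → Prop} {R : Finset V} {r w x : V} :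
    x ∈ N4 Ad R r w ↔ x ∈ R ∧ P4 Ad r w x := by simp [N4]

theorem NN_sub {Ad : V → V → Prop} {R : Finset V} {r w : V} : NN Ad R r w ⊆ R :=
  fun _ hx => (mem_NN.mp hx).1
theorem N2_sub {Ad : V → V → Prop} {R : Finset V} {r w : V} : N2 Ad R r w ⊆ R :=
  fun _ hx => (mem_N2.mp hx).1
theorem N4_sub {Ad : V → V → Prop} {R : Finset V} {r w : V} : N4 Ad R r w ⊆ R :=
  fun _ hx => (mem_N4.mp hx).1
theorem N2_NN {Ad : V → V → Prop} {R : Finset V} {r w : V} : N2 Ad R r w ⊆ NN Ad R r w := by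
  intro x hx
  rw [mem_N2] at hx
  rw [mem_NN]
  exact ⟨hx.1, by tauto⟩

section disj

variable {Ad : V → V → Prop} {U R : Finset V} {r w w' : V} (g : Gi Ad)
  (hw : Ad r w) (hw' : Ad r w') (hne : w ≠ w')

include g hw hw' hne in
theorem NN_disj : Disjoint (NN Ad R r w) (NN Ad R r w') := by
  rw [disjoint_left]
  intro x h1 h2
  rw [mem_NN] at h1 h2
  obtain ⟨-, h1⟩ := h1
  obtain ⟨-, h2⟩ := h2
  rcases h1 with rfl | h1 | h1 <;> rcases h2 with h2 | h2 | h2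
  · exact hne h2
  · exact d12 g hw' hw h2
  · exact d13 g hw' hw hne.symm h2
  · subst h2; exact d12 g hw hw' h1
  · exact d22 g hw hw' hne h1 h2
  · exact d23 g hw' hw h2 h1
  · subst h2; exact d13 g hw hw' hne h1
  · exact d23 g hw hw' h1 h2
  · exact d33 g hw hw' hne h1 h2

include g hw hw' hne in
theorem N2_disj : Disjoint (N2 Ad R r w) (NN Ad R r w') :=
  (NN_disj g hw hw' hne).mono_left N2_NN

include g hw hw' hne in
theorem N22_disj : Disjoint (N2 Ad R r w) (N2 Ad R r w') :=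
  (NN_disj g hw hw' hne).mono N2_NN N2_NN

include g in
theorem N4_self : Disjoint (N4 Ad R r w) (NN Ad R r w) := by
  rw [disjoint_left]
  intro x h1 h2
  rw [mem_N4] at h1
  rw [mem_NN] at h2
  obtain ⟨-, h1⟩ := h1
  obtain ⟨-, h2⟩ := h2
  rcases h2 with rfl | h2 | h2
  · exact s41 g h1
  · exact s42 g h1 h2.1
  · exact s43 g h1 h2

include g hw hw' hne in
theorem N4_disj : Disjoint (N4 Ad R r w) (N2 Ad R r w') := by
  rw [disjoint_left]
  intro x h1 h2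
  rw [mem_N4] at h1
  rw [mem_N2] at h2
  obtain ⟨-, h1⟩ := h1
  obtain ⟨-, h2⟩ := h2
  rcases h2 with rfl | h2
  · exact d14 g hw hw' h1
  · exact d24 g hw hw' hne h1 h2

include g in
/-- a vertex `l` not at distance one or two from `r` via `w'` has at most one neighbour in the
near set of `w'` -/
theorem two_near {l f1 f2 : V} (hl1 : l ≠ w') (hl2 : ¬ P2 Ad r w' l) (h1 : Ad l f1) (h2 : Ad l f2)
    (h12 : f1 ≠ f2) (m1 : f1 ∈ NN Ad R r w') (m2 : f2 ∈ NN Ad R r w') : False := by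
  rw [mem_NN] at m1 m2
  obtain ⟨-, m1⟩ := m1
  obtain ⟨-, m2⟩ := m2
  rcases m1 with k1 | k1 | k1 <;> rcases m2 with k2 | k2 | k2
  · exact h12 (k1.trans k2.symm)
  · subst k1
    exact g.c3 l f1 f2 h1 k2.1 (g.symm h2)
  · subst k1
    obtain ⟨y, a1, a2, a3, a4⟩ := k2
    exact g.c4 l f1 y f2 h1 a1 a3 (g.symm h2) (fun h => hl2 (h ▸ ⟨a1, a2⟩)) h12
  · subst k2
    exact g.c3 l f2 f1 h2 k1.1 (g.symm h1)
  · exact g.c4 l f1 w' f2 h1 (g.symm k1.1) k2.1 (g.symm h2) hl1 h12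
  · obtain ⟨y, a1, a2, a3, a4⟩ := k2
    exact g.c5 l f1 w' y f2 h1 (g.symm k1.1) a1 a3 (g.symm h2)
  · subst k2
    obtain ⟨y, a1, a2, a3, a4⟩ := k1
    exact g.c4 l f2 y f1 h2 a1 a3 (g.symm h1) (fun h => hl2 (h ▸ ⟨a1, a2⟩)) h12.symm
  · obtain ⟨y, a1, a2, a3, a4⟩ := k1
    exact g.c5 l f1 y w' f2 h1 (g.symm a3) (g.symm a1) k2.1 (g.symm h2)
  · obtain ⟨y, a1, a2, a3, a4⟩ := k1
    obtain ⟨y', b1, b2, b3, b4⟩ := k2
    have e1 : l ≠ y := fun h => hl2 (h ▸ ⟨a1, a2⟩)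
    have e2 : l ≠ y' := fun h => hl2 (h ▸ ⟨b1, b2⟩)
    by_cases hy : y = y'
    · subst hy
      exact g.c4 l f1 y f2 h1 (g.symm a3) b3 (g.symm h2) e1 h12
    · exact g.c6 l f1 y w' y' f2 h1 (g.symm a3) (g.symm a1) b1 b3 (g.symm h2) e1 a4 hy
        b4.symm e2.symm h12.symm

end disj

theorem card4 {A B C D R : Finset V} (hA : A ⊆ R) (hB : B ⊆ R) (hC : C ⊆ R) (hD : D ⊆ R)
    (hAB : Disjoint A B) (hAC : Disjoint A C) (hAD : Disjoint A D) (hBC : Disjoint B C)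
    (hBD : Disjoint B D) (hCD : Disjoint C D) : A.card + B.card + C.card + D.card ≤ R.card := by
  rw [← card_union_of_disjoint hAB, ← card_union_of_disjoint (disjoint_union_left.mpr ⟨hAC, hBC⟩),
    ← card_union_of_disjoint (disjoint_union_left.mpr ⟨disjoint_union_left.mpr ⟨hAD, hBD⟩, hCD⟩)]
  exact card_le_card (union_subset (union_subset (union_subset hA hB) hC) hD)

theorem card3 {A B C R : Finset V} (hA : A ⊆ R) (hB : B ⊆ R) (hC : C ⊆ R)
    (hAB : Disjoint A B) (hAC : Disjoint A C) (hBC : Disjoint B C) :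
    A.card + B.card + C.card ≤ R.card := by
  have := card4 hA hB hC (empty_subset R) hAB hAC (disjoint_empty_right _) hBC
    (disjoint_empty_right _) (disjoint_empty_right _)
  simpa using this

theorem two_le {A : Finset V} {a b : V} (ha : a ∈ A) (hb : b ∈ A) (h : a ≠ b) : 2 ≤ A.card := by
  have : ({a, b} : Finset V) ⊆ A := by
    intro x hx
    rw [mem_insert, mem_singleton] at hx
    rcases hx with rfl | rfl <;> assumption
  calc 2 = ({a, b} : Finset V).card := (card_pair h).symm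
    _ ≤ _ := card_le_card this

/-- lower bounds from lists -/
theorem len_le {A : Finset V} {l : List V} (h : l.Nodup) (hA : ∀ x ∈ l, x ∈ A) :
    l.length ≤ A.card := by
  rw [← List.toFinset_card_of_nodup h]
  refine card_le_card ?_
  intro x hx
  exact hA x (List.mem_toFinset.mp hx)

section types

variable {Ad : V → V → Prop} {U R : Finset V} {r w : V} (c : Cx Ad U R r) (hw : Ad r w)

theorem ne_of_R {R U : Finset V} (h : R ⊆ U) {p x : V} (hp : p ∈ R) (hx : x ∉ U) : p ≠ x :=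
  fun e => hx (e ▸ h hp)

include c in
theorem R_N2 (h : w ∈ R) : 1 ≤ (N2 Ad R r w).card :=
  card_pos.mpr ⟨w, mem_N2.mpr ⟨h, Or.inl rfl⟩⟩

include c in
theorem mem2 {p : V} (h : Ad w p) (hp : p ∈ R) : p ∈ N2 Ad R r w :=
  mem_N2.mpr ⟨hp, Or.inr ⟨h, fun e => c.rR (e ▸ hp)⟩⟩

include c in
theorem mem3 {z p : V} (hz : z ∉ U) (hwU : w ∉ U) (h1 : Ad w z) (h : Ad z p) (hp : p ∈ R) :
    p ∈ NN Ad R r w :=
  mem_NN.mpr ⟨hp, Or.inr (Or.inr ⟨z, h1, fun e => hz (e ▸ c.rU), h, ne_of_R c.sub hp hwU⟩)⟩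

include c in
theorem mem4 {y z p : V} (hy : y ∉ U) (hzw : z ≠ w) (h1 : Ad w y) (h2 : Ad y z)
    (h : Ad z p) (hp : p ∈ R) : p ∈ N4 Ad R r w :=
  mem_N4.mpr ⟨hp, y, z, h1, fun e => hy (e ▸ c.rU), h2, hzw, h, ne_of_R c.sub hp hy⟩

include c in
theorem One.n2 (h : One Ad R w) : 1 ≤ (N2 Ad R r w).card := by
  obtain ⟨p, h1, h2⟩ := h
  exact card_pos.mpr ⟨p, mem2 c h1 h2⟩

include c in
theorem BS.n2 (h : BS Ad U R w) : 2 ≤ (N2 Ad R r w).card := by
  obtain ⟨_, p, q, hpq, h1, h2, h3, h4⟩ := h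
  exact two_le (mem2 c h1 h3) (mem2 c h2 h4) hpq

include c in
theorem BD.nn (h : BD Ad U R w) : 3 ≤ (NN Ad R r w).card := by
  obtain ⟨hU, ⟨a, a1, a2⟩, z, hz, hwz, p, q, hpq, h1, h2, h3, h4⟩ := h
  refine len_le (l := [a, p, q]) ?_ ?_
  · simp only [List.nodup_cons, List.mem_cons, List.not_mem_nil, or_false, not_or,
      not_false_eq_true, List.nodup_nil, and_true]
    exact ⟨⟨fun e => c.gi.c3 w a z a1 (c.gi.symm (e ▸ h1)) (c.gi.symm hwz),
      fun e => c.gi.c3 w a z a1 (c.gi.symm (e ▸ h2)) (c.gi.symm hwz)⟩, hpq⟩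
  · intro x hx
    simp only [List.mem_cons, List.not_mem_nil, or_false] at hx
    rcases hx with rfl | rfl | rfl
    · exact N2_NN (mem2 c a1 a2)
    · exact mem3 c hz hU hwz h1 h3
    · exact mem3 c hz hU hwz h2 h4

include c in
/-- `w` and a neighbour `m` of `w` both have a neighbour in `R` -/
theorem two_nn {m : V} (hU : w ∉ U) (hm : m ∉ U) (hwm : Ad w m) (h1 : One Ad R w)
    (h2 : One Ad R m) : 2 ≤ (NN Ad R r w).card := by
  obtain ⟨a, a1, a2⟩ := h1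
  obtain ⟨b, b1, b2⟩ := h2
  exact two_le (N2_NN (mem2 c a1 a2)) (mem3 c hm hU hwm b1 b2)
    (fun e => c.gi.c3 w a m a1 (c.gi.symm (e ▸ b1)) (c.gi.symm hwm))

include c in
/-- two neighbours `a`, `b` of `w` with two neighbours in `R` each -/
theorem four_nn {a b : V} (hU : w ∉ U) (ha : a ∉ U) (hb : b ∉ U) (hab : a ≠ b) (hwa : Ad w a)
    (hwb : Ad w b) (h1 : Two Ad R a) (h2 : Two Ad R b) : 4 ≤ (NN Ad R r w).card := by
  obtain ⟨p, q, hpq, p1, q1, p2, q2⟩ := h1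
  obtain ⟨s, t, hst, s1, t1, s2, t2⟩ := h2
  have key : ∀ x y, Ad a x → Ad b y → x ∈ R → x ≠ y := by
    intro x y hx hy hxR e
    subst e
    exact c.gi.c4 w a x b hwa hx (c.gi.symm hy) (c.gi.symm hwb) (ne_of_R c.sub hxR hU).symm hab
  refine len_le (l := [p, q, s, t]) ?_ ?_
  · simp only [List.nodup_cons, List.mem_cons, List.not_mem_nil, or_false, not_or,
      not_false_eq_true, List.nodup_nil, and_true]
    exact ⟨⟨hpq, key p s p1 s1 p2, key p t p1 t1 p2⟩, ⟨key q s q1 s1 q2, key q t q1 t1 q2⟩, hst⟩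
  · intro x hx
    simp only [List.mem_cons, List.not_mem_nil, or_false] at hx
    rcases hx with rfl | rfl | rfl | rfl
    · exact mem3 c ha hU hwa p1 p2
    · exact mem3 c ha hU hwa q1 q2
    · exact mem3 c hb hU hwb s1 s2
    · exact mem3 c hb hU hwb t1 t2

include c in
theorem BTE.n4 (h : BTE Ad U R w) : 2 ≤ (N4 Ad R r w).card := by
  obtain ⟨hU, _, m, x, hm, hx, hwx, hwm, hmx, _, p, q, hpq, p1, q1, p2, q2⟩ := h
  exact two_le (mem4 c hm hwx.symm hwm hmx p1 p2) (mem4 c hm hwx.symm hwm hmx q1 q2) hpq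

include c in
theorem BTE.nn (h : BTE Ad U R w) : 2 ≤ (NN Ad R r w).card := by
  obtain ⟨hU, h1, m, x, hm, hx, hwx, hwm, hmx, h2, _⟩ := h
  exact two_nn c hU hm hwm h1 h2

include c in
theorem BTM.nn (h : BTM Ad U R w) : 4 ≤ (NN Ad R r w).card := by
  obtain ⟨hU, a, b, ha, hb, hab, h1, h2, h3, h4⟩ := h
  exact four_nn c hU ha hb hab h1 h2 h3 h4

include c in
theorem BPE.nn (h : BPE Ad U R w) : 2 ≤ (NN Ad R r w).card := by
  obtain ⟨hU, h1, m, y, d, hm, hy, hd, hwy, hmd, hwm, hmy, hyd, h2, _⟩ := h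
  exact two_nn c hU hm hwm h1 h2

include c in
theorem BPI.nn (h : BPI Ad U R w) : 3 ≤ (NN Ad R r w).card := by
  obtain ⟨hU, a, b, x, ha, hb, hx, hab, hwx, hwa, hwb, hbx, ⟨p, q, hpq, p1, q1, p2, q2⟩,
    ⟨u, u1, u2⟩, _⟩ := h
  have key : ∀ z, Ad a z → z ∈ R → z ≠ u := by
    intro z hz hzR e
    subst e
    exact c.gi.c4 w a z b hwa hz (c.gi.symm u1) (c.gi.symm hwb) (ne_of_R c.sub hzR hU).symm hab
  refine len_le (l := [p, q, u]) ?_ ?_
  · simp only [List.nodup_cons, List.mem_cons, List.not_mem_nil, or_false, not_or,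
      not_false_eq_true, List.nodup_nil, and_true]
    exact ⟨⟨hpq, key p p1 p2⟩, key q q1 q2⟩
  · intro x hx
    simp only [List.mem_cons, List.not_mem_nil, or_false] at hx
    rcases hx with rfl | rfl | rfl
    · exact mem3 c ha hU hwa p1 p2
    · exact mem3 c ha hU hwa q1 q2
    · exact mem3 c hb hU hwb u1 u2

include c in
theorem BPI.n4 (h : BPI Ad U R w) : 2 ≤ (N4 Ad R r w).card := by
  obtain ⟨hU, a, b, x, ha, hb, hx, hab, hwx, hwa, hwb, hbx, _, _, p, q, hpq, p1, q1, p2, q2⟩ := h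
  exact two_le (mem4 c hb hwx.symm hwb hbx p1 p2) (mem4 c hb hwx.symm hwb hbx q1 q2) hpq

include c in
theorem BK.n4 (h : BK Ad U R w) : 4 ≤ (N4 Ad R r w).card := by
  obtain ⟨hU, _, z, x, y, hz, hx, hy, hxy, hwx, hwy, hwz, hzx, hzy, ⟨p, q, hpq, p1, q1, p2, q2⟩,
    ⟨s, t, hst, s1, t1, s2, t2⟩⟩ := h
  have key : ∀ a b, Ad x a → Ad y b → a ∈ R → a ≠ b := by
    intro a b ha hb haR e
    subst e
    exact c.gi.c4 z x a y hzx ha (c.gi.symm hb) (c.gi.symm hzy) (ne_of_R c.sub haR hz).symm hxy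
  refine len_le (l := [p, q, s, t]) ?_ ?_
  · simp only [List.nodup_cons, List.mem_cons, List.not_mem_nil, or_false, not_or,
      not_false_eq_true, List.nodup_nil, and_true]
    exact ⟨⟨hpq, key p s p1 s1 p2, key p t p1 t1 p2⟩, ⟨key q s q1 s1 q2, key q t q1 t1 q2⟩, hst⟩
  · intro a ha
    simp only [List.mem_cons, List.not_mem_nil, or_false] at ha
    rcases ha with rfl | rfl | rfl | rfl
    · exact mem4 c hz hwx.symm hwz hzx p1 p2
    · exact mem4 c hz hwx.symm hwz hzx q1 q2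
    · exact mem4 c hz hwy.symm hwz hzy s1 s2
    · exact mem4 c hz hwy.symm hwz hzy t1 t2

include c in
theorem BKC.nn (h : BKC Ad U R w) : 4 ≤ (NN Ad R r w).card := by
  obtain ⟨hU, x, y, z, hx, hy, hz, hxy, hxz, hyz, h1, h2, h3, h4, h5, h6⟩ := h
  exact four_nn c hU hx hy hxy h1 h2 h4 h5

include c in
/-- six neighbours -/
theorem BKC.nn6 (h : BKC Ad U R w) : 5 ≤ (NN Ad R r w).card := by
  obtain ⟨hU, x, y, z, hx, hy, hz, hxy, hxz, hyz, h1, h2, h3, ⟨p, q, hpq, p1, q1, p2, q2⟩,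
    ⟨s, t, hst, s1, t1, s2, t2⟩, ⟨u, v, huv, u1, v1, u2, v2⟩⟩ := h
  have key : ∀ x y, x ≠ y → Ad w x → Ad w y → ∀ a b, Ad x a → Ad y b → a ∈ R → a ≠ b := by
    intro x y hxy hwx hwy a b ha hb haR e
    subst e
    exact c.gi.c4 w x a y hwx ha (c.gi.symm hb) (c.gi.symm hwy) (ne_of_R c.sub haR hU).symm hxy
  refine len_le (l := [p, q, s, t, u]) ?_ ?_
  · simp only [List.nodup_cons, List.mem_cons, List.not_mem_nil, or_false, not_or,
      not_false_eq_true, List.nodup_nil, and_true]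
    exact ⟨⟨hpq, key x y hxy h1 h2 p s p1 s1 p2, key x y hxy h1 h2 p t p1 t1 p2,
      key x z hxz h1 h3 p u p1 u1 p2⟩, ⟨key x y hxy h1 h2 q s q1 s1 q2,
      key x y hxy h1 h2 q t q1 t1 q2, key x z hxz h1 h3 q u q1 u1 q2⟩,
      ⟨hst, key y z hyz h2 h3 s u s1 u1 s2⟩, key y z hyz h2 h3 t u t1 u1 t2⟩
  · intro a ha
    simp only [List.mem_cons, List.not_mem_nil, or_false] at ha
    rcases ha with rfl | rfl | rfl | rfl | rfl
    · exact mem3 c hx hU h1 p1 p2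
    · exact mem3 c hx hU h1 q1 q2
    · exact mem3 c hy hU h2 s1 s2
    · exact mem3 c hy hU h2 t1 t2
    · exact mem3 c hz hU h3 u1 u2

include c in
/-- every branch has near neighbours; if there is none at distance at most two then there are at
least three -/
theorem Brn.pos (h : Brn Ad U R w) : 1 ≤ (N2 Ad R r w).card ∨ 3 ≤ (NN Ad R r w).card := by
  rcases h with h | h | h | h | h | h | h | h | h
  · exact Or.inl (R_N2 c h)
  · exact Or.inl (by have := BS.n2 c h; omega)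
  · exact Or.inl (One.n2 c h.2.1)
  · exact Or.inl (One.n2 c h.2.1)
  · exact Or.inr (by have := BTM.nn c h; omega)
  · exact Or.inl (One.n2 c h.2.1)
  · exact Or.inr (BPI.nn c h)
  · exact Or.inl (One.n2 c h.2.1)
  · exact Or.inr (by have := BKC.nn c h; omega)

theorem N2_le : (N2 Ad R r w).card ≤ (NN Ad R r w).card := card_le_card N2_NN

include c in
theorem Brn.nn (h : Brn Ad U R w) : 1 ≤ (NN Ad R r w).card := by
  have h1 := N2_le (Ad := Ad) (R := R) (r := r) (w := w)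
  rcases Brn.pos c h with h | h <;> omega

end types

section sums

variable {Ad : V → V → Prop} {U R : Finset V} {r w1 w2 w3 w4 : V}

theorem Tri.sum (t : Tri Ad U R r w1 w2 w3) :
    (NN Ad R r w1).card + (NN Ad R r w2).card + (NN Ad R r w3).card ≤ 6 :=
  (card3 NN_sub NN_sub NN_sub (NN_disj t.cx.gi t.a1 t.a2 t.h12) (NN_disj t.cx.gi t.a1 t.a3 t.h13)
    (NN_disj t.cx.gi t.a2 t.a3 t.h23)).trans t.cx.card

theorem Tri.sum4 (t : Tri Ad U R r w1 w2 w3) :
    (NN Ad R r w1).card + (N4 Ad R r w1).card + (N2 Ad R r w2).card + (N2 Ad R r w3).card ≤ 6 :=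
  (card4 NN_sub N4_sub N2_sub N2_sub (N4_self t.cx.gi).symm
    (N2_disj t.cx.gi t.a2 t.a1 t.h12.symm).symm
    (N2_disj t.cx.gi t.a3 t.a1 t.h13.symm).symm
    (N4_disj t.cx.gi t.a1 t.a2 t.h12) (N4_disj t.cx.gi t.a1 t.a3 t.h13)
    (N22_disj t.cx.gi t.a2 t.a3 t.h23)).trans t.cx.card

/-- if `x` is not in the near set of `w2` and of `w1` and not in `N2` of `w3` -/
theorem Tri.sum1 (t : Tri Ad U R r w1 w2 w3) {x : V} (hx : x ∈ R) (h1 : x ∉ NN Ad R r w1)
    (h2 : x ∉ NN Ad R r w2) (h3 : x ∉ N2 Ad R r w3) :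
    (NN Ad R r w1).card + (NN Ad R r w2).card + (N2 Ad R r w3).card + 1 ≤ 6 := by
  have := card4 (D := {x}) NN_sub NN_sub N2_sub (singleton_subset_iff.mpr hx)
    (NN_disj t.cx.gi t.a1 t.a2 t.h12) (N2_disj t.cx.gi t.a3 t.a1 t.h13.symm).symm
    (disjoint_singleton_right.mpr h1) (N2_disj t.cx.gi t.a3 t.a2 t.h23.symm).symm
    (disjoint_singleton_right.mpr h2) (disjoint_singleton_right.mpr h3)
  rw [card_singleton] at this
  exact this.trans t.cx.card

/-- two far vertices `f1`, `f2` with a common neighbour `l`: one of them is new -/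
theorem Tri.far (t : Tri Ad U R r w1 w2 w3) {y l f1 f2 : V} (hwy : Ad w1 y) (hyU : y ∉ U)
    (hyl : Ad y l) (hlw : l ≠ w1) (k1 : Ad l f1) (k2 : Ad l f2) (h12 : f1 ≠ f2)
    (m1 : f1 ∈ R) (m2 : f2 ∈ R) :
    (NN Ad R r w1).card + (NN Ad R r w2).card + (N2 Ad R r w3).card + 1 ≤ 6 := by
  have hl3 : P3 Ad r w1 l := ⟨y, hwy, fun e => hyU (e ▸ t.cx.rU), hyl, hlw⟩
  have hl1 : l ≠ w2 := by
    rintro rfl
    exact d13 t.cx.gi t.a1 t.a2 t.h12 hl3
  have hl2 : ¬ P2 Ad r w2 l := fun h => d23 t.cx.gi t.a1 t.a2 hl3 h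
  have q1 := mem4 t.cx hyU hlw hwy hyl k1 m1
  have q2 := mem4 t.cx hyU hlw hwy hyl k2 m2
  by_cases h1 : f1 ∈ NN Ad R r w2
  · have h2 : f2 ∉ NN Ad R r w2 := fun h2 => two_near t.cx.gi hl1 hl2 k1 k2 h12 h1 h2
    exact t.sum1 m2 (disjoint_left.mp (N4_self t.cx.gi) q2) h2
      (disjoint_left.mp (N4_disj t.cx.gi t.a1 t.a3 t.h13) q2)
  · exact t.sum1 m1 (disjoint_left.mp (N4_self t.cx.gi) q1) h1
      (disjoint_left.mp (N4_disj t.cx.gi t.a1 t.a3 t.h13) q1)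

theorem Tri.swap23 (t : Tri Ad U R r w1 w2 w3) : Tri Ad U R r w1 w3 w2 :=
  ⟨t.cx, t.a1, t.a3, t.a2, t.h13, t.h12, t.h23.symm, t.b3, t.b2⟩

theorem Tri.swap12 (t : Tri Ad U R r w1 w2 w3) (b : Brn Ad U R w1) : Tri Ad U R r w2 w1 w3 :=
  ⟨t.cx, t.a2, t.a1, t.a3, t.h12.symm, t.h23, t.h13, b, t.b3⟩

theorem Tri.swap13 (t : Tri Ad U R r w1 w2 w3) (b : Brn Ad U R w1) : Tri Ad U R r w3 w1 w2 :=
  ⟨t.cx, t.a3, t.a1, t.a2, t.h13.symm, t.h23.symm, t.h12, b, t.b2⟩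

end sums

theorem PI : St_PI := by
  intro V _ Ad U R r w1 w2 w3 t h
  have s := t.sum
  have s4 := t.sum4
  have a1 := BPI.nn t.cx h
  have a2 := BPI.n4 t.cx h
  have b1 := Brn.nn t.cx t.b2
  have b2 := Brn.nn t.cx t.b3
  rcases Brn.pos t.cx t.b2 with h2 | h2 <;> rcases Brn.pos t.cx t.b3 with h3 | h3 <;> omega

theorem KC : St_KC := by
  intro V _ Ad U R r w1 w2 w3 t h
  have s := t.sum
  have a1 := BKC.nn6 t.cx h
  have b1 := Brn.nn t.cx t.b2
  have b2 := Brn.nn t.cx t.b3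
  omega

theorem K : St_K := by
  intro V _ Ad U R r w1 w2 w3 t h
  have s := t.sum
  have s4 := t.sum4
  have a1 := BK.n4 t.cx h
  have hB : Brn Ad U R w1 := by unfold Brn; tauto
  have a2 := Brn.nn t.cx hB
  have b1 := Brn.nn t.cx t.b2
  have b2 := Brn.nn t.cx t.b3
  -- a neighbour with nothing at distance two has four near neighbours
  have big : ∀ w w' , Tri Ad U R r w w' w1 → Brn Ad U R w →
      1 ≤ (N2 Ad R r w).card ∨ 4 ≤ (NN Ad R r w).card := by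
    intro w w' t' hb
    rcases hb with h | h | h | h | h | h | h | h | h
    · exact Or.inl (R_N2 t'.cx h)
    · exact Or.inl (by have := BS.n2 t'.cx h; omega)
    · exact Or.inl (One.n2 t'.cx h.2.1)
    · exact Or.inl (One.n2 t'.cx h.2.1)
    · exact Or.inr (BTM.nn t'.cx h)
    · exact Or.inl (One.n2 t'.cx h.2.1)
    · exact absurd h (PI V Ad U R r w w' w1 t')
    · exact Or.inl (One.n2 t'.cx h.2.1)
    · exact Or.inr (BKC.nn t'.cx h)
  have c2 := big w2 w3 ((t.swap12 hB).swap23) t.b2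
  have c3 := big w3 w2 ((t.swap13 hB).swap23) t.b3
  obtain ⟨hU, _, z, x, y, hz, hx, hy, hxy, hwx, hwy, hwz, hzx, hzy, ⟨p, q, hpq, p1, q1, p2, q2⟩,
    _⟩ := h
  have f2 := t.far hwz hz hzx hwx.symm p1 q1 hpq p2 q2
  have f3 := t.swap23.far hwz hz hzx hwx.symm p1 q1 hpq p2 q2
  rcases c2 with h2 | h2 <;> rcases c3 with h3 | h3 <;> omega

end Pool.Agent.TH676.Z
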