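import Mathlib

set_option autoImplicit false
set_option linter.unusedSectionVars false

/-! # Nowhere-zero 5-flows in graphs of treewidth at most six: definitions and statements

Plan.  A minimal counterexample has girth at least 7 (short circuits are reducible) and minimum
degree at least 3; no such graph has treewidth at most 6. -/

namespace Pool.Agent.TH676.Z

open Finset

/-! ## Flows -/

section flows

variable {V E : Type} [Fintype V] [DecidableEq V] [Fintype E] [DecidableEq E]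

/-- the boundary of `f` at `v` -/
def bd (src dst : E → V) (f : E → ZMod 5) (v : V) : ZMod 5 :=
  ∑ e, ((if src e = v then f e else 0) - (if dst e = v then f e else 0))

/-- the edges with exactly one end in `Y` -/
def crs (src dst : E → V) (Y : Finset V) : Finset E :=
  univ.filter (fun e => ¬ (src e ∈ Y ↔ dst e ∈ Y))

/-- after deleting `D` and contracting `C` there is no bridge -/
def Br (src dst : E → V) (D C : Finset E) : Prop :=
  ∀ Y : Finset V, Disjoint (crs src dst Y) C → (crs src dst Y \ D).card ≠ 1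

/-- a flow which is zero on `D`, free on `C` and nonzero elsewhere -/
def FlowOn (src dst : E → V) (D C : Finset E) : Prop :=
  ∃ f : E → ZMod 5, (∀ v, bd src dst f v = 0) ∧ (∀ e ∈ D, f e = 0) ∧
    ∀ e, e ∉ D → e ∉ C → f e ≠ 0

/-- replace `v` by `u` -/
def ctr (u v : V) (x : V) : V := if x = v then u else x

/-- make the edges of `D` loops -/
def lp (src dst : E → V) (D : Finset E) (e : E) : V := if e ∈ D then src e else dst e

/-- a class of graphs closed under deletions and contractions of edges -/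
structure MC (Cl : (E → V) → (E → V) → Prop) : Prop where
  del : ∀ src dst (e : E), Cl src dst → src e ≠ dst e → Cl src (lp src dst {e})
  con : ∀ src dst (e : E), Cl src dst → src e ≠ dst e →
    Cl (ctr (src e) (dst e) ∘ src) (ctr (src e) (dst e) ∘ dst)

/-- a counterexample all of whose smaller relatives have nowhere-zero flows -/
structure MinCx (src dst : E → V) : Prop where
  br : Br src dst ∅ ∅
  nf : ¬ FlowOn src dst ∅ ∅
  crit : ∀ D C, Disjoint D C → (∃ e ∈ D ∪ C, src e ≠ dst e) → Br src dst D C → FlowOn src dst D C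

/-- the vertex is incident with a proper edge -/
def Nis (src dst : E → V) (x : V) : Prop := ∃ e, src e ≠ dst e ∧ (src e = x ∨ dst e = x)

/-- adjacency -/
def Adj (src dst : E → V) (x y : V) : Prop :=
  x ≠ y ∧ ∃ e, (src e = x ∧ dst e = y) ∨ (src e = y ∧ dst e = x)

end flows

/-- the edge `e` joins `x` and `y` -/
def Jn {V E : Type} (src dst : E → V) (e : E) (x y : V) : Prop :=
  (src e = x ∧ dst e = y) ∨ (src e = y ∧ dst e = x)

/-- Z1 -/
def St_crit : Prop := ∀ (V E : Type) [Fintype V] [DecidableEq V] [Fintype E] [DecidableEq E]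
  (Cl : (E → V) → (E → V) → Prop), MC Cl → ∀ src dst : E → V, Cl src dst → Br src dst ∅ ∅ →
    ¬ FlowOn src dst ∅ ∅ → ∃ s d : E → V, Cl s d ∧ MinCx s d

/-- Z2: every cut with non-isolated vertices on both sides has at least three edges -/
def St_cut3 : Prop := ∀ (V E : Type) [Fintype V] [DecidableEq V] [Fintype E] [DecidableEq E]
  (src dst : E → V), MinCx src dst → ∀ (Y : Finset V) (x y : V), x ∈ Y → y ∉ Y →
    Nis src dst x → Nis src dst y → 3 ≤ (crs src dst Y).card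

/-- Z3: at a cut with three edges the nonzero values on the cut can be prescribed -/
def St_three : Prop := ∀ (V E : Type) [Fintype V] [DecidableEq V] [Fintype E] [DecidableEq E]
  (src dst : E → V) (Y : Finset V), (crs src dst Y).card = 3 →
    ∀ f : E → ZMod 5, (∀ v ∈ Y, bd src dst f v = 0) →
    (∀ e, (src e ∈ Y ∨ dst e ∈ Y) → f e ≠ 0) →
    ∀ c : E → ZMod 5, (∀ e ∈ crs src dst Y, c e ≠ 0) →
    ∑ e ∈ crs src dst Y, (if src e ∈ Y then c e else - c e) = 0 →
    ∃ f' : E → ZMod 5, (∀ v ∈ Y, bd src dst f' v = 0) ∧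
      (∀ e, (src e ∈ Y ∨ dst e ∈ Y) → f' e ≠ 0) ∧ ∀ e ∈ crs src dst Y, f' e = c e

/-- Z4: a cut with at least two non-isolated vertices on both sides has at least four edges -/
def St_cut4 : Prop := ∀ (V E : Type) [Fintype V] [DecidableEq V] [Fintype E] [DecidableEq E]
  (src dst : E → V), MinCx src dst → ∀ (Y : Finset V) (x x2 y y2 : V), x ∈ Y → x2 ∈ Y → x ≠ x2 →
    y ∉ Y → y2 ∉ Y → y ≠ y2 → Nis src dst x → Nis src dst x2 → Nis src dst y → Nis src dst y2 →
    4 ≤ (crs src dst Y).card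

/-- Z5: there is no circuit with `n = 2, ..., 6` edges (the case `n = k + 2`) -/
def St_circ : Prop := ∀ (V E : Type) [Fintype V] [DecidableEq V] [Fintype E] [DecidableEq E]
  (src dst : E → V), MinCx src dst → ∀ k : ℕ, k ≤ 4 → ∀ (v : Fin (k + 2) → V) (ed : Fin (k + 2) → E),
    Function.Injective v → Function.Injective ed →
    (∀ i, Jn src dst (ed i) (v i) (v (i + 1))) → False

/-! ## Graphs of girth at least seven -/

/-- there are no closed walks of length at most six without backtracking -/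
structure Gi {V : Type} (Ad : V → V → Prop) : Prop where
  symm : ∀ {a b}, Ad a b → Ad b a
  c2 : ∀ a, ¬ Ad a a
  c3 : ∀ a b c, Ad a b → Ad b c → Ad c a → False
  c4 : ∀ a b c d, Ad a b → Ad b c → Ad c d → Ad d a → a ≠ c → b ≠ d → False
  c5 : ∀ a b c d e, Ad a b → Ad b c → Ad c d → Ad d e → Ad e a → False
  c6 : ∀ a b c d e f, Ad a b → Ad b c → Ad c d → Ad d e → Ad e f → Ad f a →
    a ≠ c → b ≠ d → c ≠ e → d ≠ f → e ≠ a → f ≠ b → False

/-- every vertex with a neighbour has three neighbours -/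
def Three {V : Type} (Ad : V → V → Prop) : Prop := ∀ x y, Ad x y →
  ∃ a b c, Ad x a ∧ Ad x b ∧ Ad x c ∧ a ≠ b ∧ a ≠ c ∧ b ≠ c

/-- Z6 -/
def St_gi : Prop := ∀ (V E : Type) [Fintype V] [DecidableEq V] [Fintype E] [DecidableEq E]
  (src dst : E → V), MinCx src dst → Gi (Adj src dst) ∧ Three (Adj src dst)

/-- the sets contained in a bag of a tree decomposition -/
structure Bags {V : Type} [DecidableEq V] (Ad : V → V → Prop) (w : ℕ) (In : Finset V → Prop) :
    Prop where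
  mono : ∀ Z Z', Z ⊆ Z' → In Z' → In Z
  edge : ∀ a b, Ad a b → In {a, b}
  card : ∀ Z, In Z → Z.card ≤ w
  elim : ∀ U : Finset V, U.Nonempty → (∀ x ∈ U, In {x}) →
    ∃ r ∈ U, ∃ W, In W ∧ r ∈ W ∧ ∀ Z, In Z → Z ⊆ U → r ∈ Z → Z ⊆ W

/-- the graph lemma: a graph with girth at least seven and minimum degree at least three (apart
from isolated vertices) has no tree decomposition with bags of at most seven vertices -/
def St_graph : Prop := ∀ (V : Type) [Fintype V] [DecidableEq V] (Ad : V → V → Prop)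
  (In : Finset V → Prop), Gi Ad → Three Ad → Bags Ad 7 In → ∀ x y, ¬ Ad x y

/-! ## Branches at the vertex `r`

`U` is the set of the vertices that are not yet eliminated, `r ∈ U` is eliminated next, `R ⊆ U` is
the bag without `r`.  The component of a neighbour `w ∉ U` of `r` in the graph without `U` is a
tree with at most four vertices; all its outer neighbours other than `r` are in `R`. -/

section branches

variable {V : Type} [DecidableEq V]

/-- the situation -/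
structure Cx (Ad : V → V → Prop) (U R : Finset V) (r : V) : Prop where
  gi : Gi Ad
  sub : R ⊆ U
  rU : r ∈ U
  rR : r ∉ R
  card : R.card ≤ 6

/-- two different neighbours `p`, `q` of `x` in `R` -/
def Two (Ad : V → V → Prop) (R : Finset V) (x : V) : Prop :=
  ∃ p q, p ≠ q ∧ Ad x p ∧ Ad x q ∧ p ∈ R ∧ q ∈ R

/-- a neighbour of `x` in `R` -/
def One (Ad : V → V → Prop) (R : Finset V) (x : V) : Prop := ∃ p, Ad x p ∧ p ∈ R

/-- single vertex `w` -/
def BS (Ad : V → V → Prop) (U R : Finset V) (w : V) : Prop := w ∉ U ∧ Two Ad R w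

/-- `w - z` -/
def BD (Ad : V → V → Prop) (U R : Finset V) (w : V) : Prop :=
  w ∉ U ∧ One Ad R w ∧ ∃ z, z ∉ U ∧ Ad w z ∧ Two Ad R z

/-- path `w - m - x` -/
def BTE (Ad : V → V → Prop) (U R : Finset V) (w : V) : Prop :=
  w ∉ U ∧ One Ad R w ∧ ∃ m x, m ∉ U ∧ x ∉ U ∧ w ≠ x ∧ Ad w m ∧ Ad m x ∧ One Ad R m ∧ Two Ad R x

/-- path `a - w - b` -/
def BTM (Ad : V → V → Prop) (U R : Finset V) (w : V) : Prop :=
  w ∉ U ∧ ∃ a b, a ∉ U ∧ b ∉ U ∧ a ≠ b ∧ Ad w a ∧ Ad w b ∧ Two Ad R a ∧ Two Ad R b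

/-- path `w - m - y - d` -/
def BPE (Ad : V → V → Prop) (U R : Finset V) (w : V) : Prop :=
  w ∉ U ∧ One Ad R w ∧ ∃ m y d, m ∉ U ∧ y ∉ U ∧ d ∉ U ∧ w ≠ y ∧ m ≠ d ∧ Ad w m ∧ Ad m y ∧
    Ad y d ∧ One Ad R m ∧ One Ad R y ∧ Two Ad R d

/-- path `a - w - b - c` -/
def BPI (Ad : V → V → Prop) (U R : Finset V) (w : V) : Prop :=
  w ∉ U ∧ ∃ a b c, a ∉ U ∧ b ∉ U ∧ c ∉ U ∧ a ≠ b ∧ w ≠ c ∧ Ad w a ∧ Ad w b ∧ Ad b c ∧
    Two Ad R a ∧ One Ad R b ∧ Two Ad R c

/-- star with centre `c` and leaves `w, x, y` -/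
def BK (Ad : V → V → Prop) (U R : Finset V) (w : V) : Prop :=
  w ∉ U ∧ One Ad R w ∧ ∃ c x y, c ∉ U ∧ x ∉ U ∧ y ∉ U ∧ x ≠ y ∧ w ≠ x ∧ w ≠ y ∧ Ad w c ∧
    Ad c x ∧ Ad c y ∧ Two Ad R x ∧ Two Ad R y

/-- star with centre `w` -/
def BKC (Ad : V → V → Prop) (U R : Finset V) (w : V) : Prop :=
  w ∉ U ∧ ∃ x y z, x ∉ U ∧ y ∉ U ∧ z ∉ U ∧ x ≠ y ∧ x ≠ z ∧ y ≠ z ∧ Ad w x ∧ Ad w y ∧
    Ad w z ∧ Two Ad R x ∧ Two Ad R y ∧ Two Ad R z

/-- the possible branches (`w ∈ R` if `w ∈ U`) -/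
def Brn (Ad : V → V → Prop) (U R : Finset V) (w : V) : Prop :=
  w ∈ R ∨ BS Ad U R w ∨ BD Ad U R w ∨ BTE Ad U R w ∨ BTM Ad U R w ∨ BPE Ad U R w ∨
    BPI Ad U R w ∨ BK Ad U R w ∨ BKC Ad U R w

end branches

/-- three different neighbours of `r` with branches -/
structure Tri {V : Type} [DecidableEq V] (Ad : V → V → Prop) (U R : Finset V) (r w1 w2 w3 : V) :
    Prop where
  cx : Cx Ad U R r
  a1 : Ad r w1
  a2 : Ad r w2
  a3 : Ad r w3
  h12 : w1 ≠ w2
  h13 : w1 ≠ w3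
  h23 : w2 ≠ w3
  b2 : Brn Ad U R w2
  b3 : Brn Ad U R w3

/-- Z7 -/
def St_PI : Prop := ∀ (V : Type) [DecidableEq V] (Ad : V → V → Prop) (U R : Finset V)
  (r w1 w2 w3 : V), Tri Ad U R r w1 w2 w3 → ¬ BPI Ad U R w1
/-- Z7 -/
def St_K : Prop := ∀ (V : Type) [DecidableEq V] (Ad : V → V → Prop) (U R : Finset V)
  (r w1 w2 w3 : V), Tri Ad U R r w1 w2 w3 → ¬ BK Ad U R w1
/-- Z7 -/
def St_KC : Prop := ∀ (V : Type) [DecidableEq V] (Ad : V → V → Prop) (U R : Finset V)
  (r w1 w2 w3 : V), Tri Ad U R r w1 w2 w3 → ¬ BKC Ad U R w1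
/-- Z8 -/
def St_PE : Prop := ∀ (V : Type) [DecidableEq V] (Ad : V → V → Prop) (U R : Finset V)
  (r w1 w2 w3 : V), Tri Ad U R r w1 w2 w3 → ¬ BPE Ad U R w1
/-- Z9: next to a path attached at its end all neighbours are in `U` -/
def St_TE : Prop := ∀ (V : Type) [DecidableEq V] (Ad : V → V → Prop) (U R : Finset V)
  (r w1 w2 w3 : V), Tri Ad U R r w1 w2 w3 → BTE Ad U R w1 → w2 ∈ U
/-- Z10: next to a path attached at its middle all neighbours are in `U` -/
def St_TM : Prop := ∀ (V : Type) [DecidableEq V] (Ad : V → V → Prop) (U R : Finset V)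
  (r w1 w2 w3 : V), Tri Ad U R r w1 w2 w3 → BTM Ad U R w1 → w2 ∈ U
/-- Z10: next to `w - z` there is at most one more branch, and it is single -/
def St_DD : Prop := ∀ (V : Type) [DecidableEq V] (Ad : V → V → Prop) (U R : Finset V)
  (r w1 w2 w3 : V), Tri Ad U R r w1 w2 w3 → BD Ad U R w1 →
    (w2 ∈ U ∨ BS Ad U R w2) ∧ (w2 ∈ U ∨ w3 ∈ U)
/-- Z10: there are at most three branches -/
def St_SS : Prop := ∀ (V : Type) [DecidableEq V] (Ad : V → V → Prop) (U R : Finset V)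
  (r w1 w2 w3 w4 : V), Tri Ad U R r w1 w2 w3 → Brn Ad U R w1 → Ad r w4 → w4 ≠ w1 → w4 ≠ w2 →
    w4 ≠ w3 → Brn Ad U R w4 → w1 ∈ U ∨ w2 ∈ U ∨ w3 ∈ U ∨ w4 ∈ U

/-! ## Pieces -/

section pieces

variable {V : Type} [Fintype V] [DecidableEq V]

open Classical in
/-- the outer neighbours of `P` in `U` -/
noncomputable def onb (Ad : V → V → Prop) (U P : Finset V) : Finset V :=
  univ.filter (fun v => v ∈ U ∧ ∃ x ∈ P, Ad x v)

/-- `P` is a union of components of the graph without `U`, its outer neighbours are in a bag -/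
structure Pc (Ad : V → V → Prop) (In : Finset V → Prop) (U P : Finset V) : Prop where
  out : ∀ x ∈ P, x ∉ U
  cl : ∀ x ∈ P, ∀ y, Ad x y → y ∈ P ∨ y ∈ U
  inn : In (onb Ad U P)

/-- the shapes of the pieces: trees with at most four vertices -/
def Sh (Ad : V → V → Prop) (P : Finset V) : Prop :=
  (∃ a, P = {a}) ∨ (∃ a b, Ad a b ∧ P = {a, b}) ∨
  (∃ a b c, Ad a b ∧ Ad b c ∧ a ≠ c ∧ P = {a, b, c}) ∨
  (∃ a b c d, Ad a b ∧ Ad b c ∧ Ad c d ∧ a ≠ c ∧ b ≠ d ∧ P = {a, b, c, d}) ∨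
  (∃ c x y z, Ad c x ∧ Ad c y ∧ Ad c z ∧ x ≠ y ∧ x ≠ z ∧ y ≠ z ∧ P = {c, x, y, z})

/-- the invariant: every vertex which is eliminated is in a piece -/
def Inv (Ad : V → V → Prop) (In : Finset V → Prop) (U : Finset V) : Prop :=
  ∀ x, x ∉ U → (∃ y, Ad x y) → ∃ P, x ∈ P ∧ Pc Ad In U P ∧ Sh Ad P

end pieces

/-- the exact type of a neighbour `w ∉ U` of `r` together with its piece `P` -/
def Ty {V : Type} [DecidableEq V] (Ad : V → V → Prop) (U R P : Finset V) (w : V) : Prop :=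
  (BS Ad U R w ∧ P = {w}) ∨
  (BD Ad U R w ∧ ∃ z, Ad w z ∧ P = {w, z}) ∨
  (BTE Ad U R w ∧ ∃ m x, Ad w m ∧ Ad m x ∧ w ≠ x ∧ P = {w, m, x}) ∨
  (BTM Ad U R w ∧ ∃ a b, Ad w a ∧ Ad w b ∧ a ≠ b ∧ P = {a, w, b}) ∨
  BPE Ad U R w ∨ BPI Ad U R w ∨ BK Ad U R w ∨ BKC Ad U R w

/-- Z11: the type of a piece at its neighbour `r` -/
def St_type : Prop := ∀ (V : Type) [Fintype V] [DecidableEq V] (Ad : V → V → Prop)
  (In : Finset V → Prop) (U W P : Finset V) (r w : V), Gi Ad → Three Ad → Bags Ad 7 In →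
    (∀ Z, In Z → Z ⊆ U → r ∈ Z → Z ⊆ W) → r ∈ U → Ad r w → w ∈ P → Pc Ad In U P → Sh Ad P →
    Ty Ad U ((W ∩ U).erase r) P w

/-- Z12: two pieces with a common vertex are equal -/
def St_uniq : Prop := ∀ (V : Type) [Fintype V] [DecidableEq V] (Ad : V → V → Prop)
  (In : Finset V → Prop) (U P Q : Finset V) (x : V), Gi Ad → Pc Ad In U P → Sh Ad P →
    Pc Ad In U Q → Sh Ad Q → x ∈ P → x ∈ Q → P = Q

/-- Z13: the union of `r` and the pieces at `r` is a piece -/
def St_merge : Prop := ∀ (V : Type) [Fintype V] [DecidableEq V] (Ad : V → V → Prop)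
  (In : Finset V → Prop) (U W P : Finset V) (r : V), Gi Ad → Bags Ad 7 In → In W → r ∈ W →
    (∀ Z, In Z → Z ⊆ U → r ∈ Z → Z ⊆ W) → r ∈ U → r ∈ P →
    (∀ x ∈ P, x = r ∨ ∃ Q, Pc Ad In U Q ∧ x ∈ Q ∧ Q ⊆ P ∧ ∃ y ∈ Q, Ad r y) →
    (∀ y, Ad r y → y ∉ U → y ∈ P) → Pc Ad In (U.erase r) P

/-- Z14: the elimination step -/
def St_step : Prop := ∀ (V : Type) [Fintype V] [DecidableEq V] (Ad : V → V → Prop)
  (In : Finset V → Prop) (U W : Finset V) (r : V), Gi Ad → Three Ad → Bags Ad 7 In → In W →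
    r ∈ W → (∀ Z, In Z → Z ⊆ U → r ∈ Z → Z ⊆ W) → r ∈ U → Inv Ad In U → Inv Ad In (U.erase r)

/-- Z15: at the end there is no vertex with a neighbour -/
def St_end : Prop := ∀ (V : Type) [Fintype V] [DecidableEq V] (Ad : V → V → Prop)
  (In : Finset V → Prop), Gi Ad → Three Ad → Inv Ad In ∅ → ∀ x y, ¬ Ad x y

end Pool.Agent.TH676.Z
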