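import Pool.Agent.TH676.Z.Cnt

set_option autoImplicit false
set_option linter.unusedSectionVars false

/-! # Nowhere-zero 5-flows in graphs which embed in a surface of nonnegative Euler characteristic
after the deletion of one vertex: definitions and statements

The condition on the graph `H = G - s` is in MacLane's form: there is a family of elements of the
cycle space over `GF(2)` such that every edge is in at most two of them and their span has
codimension at most two in the cycle space (for an embedding: the faces; the codimension is the
Euler genus).  This class is closed under minors, a minimal counterexample has girth at least 7 and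
at least three neighbours at each vertex, and then counting edges gives a contradiction. -/

namespace Pool.Agent.TH676.Z

open Finset

section

variable {V E : Type} [Fintype V] [DecidableEq V] [Fintype E] [DecidableEq E]

/-- the boundary over `GF(2)` -/
def bd2 (src dst : E → V) (x : E → ZMod 2) (v : V) : ZMod 2 :=
  ∑ e, ((if src e = v then x e else 0) + (if dst e = v then x e else 0))

/-- the cycle space of the graph with edge set `F` -/
def ZF (src dst : E → V) (F : Finset E) : Submodule (ZMod 2) (E → ZMod 2) where
  carrier := {x | (∀ e, e ∉ F → x e = 0) ∧ ∀ v, bd2 src dst x v = 0}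
  add_mem' := by
    rintro a b ⟨h1, h2⟩ ⟨h3, h4⟩
    refine ⟨fun e he => by rw [Pi.add_apply, h1 e he, h3 e he, add_zero], fun v => ?_⟩
    have h : bd2 src dst (a + b) v = bd2 src dst a v + bd2 src dst b v := by
      unfold bd2
      rw [← sum_add_distrib]
      refine sum_congr rfl fun e _ => ?_
      simp only [Pi.add_apply]
      split_ifs <;> ring
    rw [h, h2 v, h4 v, add_zero]
  zero_mem' := ⟨fun _ _ => rfl, fun v => by unfold bd2; simp⟩
  smul_mem' := by
    rintro c a ⟨h1, h2⟩
    refine ⟨fun e he => by rw [Pi.smul_apply, h1 e he, smul_zero], fun v => ?_⟩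
    have h : bd2 src dst (c • a) v = c * bd2 src dst a v := by
      unfold bd2
      rw [mul_sum]
      refine sum_congr rfl fun e _ => ?_
      simp only [Pi.smul_apply, smul_eq_mul]
      split_ifs <;> ring
    rw [h, h2 v, mul_zero]

/-- MacLane's condition with defect `h` for the graph with edge set `F` -/
def Mac (h : ℕ) (src dst : E → V) (F : Finset E) : Prop :=
  ∃ (k : ℕ) (K : Fin k → E → ZMod 2), (∀ i, K i ∈ ZF src dst F) ∧
    (∀ e, (univ.filter (fun i => K i e ≠ 0)).card ≤ 2) ∧
    Module.finrank (ZMod 2) (ZF src dst F) ≤
      Module.finrank (ZMod 2) (Submodule.span (ZMod 2) (Set.range K)) + h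

/-- the edges which are not loops and have not the end `s` -/
def Es (src dst : E → V) (s : V) : Finset E :=
  univ.filter (fun e => src e ≠ dst e ∧ src e ≠ s ∧ dst e ≠ s)

/-- the class of graphs -/
def Ap (src dst : E → V) : Prop := ∃ s : V, Mac 2 src dst (Es src dst s)

/-- the non-isolated vertices other than `s` -/
noncomputable def Vs (src dst : E → V) (s : V) : Finset V :=
  open Classical in univ.filter (fun v => v ≠ s ∧ ∃ y, Adj src dst v y)

/-- the neighbours of `s` -/
noncomputable def Ns (src dst : E → V) (s : V) : Finset V :=
  open Classical in univ.filter (fun v => Adj src dst s v)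

end

/-- there are no parallel edges -/
def NoPar {V E : Type} (src dst : E → V) : Prop :=
  ∀ e e' x y, x ≠ y → Jn src dst e x y → Jn src dst e' x y → e = e'

/-- A1: deletion of an edge -/
def St_macDel : Prop := ∀ (V E : Type) [Fintype V] [DecidableEq V] [Fintype E] [DecidableEq E]
  (src dst : E → V) (F : Finset E) (h : ℕ) (e : E), Mac h src dst F → Mac h src dst (F.erase e)

/-- A2: contraction of an edge without parallel edges -/
def St_macCon : Prop := ∀ (V E : Type) [Fintype V] [DecidableEq V] [Fintype E] [DecidableEq E]
  (src dst : E → V) (F : Finset E) (h : ℕ) (e : E), Mac h src dst F → e ∈ F → src e ≠ dst e →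
    (∀ d ∈ F, d ≠ e → ¬ Jn src dst d (src e) (dst e)) →
    Mac h (ctr (src e) (dst e) ∘ src) (ctr (src e) (dst e) ∘ dst) (F.erase e)

/-- A3: the class is closed under minors -/
def St_apMC : Prop := ∀ (V E : Type) [Fintype V] [DecidableEq V] [Fintype E] [DecidableEq E],
  MC (V := V) (E := E) Ap

/-- A4: nonzero elements of the cycle space have at least seven edges -/
def St_even7 : Prop := ∀ (V E : Type) [Fintype V] [DecidableEq V] [Fintype E] [DecidableEq E]
  (src dst : E → V) (F : Finset E), Gi (Adj src dst) → NoPar src dst →
    (∀ e ∈ F, src e ≠ dst e) → ∀ x ∈ ZF src dst F, x ≠ 0 →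
    7 ≤ (univ.filter (fun e => x e ≠ 0)).card

/-- A5: counting the faces -/
def St_faces : Prop := ∀ (V E : Type) [Fintype V] [DecidableEq V] [Fintype E] [DecidableEq E]
  (src dst : E → V) (F : Finset E) (k : ℕ) (K : Fin k → E → ZMod 2),
    (∀ i, K i ∈ ZF src dst F) → (∀ e, (univ.filter (fun i => K i e ≠ 0)).card ≤ 2) →
    (∀ x ∈ ZF src dst F, x ≠ 0 → 7 ≤ (univ.filter (fun e => x e ≠ 0)).card) →
    1 ≤ Module.finrank (ZMod 2) (Submodule.span (ZMod 2) (Set.range K)) →
    7 * (Module.finrank (ZMod 2) (Submodule.span (ZMod 2) (Set.range K)) + 1) ≤ 2 * F.card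

/-- A6: the dimension of the cycle space; `N` contains all ends of the edges of `F` -/
def St_dim : Prop := ∀ (V E : Type) [Fintype V] [DecidableEq V] [Fintype E] [DecidableEq E]
  (src dst : E → V) (F : Finset E) (N : Finset V), N.Nonempty →
    (∀ e ∈ F, src e ∈ N ∧ dst e ∈ N) →
    F.card + 1 ≤ Module.finrank (ZMod 2) (ZF src dst F) + N.card

/-- A7: counting degrees -/
def St_deg : Prop := ∀ (V E : Type) [Fintype V] [DecidableEq V] [Fintype E] [DecidableEq E]
  (src dst : E → V) (s : V), Three (Adj src dst) → NoPar src dst →
    3 * (Vs src dst s).card ≤ 2 * (Es src dst s).card + (Ns src dst s).card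

/-- A8: the balls of radius two around the neighbours of `s` are disjoint -/
def St_ball : Prop := ∀ (V E : Type) [Fintype V] [DecidableEq V] [Fintype E] [DecidableEq E]
  (src dst : E → V) (s : V), Gi (Adj src dst) → Three (Adj src dst) →
    7 * (Ns src dst s).card ≤ (Vs src dst s).card

/-- A9: a minimal counterexample has no parallel edges -/
def St_noPar : Prop := ∀ (V E : Type) [Fintype V] [DecidableEq V] [Fintype E] [DecidableEq E]
  (src dst : E → V), MinCx src dst → NoPar src dst

/-- A10: the theorem -/
def St_apex : Prop := ∀ (V E : Type) [Fintype V] [DecidableEq V] [Fintype E] [DecidableEq E]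
  (src dst : E → V) (s : V), Mac 2 src dst (Es src dst s) → Br src dst ∅ ∅ → FlowOn src dst ∅ ∅

end Pool.Agent.TH676.Z
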