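import Pool.Agent.TH676.Z.Stm2

set_option autoImplicit false
set_option linter.unusedSectionVars false

/-! # Circuits of length seven are reducible; two apex vertices: definitions and statements

For terminals `v 0, ..., v (n - 1)` let `cnt C v s` be the number of functions which are zero on
`C`, nonzero outside `C` and have boundary `s i` at `v i` and zero elsewhere.  As a function of `s`
it is a combination (inclusion and exclusion over the nonzero conditions) of the functions
`[all blocks of a partition of the terminals have sum zero]`, so every linear relation which holds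
for all these functions holds for `cnt`. -/

namespace Pool.Agent.TH676.Z

open Finset

/-- the boundary with value `s i` at `v i` -/
def dem {V : Type} [DecidableEq V] {n : ℕ} (v : Fin n → V) (s : Fin n → ZMod 5) (x : V) : ZMod 5 :=
  ∑ i, if v i = x then s i else 0

/-- the number of functions with boundary `dem v s`, zero on `C` and nonzero elsewhere -/
noncomputable def cnt {V E : Type} [Fintype V] [DecidableEq V] [Fintype E] [DecidableEq E]
    (src dst : E → V) (C : Finset E) {n : ℕ} (v : Fin n → V) (s : Fin n → ZMod 5) : ℕ :=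
  open Classical in (univ.filter (fun g : E → ZMod 5 => (∀ e ∈ C, g e = 0) ∧
    (∀ e, e ∉ C → g e ≠ 0) ∧ ∀ x, bd src dst g x = dem v s x)).card

/-- all classes of the labelling `p` have sum zero -/
def zs {n : ℕ} (p : Fin n → Fin n) (s : Fin n → ZMod 5) : Prop :=
  ∀ a, ∑ i, (if p i = a then s i else 0) = 0

instance {n : ℕ} (p : Fin n → Fin n) (s : Fin n → ZMod 5) : Decidable (zs p s) := by
  unfold zs; infer_instance

/-- B1: linear relations -/
def St_lin : Prop := ∀ (V E : Type) [Fintype V] [DecidableEq V] [Fintype E] [DecidableEq E]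
  (src dst : E → V) (C : Finset E) (n : ℕ) (v : Fin n → V), Function.Injective v →
    ∀ (m : ℕ) (c : Fin m → ℤ) (s : Fin m → Fin n → ZMod 5),
      (∀ p : Fin n → Fin n, ∑ j, (if zs p (s j) then c j else 0) = 0) →
      ∑ j, c j * (cnt src dst C v (s j) : ℤ) = 0

/-- the prefix sums of `s` (with sum zero) miss a value: there are values `b i` on the circuit,
different from `0`, with `b (i - 1) - b i = s i` -/
def Fit {n : ℕ} [NeZero n] (s : Fin n → ZMod 5) : Prop :=
  ∃ b : Fin n → ZMod 5, (∀ i, b i ≠ 0) ∧ ∀ i, b (i - 1) - b i = s i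

/-- the boundary which belongs to the values `0, 1, 0, x, 0, y, z` on the circuit -/
def vec7 (x y z : ZMod 5) : Fin 7 → ZMod 5 :=
  fun i => ![0, 1, 0, x, 0, y, z] (i - 1) - ![0, 1, 0, x, 0, y, z] i

/-- B2: the certificates (six cases) -/
def St_cert7 : Prop := ∀ x y z : ZMod 5, x ≠ 0 → y ≠ 0 → z ≠ 0 → x ≠ 1 → y ≠ 1 → z ≠ 1 →
  x ≠ y → x ≠ z → y ≠ z →
  ∃ (m : ℕ) (c : Fin m → ℤ) (s : Fin m → Fin 7 → ZMod 5) (d : ℤ), d ≠ 0 ∧ (∀ j, Fit (s j)) ∧
    ∀ p : Fin 7 → Fin 7, ∑ j, (if zs p (s j) then c j else 0) =
      if zs p (vec7 x y z) then d else 0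

/-- B3: there is no circuit with seven edges -/
def St_circ7 : Prop := ∀ (V E : Type) [Fintype V] [DecidableEq V] [Fintype E] [DecidableEq E]
  (src dst : E → V), MinCx src dst → ∀ (v : Fin 7 → V) (ed : Fin 7 → E),
    Function.Injective v → Function.Injective ed →
    (∀ i, Jn src dst (ed i) (v i) (v (i + 1))) → False

/-- no closed walk of length seven -/
def C7 {V : Type} (Ad : V → V → Prop) : Prop := ∀ a b c d e f g, Ad a b → Ad b c → Ad c d →
  Ad d e → Ad e f → Ad f g → Ad g a → False

/-- B4 -/
def St_c7 : Prop := ∀ (V E : Type) [Fintype V] [DecidableEq V] [Fintype E] [DecidableEq E]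
  (src dst : E → V), MinCx src dst → C7 (Adj src dst)

/-- B5: nonzero elements of the cycle space have at least eight edges -/
def St_even8 : Prop := ∀ (V E : Type) [Fintype V] [DecidableEq V] [Fintype E] [DecidableEq E]
  (src dst : E → V) (F : Finset E), Gi (Adj src dst) → C7 (Adj src dst) → NoPar src dst →
    (∀ e ∈ F, src e ≠ dst e) → ∀ x ∈ ZF src dst F, x ≠ 0 →
    8 ≤ (univ.filter (fun e => x e ≠ 0)).card

/-- B6: counting the faces, general length `g` -/
def St_facesG : Prop := ∀ (V E : Type) [Fintype V] [DecidableEq V] [Fintype E] [DecidableEq E]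
  (src dst : E → V) (F : Finset E) (k g : ℕ) (K : Fin k → E → ZMod 2),
    (∀ i, K i ∈ ZF src dst F) → (∀ e, (univ.filter (fun i => K i e ≠ 0)).card ≤ 2) →
    (∀ x ∈ ZF src dst F, x ≠ 0 → g ≤ (univ.filter (fun e => x e ≠ 0)).card) →
    1 ≤ Module.finrank (ZMod 2) (Submodule.span (ZMod 2) (Set.range K)) →
    g * (Module.finrank (ZMod 2) (Submodule.span (ZMod 2) (Set.range K)) + 1) ≤ 2 * F.card

section

variable {V E : Type} [Fintype V] [DecidableEq V] [Fintype E] [DecidableEq E]

/-- the edges which are not loops and have no end in `S` -/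
def ES (src dst : E → V) (S : Finset V) : Finset E :=
  univ.filter (fun e => src e ≠ dst e ∧ src e ∉ S ∧ dst e ∉ S)

/-- the class: after deletion of at most `k` vertices MacLane's condition holds with defect 2 -/
def ApS (k : ℕ) (src dst : E → V) : Prop :=
  ∃ S : Finset V, S.card ≤ k ∧ Mac 2 src dst (ES src dst S)

/-- the non-isolated vertices outside `S` -/
noncomputable def VS (src dst : E → V) (S : Finset V) : Finset V :=
  open Classical in univ.filter (fun v => v ∉ S ∧ ∃ y, Adj src dst v y)

end

/-- B7: the class is closed under minors -/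
def St_apsMC : Prop := ∀ (V E : Type) [Fintype V] [DecidableEq V] [Fintype E] [DecidableEq E]
  (k : ℕ), MC (V := V) (E := E) (ApS k)

/-- B8: counting degrees -/
def St_degS : Prop := ∀ (V E : Type) [Fintype V] [DecidableEq V] [Fintype E] [DecidableEq E]
  (src dst : E → V) (S : Finset V), Three (Adj src dst) →
    3 * (VS src dst S).card ≤ 2 * (ES src dst S).card + ∑ s ∈ S, (Ns src dst s).card

/-- B9: there are at least ten vertices with a neighbour (if there is one) -/
def St_ten : Prop := ∀ (V : Type) [Fintype V] [DecidableEq V] (Ad : V → V → Prop), Gi Ad →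
  Three Ad → ∀ x y, Ad x y → ∃ l : List V, l.Nodup ∧ l.length = 10 ∧ ∀ a ∈ l, ∃ b, Ad a b

/-- B10: the theorem -/
def St_apex2 : Prop := ∀ (V E : Type) [Fintype V] [DecidableEq V] [Fintype E] [DecidableEq E]
  (src dst : E → V) (S : Finset V), S.card ≤ 2 → Mac 2 src dst (ES src dst S) →
    Br src dst ∅ ∅ → FlowOn src dst ∅ ∅

end Pool.Agent.TH676.Z
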